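import Mathlib
import Pool.Agent.CofSN.RO
import Pool.Agent.MadBlock.Defs

/-!
# MP_0a8ab4_lc: mad families of block subspaces in the Solovay model: definitions used by the
statement (helper90)

1. The Levy collapse and its algebra. 2. The Boolean valued universe `V^B` and its class `L(R)`.
3. Names of sequences and Boolean values of Borel statements. 4. Mad families of block subspaces.

`V` is the universe `Type` (its ordinals are `Ordinal.{0}`), `B` a complete Boolean algebra in `V`.
A statement holds in every generic extension `V[G]` (`G` a generic ultrafilter of `B`) if its Boolean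
value is `⊤`, and it fails in every generic extension if its Boolean value is `⊥`.
-/

set_option autoImplicit false

namespace SLV

open CofSN Pool.Agent.MadBlock

/-! ## 1. The Levy collapse -/

/-- the conditions of the Levy collapse: finite functions `p` on `K × ℕ` with
`p (α, n) < α` -/
@[ext] structure Lv (K : Type) [LinearOrder K] where
  f : K × ℕ → Option K
  fin : {j | f j ≠ none}.Finite
  lt : ∀ j k, f j = some k → k < j.1

section Levy

variable {K : Type} [LinearOrder K]

/-- stronger conditions are smaller -/
instance : Preorder (Lv K) where
  le q p := ∀ j k, p.f j = some k → q.f j = some k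
  le_refl _ _ _ h := h
  le_trans _ _ _ h1 h2 j k h := h1 j k (h2 j k h)

variable (K) in
/-- the regular open algebra of the Levy collapse -/
abbrev BL : Type := RO (Lv K)

end Levy

/-! ## 2. The Boolean valued universe -/

/-- `B`-valued sets, that is, `B`-names: families of `B`-valued sets `A i` with values `b i` in `B`
(the class `V^B`). The set has the member `A i` with Boolean value (at least) `b i`. -/
inductive BSet (B : Type) : Type 1
  | mk (ι : Type) (A : ι → BSet B) (b : ι → B) : BSet B

namespace BSet

variable {B : Type}

/-- the index type -/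
def ty : BSet B → Type
  | mk ι _ _ => ι

/-- the members -/
def el : (S : BSet B) → S.ty → BSet B
  | mk _ A _ => A

/-- the Boolean values of the members -/
def vl : (S : BSet B) → S.ty → B
  | mk _ _ b => b

variable [CompleteBooleanAlgebra B]

/-- the Boolean value of `S = T`: every member of `S` is equal to a member of `T`, and every member
of `T` is equal to a member of `S` -/
def eqv : BSet B → BSet B → B
  | mk _ A b, mk _ A' b' =>
    (⨅ i, b i ⇨ ⨆ j, b' j ⊓ eqv (A i) (A' j)) ⊓ (⨅ j, b' j ⇨ ⨆ i, b i ⊓ eqv (A i) (A' j))

/-- the Boolean value of `S ∈ T`: `S` is equal to a member of `T` -/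
def mem (S T : BSet B) : B := ⨆ j : T.ty, T.vl j ⊓ eqv S (T.el j)

end BSet

open BSet

/-- formulas of the language of set theory; the variables are the natural numbers -/
inductive Fml : Type
  | mem (i j : ℕ) : Fml
  | eq (i j : ℕ) : Fml
  | neg (φ : Fml) : Fml
  | and (φ ψ : Fml) : Fml
  | all (i : ℕ) (φ : Fml) : Fml

variable {B : Type} [CompleteBooleanAlgebra B]

/-- the Boolean value of: the structure `(M, ∈)` satisfies `φ` at the assignment `v` -/
def sat (M : BSet B) : Fml → (ℕ → M.ty) → B
  | .mem i j, v => mem (M.el (v i)) (M.el (v j))
  | .eq i j, v => eqv (M.el (v i)) (M.el (v j))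
  | .neg φ, v => (sat M φ v)ᶜ
  | .and φ ψ, v => sat M φ v ⊓ sat M ψ v
  | .all i φ, v => ⨅ a : M.ty, M.vl a ⇨ sat M φ (Function.update v i a)

/-- the subset `{z ∈ M | (M, ∈) satisfies φ at v with v 0 = z}` of `M` -/
def sub (M : BSet B) (φ : Fml) (v : ℕ → M.ty) : BSet B :=
  .mk M.ty M.el fun a => M.vl a ⊓ sat M φ (Function.update v 0 a)

/-- the set of all subsets of `M` which are definable over `(M, ∈)` with parameters from `M` -/
def Dfn (M : BSet B) : BSet B :=
  .mk (Fml × (ℕ → M.ty)) (fun q => sub M q.1 q.2) fun q => ⨅ n, M.vl (q.2 n)

/-- the union of a family of sets -/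
def unn (I : Type) (f : I → BSet B) : BSet B :=
  .mk (Σ i, (f i).ty) (fun p => (f p.1).el p.2) fun p => (f p.1).vl p.2

/-- the natural number `n = {0, ..., n - 1}` -/
def natN (n : ℕ) : BSet B := .mk (Fin n) (fun k => natN k.1) fun _ => ⊤
termination_by n
decreasing_by exact k.2

/-- the subset of `ω` in which `n` has the Boolean value `x n`; these are all names of subsets of
`ω` -/
def realN (x : ℕ → B) : BSet B := .mk ℕ natN x

variable (B) in
/-- the power set of `ω` -/
def powN : BSet B := .mk (ℕ → B) realN fun _ => ⊤

variable (B) in
/-- the hierarchy of `L(R)` in the Boolean valued universe: `Lr α` is the union of the power set of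
`ω` and of the sets of all definable subsets of `Lr β`, `β < α` (`β` runs through `α.ToType`, the
well-order of type `α`) -/
noncomputable def Lr (α : Ordinal.{0}) : BSet B :=
  unn (Option α.ToType) fun o => match o with
    | none => powN B
    | some β => Dfn (Lr (Ordinal.typein (α := α.ToType) (· < ·) β))
termination_by α
decreasing_by exact Ordinal.typein_lt_self β

/-- the Boolean value of `S ∈ L(R)`: `S` is in `Lr α` for some ordinal `α` -/
noncomputable def inLR (S : BSet B) : B := ⨆ α : Ordinal.{0}, mem S (Lr B α)

/-! ## 3. Names of sequences, Boolean values of Borel statements -/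

/-- a `B`-name of an element of `ℕ → X`: `v n a` is the Boolean value of `x n = a`. Every element
of `ℕ → X` (`X` in `V`) of the Boolean valued universe is given by such a name. -/
structure Nm (B X : Type) [CompleteBooleanAlgebra B] where
  /-- the Boolean value of `x n = a` -/
  v : ℕ → X → B
  disj : ∀ n a b, a ≠ b → v n a ⊓ v n b = ⊥
  cover : ∀ n, ⨆ a, v n a = ⊤

/-- an ultrafilter of the Boolean algebra `B` -/
structure Ult (B : Type) [CompleteBooleanAlgebra B] where
  /-- the members of the ultrafilter -/
  mem : B → Prop
  top : mem ⊤
  inf : ∀ a b, mem (a ⊓ b) ↔ mem a ∧ mem b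
  compl : ∀ a, mem aᶜ ↔ ¬ mem a

/-- the value of a name at an ultrafilter `u`: `x.pt u n` is the `a` with `x.v n a ∈ u` (if there
is none, which happens only for a meager set of `u`, it has no meaning) -/
noncomputable def Nm.pt {X : Type} [Nonempty X] (x : Nm B X) (u : Ult B) : ℕ → X :=
  fun n => Classical.epsilon fun a => u.mem (x.v n a)

/-- `Forces b P`: there are countably many subsets `D 0, D 1, ...` of `B` with supremum `⊤` such
that `P` holds for all ultrafilters `u` which contain `b` and meet every `D n`. In other words: `P`
holds for comeager many points of the clopen set of the Stone space of `B` given by `b`. For a Borel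
predicate of the values `x.pt u` of names of points of the spaces `ℕ → X`, `X` countable, this is
the forcing relation. -/
def Forces (b : B) (P : Ult B → Prop) : Prop :=
  ∃ D : ℕ → Set B, (∀ n, sSup (D n) = ⊤) ∧
    ∀ u : Ult B, (∀ n, ∃ d ∈ D n, u.mem d) → u.mem b → P u

/-- the Boolean value of a predicate on ultrafilters: the largest `b` forcing it. For a Borel
predicate of the values of names this is its Boolean value in the Boolean valued universe: it is
`x.v n a` for the predicate `x.pt u n = a`, and it commutes with complements and countable unions
(`v_eq_bval`, `DecIn` in `Basic.lean`). -/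
noncomputable def bval (P : Ult B → Prop) : B := sSup {b | Forces b P}

/-- the list of the first `k` values -/
def pre {X : Type} (y : ℕ → X) (k : ℕ) : List X := (List.range k).map y

/-- the code of the sequence `x` of elements of `X`: the set of the codes `e s ∈ ω` of its initial
segments `s` -/
noncomputable def codeN {X : Type} [Nonempty X] (e : List X → ℕ) (x : Nm B X) : BSet B :=
  realN fun k => bval fun u => ∃ n, e (pre (x.pt u) n) = k

/-! ## 4. Mad families -/

/-- the span of the members of a sequence of vectors -/
noncomputable abbrev spn {F : Type} [Field F] (x : ℕ → (ℕ →₀ F)) : Submodule F (ℕ →₀ F) :=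
  Submodule.span F (Set.range x)

/-- `S` is a Boolean valued set of sequences of vectors: `S x` is the Boolean value of `x ∈ S`.
`madV S` is the Boolean value of: `S` is the set of codes of an infinite mad family of block
subspaces, that is, the set of all block sequences whose span is a member of the family. The five
clauses: all members of `S` are block sequences; block sequences with the same span as a member of
`S` are in `S`; members of `S` have the same span or almost disjoint spans; for every block sequence
some member of `S` has a span which is not almost disjoint from its span; for every finite list of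
sequences some member of `S` has a span different from their spans (so the family is infinite). -/
noncomputable def madV {F : Type} [Field F] (S : Nm B (ℕ →₀ F) → B) : B :=
  (⨅ x : Nm B (ℕ →₀ F), S x ⇨ bval fun u => IsBlockSeq (x.pt u)) ⊓
  (⨅ x : Nm B (ℕ →₀ F), ⨅ y : Nm B (ℕ →₀ F),
    S x ⊓ bval (fun u => IsBlockSeq (y.pt u) ∧ spn (y.pt u) = spn (x.pt u)) ⇨ S y) ⊓
  (⨅ x : Nm B (ℕ →₀ F), ⨅ y : Nm B (ℕ →₀ F), S x ⊓ S y ⇨
    bval fun u => spn (x.pt u) = spn (y.pt u) ∨ AlmostDisjoint (spn (x.pt u)) (spn (y.pt u))) ⊓
  (⨅ y : Nm B (ℕ →₀ F), bval (fun u => IsBlockSeq (y.pt u)) ⇨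
    ⨆ x : Nm B (ℕ →₀ F), S x ⊓ bval fun u => ¬ AlmostDisjoint (spn (y.pt u)) (spn (x.pt u))) ⊓
  (⨅ k : ℕ, ⨅ x : Fin k → Nm B (ℕ →₀ F), ⨆ y : Nm B (ℕ →₀ F),
    S y ⊓ bval fun u => ∀ i, spn (y.pt u) ≠ spn ((x i).pt u))

/-- the Boolean value of: the sequences of vectors with code in `S` are the codes of an infinite mad
family of block subspaces (that is, they are exactly the block sequences whose spans are the members
of such a family) -/
noncomputable def madB {F : Type} [Field F] (e : List (ℕ →₀ F) → ℕ) (S : BSet B) : B :=
  madV fun x : Nm B (ℕ →₀ F) => mem (codeN e x) S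

end SLV
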