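import Mathlib
import Pool.Agent.SLV.Stmt

/-!
# MP_0a8ab4_lc, project SLV (the Solovay model): basic definitions (helper90)

`B` is a complete Boolean algebra.  Section 1: complete subalgebras, names over them (the basic
definitions are in `Stmt.lean`).  Section 2: located variable words over one letter.  Section 3:
conditions over a complete subalgebra `C`, generic names.  Section 4: coherent Boolean valued
predicates.
-/

set_option autoImplicit false

namespace SLV

/-! ## 1. Complete subalgebras, names over them -/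

variable {B : Type} [CompleteBooleanAlgebra B]

/-- complete subalgebras of `B` -/
structure CSub (C : Set B) : Prop where
  compl : ∀ c ∈ C, cᶜ ∈ C
  sSup : ∀ S : Set B, S ⊆ C → sSup S ∈ C

/-- all Boolean values of the name are in `C` -/
def InC {X : Type} (C : Set B) (x : Nm B X) : Prop := ∀ n a, x.v n a ∈ C

/-- the predicate is decided by an element of `C` -/
def DecIn (C : Set B) (P : Ult B → Prop) : Prop :=
  ∃ c ∈ C, Forces c P ∧ Forces cᶜ fun u => ¬ P u

/-- the σ-algebra on `ℕ → X` generated by the sets `{x | x n = a}` (for countable `X` the Borel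
sets) -/
@[reducible] def bsp (X : Type) : MeasurableSpace (ℕ → X) :=
  MeasurableSpace.generateFrom {A | ∃ n a, A = {x : ℕ → X | x n = a}}

/-- the Borel subsets of `ℕ → X` -/
def Mes {X : Type} (A : Set (ℕ → X)) : Prop := @MeasurableSet _ (bsp X) A

/-- Borel relations between elements of `ℕ → X` and `ℕ → Y` -/
def Mes2 {X Y : Type} (P : (ℕ → X) → (ℕ → Y) → Prop) : Prop :=
  Mes {z : ℕ → X × Y | P (fun n => (z n).1) (fun n => (z n).2)}

/-! ## 2. Words -/

/-- located variable words over one letter: `A` is the support, `V` the set of the places of the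
variable -/
@[ext] structure Wd where
  A : Finset ℕ
  V : Finset ℕ
  sub : V ⊆ A
  ne : V.Nonempty

/-- block order -/
def Wd.lt (p q : Wd) : Prop := ∀ i ∈ p.A, ∀ j ∈ q.A, i < j

/-- infinite block sequences of words -/
def Blk (w : ℕ → Wd) : Prop := ∀ n, (w n).lt (w (n + 1))

/-- finite block sequences of words -/
def BlkL (t : List Wd) : Prop := t.Pairwise Wd.lt

instance : Inhabited Wd := ⟨⟨{0}, {0}, subset_rfl, ⟨0, by simp⟩⟩⟩

/-- the word obtained from the sequence `w` by the pattern `p`: the places `i ∈ p.V` stand for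
`w i`, the places `i ∈ p.A \ p.V` for `w i` with the variable replaced by the letter -/
def act (w : ℕ → Wd) (p : Wd) : Wd where
  A := p.A.biUnion fun i => (w i).A
  V := p.V.biUnion fun i => (w i).V
  sub := by
    intro k hk
    simp only [Finset.mem_biUnion] at hk ⊢
    obtain ⟨i, hi, hk⟩ := hk
    exact ⟨i, p.sub hi, (w i).sub hk⟩
  ne := by
    obtain ⟨i, hi⟩ := p.ne
    obtain ⟨k, hk⟩ := (w i).ne
    exact ⟨k, Finset.mem_biUnion.2 ⟨i, hi, hk⟩⟩

/-- the set of all words generated by the sequence `w` -/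
def Rg (w : ℕ → Wd) : Set Wd := Set.range (act w)

/-- every member of `y` is generated by `w` -/
def Le (y w : ℕ → Wd) : Prop := ∀ n, y n ∈ Rg w

/-- `q` comes after all words of the list `t` -/
def Beyond (t : List Wd) (q : Wd) : Prop := ∀ r ∈ t, r.lt q

/-- the neighbourhood given by the stem `t` and the sequence `w` -/
def Nb (t : List Wd) (w y : ℕ → Wd) : Prop :=
  Blk y ∧ pre y t.length = t ∧ ∀ n, t.length ≤ n → y n ∈ Rg w

/-- all members of `y` which come after `t` are generated by `w` -/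
def LeT (t : List Wd) (y w : ℕ → Wd) : Prop := ∀ n, Beyond t (y n) → y n ∈ Rg w

/-- `t` is a finite block sequence of words generated by `w` -/
def InF (t : List Wd) (w : ℕ → Wd) : Prop := BlkL t ∧ ∀ q ∈ t, q ∈ Rg w

/-- `t` is a finite block sequence of words generated by `w 0, ..., w (n - 1)`, and `w (n - 1)` is
used (if `n ≠ 0`) -/
def FinN (n : ℕ) (t : List Wd) (w : ℕ → Wd) : Prop :=
  ∃ P : List Wd, BlkL P ∧ t = P.map (act w) ∧ (∀ p ∈ P, ∀ i ∈ p.A, i < n) ∧
    (n = 0 ∨ ∃ p ∈ P, n - 1 ∈ p.A)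

/-- the list `t` followed by the sequence `y` -/
def app (t : List Wd) (y : ℕ → Wd) : ℕ → Wd := fun n => t.getD n (y (n - t.length))

/-! ## 3. Conditions and generic names over a complete subalgebra -/

/-- `w` is a `C`-name of an infinite block sequence of words -/
def CN (C : Set B) (w : Nm B Wd) : Prop := InC C w ∧ Forces ⊤ fun u => Blk (w.pt u)

/-- conditions over `C`: a nonzero element of `C`, a stem and a `C`-name of a block sequence -/
structure Cd (C : Set B) where
  c : B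
  t : List Wd
  w : Nm B Wd
  hc : c ∈ C
  ne : c ≠ ⊥
  ht : BlkL t
  hw : CN C w

/-- `p'` is stronger than `p` -/
def CdLe {C : Set B} (p' p : Cd C) : Prop :=
  p'.c ≤ p.c ∧ p.t <+: p'.t ∧
    Forces p'.c fun u => (∀ q ∈ p'.t.drop p.t.length, q ∈ Rg (p.w.pt u)) ∧
      Le (p'.w.pt u) (p.w.pt u)

/-- the Boolean value of: the name `x` satisfies the condition `p` -/
noncomputable def uv {C : Set B} (x : Nm B Wd) (p : Cd C) : B :=
  p.c ⊓ bval fun u => Nb p.t (p.w.pt u) (x.pt u)

/-- the Boolean value of: `x` satisfies some condition of `Δ` -/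
noncomputable def MD {C : Set B} (Δ : Set (Cd C)) (x : Nm B Wd) : B := sSup (uv x '' Δ)

/-- dense sets of conditions -/
def Dns {C : Set B} (Δ : Set (Cd C)) : Prop := ∀ p : Cd C, ∃ p' ∈ Δ, CdLe p' p

/-- `x` is generic over `C` -/
def Gnr (C : Set B) (x : Nm B Wd) : Prop := ∀ Δ : Set (Cd C), Dns Δ → MD Δ x = ⊤

/-- every extension of `p` has a nonzero value -/
def HP {C : Set B} (x : Nm B Wd) (p : Cd C) : Prop := ∀ p' : Cd C, CdLe p' p → uv x p' ≠ ⊥

/-- the complete subalgebra generated by `C` and the Boolean values of `x` -/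
def Gen {X : Type} (C : Set B) (x : Nm B X) : Set B :=
  {z | ∀ C' : Set B, CSub C' → C ⊆ C' → (∀ n a, x.v n a ∈ C') → z ∈ C'}

/-- the hypotheses of the Nash-Williams lemma on a functional -/
structure FunH (C : Set B) (α : List Wd → Nm B Wd → B) : Prop where
  inC : ∀ t w, CN C w → α t w ∈ C
  mono : ∀ t w w' c, CN C w → CN C w' → c ∈ C →
    Forces c (fun u => LeT t (w'.pt u) (w.pt u)) → c ⊓ α t w ≤ α t w'
  glue : ∀ t w c, CN C w → c ∈ C →
    (∀ q, Beyond t q → c ⊓ bval (fun u => q ∈ Rg (w.pt u)) ≤ α (t ++ [q]) w) → c ≤ α t w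

/-- density of the union of the functionals `α`, `β` above the stem `t` -/
def DnA (C : Set B) (α β : List Wd → Nm B Wd → B) (t : List Wd) : Prop :=
  ∀ w c, CN C w → c ∈ C → c ≠ ⊥ → ∃ c' ∈ C, ∃ (s : List Wd) (w' : Nm B Wd),
    c' ≠ ⊥ ∧ c' ≤ c ∧ CN C w' ∧ BlkL (t ++ s) ∧
    Forces c' (fun u => (∀ q ∈ s, q ∈ Rg (w.pt u)) ∧ Le (w'.pt u) (w.pt u)) ∧
    c' ≤ α (t ++ s) w' ⊔ β (t ++ s) w'

/-- the hypotheses of the fusion lemma -/
structure QH (C : Set B) (Q : List Wd → Nm B Wd → B) : Prop where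
  mono : ∀ t w w' c, CN C w → CN C w' → c ∈ C →
    Forces c (fun u => LeT t (w'.pt u) (w.pt u)) → c ⊓ Q t w ≤ Q t w'
  ex : ∀ t w, BlkL t → CN C w →
    ∃ w', CN C w' ∧ Forces ⊤ (fun u => Le (w'.pt u) (w.pt u)) ∧ Q t w' = ⊤

/-- the functional of a set of conditions: the Boolean value of `all y in the neighbourhood of
(t, w) satisfy a condition of Δ` -/
noncomputable def capt {C : Set B} (Δ : Set (Cd C)) (t : List Wd) (w : Nm B Wd) : B :=
  sSup {c | c ∈ C ∧ ∀ y : Nm B Wd, c ⊓ bval (fun u => Nb t (w.pt u) (y.pt u)) ≤ MD Δ y}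

/-- `g` is a name of a surjection of `ℕ` onto `D` -/
def GSurj {D : Type} (g : Nm B D) : Prop := ∀ d, ⨆ n, g.v n d = ⊤

/-! ## 4. Isomorphisms of principal ideals, coherent predicates -/

/-- an isomorphism between `{z ∈ G | z ≤ d}` and `{z ∈ G' | z ≤ d'}` -/
structure PI (G : Set B) (d : B) (G' : Set B) (d' : B) where
  f : B → B
  g : B → B
  fG : ∀ z ∈ G, z ≤ d → f z ∈ G' ∧ f z ≤ d'
  gG : ∀ z ∈ G', z ≤ d' → g z ∈ G ∧ g z ≤ d
  fm : ∀ z ∈ G, z ≤ d → ∀ z' ∈ G, z' ≤ d → z ≤ z' → f z ≤ f z'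
  gm : ∀ z ∈ G', z ≤ d' → ∀ z' ∈ G', z' ≤ d' → z ≤ z' → g z ≤ g z'
  gf : ∀ z ∈ G, z ≤ d → g (f z) = z
  fg : ∀ z ∈ G', z ≤ d' → f (g z) = z

/-- coherent Boolean valued predicates on names of sequences of words -/
structure Coh (C : Set B) (S : Nm B Wd → B) : Prop where
  ext : ∀ x y, S x ⊓ bval (fun u => x.pt u = y.pt u) ≤ S y
  gen : ∀ x, S x ∈ Gen C x
  iso : ∀ x x' : Nm B Wd, ∀ d ∈ Gen C x, ∀ d' ∈ Gen C x', ∀ θ : PI (Gen C x) d (Gen C x') d',
    (∀ c ∈ C, θ.f (c ⊓ d) = c ⊓ d') → (∀ n a, θ.f (x.v n a ⊓ d) = x'.v n a ⊓ d') →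
    θ.f (S x ⊓ d) = S x' ⊓ d'

end SLV
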