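import Mathlib
import Pool.Agent.SLV.Defs

/-!
# MP_0a8ab4_lc, project SLV: basic facts on the forcing relation and on names (helper90)
-/

set_option autoImplicit false

namespace SLV

variable {B : Type} [CompleteBooleanAlgebra B]

/-! ### ultrafilters -/

theorem Ult.mono (u : Ult B) {a b : B} (h : a ≤ b) (ha : u.mem a) : u.mem b := by
  have h1 : a ⊓ b = a := inf_eq_left.2 h
  exact ((u.inf a b).1 (h1.symm ▸ ha)).2

theorem Ult.bot (u : Ult B) : ¬ u.mem ⊥ := by
  intro h
  have h1 := (u.compl ⊤).1 (by rw [compl_top]; exact h)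
  exact h1 u.top

theorem Ult.not_compl (u : Ult B) {a : B} (h : u.mem a) : ¬ u.mem aᶜ := fun h1 =>
  (u.compl a).1 h1 h

/-! ### the forcing relation -/

theorem forces_of {b : B} {P : Ult B → Prop} (h : ∀ u : Ult B, u.mem b → P u) : Forces b P :=
  ⟨fun _ => {⊤}, by simp, fun u _ hb => h u hb⟩

theorem Forces.mono {b : B} {P Q : Ult B → Prop} (h : Forces b P) (hPQ : ∀ u, P u → Q u) :
    Forces b Q := by
  obtain ⟨D, h1, h2⟩ := h
  exact ⟨D, h1, fun u hu hb => hPQ u (h2 u hu hb)⟩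

theorem Forces.weak {b c : B} {P : Ult B → Prop} (h : Forces b P) (hc : c ≤ b) : Forces c P := by
  obtain ⟨D, h1, h2⟩ := h
  exact ⟨D, h1, fun u hu hb => h2 u hu (u.mono hc hb)⟩

theorem forces_nat {b : B} {P : ℕ → Ult B → Prop} (h : ∀ i, Forces b (P i)) :
    Forces b fun u => ∀ i, P i u := by
  choose D h1 h2 using h
  refine ⟨fun n => D n.unpair.1 n.unpair.2, fun n => h1 _ _, fun u hu hb i => ?_⟩
  refine h2 i u (fun n => ?_) hb
  have := hu (Nat.pair i n)
  simpa using this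

theorem forces_all {ι : Sort*} [Countable ι] {b : B} {P : ι → Ult B → Prop}
    (h : ∀ i, Forces b (P i)) : Forces b fun u => ∀ i, P i u := by
  rcases isEmpty_or_nonempty ι with hi | hi
  · exact forces_of fun u _ i => (hi.false i).elim
  · obtain ⟨f, hf⟩ := exists_surjective_nat ι
    refine (forces_nat fun n => h (f n)).mono fun u hu i => ?_
    obtain ⟨n, rfl⟩ := hf i
    exact hu n

theorem Forces.and {b : B} {P Q : Ult B → Prop} (h : Forces b P) (h' : Forces b Q) :
    Forces b fun u => P u ∧ Q u := by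
  have := forces_all (ι := Bool) (b := b) (P := fun i u => if i then P u else Q u)
    (by rintro (_ | _) <;> simpa)
  exact this.mono fun u hu => ⟨by simpa using hu true, by simpa using hu false⟩

theorem Forces.mp {b : B} {P Q : Ult B → Prop} (h : Forces b P)
    (h' : Forces b fun u => P u → Q u) : Forces b Q :=
  (h.and h').mono fun _ hu => hu.2 hu.1

theorem forces_top {b : B} {P : Ult B → Prop} (h : Forces ⊤ P) : Forces b P := h.weak le_top

/-- inside the forcing relation one may use that `b` is in the ultrafilter -/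
theorem forces_mem (b : B) : Forces b fun u => u.mem b := forces_of fun _ h => h

theorem forces_imp_iff {b c : B} {P : Ult B → Prop} :
    Forces (b ⊓ c) P ↔ Forces b fun u => u.mem c → P u := by
  constructor
  · rintro ⟨D, h1, h2⟩
    exact ⟨D, h1, fun u hu hb hc => h2 u hu ((u.inf b c).2 ⟨hb, hc⟩)⟩
  · rintro ⟨D, h1, h2⟩
    exact ⟨D, h1, fun u hu hb => h2 u hu ((u.inf b c).1 hb).1 ((u.inf b c).1 hb).2⟩

theorem forces_mem_sSup (S : Set B) : Forces (⊤ : B) fun u => u.mem (sSup S) ↔ ∃ s ∈ S, u.mem s := by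
  refine ⟨fun _ => insert (sSup S)ᶜ S, fun n => ?_, fun u hu _ => ⟨fun h => ?_, ?_⟩⟩
  · rw [sSup_insert, sup_comm, sup_compl_eq_top]
  · obtain ⟨d, hd, hdu⟩ := hu 0
    rcases hd with rfl | hd
    · exact absurd hdu (u.not_compl h)
    · exact ⟨d, hd, hdu⟩
  · rintro ⟨s, hs, h⟩
    exact u.mono (le_sSup hs) h

theorem forces_mem_iSup {ι : Sort*} (f : ι → B) :
    Forces (⊤ : B) fun u => u.mem (⨆ i, f i) ↔ ∃ i, u.mem (f i) := by
  refine (forces_mem_sSup (Set.range f)).mono fun u hu => ?_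
  rw [iSup, hu]
  simp

theorem forces_mem_iInf {ι : Sort*} (f : ι → B) :
    Forces (⊤ : B) fun u => u.mem (⨅ i, f i) ↔ ∀ i, u.mem (f i) := by
  refine (forces_mem_iSup fun i => (f i)ᶜ).mono fun u hu => ?_
  have h1 : (⨆ i, (f i)ᶜ) = (⨅ i, f i)ᶜ := by rw [compl_iInf]
  rw [h1, u.compl] at hu
  constructor
  · intro h i
    exact u.mono (iInf_le _ i) h
  · intro h
    by_contra h2
    obtain ⟨i, hi⟩ := hu.1 h2
    exact (u.compl _).1 hi (h i)

/-- the ultrafilter given by a prime ideal -/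
def ultOfPrime (J : Order.Ideal B) (hJ : J.IsPrime) : Ult B where
  mem a := a ∉ J
  top := by
    intro h
    exact hJ.toIsProper.ne_univ (Set.eq_univ_of_forall fun x => J.lower le_top h)
  inf a b := by
    constructor
    · intro h
      exact ⟨fun h1 => h (J.lower inf_le_left h1), fun h1 => h (J.lower inf_le_right h1)⟩
    · rintro ⟨h1, h2⟩ h3
      exact (hJ.mem_or_mem h3).elim h1 h2
  compl a := by
    constructor
    · intro h h1
      have h2 : a ⊓ aᶜ ∈ J := by
        rw [inf_compl_eq_bot]; exact J.bot_mem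
      exact (hJ.mem_or_mem h2).elim h1 h
    · intro h h1
      push Not at h
      have h2 : a ⊔ aᶜ ∈ J := Order.Ideal.sup_mem h h1
      rw [sup_compl_eq_top] at h2
      exact hJ.toIsProper.ne_univ (Set.eq_univ_of_forall fun x => J.lower le_top h2)

/-- a decreasing sequence of nonzero elements is contained in an ultrafilter -/
theorem exists_ult {b : ℕ → B} (h1 : ∀ n, b n ≠ ⊥) (h2 : ∀ n, b (n + 1) ≤ b n) :
    ∃ u : Ult B, ∀ n, u.mem (b n) := by
  have hanti : Antitone b := antitone_nat_of_succ_le h2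
  let Fi : Order.PFilter B := ⟨⟨⟨{a | ∃ n, b n ≤ OrderDual.ofDual a}, fun x y hxy hx => by
      obtain ⟨n, hn⟩ := hx
      exact ⟨n, hn.trans hxy⟩⟩, ⟨OrderDual.toDual (b 0), 0, le_rfl⟩, fun x hx y hy => by
      obtain ⟨n, hn⟩ := hx
      obtain ⟨m, hm⟩ := hy
      exact ⟨OrderDual.toDual (b (max n m)), ⟨max n m, le_rfl⟩,
        (hanti (le_max_left n m)).trans hn, (hanti (le_max_right n m)).trans hm⟩⟩⟩
  have hF : ∀ a, a ∈ Fi ↔ ∃ n, b n ≤ a := fun a => Iff.rfl
  have hdis : Disjoint (Fi : Set B) ((Order.Ideal.principal (⊥ : B)) : Set B) := by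
    rw [Set.disjoint_left]
    intro a ha hb
    obtain ⟨n, hn⟩ := (hF a).1 ha
    have h3 : a ≤ ⊥ := Order.Ideal.mem_principal.1 hb
    exact h1 n (le_bot_iff.1 (hn.trans h3))
  obtain ⟨J, hJ, _, hJ2⟩ := DistribLattice.prime_ideal_of_disjoint_filter_ideal hdis
  refine ⟨ultOfPrime J hJ, fun n h => ?_⟩
  exact Set.disjoint_left.1 hJ2 ((hF _).2 ⟨n, le_rfl⟩) h

/-- Rasiowa-Sikorski -/
theorem eq_bot_of_forces_false {b : B} (h : Forces b fun _ => False) : b = ⊥ := by
  obtain ⟨D, h1, h2⟩ := h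
  by_contra hb
  have step : ∀ (n : ℕ) (x : {x : B // x ≠ ⊥}), ∃ y : {x : B // x ≠ ⊥}, y.1 ≤ x.1 ∧
      ∃ d ∈ D n, y.1 ≤ d := by
    rintro n ⟨x, hx⟩
    by_contra hc
    push Not at hc
    apply hx
    have h3 : x ⊓ sSup (D n) = ⊥ := by
      rw [inf_sSup_eq]
      refine iSup₂_eq_bot.2 fun d hd => ?_
      by_contra h4
      exact hc ⟨x ⊓ d, h4⟩ inf_le_left d hd inf_le_right
    rwa [h1 n, inf_top_eq] at h3
  choose f hf1 hf2 using step
  let s : ℕ → {x : B // x ≠ ⊥} := fun n => Nat.rec ⟨b, hb⟩ (fun n x => f n x) n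
  obtain ⟨u, hu⟩ := exists_ult (b := fun n => (s n).1) (fun n => (s n).2) (fun n => hf1 n (s n))
  refine h2 u (fun n => ?_) (hu 0)
  obtain ⟨d, hd, hle⟩ := hf2 n (s n)
  exact ⟨d, hd, u.mono hle (hu (n + 1))⟩

/-- every set has a refinement by an antichain with the same supremum; the antichain may be
chosen in a complete subalgebra if the set is in it -/
theorem exists_antichain (S : Set B) : ∃ A : Set B, (∀ a ∈ A, a ≠ ⊥ ∧ ∃ s ∈ S, a ≤ s) ∧
    (∀ a ∈ A, ∀ b ∈ A, a ≠ b → a ⊓ b = ⊥) ∧ sSup A = sSup S := by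
  let P : Set (Set B) := {A | (∀ a ∈ A, a ≠ ⊥ ∧ ∃ s ∈ S, a ≤ s) ∧
    (∀ a ∈ A, ∀ b ∈ A, a ≠ b → a ⊓ b = ⊥)}
  obtain ⟨A, hA⟩ : ∃ A, Maximal (· ∈ P) A := by
    apply zorn_subset
    intro c hc hch
    refine ⟨⋃₀ c, ⟨?_, ?_⟩, fun s hs => Set.subset_sUnion_of_mem hs⟩
    · rintro a ⟨t, ht, ha⟩
      exact (hc ht).1 a ha
    · rintro a ⟨t, ht, ha⟩ b ⟨t', ht', hb⟩ hab
      rcases hch.total ht ht' with h | h
      · exact (hc ht').2 a (h ha) b hb hab
      · exact (hc ht).2 a ha b (h hb) hab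
  refine ⟨A, hA.prop.1, hA.prop.2, le_antisymm (sSup_le fun a ha => ?_) (sSup_le fun s hs => ?_)⟩
  · obtain ⟨s, hs, h⟩ := (hA.prop.1 a ha).2
    exact h.trans (le_sSup hs)
  · by_contra hc
    let x := s ⊓ (sSup A)ᶜ
    have hx : x ≠ ⊥ := by
      intro h
      apply hc
      have := (disjoint_iff.2 h).le_compl_right
      rwa [compl_compl] at this
    have hmem : insert x A ∈ P := by
      refine ⟨?_, ?_⟩
      · rintro a (rfl | ha)
        · exact ⟨hx, s, hs, inf_le_left⟩
        · exact hA.prop.1 a ha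
      · have key : ∀ a ∈ A, x ⊓ a = ⊥ := by
          intro a ha
          apply le_bot_iff.1
          calc x ⊓ a ≤ (sSup A)ᶜ ⊓ sSup A := inf_le_inf inf_le_right (le_sSup ha)
            _ = ⊥ := compl_inf_eq_bot
        rintro a (rfl | ha) b (rfl | hb) hab
        · exact absurd rfl hab
        · exact key b hb
        · rw [inf_comm]; exact key a ha
        · exact hA.prop.2 a ha b hb hab
    have hxA : x ∈ A := hA.le_of_ge hmem (Set.subset_insert x A) (Set.mem_insert x A)
    apply hx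
    apply le_bot_iff.1
    calc x ≤ sSup A ⊓ (sSup A)ᶜ := le_inf (le_sSup hxA) inf_le_right
      _ = ⊥ := inf_compl_eq_bot

/-- the forcing relation is local -/
theorem forces_sSup {S : Set B} {P : Ult B → Prop} (h : ∀ s ∈ S, Forces s P) :
    Forces (sSup S) P := by
  obtain ⟨A, h1, h2, h3⟩ := exists_antichain S
  have h4 : ∀ a : A, Forces a.1 P := by
    rintro ⟨a, ha⟩
    obtain ⟨s, hs, hle⟩ := (h1 a ha).2
    exact (h s hs).weak hle
  choose D hD1 hD2 using h4
  refine ⟨fun n => insert (sSup S)ᶜ {x | ∃ a : A, ∃ d ∈ D a n, x = a.1 ⊓ d}, fun n => ?_,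
    fun u hu hb => ?_⟩
  · rw [sSup_insert]
    apply top_le_iff.1
    rw [← compl_sup_eq_top (x := sSup S)]
    refine sup_le_sup_left ?_ _
    rw [← h3]
    refine sSup_le fun a ha => ?_
    have h5 : a = sSup ((fun d => a ⊓ d) '' (D ⟨a, ha⟩ n)) := by
      rw [sSup_image, ← inf_sSup_eq, hD1, inf_top_eq]
    rw [h5]
    refine sSup_le ?_
    rintro _ ⟨d, hd, rfl⟩
    exact le_sSup ⟨⟨a, ha⟩, d, hd, rfl⟩
  · have key : ∀ n, ∃ a : A, u.mem a.1 ∧ ∃ d ∈ D a n, u.mem d := by
      intro n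
      obtain ⟨d, hd, hdu⟩ := hu n
      rcases hd with rfl | ⟨a, d', hd', rfl⟩
      · exact absurd hdu (u.not_compl hb)
      · exact ⟨a, ((u.inf _ _).1 hdu).1, d', hd', ((u.inf _ _).1 hdu).2⟩
    obtain ⟨a, ha, _⟩ := key 0
    refine hD2 a u (fun n => ?_) ha
    obtain ⟨a', ha', d, hd, hdu⟩ := key n
    have : a' = a := by
      by_contra hne
      have h6 := h2 a'.1 a'.2 a.1 a.2 (fun h => hne (Subtype.ext h))
      exact u.bot (h6 ▸ (u.inf _ _).2 ⟨ha', ha⟩)
    subst this
    exact ⟨d, hd, hdu⟩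

theorem forces_iSup {ι : Sort*} {f : ι → B} {P : Ult B → Prop} (h : ∀ i, Forces (f i) P) :
    Forces (⨆ i, f i) P := by
  refine forces_sSup ?_
  rintro _ ⟨i, rfl⟩
  exact h i

/-- it is enough to force below a covering family -/
theorem forces_of_cover {ι : Sort*} {f : ι → B} (hf : ⨆ i, f i = ⊤) {b : B} {P : Ult B → Prop}
    (h : ∀ i, Forces (b ⊓ f i) P) : Forces b P := by
  have := forces_iSup h
  rwa [← inf_iSup_eq, hf, inf_top_eq] at this

/-! ### Boolean values -/

theorem forces_bval (P : Ult B → Prop) : Forces (bval P) P := forces_sSup fun _ h => h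

theorem le_bval_iff {b : B} {P : Ult B → Prop} : b ≤ bval P ↔ Forces b P :=
  ⟨fun h => (forces_bval P).weak h, fun h => le_sSup h⟩

theorem bval_mono {P Q : Ult B → Prop} (h : ∀ u, P u → Q u) : bval P ≤ bval Q :=
  le_bval_iff.2 ((forces_bval P).mono h)

theorem bval_mono' {P Q : Ult B → Prop} (h : Forces ⊤ fun u => P u → Q u) : bval P ≤ bval Q :=
  le_bval_iff.2 ((forces_bval P).mp (forces_top h))

theorem bval_congr {P Q : Ult B → Prop} (h : Forces ⊤ fun u => P u ↔ Q u) : bval P = bval Q :=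
  le_antisymm (bval_mono' (h.mono fun _ hu => hu.1)) (bval_mono' (h.mono fun _ hu => hu.2))

/-- `b` meets the Boolean value below the value of a consequence -/
theorem inf_bval_le {b c : B} {P : Ult B → Prop}
    (h : Forces b fun u => P u → u.mem c) : b ⊓ bval P ≤ c := by
  by_contra hc
  have h1 : b ⊓ bval P ⊓ cᶜ ≠ ⊥ := by
    intro h2
    apply hc
    have := (disjoint_iff.2 h2).le_compl_right
    rwa [compl_compl] at this
  apply h1
  apply eq_bot_of_forces_false
  have h2 : Forces (b ⊓ bval P ⊓ cᶜ) fun u => P u :=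
    (forces_bval P).weak (inf_le_left.trans inf_le_right)
  have h3 : Forces (b ⊓ bval P ⊓ cᶜ) fun u => P u → u.mem c :=
    h.weak (inf_le_left.trans inf_le_left)
  have h4 : Forces (b ⊓ bval P ⊓ cᶜ) fun u => ¬ u.mem c :=
    (forces_mem _).mono fun u hu => (u.compl c).1 ((u.inf _ _).1 hu).2
  exact ((h2.mp h3).and h4).mono fun u hu => hu.2 hu.1

theorem le_of_forces {b c : B} (h : Forces b fun u => u.mem c) : b ≤ c := by
  have := inf_bval_le (b := b) (c := c) (P := fun _ => True) (h.mono fun u hu _ => hu)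
  rwa [inf_eq_left.2 (le_bval_iff.2 (forces_of fun _ _ => trivial))] at this

theorem forces_mem_iff {b c : B} : (Forces b fun u => u.mem c) ↔ b ≤ c :=
  ⟨le_of_forces, fun h => forces_of fun u hu => u.mono h hu⟩

theorem bval_mem (c : B) : bval (fun u : Ult B => u.mem c) = c :=
  le_antisymm (le_of_forces (forces_bval _)) (le_bval_iff.2 (forces_mem c))

theorem forces_mem_bval (P : Ult B → Prop) : Forces (⊤ : B) fun u => u.mem (bval P) → P u := by
  have := forces_imp_iff (b := (⊤ : B)) (c := bval P) (P := P)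
  exact this.1 (by rw [top_inf_eq]; exact forces_bval P)

theorem bval_eq_top {P : Ult B → Prop} : bval P = ⊤ ↔ Forces (⊤ : B) P := by
  rw [← top_le_iff, le_bval_iff]

/-! ### complete subalgebras and decided predicates -/

namespace CSub

variable {C : Set B}

theorem bot (h : CSub C) : ⊥ ∈ C := by
  have := h.sSup ∅ (Set.empty_subset _)
  rwa [sSup_empty] at this

theorem top (h : CSub C) : ⊤ ∈ C := by
  have := h.compl _ h.bot
  rwa [compl_bot] at this

theorem iSup {ι : Sort*} (h : CSub C) {f : ι → B} (hf : ∀ i, f i ∈ C) : ⨆ i, f i ∈ C :=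
  h.sSup _ (by rintro _ ⟨i, rfl⟩; exact hf i)

theorem iInf {ι : Sort*} (h : CSub C) {f : ι → B} (hf : ∀ i, f i ∈ C) : ⨅ i, f i ∈ C := by
  have := h.compl _ (h.iSup fun i => h.compl _ (hf i))
  rwa [compl_iSup, iInf_congr fun i => compl_compl (f i)] at this

theorem sup (h : CSub C) {a b : B} (ha : a ∈ C) (hb : b ∈ C) : a ⊔ b ∈ C := by
  rw [← sSup_pair]
  refine h.sSup _ ?_
  rintro x (rfl | rfl)
  · exact ha
  · exact hb

theorem inf (h : CSub C) {a b : B} (ha : a ∈ C) (hb : b ∈ C) : a ⊓ b ∈ C := by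
  have := h.compl _ (h.sup (h.compl _ ha) (h.compl _ hb))
  rwa [compl_sup, compl_compl, compl_compl] at this

theorem univ : CSub (Set.univ : Set B) := ⟨fun _ _ => trivial, fun _ _ => trivial⟩

end CSub

theorem csub_gen {X : Type} (C : Set B) (x : Nm B X) : CSub (Gen C x) where
  compl z hz C' h1 h2 h3 := h1.compl z (hz C' h1 h2 h3)
  sSup S hS C' h1 h2 h3 := h1.sSup S fun s hs => hS hs C' h1 h2 h3

theorem subset_gen {X : Type} (C : Set B) (x : Nm B X) : C ⊆ Gen C x := fun _ hc _ _ h2 _ => h2 hc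

theorem mem_gen {X : Type} (C : Set B) (x : Nm B X) (n : ℕ) (a : X) : x.v n a ∈ Gen C x :=
  fun _ _ _ h3 => h3 n a

namespace DecIn

variable {C : Set B} {P Q : Ult B → Prop}

theorem mem {c : B} (hc : c ∈ C) : DecIn C fun u => u.mem c :=
  ⟨c, hc, forces_mem c, (forces_mem _).mono fun u hu => (u.compl c).1 hu⟩

theorem congr (h : DecIn C P) (h' : Forces (⊤ : B) fun u => P u ↔ Q u) : DecIn C Q := by
  obtain ⟨c, hc, h1, h2⟩ := h
  exact ⟨c, hc, (h1.and (forces_top h')).mono fun u hu => hu.2.1 hu.1,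
    (h2.and (forces_top h')).mono fun u hu hq => hu.1 (hu.2.2 hq)⟩

theorem congr' (h : DecIn C P) (h' : ∀ u, P u ↔ Q u) : DecIn C Q :=
  h.congr (forces_of fun u _ => h' u)

theorem eq_bval (hC : DecIn C P) : bval P ∈ C ∧ bval (fun u => ¬ P u) = (bval P)ᶜ := by
  obtain ⟨c, hc, h1, h2⟩ := hC
  have e1 : bval P = c := by
    refine le_antisymm ?_ (le_bval_iff.2 h1)
    by_contra h
    have h3 : bval P ⊓ cᶜ ≠ ⊥ := by
      intro h4
      apply h
      have := (disjoint_iff.2 h4).le_compl_right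
      rwa [compl_compl] at this
    apply h3
    apply eq_bot_of_forces_false
    exact (((forces_bval P).weak inf_le_left).and (h2.weak inf_le_right)).mono
      fun u hu => hu.2 hu.1
  have e2 : bval (fun u => ¬ P u) = cᶜ := by
    refine le_antisymm ?_ (le_bval_iff.2 h2)
    by_contra h
    have h3 : bval (fun u => ¬ P u) ⊓ c ≠ ⊥ := by
      intro h4
      exact h (disjoint_iff.2 h4).le_compl_right
    apply h3
    apply eq_bot_of_forces_false
    exact (((forces_bval _).weak inf_le_left).and (h1.weak inf_le_right)).mono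
      fun u hu => hu.1 hu.2
  exact ⟨e1 ▸ hc, by rw [e1, e2]⟩

/-- pointwise form of the Boolean value of a decided predicate -/
theorem iff_mem (h : DecIn C P) : Forces (⊤ : B) fun u => u.mem (bval P) ↔ P u := by
  have h1 := forces_mem_bval P
  have h2 := forces_mem_bval fun u => ¬ P u
  rw [h.eq_bval.2] at h2
  refine (h1.and h2).mono fun u hu => ⟨hu.1, fun hp => ?_⟩
  by_contra h3
  exact hu.2 ((u.compl _).2 h3) hp

theorem not (hC : CSub C) (h : DecIn C P) : DecIn C fun u => ¬ P u := by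
  obtain ⟨c, hc, h1, h2⟩ := h
  refine ⟨cᶜ, hC.compl c hc, h2, ?_⟩
  rw [compl_compl]
  exact h1.mono fun u hu h => h hu

theorem ex (hC : CSub C) {ι : Sort*} [Countable ι] {P : ι → Ult B → Prop}
    (h : ∀ i, DecIn C (P i)) : DecIn C fun u => ∃ i, P i u := by
  have h1 : DecIn C fun u => u.mem (⨆ i, bval (P i)) := mem (hC.iSup fun i => (h i).eq_bval.1)
  refine h1.congr ?_
  have h2 := forces_all fun i => (h i).iff_mem
  exact ((forces_mem_iSup fun i => bval (P i)).and h2).mono fun u hu => by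
    rw [hu.1]
    exact exists_congr fun i => hu.2 i

theorem all (hC : CSub C) {ι : Sort*} [Countable ι] {P : ι → Ult B → Prop}
    (h : ∀ i, DecIn C (P i)) : DecIn C fun u => ∀ i, P i u := by
  refine ((ex hC fun i => (h i).not hC).not hC).congr' fun u => ?_
  push Not
  rfl

theorem const (hC : CSub C) (p : Prop) : DecIn C fun _ => p := by
  by_cases h : p
  · exact ⟨⊤, hC.top, forces_of fun _ _ => h, by
      rw [compl_top]; exact forces_of fun u hu => absurd hu u.bot⟩
  · exact ⟨⊥, hC.bot, forces_of fun u hu => absurd hu u.bot, forces_of fun _ _ => h⟩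

theorem and (hC : CSub C) (h : DecIn C P) (h' : DecIn C Q) : DecIn C fun u => P u ∧ Q u := by
  refine (all hC (ι := Bool) (P := fun i u => if i then P u else Q u)
    (by rintro (_ | _) <;> simpa)).congr' fun u => ?_
  simp [Bool.forall_bool, and_comm]

theorem or (hC : CSub C) (h : DecIn C P) (h' : DecIn C Q) : DecIn C fun u => P u ∨ Q u := by
  refine (((h.not hC).and hC (h'.not hC)).not hC).congr' fun u => ?_
  tauto

theorem imp (hC : CSub C) (h : DecIn C P) (h' : DecIn C Q) : DecIn C fun u => P u → Q u := by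
  refine ((h.not hC).or hC h').congr' fun u => ?_
  tauto

theorem iff (hC : CSub C) (h : DecIn C P) (h' : DecIn C Q) : DecIn C fun u => P u ↔ Q u := by
  refine ((h.imp hC h').and hC (h'.imp hC h)).congr' fun u => ?_
  tauto

theorem subset {C' : Set B} (h : DecIn C P) (hC : C ⊆ C') : DecIn C' P := by
  obtain ⟨c, hc, h1, h2⟩ := h
  exact ⟨c, hC hc, h1, h2⟩

end DecIn

/-! ### names -/

section Names

variable {X Y : Type} [Nonempty X] [Nonempty Y] {C : Set B}

/-- at almost all ultrafilters the value of a name is the only one in the ultrafilter -/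
theorem Nm.pt_spec (x : Nm B X) : Forces (⊤ : B) fun u => ∀ n a, x.pt u n = a ↔ u.mem (x.v n a) := by
  refine forces_nat fun n => ?_
  have h := forces_mem_iSup (fun a => x.v n a)
  rw [x.cover n] at h
  refine h.mono fun u hu a => ?_
  obtain ⟨a0, ha0⟩ := hu.1 u.top
  have h1 : u.mem (x.v n (x.pt u n)) := Classical.epsilon_spec (p := fun a => u.mem (x.v n a))
    ⟨a0, ha0⟩
  constructor
  · rintro rfl
    exact h1
  · intro h2
    by_contra hne
    exact u.bot (x.disj n _ _ hne ▸ (u.inf _ _).2 ⟨h1, h2⟩)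

theorem decIn_pt {x : Nm B X} (hx : InC C x) (n : ℕ) (a : X) :
    DecIn C fun u => x.pt u n = a :=
  (DecIn.mem (hx n a)).congr (x.pt_spec.mono fun _ hu => (hu n a).symm)

theorem v_eq_bval (x : Nm B X) (n : ℕ) (a : X) : x.v n a = bval fun u => x.pt u n = a := by
  rw [← bval_mem (x.v n a)]
  exact bval_congr (x.pt_spec.mono fun _ hu => (hu n a).symm)

theorem decIn_mes (hC : CSub C) {x : Nm B X} (hx : InC C x) {A : Set (ℕ → X)} (hA : Mes A) :
    DecIn C fun u => x.pt u ∈ A := by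
  unfold Mes bsp at hA
  induction A, hA using MeasurableSpace.generateFrom_induction with
  | hC t ht _ =>
    obtain ⟨n, a, rfl⟩ := ht
    exact decIn_pt hx n a
  | empty => exact DecIn.const hC _
  | compl t _ ih => exact ih.not hC
  | iUnion _ _ ih =>
    refine (DecIn.ex hC ih).congr' fun _ => ?_
    simp

/-- names from functions on the ultrafilters with decided values -/
theorem exists_name [Countable X] (hC : CSub C) (f : Ult B → ℕ → X)
    (h : ∀ n a, DecIn C fun u => f u n = a) :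
    ∃ x : Nm B X, InC C x ∧ Forces (⊤ : B) fun u => x.pt u = f u := by
  have hall := forces_all fun n => forces_all fun a => (h n a).iff_mem
  let x : Nm B X :=
    { v := fun n a => bval fun u => f u n = a
      disj := by
        intro n a b hab
        apply eq_bot_of_forces_false
        refine (((forces_bval _).weak inf_le_left).and ((forces_bval _).weak inf_le_right)).mono ?_
        rintro u ⟨h1, h2⟩
        exact hab (h1.symm.trans h2)
      cover := by
        intro n
        apply top_le_iff.1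
        apply le_of_forces
        refine ((forces_mem_iSup fun a => bval fun u : Ult B => f u n = a).and hall).mono ?_
        rintro u ⟨h1, h2⟩
        exact h1.2 ⟨f u n, (h2 n (f u n)).2 rfl⟩ }
  refine ⟨x, fun n a => (h n a).eq_bval.1, ?_⟩
  refine (x.pt_spec.and hall).mono ?_
  rintro u ⟨h1, h2⟩
  ext n
  exact (h1 n (f u n)).2 ((h2 n (f u n)).2 rfl)

/-- images of names under Borel maps -/
theorem exists_map [Countable Y] (hC : CSub C) {x : Nm B X} (hx : InC C x)
    (Fu : (ℕ → X) → (ℕ → Y)) (hF : ∀ n a, Mes {z | Fu z n = a}) :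
    ∃ y : Nm B Y, InC C y ∧ Forces (⊤ : B) fun u => y.pt u = Fu (x.pt u) :=
  exists_name hC (fun u => Fu (x.pt u)) fun n a => decIn_mes hC hx (hF n a)

/-- the name of the sequence of pairs -/
def Nm.prod (x : Nm B X) (y : Nm B Y) : Nm B (X × Y) where
  v n a := x.v n a.1 ⊓ y.v n a.2
  disj := by
    rintro n ⟨a, b⟩ ⟨a', b'⟩ hab
    apply le_bot_iff.1
    by_cases h : a = a'
    · subst h
      have hb : b ≠ b' := fun h => hab (by rw [h])
      rw [← y.disj n b b' hb]
      exact inf_le_inf inf_le_right inf_le_right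
    · rw [← x.disj n a a' h]
      exact inf_le_inf inf_le_left inf_le_left
  cover := by
    intro n
    apply top_le_iff.1
    apply le_of_forces
    have h1 := forces_mem_iSup (fun a => x.v n a)
    rw [x.cover n] at h1
    have h2 := forces_mem_iSup (fun a => y.v n a)
    rw [y.cover n] at h2
    refine ((h1.and h2).and (forces_mem_iSup fun a : X × Y => x.v n a.1 ⊓ y.v n a.2)).mono ?_
    rintro u ⟨⟨h1, h2⟩, h3⟩
    obtain ⟨a, ha⟩ := h1.1 u.top
    obtain ⟨b, hb⟩ := h2.1 u.top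
    exact h3.2 ⟨(a, b), (u.inf _ _).2 ⟨ha, hb⟩⟩

theorem Nm.prod_pt (x : Nm B X) (y : Nm B Y) :
    Forces (⊤ : B) fun u => (x.prod y).pt u = fun n => (x.pt u n, y.pt u n) := by
  refine ((x.pt_spec.and y.pt_spec).and (x.prod y).pt_spec).mono ?_
  rintro u ⟨⟨h1, h2⟩, h3⟩
  ext1 n
  refine (h3 n _).2 ((u.inf _ _).2 ⟨(h1 n _).1 rfl, (h2 n _).1 rfl⟩)

omit [Nonempty X] [Nonempty Y] in
theorem InC.prod (hC : CSub C) {x : Nm B X} {y : Nm B Y} (hx : InC C x) (hy : InC C y) :
    InC C (x.prod y) := fun n a => hC.inf (hx n a.1) (hy n a.2)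

theorem decIn_mes2 (hC : CSub C) {x : Nm B X} {y : Nm B Y} (hx : InC C x) (hy : InC C y)
    {P : (ℕ → X) → (ℕ → Y) → Prop} (hP : Mes2 P) : DecIn C fun u => P (x.pt u) (y.pt u) := by
  refine (decIn_mes hC (hx.prod hC hy) hP).congr ?_
  refine (x.prod_pt y).mono fun u hu => ?_
  rw [hu]
  rfl

omit [Nonempty X] in
/-- every name has values in the whole algebra -/
theorem inC_univ (x : Nm B X) : InC (Set.univ : Set B) x := fun _ _ => trivial

theorem exists_map2 {Z : Type} [Nonempty Z] [Countable Z] (hC : CSub C) {x : Nm B X} {y : Nm B Y}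
    (hx : InC C x) (hy : InC C y) (Fu : (ℕ → X) → (ℕ → Y) → (ℕ → Z))
    (hF : ∀ n a, Mes2 fun z w => Fu z w n = a) :
    ∃ z : Nm B Z, InC C z ∧ Forces (⊤ : B) fun u => z.pt u = Fu (x.pt u) (y.pt u) :=
  exists_name hC (fun u => Fu (x.pt u) (y.pt u)) fun n a => decIn_mes2 hC hx hy (hF n a)

/-- names can be mixed along a partition -/
theorem exists_mix {ι : Type} (hC : CSub C) (d : ι → B) (hd : ∀ i, d i ∈ C)
    (hdis : ∀ i j, i ≠ j → d i ⊓ d j = ⊥) (hcov : ⨆ i, d i = ⊤) (x : ι → Nm B X)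
    (hx : ∀ i, InC C (x i)) :
    ∃ y : Nm B X, InC C y ∧ ∀ i, Forces (d i) fun u => y.pt u = (x i).pt u := by
  let y : Nm B X :=
    { v := fun n a => ⨆ i, d i ⊓ (x i).v n a
      disj := by
        intro n a b hab
        apply eq_bot_of_forces_false
        refine ((forces_mem _).and ((forces_top (forces_mem_iSup fun i => d i ⊓ (x i).v n a)).and
          (forces_top (forces_mem_iSup fun i => d i ⊓ (x i).v n b)))).mono ?_
        rintro u ⟨h1, h2, h3⟩
        obtain ⟨i, hi⟩ := h2.1 ((u.inf _ _).1 h1).1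
        obtain ⟨j, hj⟩ := h3.1 ((u.inf _ _).1 h1).2
        by_cases hij : i = j
        · subst hij
          exact u.bot ((x i).disj n a b hab ▸
            (u.inf _ _).2 ⟨((u.inf _ _).1 hi).2, ((u.inf _ _).1 hj).2⟩)
        · exact u.bot (hdis i j hij ▸
            (u.inf _ _).2 ⟨((u.inf _ _).1 hi).1, ((u.inf _ _).1 hj).1⟩)
      cover := by
        intro n
        rw [iSup_comm]
        have : ∀ i, ⨆ a, d i ⊓ (x i).v n a = d i := fun i => by
          rw [← inf_iSup_eq, (x i).cover n, inf_top_eq]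
        rw [iSup_congr this, hcov] }
  refine ⟨y, fun n a => hC.iSup fun i => hC.inf (hd i) (hx i n a), fun i => ?_⟩
  refine (((forces_mem (d i)).and (forces_top (x i).pt_spec)).and (forces_top y.pt_spec)).mono ?_
  rintro u ⟨⟨h1, h2⟩, h3⟩
  ext1 n
  refine (h3 n _).2 (u.mono (le_iSup (fun j => d j ⊓ (x j).v n ((x i).pt u n)) i) ?_)
  exact (u.inf _ _).2 ⟨h1, (h2 n _).1 rfl⟩

/-- mixing along an antichain, with a default name -/
theorem exists_mix' {ι : Type} (hC : CSub C) (d : ι → B) (hd : ∀ i, d i ∈ C)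
    (hdis : ∀ i j, i ≠ j → d i ⊓ d j = ⊥) (x : ι → Nm B X) (hx : ∀ i, InC C (x i))
    (x0 : Nm B X) (hx0 : InC C x0) :
    ∃ y : Nm B X, InC C y ∧ (∀ i, Forces (d i) fun u => y.pt u = (x i).pt u) ∧
      Forces (⨆ i, d i)ᶜ fun u => y.pt u = x0.pt u := by
  obtain ⟨y, h1, h2⟩ := exists_mix (ι := Option ι) hC
    (fun o => o.elim (⨆ i, d i)ᶜ d) (by
      rintro (_ | i)
      · exact hC.compl _ (hC.iSup hd)
      · exact hd i) (by
      have key : ∀ i, (⨆ i, d i)ᶜ ⊓ d i = ⊥ := fun i => le_bot_iff.1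
        ((inf_le_inf_left _ (le_iSup d i)).trans compl_inf_eq_bot.le)
      rintro (_ | i) (_ | j) hij
      · exact absurd rfl hij
      · exact key j
      · rw [inf_comm]; exact key i
      · exact hdis i j fun h => hij (by rw [h])) (by
      rw [iSup_option]
      exact compl_sup_eq_top) (fun o => o.elim x0 x) (by
      rintro (_ | i)
      · exact hx0
      · exact hx i)
  exact ⟨y, h1, fun i => h2 (some i), h2 none⟩

/-- the maximum principle: if `N` is closed under mixing with coefficients in `C` and `Φ` respects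
equality, the supremum of `Φ` over `N` is attained (`W` is any set of pairs of an element `c` of `C`
and a name with `c ≤ Φ`) -/
theorem exists_max (hC : CSub C) (N : Set (Nm B X)) (hN : ∀ x ∈ N, InC C x) (hne : N.Nonempty)
    (hmix : ∀ y : Nm B X, InC C y → (∃ (S : Set B), sSup S = ⊤ ∧
      ∀ s ∈ S, ∃ x ∈ N, Forces s fun u => y.pt u = x.pt u) → y ∈ N)
    (Φ : Nm B X → B) (hΦC : ∀ x ∈ N, Φ x ∈ C)
    (hΦ : ∀ x ∈ N, ∀ y ∈ N, ∀ c ∈ C, (Forces c fun u => x.pt u = y.pt u) → c ⊓ Φ x ≤ Φ y) :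
    ∃ x ∈ N, ∀ y ∈ N, Φ y ≤ Φ x := by
  obtain ⟨x0, hx0⟩ := hne
  -- an antichain in C
  let P : Set (Set B) := {A | (∀ a ∈ A, a ∈ C ∧ a ≠ ⊥ ∧ ∃ x ∈ N, a ≤ Φ x) ∧
    (∀ a ∈ A, ∀ b ∈ A, a ≠ b → a ⊓ b = ⊥)}
  obtain ⟨A, hA⟩ : ∃ A, Maximal (· ∈ P) A := by
    apply zorn_subset
    intro c hc hch
    refine ⟨⋃₀ c, ⟨?_, ?_⟩, fun s hs => Set.subset_sUnion_of_mem hs⟩
    · rintro a ⟨t, ht, ha⟩
      exact (hc ht).1 a ha
    · rintro a ⟨t, ht, ha⟩ b ⟨t', ht', hb⟩ hab
      rcases hch.total ht ht' with h | h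
      · exact (hc ht').2 a (h ha) b hb hab
      · exact (hc ht).2 a ha b (h hb) hab
  have hAC : ∀ a : A, a.1 ∈ C := fun a => (hA.prop.1 a.1 a.2).1
  have hAx : ∀ a : A, ∃ x ∈ N, a.1 ≤ Φ x := fun a => (hA.prop.1 a.1 a.2).2.2
  choose x hxN hxΦ using hAx
  obtain ⟨y, hy1, hy2, hy3⟩ := exists_mix' hC (fun a : A => a.1) hAC
    (fun a b hab => hA.prop.2 a.1 a.2 b.1 b.2 fun h => hab (Subtype.ext h)) x
    (fun a => hN _ (hxN a)) x0 (hN _ hx0)
  have hyN : y ∈ N := by
    refine hmix y hy1 ⟨insert (⨆ a : A, a.1)ᶜ (Set.range fun a : A => a.1), ?_, ?_⟩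
    · rw [sSup_insert]
      exact compl_sup_eq_top
    · rintro s (rfl | ⟨a, rfl⟩)
      · exact ⟨x0, hx0, hy3⟩
      · exact ⟨x a, hxN a, hy2 a⟩
  have hsup : sSup A ≤ Φ y := by
    refine sSup_le fun a ha => ?_
    have h1 := hΦ (x ⟨a, ha⟩) (hxN _) y hyN a (hAC ⟨a, ha⟩)
      ((hy2 ⟨a, ha⟩).mono fun u hu => hu.symm)
    rwa [inf_eq_left.2 (hxΦ ⟨a, ha⟩)] at h1
  refine ⟨y, hyN, fun z hz => le_trans ?_ hsup⟩
  by_contra hc
  let c := Φ z ⊓ (sSup A)ᶜ
  have hAC' : sSup A ∈ C := hC.sSup A fun a ha => hAC ⟨a, ha⟩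
  have hcb : c ≠ ⊥ := by
    intro h
    apply hc
    have := (disjoint_iff.2 h).le_compl_right
    rwa [compl_compl] at this
  have hmem : insert c A ∈ P := by
    refine ⟨?_, ?_⟩
    · rintro a (rfl | ha)
      · exact ⟨hC.inf (hΦC z hz) (hC.compl _ hAC'), hcb, z, hz, inf_le_left⟩
      · exact hA.prop.1 a ha
    · have key : ∀ a ∈ A, c ⊓ a = ⊥ := by
        intro a ha
        apply le_bot_iff.1
        calc c ⊓ a ≤ (sSup A)ᶜ ⊓ sSup A := inf_le_inf inf_le_right (le_sSup ha)
          _ = ⊥ := compl_inf_eq_bot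
      rintro a (rfl | ha) b (rfl | hb) hab
      · exact absurd rfl hab
      · exact key b hb
      · rw [inf_comm]; exact key a ha
      · exact hA.prop.2 a ha b hb hab
  have hcA : c ∈ A := hA.le_of_ge hmem (Set.subset_insert c A) (Set.mem_insert c A)
  apply hcb
  apply le_bot_iff.1
  calc c ≤ sSup A ⊓ (sSup A)ᶜ := le_inf (le_sSup hcA) inf_le_right
    _ = ⊥ := inf_compl_eq_bot

/-- constant names -/
noncomputable def Nm.const (B : Type) [CompleteBooleanAlgebra B] (f : ℕ → X) : Nm B X where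
  v n a := open Classical in if f n = a then ⊤ else ⊥
  disj := by
    intro n a b hab
    by_cases h : f n = a
    · have : f n ≠ b := fun h' => hab (h.symm.trans h')
      simp [this]
    · simp [h]
  cover := by
    intro n
    apply top_le_iff.1
    refine le_trans ?_ (le_iSup _ (f n))
    simp

theorem Nm.const_pt (f : ℕ → X) : Forces (⊤ : B) fun u => (Nm.const B f).pt u = f := by
  refine (Nm.pt_spec (Nm.const B f)).mono fun u hu => ?_
  ext1 n
  refine (hu n (f n)).2 ?_
  simp [Nm.const, u.top]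

omit [Nonempty X] in
theorem InC.const (hC : CSub C) (f : ℕ → X) : InC C (Nm.const B f) := by
  intro n a
  simp only [Nm.const]
  split_ifs
  · exact hC.top
  · exact hC.bot

end Names

end SLV
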