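import Mathlib
import Pool.Agent.SLV.Defs
import Pool.Agent.CofSN.RO

/-!
# MP_0a8ab4_lc, project SLV: the Levy collapse (helper90)
-/

set_option autoImplicit false

namespace SLV

open Cardinal CofSN

/-- the properties of the well-order of an inaccessible cardinal which are used -/
structure IK (K : Type) [LinearOrder K] : Prop where
  small : ∀ α : K, #(Set.Iio α) < #K
  bdd : ∀ S : Set K, #S < #K → ∃ β, ∀ s ∈ S, s < β
  init : ∀ Z : Type, #Z < #K → ∃ ν : K, Nonempty (Set.Iio ν ≃ Z)
  pow : ∀ Z : Type, #Z < #K → #(Set Z) < #K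
  unc : ℵ₀ < #K

variable {K : Type} [LinearOrder K]

/-- the element of the algebra given by a condition -/
def cn (p : Lv K) : BL K := RO.gen {p}

/-- the elements with support in `J`: membership of a condition depends only on its restriction
to `J` -/
def Sp (J : Set (K × ℕ)) : Set (BL K) :=
  {U | ∀ p q : Lv K, (∀ j ∈ J, p.f j = q.f j) → (p ∈ U ↔ q ∈ U)}

/-- the coordinates below `lam` -/
def lowc (lam : K) : Set (K × ℕ) := {j | j.1 < lam}

/-- the coordinates below `mu` and the column `nu` -/
def lowcol (mu nu : K) : Set (K × ℕ) := {j | j.1 < mu ∨ j.1 = nu}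

/-- the elements with support below `lam` (the regular open algebra of `Coll(ω, < lam)`) -/
def Blow (lam : K) : Set (BL K) := Sp (lowc lam)

/-- conditions with no coordinate in `J` -/
def Off (J : Set (K × ℕ)) (r : Lv K) : Prop := ∀ j ∈ J, r.f j = none

section RCL

variable {B : Type} [CompleteBooleanAlgebra B]

/-- a generic column over the complete subalgebra `D` -/
structure Colm (D : Set B) (Z : Type) where
  Dn : ℕ → Set B
  zero : Dn 0 = D
  csub : ∀ n, CSub (Dn n)
  mono : ∀ n, Dn n ⊆ Dn (n + 1)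
  G : ℕ → Z → B
  mem : ∀ n z, G n z ∈ Dn (n + 1)
  disj : ∀ n z z', z ≠ z' → G n z ⊓ G n z' = ⊥
  cover : ∀ n, ⨆ z, G n z = ⊤
  ind : ∀ n, ∀ y ∈ Dn n, y ≠ ⊥ → ∀ z, y ⊓ G n z ≠ ⊥

/-- the Boolean value of: the list `t` is an initial segment of the generic column -/
def Colm.GL {D : Set B} {Z : Type} (Y : Colm D Z) (t : List Z) : B :=
  ⨅ i : Fin t.length, Y.G i (t.get i)

/-- a tree `ds` of elements below `d`, relative to the complete subalgebra `C1`: nodes of the same
level form a partition of `d`, and every node meets every element of `C1` which meets `d` -/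
structure Tre (C1 : Set B) (d : B) (I : Type) where
  ds : List I → B
  nil : ds [] = d
  disj : ∀ s i j, i ≠ j → ds (s ++ [i]) ⊓ ds (s ++ [j]) = ⊥
  cover : ∀ s, ⨆ i, ds (s ++ [i]) = ds s
  full : ∀ s, ∀ c ∈ C1, c ⊓ d ≠ ⊥ → c ⊓ ds s ≠ ⊥

end RCL

/-- the elements of the dense family below `d` given by a tree -/
def uu {C1 : Set (BL K)} {d : BL K} {I : Type} (Y : Tre C1 d I) (c : BL K) (s : List I)
    (r : Lv K) : BL K := c ⊓ Y.ds s ⊓ cn r

end SLV
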