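import Mathlib
import Pool.Agent.SLV.Defs
import Pool.Agent.SLV.LevyDefs
import Pool.Agent.MadBlock.Defs

/-!
# MP_0a8ab4_lc, project SLV: Boolean valued families of block subspaces, the Solovay class
(helper90)
-/

set_option autoImplicit false

namespace SLV

open Cardinal CofSN Pool.Agent.MadBlock

section Fam

variable {B : Type} [CompleteBooleanAlgebra B]

/-- a `B`-valued set of sequences respects the equality of names -/
def IsBSet {X : Type} [Nonempty X] (S : Nm B X → B) : Prop :=
  ∀ x y, S x ⊓ bval (fun u => x.pt u = y.pt u) ≤ S y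

end Fam

/-- the restriction of `a` to the principal ideal of `d` -/
def rs {B : Type} [CompleteBooleanAlgebra B] (a d : B) : Set.Iic d :=
  ⟨a ⊓ d, Set.mem_Iic.2 inf_le_right⟩

/-- the Solovay class: `S` is invariant under all isomorphisms `π` between principal ideals of the
Levy algebra which are the identity on `Blow lam` for some `lam`. Every set of reals of `L(R)` (and
more generally every set of reals definable from reals and ordinals) is given by such an `S`: if it is
`{x | φ(x, r, α)}` with a real `r` and an ordinal `α`, the name `r` has its values in some `Blow lam`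
and `S x` is the Boolean value of `φ(x, r, α)`. For `L(R)` this is proved in `LSW.lean`. -/
def InSol {K : Type} [LinearOrder K] {X : Type} (S : Nm (BL K) X → BL K) : Prop :=
  ∃ lam : K, ∀ (d d' : BL K) (π : Set.Iic d ≃o Set.Iic d'),
    (∀ c ∈ Blow lam, (π (rs c d) : BL K) = c ⊓ d') →
    ∀ x x' : Nm (BL K) X, (∀ n a, (π (rs (x.v n a) d) : BL K) = x'.v n a ⊓ d') →
      (π (rs (S x) d) : BL K) = S x' ⊓ d'

/-! ### evaluation of words -/

section Ev

variable {F : Type} [Field F]

/-- the vector of a word: `Σ_{i ∈ A} a i + Σ_{i ∈ V} b i` for the sequence of pairs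
`c i = (a i, b i)` -/
noncomputable def ev (c : ℕ → (ℕ →₀ F) × (ℕ →₀ F)) (q : Wd) : ℕ →₀ F :=
  ∑ i ∈ q.A, (c i).1 + ∑ i ∈ q.V, (c i).2

/-- the vectors of a sequence of words -/
noncomputable def evs (c : ℕ → (ℕ →₀ F) × (ℕ →₀ F)) (x : ℕ → Wd) : ℕ → (ℕ →₀ F) :=
  fun n => ev c (x n)

/-- the sequence of pairs is interleaved: `a 0 < b 0 < a 1 < b 1 < ...`, all nonzero -/
def Inter (c : ℕ → (ℕ →₀ F) × (ℕ →₀ F)) : Prop :=
  ∀ n, (c n).1 ≠ 0 ∧ (c n).2 ≠ 0 ∧ Bef (c n).1 (c n).2 ∧ Bef (c n).2 (c (n + 1)).1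

/-- the special reduction: `x 0, θ(x 1) + x 2, x 3, θ(x 4) + x 5, ...` -/
def zz (x : ℕ → Wd) : ℕ → Wd := fun n =>
  if n % 2 = 0 then x (3 * (n / 2))
  else act x ⟨{3 * (n / 2) + 1, 3 * (n / 2) + 2}, {3 * (n / 2) + 2}, by simp, by simp⟩

end Ev

end SLV
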