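import Mathlib
import Pool.Agent.SLV.Defs
import Pool.Agent.SLV.LevyDefs
import Pool.Agent.SLV.ModelDefs

/-!
# MP_0a8ab4_lc, project SLV: targets, part 1 (no forcing) (helper90)

`T_...` are the statements; a job proves `p_XXX : (hypotheses T_...) → T_XXX`.
-/

set_option autoImplicit false

namespace SLV

open Cardinal CofSN Pool.Agent.MadBlock

/-! ## P: the pigeonhole principle for located words over one letter -/

/-- pairs of finite sets with coordinatewise union -/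
@[ext] structure PW where
  A : Finset ℕ
  V : Finset ℕ

instance : Add PW := ⟨fun x y => ⟨x.A ∪ y.A, x.V ∪ y.V⟩⟩

instance : AddSemigroup PW where
  add_assoc := by
    intro a b c
    ext k <;> simp [HAdd.hAdd, Add.add]

/-- the substitution of the letter for the variable -/
def PW.th (x : PW) : PW := ⟨x.A, ∅⟩

/-- a word as a pair -/
def Wd.pw (x : Wd) : PW := ⟨x.A, x.V⟩

attribute [local instance] Ultrafilter.add Ultrafilter.addSemigroup in
/-- Idempotent ultrafilters `p` (constant words) and `q` (variable words) with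
`q = q + q = p + q = q + p` and `θ(q) = p`.
PROOF. `Ultrafilter PW` is a compact T2 right topological semigroup (`Ultrafilter.continuous_add_left`,
`Ultrafilter.eventually_add`; see `Mathlib/Combinatorics/Hindman.lean`). `T1` = ultrafilters containing
all `{z | z.V = ∅, z.A ≠ ∅, n ≤ z.A}`: closed, nonempty (filter basis), closed under `+`. Let `p` be an
idempotent in it (`exists_idempotent_in_compact_add_subsemigroup`). `S` = `{q | θ(q) = p` and all
`{z | z.V ≠ ∅, z.V ⊆ z.A, n ≤ z.A} ∈ q}`: closed, contains the image of `p` under `z ↦ ⟨z.A, z.A⟩`,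
closed under `+`, and `q + p ∈ S` for `q ∈ S` (`θ(q + p) = p + p`; `θ` is a homomorphism). `S + p` =
image of `S` under the continuous map `· + p`: compact, closed under `+`. Let `q1 = s + p` be an
idempotent in it: `q1 + p = q1`. Put `q = p + q1`. -/
def T_PH0 : Prop :=
  ∃ p q : Ultrafilter PW, p + p = p ∧ q + q = q ∧ p + q = q ∧ q + p = q ∧
    q.map PW.th = p ∧
    (∀ n : ℕ, ∀ᶠ z in (p : Filter PW), z.V = ∅ ∧ z.A.Nonempty ∧ ∀ i ∈ z.A, n ≤ i) ∧
    (∀ n : ℕ, ∀ᶠ z in (q : Filter PW), z.V.Nonempty ∧ z.V ⊆ z.A ∧ ∀ i ∈ z.A, n ≤ i)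

/-- The pigeonhole principle: every colouring of the words is constant on `Rg w` for some block
sequence `w`.
PROOF (from `T_PH0`). One of the two colour classes (as a subset `K` of `PW`) is in `q`. For `z : PW`
let `GV z`: `z ∈ K`, `{y | z + y ∈ K} ∈ q`, `{y | z + y ∈ K} ∈ p`; `GT z`: `{y | z + y ∈ K} ∈ q`.
If `GV z` then for `q`-almost all `w`: `GV (z + w)` and `GV (z + θ w)`; if `GT z` then for `q`-almost
all `w`: `GV (z + w)`, `GT (z + θ w)` (use `q = q + q = q + p = p + q`, `p = p + p`, `p = θ(q)`); also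
for `q`-almost all `w`: `GV w`, `GT (θ w)`. Choose `w 0, w 1, ...` recursively so that for the finitely
many sums `z` over the first `n` words (variable type: `GV z`, constant type: `GT z`) all this holds and
`w n` comes after `w (n-1)`. Then `act w p` is a sum of variable type for every pattern `p`. -/
def T_PH : Prop :=
  ∀ f : Wd → Prop, ∃ w, Blk w ∧ ((∀ q ∈ Rg w, f q) ∨ ∀ q ∈ Rg w, ¬ f q)

/-- The same below a block sequence. PROOF: apply `T_PH` to `f ∘ act w`, get `p`; `w' n = act w (p n)`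
(`T_W1`, `T_W2`). -/
def T_PHw : Prop :=
  ∀ w, Blk w → ∀ f : Wd → Prop, ∃ w', Blk w' ∧ Le w' w ∧
    ((∀ q ∈ Rg w', f q) ∨ ∀ q ∈ Rg w', ¬ f q)

/-! ## W: combinatorics of words -/

/-- Composition of patterns; `Le` is reflexive and transitive; `Rg` is monotone; `w n ∈ Rg w`. -/
def T_W1 : Prop :=
  (∀ (w p : ℕ → Wd) (q : Wd), act (fun n => act w (p n)) q = act w (act p q)) ∧
  (∀ w : ℕ → Wd, Le w w) ∧ (∀ y w v : ℕ → Wd, Le y w → Le w v → Le y v) ∧
  (∀ y w : ℕ → Wd, Le y w → Rg y ⊆ Rg w)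

/-- For a block sequence `w`: all later members come after all earlier ones; `act w` preserves and
reflects the block order. -/
def T_W2 : Prop :=
  ∀ w, Blk w → (∀ m n, m < n → (w m).lt (w n)) ∧
    (∀ p q : Wd, p.lt q ↔ (act w p).lt (act w q)) ∧ (∀ p : ℕ → Wd, Blk p → Blk fun n => act w (p n))

/-- The patterns of a block sequence below `w` form a block sequence. -/
def T_W3 : Prop :=
  ∀ w y, Blk w → Blk y → Le y w → ∃ P : ℕ → Wd, Blk P ∧ ∀ n, y n = act w (P n)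

/-- Finite block sequences below `w` have a depth. -/
def T_W4 : Prop := ∀ w, Blk w → ∀ t, InF t w ↔ ∃ n, FinN n t w

/-- The initial segments of `y ≤ w` have depth at least their length. -/
def T_W5 : Prop :=
  ∀ w y, Blk w → Blk y → Le y w → ∀ k, ∃ n, k ≤ n ∧ FinN n (pre y k) w

/-- A stem of depth `n` is not followed by `w m`, `m < n`. -/
def T_W6 : Prop := ∀ w, Blk w → ∀ n t, FinN n t w → ∀ m < n, ¬ Beyond t (w m)

/-- Members of `y ≤ w` after an initial segment of depth `n` are generated by the members `w i`,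
`i ≥ n`. -/
def T_W7 : Prop :=
  ∀ w y v, Blk w → Blk y → Le y w → ∀ n k, FinN n (pre y k) w → (∀ i, n ≤ i → w i ∈ Rg v) →
    ∀ m, k ≤ m → y m ∈ Rg v

open Classical in
/-- `w 0, ..., w (n - 1)` followed by the members of `v` which come after them -/
noncomputable def glue (n : ℕ) (w v : ℕ → Wd) : ℕ → Wd := fun i =>
  if i < n then w i else v (i - n + sInf {m | ∀ j < n, (w j).lt (v m)})

/-- Properties of `glue`. -/
def T_W8 : Prop :=
  ∀ w v, Blk w → Blk v → Le v w → ∀ n, Blk (glue n w v) ∧ (∀ i < n, glue n w v i = w i) ∧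
    Le (glue n w v) w ∧ ∀ t, FinN n t w → LeT t (glue n w v) v

/-- There are finitely many stems of depth `n`, and they depend only on `w 0, ..., w (n - 1)`. -/
def T_W9 : Prop :=
  (∀ n w, {t | FinN n t w}.Finite) ∧
  ∀ n t (w w' : ℕ → Wd), (∀ i < n, w i = w' i) → (FinN n t w ↔ FinN n t w')

/-- Sets depending on finitely many values are Borel (`X` countable: a countable union of finite
intersections of generators). -/
def T_M1 : Prop :=
  ∀ (X : Type) [Countable X] (A : Set (ℕ → X)) (N : ℕ),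
    (∀ x y : ℕ → X, (∀ i < N, x i = y i) → (x ∈ A ↔ y ∈ A)) → Mes A

/-- Borel sets of words (`T_M1`, countable unions and intersections; `Wd` is countable; for
`q ∈ Rg w` take the union over all patterns `p` of `{w | act w p = q}`). -/
def T_M2 : Prop :=
  Mes {w | Blk w} ∧ (∀ q, Mes {w : ℕ → Wd | q ∈ Rg w}) ∧ (∀ n t, Mes {w | FinN n t w}) ∧
  (∀ t, Mes {w | InF t w}) ∧ (∀ n, Mes {w : ℕ → Wd | ∀ m, Beyond (pre w n) (w (n + m))})

/-- Borel relations of words. -/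
def T_M3 : Prop :=
  Mes2 Le ∧ (∀ t, Mes2 (LeT t)) ∧ (∀ t, Mes2 (Nb t)) ∧
  Mes2 (fun w v : ℕ → Wd => Rg v ⊆ Rg w ∨ Disjoint (Rg v) (Rg w))

/-- Borel maps `F : (ℕ → X) → (ℕ → Y)` (all `{x | F x n = a}` Borel) have Borel preimages of Borel
sets. -/
def T_M4 : Prop :=
  ∀ (X Y : Type) (Fu : (ℕ → X) → (ℕ → Y)), (∀ n a, Mes {x | Fu x n = a}) →
    ∀ A : Set (ℕ → Y), Mes A → Mes {x | Fu x ∈ A}

/-- The map `glue n` is Borel, and so is the map `app t`. -/
def T_M5 : Prop :=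
  (∀ n k q, Mes2 fun w v => glue n w v k = q) ∧
  ∀ (t : List Wd) (k : ℕ) (q : Wd), Mes {y : ℕ → Wd | app t y k = q}

/-! ## L: the Levy algebra -/

/-- The order type of an inaccessible cardinal. (`small`: initial segments of `κ.ord`; `bdd`:
regularity; `init`: the initial segment of type `(#Z).ord`; `pow`: strong limit.) -/
def T_IK : Prop := ∀ κ : Cardinal.{0}, κ.IsInaccessible → IK κ.ord.ToType

/-- `Sp J` is a complete subalgebra. -/
def T_SPC : Prop := ∀ (K : Type) [LinearOrder K] (J : Set (K × ℕ)), CSub (Sp J)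

/-- Elementary facts on the elements `cn p`. (For the third: `q ∈ z`, the restriction of `q` to `J` is in
`z`, its union with `p` is a condition in `z` and in `cn p`.) -/
def T_CNF : Prop :=
  ∀ (K : Type) [LinearOrder K],
    (∀ (p : Lv K) (U : BL K), p ∈ U ↔ cn p ≤ U) ∧
    (∀ U : BL K, U ≠ ⊥ → ∃ p : Lv K, p ∈ U) ∧ (∀ p : Lv K, cn p ≠ ⊥) ∧
    (∀ (J : Set (K × ℕ)) (U : BL K) (p : Lv K), U ∈ Sp J → U ≠ ⊥ → Off J p → U ⊓ cn p ≠ ⊥) ∧
    (∀ (J : Set (K × ℕ)) (p : Lv K), (∀ j, p.f j ≠ none → j ∈ J) → cn p ∈ Sp J) ∧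
    (∀ (p q : Lv K), cn p ⊓ cn q ≠ ⊥ ↔ ∃ r, r ≤ p ∧ r ≤ q)

/-- (H1) Every countable family of elements of the Levy algebra is in some `Blow lam`.
PROOF. For one `U`: choose for every condition `p` which has an extension in `U` such an extension
`e p`. Closing off: there is `lam` such that `e p` has all coordinates and values below `lam` for
every `p` with all coordinates below `lam` (countably many steps; there are fewer than `#K`
conditions with coordinates below a given bound: `small`, `unc`; use `bdd`). Claim: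
`p ∈ U ↔ p|lam ∈ U`. If `p ∈ U` and `q ≤ p|lam` with `q ∈ Uᶜ`: `q|lam` has an extension in `U` (a
common extension with `p`), so `e (q|lam) ∈ U` has coordinates below `lam`, so it is compatible with
`q`: contradiction. Then take an upper bound of countably many `lam`. -/
def T_H1 : Prop :=
  ∀ (K : Type) [LinearOrder K], IK K → ∀ U : ℕ → BL K, ∃ lam : K, ∀ n, U n ∈ Blow lam

/-- (H4) Names of surjections onto small sets: the column `ν` with `Iio ν ≃ Z`,
`g.v n z = cn {((ν, n), e z)}`. -/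
def T_H4 : Prop :=
  ∀ (K : Type) [LinearOrder K], IK K → ∀ (Z : Type), Nonempty Z → #Z < #K →
    ∃ g : Nm (BL K) Z, GSurj g

/-- There are fewer than `#K` conditions with coordinates below `lam`, elements of `Blow lam`, names
with values in `Blow lam`, conditions over `Blow lam`, and sets of such conditions. -/
def T_CAR : Prop :=
  ∀ (K : Type) [LinearOrder K], IK K → ∀ lam : K,
    #(Blow (K := K) lam) < #K ∧ #(Set (Cd (Blow (K := K) lam))) < #K

/-- (RCL) The relative collapsing lemma.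
PROOF. `hull x = sInf {c ∈ C1 | x ≤ c}`; `c ⊓ hull x ≠ ⊥ → c ⊓ x ≠ ⊥` for `c ∈ C1`. Define `ds s`
by recursion on `s` (append at the end): `ds [] = d`; given `x = ds s`, `n = s.length`, `(z, j)`: let
`r = ρ z`, `e = hull (x ⊓ r) ⊓ hull (x ⊓ rᶜ)`,
`ds (s ++ [(z, j)]) = (e ⊓ Y.G n z ⊓ x ⊓ (if j then r else rᶜ)) ⊔ (eᶜ ⊓ Y.G n (φ.symm (z, j)) ⊓ x)`.
Invariant `ds s ∈ Y.Dn n`. Cover and disjointness: `ρ (φ z).1 = ρ z` (fix `r`). Fullness: if
`c ⊓ e ≠ ⊥` then `c ⊓ e ⊓ x ⊓ r^j ≠ ⊥`, and it is in `Dn n`, so it meets `G n z`; else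
`c ⊓ x ⊓ eᶜ ≠ ⊥` and meets `G n _`. Density: (i) for every `s` and every `c ∈ C1` with `c ⊓ ds s ≠ ⊥`
some `c' ≤ c` in `C1` and some list `t'` of the same length have `⊥ ≠ c' ⊓ ds s ≤ GL t'`. (ii) Given
`e0 ⊓ GL t ⊓ d ≠ ⊥`: some `s` of the length of `t` meets it (the nodes of a level have supremum `d`);
by (i) some `c` with `⊥ ≠ c ⊓ ds s ⊓ e0`, `c ⊓ ds s ≤ GL t`; take the child `(z, j)` with `ρ z = e0`,
`j = true`: either `c ⊓ e ≠ ⊥`-part works, or `c ⊓ ds s ≤ e0` on a smaller `c`. -/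
def T_RCL : Prop :=
  ∀ (B : Type) [CompleteBooleanAlgebra B] (C1 D : Set B), CSub C1 → CSub D → C1 ⊆ D →
    ∀ (Z : Type) (Y : Colm D Z) (ρ : Z → B) (φ : Z ≃ Z × Bool), (∀ z, ρ z ∈ D) →
      (∀ e ∈ D, ∃ z, ρ z = e) → (∀ z, ρ (φ z).1 = ρ z) → ∀ d ∈ C1,
      ∃ T : Tre C1 d (Z × Bool), (∀ s, T.ds s ∈ Y.Dn s.length) ∧
        ∀ e ∈ D, ∀ t : List Z, e ⊓ Y.GL t ⊓ d ≠ ⊥ →
          ∃ c ∈ C1, ∃ s, c ⊓ T.ds s ≠ ⊥ ∧ c ⊓ T.ds s ≤ e ⊓ Y.GL t

/-- The tree in the Levy algebra: `D = Blow mu`, column `nu` with `Iio nu ≃ Blow mu × M × ℕ` where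
`M = Set (Iio mu)` (so `mu ≤ nu`), `Y.G n z = cn {((nu, n), z)}`,
`Y.Dn n = Sp {j | j.1 < mu ∨ (j.1 = nu ∧ j.2 < n)}`. Every nonzero element with support in `lowcol`
contains a nonzero `e ⊓ GL t` with `e = cn (q restricted below mu)`. -/
def T_SYS : Prop :=
  ∀ (K : Type) [LinearOrder K], IK K → ∀ mu : K, ∃ (nu : K) (I : Type), mu ≤ nu ∧
    ∀ C1 : Set (BL K), CSub C1 → C1 ⊆ Blow mu → ∀ d ∈ C1,
      ∃ T : Tre C1 d I, (∀ s, T.ds s ∈ Sp (lowcol mu nu)) ∧
        ∀ z ∈ Sp (lowcol mu nu), z ⊓ d ≠ ⊥ →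
          ∃ c ∈ C1, ∃ s, c ⊓ T.ds s ≠ ⊥ ∧ c ⊓ T.ds s ≤ z

/-- Disjointness in the dense family. -/
def T_UDJ : Prop :=
  ∀ (K : Type) [LinearOrder K] (mu nu : K) (I : Type) (C1 : Set (BL K)), CSub C1 →
    C1 ⊆ Blow mu → ∀ d ∈ C1, ∀ T : Tre C1 d I, (∀ s, T.ds s ∈ Sp (lowcol mu nu)) →
      ∀ c ∈ C1, ∀ c' ∈ C1, c ≤ d → c' ≤ d → ∀ (s s' : List I) (r r' : Lv K),
        Off (lowcol mu nu) r → Off (lowcol mu nu) r' →
        (uu T c s r ⊓ uu T c' s' r' ≠ ⊥ ↔
          c ⊓ c' ≠ ⊥ ∧ (s <+: s' ∨ s' <+: s) ∧ ∃ r'', r'' ≤ r ∧ r'' ≤ r')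

/-- Density of the family. -/
def T_UDN : Prop :=
  ∀ (K : Type) [LinearOrder K] (mu nu : K) (I : Type) (C1 : Set (BL K)), CSub C1 →
    C1 ⊆ Blow mu → ∀ d ∈ C1, ∀ T : Tre C1 d I, (∀ s, T.ds s ∈ Sp (lowcol mu nu)) →
      (∀ z ∈ Sp (lowcol mu nu), z ⊓ d ≠ ⊥ →
          ∃ c ∈ C1, ∃ s, c ⊓ T.ds s ≠ ⊥ ∧ c ⊓ T.ds s ≤ z) →
      ∀ z : BL K, z ≤ d → z ≠ ⊥ → ∃ c ∈ C1, c ≤ d ∧ ∃ (s : List I) (r : Lv K),
        Off (lowcol mu nu) r ∧ uu T c s r ≠ ⊥ ∧ uu T c s r ≤ z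

/-- Isomorphisms from dense families: `π.f z = sSup {u' i | u i ≤ z}`. -/
def T_ISL : Prop :=
  ∀ (B : Type) [CompleteBooleanAlgebra B] (G G' : Set B), CSub G → CSub G' →
    ∀ d ∈ G, ∀ d' ∈ G', ∀ (ι : Type) (u u' : ι → B), (∀ i, u i ∈ G ∧ u i ≤ d) →
      (∀ i, u' i ∈ G' ∧ u' i ≤ d') →
      (∀ z ∈ G, z ≤ d → z ≠ ⊥ → ∃ i, u i ≠ ⊥ ∧ u i ≤ z) →
      (∀ z ∈ G', z ≤ d' → z ≠ ⊥ → ∃ i, u' i ≠ ⊥ ∧ u' i ≤ z) →
      (∀ i j, u i ⊓ u j = ⊥ ↔ u' i ⊓ u' j = ⊥) →
      ∃ π : PI G d G' d', ∀ i, π.f (u i) = u' i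

/-- Isomorphisms of ideals preserve `⊥`, meets, suprema and relative complements. -/
def T_PIB : Prop :=
  ∀ (B : Type) [CompleteBooleanAlgebra B] (G G' : Set B), CSub G → CSub G' →
    ∀ d ∈ G, ∀ d' ∈ G', ∀ π : PI G d G' d',
      π.f ⊥ = ⊥ ∧ π.f d = d' ∧
      (∀ z ∈ G, ∀ z' ∈ G, z ≤ d → z' ≤ d → π.f (z ⊓ z') = π.f z ⊓ π.f z') ∧
      (∀ S : Set B, S ⊆ G → (∀ z ∈ S, z ≤ d) → π.f (sSup S) = sSup (π.f '' S)) ∧
      (∀ z ∈ G, z ≤ d → π.f (zᶜ ⊓ d) = (π.f z)ᶜ ⊓ d')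

/-- (H2) Isomorphisms between principal ideals of complete subalgebras of `Blow mu` extend to the
Levy algebra. PROOF. `T_SYS` (the same `nu`, `I` for both), families indexed by
`{c ∈ C1 | c ≤ d1} × List I × {r | Off}`: `uu T1 c s r` and `uu T2 (θ.f c) s r`; `T_UDJ`, `T_UDN`,
`T_ISL` with `G = G' = univ`. For `z ∈ C1`: `z = uu T1 z [] ∅`. -/
def T_H2 : Prop :=
  ∀ (K : Type) [LinearOrder K], IK K → ∀ (mu : K) (C1 C2 : Set (BL K)), CSub C1 → CSub C2 →
    C1 ⊆ Blow mu → C2 ⊆ Blow mu → ∀ d1 ∈ C1, ∀ d2 ∈ C2, ∀ θ : PI C1 d1 C2 d2,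
      ∃ π : PI (Set.univ : Set (BL K)) d1 Set.univ d2, ∀ z ∈ C1, z ≤ d1 → π.f z = θ.f z

/-- (H3) Elements fixed by all automorphisms over a complete subalgebra of `Blow mu` are in it.
PROOF. `d = ⊤`. Let `c0 = sSup {c ∈ C1 | c ≤ z}` and suppose `z ⊓ c0ᶜ ≠ ⊥`: `uu T c s r ≤ z ⊓ c0ᶜ`,
nonzero. Then `c ≤ z` fails, so `uu T c' s' r' ≤ c ⊓ zᶜ`, nonzero, `c' ≤ c` (fullness) and we may
extend so that `s`, `s'` have the same length (children are nonzero and full). Take the automorphism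
given by `T_ISL` and the permutation of the index set which at every level `k` swaps `s k`, `s' k` and
at every coordinate swaps the values of `r` and `r'` (if both are defined). It fixes `C1`, maps
`uu T c s r` to `uu T c s' r1` with `r1` compatible with `r'`: contradiction with `π z = z`. -/
def T_H3 : Prop :=
  ∀ (K : Type) [LinearOrder K], IK K → ∀ (mu : K) (C1 : Set (BL K)), CSub C1 →
    C1 ⊆ Blow mu → ∀ z : BL K,
      (∀ π : PI (Set.univ : Set (BL K)) ⊤ Set.univ ⊤, (∀ c ∈ C1, π.f c = c) → π.f z = z) → z ∈ C1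

/-- Order isomorphisms of principal ideals from isomorphisms of ideals and back. -/
def T_OI : Prop :=
  ∀ (B : Type) [CompleteBooleanAlgebra B] (d d' : B),
    (∀ π : PI (Set.univ : Set B) d Set.univ d', ∃ o : Set.Iic d ≃o Set.Iic d',
      ∀ z : B, (o (rs z d) : B) = π.f (z ⊓ d)) ∧
    (∀ o : Set.Iic d ≃o Set.Iic d', ∃ π : PI (Set.univ : Set B) d Set.univ d',
      ∀ z : B, (o (rs z d) : B) = π.f (z ⊓ d))

/-! ## V: vectors -/

/-- Over a field with two elements, if the spans of the vectors of the words `x` and of the sequence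
`z` are not almost disjoint, some reduction of `x` has all its vectors in the span of `z`.
PROOF. The vectors `evs c x` are a block sequence, so an infinite dimensional subspace of their span
contains for every `N` a nonzero sum `Σ_{n ∈ I} evs c x n` with `min I ≥ N` (coefficients are `0`,
`1`); `y` uses the patterns `⟨I, I⟩`. -/
def T_V1 : Prop :=
  ∀ (F : Type) [Field F], (∀ a : F, a = 0 ∨ a = 1) →
    ∀ c : ℕ → (ℕ →₀ F) × (ℕ →₀ F), Inter c → ∀ x, Blk x → ∀ z : ℕ → (ℕ →₀ F),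
      ¬ AlmostDisjoint (spn (evs c x)) (spn z) →
      ∃ y, Blk y ∧ Le y x ∧ ∀ n, evs c y n ∈ spn z

/-- The special reduction is a block sequence below `x`. -/
def T_V2 : Prop := ∀ x, Blk x → Blk (zz x) ∧ Le (zz x) x

/-- The final contradiction. `W`, `W'` contain the vectors of `x`, `zz x`; `U1`, `U2` contain all
`(c i).1`, `(c i).2`. PROOF. `W ⊓ W'` contains all `evs c x (3 k)`, so `W = W'`;
`ev c (zz x (2 k + 1)) = Σ_{i ∈ (x (3 k + 1)).A} (c i).1 + ev c (x (3 k + 2))`, so these sums of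
`(c i).1` are in `W ⊓ U1` and `W = U1`; `ev c (x n) = Σ_A (c i).1 + Σ_V (c i).2` gives
`Σ_V (c i).2 ∈ U1 ⊓ U2` for all `n`: not almost disjoint. -/
def T_V3 : Prop :=
  ∀ (F : Type) [Field F] (c : ℕ → (ℕ →₀ F) × (ℕ →₀ F)), Inter c → ∀ x, Blk x →
    ∀ W W' U1 U2 : Submodule F (ℕ →₀ F), (∀ i, (c i).1 ∈ U1) → (∀ i, (c i).2 ∈ U2) →
      (∀ n, evs c x n ∈ W) → (∀ n, evs c (zz x) n ∈ W') →
      (W = W' ∨ AlmostDisjoint W W') → (W = U1 ∨ AlmostDisjoint W U1) →
      (U1 = U2 ∨ AlmostDisjoint U1 U2) → U1 = U2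

/-- Interleaved sequences exist, and the vectors of words over them are block sequences. -/
def T_V4 : Prop :=
  ∀ (F : Type) [Field F], (∀ a1 a2 : ℕ → (ℕ →₀ F), IsBlockSeq a1 → IsBlockSeq a2 →
      ∃ c : ℕ → (ℕ →₀ F) × (ℕ →₀ F), Inter c ∧ (∀ i, (c i).1 ∈ spn a1) ∧
        ∀ i, (c i).2 ∈ spn a2) ∧
    ∀ c : ℕ → (ℕ →₀ F) × (ℕ →₀ F), Inter c → ∀ x, Blk x → IsBlockSeq (evs c x)

/-- Borel sets of sequences of vectors (`ℕ →₀ F` is countable). `v ∈ spn x`: countable union over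
finite families of coefficients. `¬ AlmostDisjoint (spn x) (spn y)` for arbitrary sequences: for
every `N` some nonzero vector with support in `[N, ∞)` is in both spans (an infinite dimensional
subspace of `ℕ →₀ F` contains such vectors, a finite dimensional one does not for large `N`). -/
def T_V5 : Prop :=
  ∀ (F : Type) [Field F] [Countable F],
    Mes {x : ℕ → (ℕ →₀ F) | IsBlockSeq x} ∧
    (∀ v : ℕ →₀ F, Mes {x : ℕ → (ℕ →₀ F) | v ∈ spn x}) ∧
    Mes2 (fun x y : ℕ → (ℕ →₀ F) => spn x = spn y) ∧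
    Mes2 (fun x y : ℕ → (ℕ →₀ F) => AlmostDisjoint (spn x) (spn y)) ∧
    (∀ A : Set (ℕ → (ℕ →₀ F)), ClosedInProduct A → Mes A) ∧
    Mes {c : ℕ → (ℕ →₀ F) × (ℕ →₀ F) | Inter c}

/-- Borel relations between sequences of pairs, words and sequences of vectors. -/
def T_V6 : Prop :=
  ∀ (F : Type) [Field F] [Countable F],
    (∀ n v, Mes2 (fun (c : ℕ → (ℕ →₀ F) × (ℕ →₀ F)) (x : ℕ → Wd) => evs c x n = v)) ∧
    (∀ n v, Mes {c : ℕ → (ℕ →₀ F) × (ℕ →₀ F) | (c n).1 = v}) ∧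
    (∀ n v, Mes {c : ℕ → (ℕ →₀ F) × (ℕ →₀ F) | (c n).2 = v})

end SLV
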