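import Mathlib
import Pool.Agent.SLV.T1
import Pool.Agent.SLV.Basic

/-!
# MP_0a8ab4_lc, project SLV: targets, part 2 (forcing) (helper90)

Use the API of `Pool/Agent/SLV/Basic.lean`: `Forces.mono`, `Forces.weak`, `Forces.and`, `Forces.mp`,
`forces_all` (countable), `forces_of`, `forces_top`, `forces_imp_iff`, `forces_mem_iSup`,
`forces_sSup`, `forces_of_cover`, `eq_bot_of_forces_false`, `le_bval_iff`, `forces_bval`,
`inf_bval_le`, `le_of_forces`, `bval_mono'`, `bval_congr`, `DecIn.*`, `decIn_mes`, `decIn_mes2`,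
`Nm.pt_spec`, `exists_name`, `exists_map`, `exists_map2`, `exists_mix`, `exists_mix'`, `exists_max`,
`Nm.prod`, `Nm.const`. Typical proof that `b ≤ c`: `le_of_forces`, then pointwise reasoning with
`Forces.mono` after collecting the forced facts by `Forces.and`. Targets of part 1 (`T_W2`, ...) and
of part 2 may be hypotheses.
-/

set_option autoImplicit false

namespace SLV

open Cardinal CofSN Pool.Agent.MadBlock

/-! ## A: the transfer lemma -/

section Transfer

variable {B : Type} [CompleteBooleanAlgebra B] {X Y : Type}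

/-- closed relations: `R x y` holds if all pairs of initial segments have extensions in `R` -/
def Clo2 (R : (ℕ → X) → (ℕ → Y) → Prop) : Prop :=
  ∀ x y, (∀ n, ∃ x' y', R x' y' ∧ ∀ i < n, x' i = x i ∧ y' i = y i) → R x y

/-- `t` is in the tree of the section of `R` at `x` -/
def trE (R : (ℕ → X) → (ℕ → Y) → Prop) (x : ℕ → X) (t : List Y) : Prop :=
  ∃ x' y', R x' y' ∧ (∀ i < t.length, x' i = x i) ∧ pre y' t.length = t

/-- the derivatives of a Boolean valued tree -/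
noncomputable def rho (tv : List Y → B) (α : Ordinal.{0}) (t : List Y) : B :=
  tv t ⊓ ⨅ β : Set.Iio α, ⨆ a, rho tv β.1 (t ++ [a])
termination_by α
decreasing_by exact β.2

end Transfer

/-- Names of branches. If `h t ≤ [[t in the tree]]` and `h t ≤ ⨆ a, h (t ++ [a])`, all in `C`, then
for every `t0` there is a `C`-name `y` with `h t0` forcing `R x y`.
PROOF. `Y` is countable; fix an injection into `ℕ`. Pointwise definition of `y` at `u`: it starts with
`t0`; given `y|m = t ⊇ t0`, `y m` is the first `a` (in the enumeration) with `h (t ++ [a]) ∈ u`, if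
there is one. All values are decided in `C` (`exists_name`). If `h t0 ∈ u`, then for almost all `u`
(`forces_mem_iSup` for the countably many `t`) all `h (y|m) ∈ u`, `m ≥ t0.length`, so all `y|m` are
in the tree (at least those with `m ≥ t0.length`, enough), and `R` is closed. -/
def T_TRA : Prop :=
  ∀ (B : Type) [CompleteBooleanAlgebra B] (C : Set B), CSub C →
    ∀ (X Y : Type) [Countable X] [Countable Y] [Nonempty X] [Nonempty Y]
      (R : (ℕ → X) → (ℕ → Y) → Prop), Clo2 R → ∀ x : Nm B X, InC C x →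
      ∀ h : List Y → B, (∀ t, h t ∈ C) → (∀ t, Forces (h t) fun u => trE R (x.pt u) t) →
        (∀ t, h t ≤ ⨆ a, h (t ++ [a])) → ∀ t0, ∃ y : Nm B Y, InC C y ∧
          Forces (h t0) fun u => R (x.pt u) (y.pt u)

/-- The derivatives stabilise and stay in `C`. (`rho tv` is antitone in the ordinal; `α ↦ rho tv α`
is not injective: `not_injective_of_ordinal`; so `rho tv α = rho tv (α + 1)` for some `α`.) -/
def T_TRB : Prop :=
  ∀ (B : Type) [CompleteBooleanAlgebra B] (C : Set B), CSub C → ∀ (Y : Type) [Countable Y]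
    (tv : List Y → B), (∀ t, tv t ∈ C) →
      (∀ α t, rho tv α t ∈ C) ∧ (∀ α t, rho tv α t ≤ tv t) ∧
      ∃ α, ∀ t, rho tv α t ≤ ⨆ a, rho tv α (t ++ [a])

/-- Descent. If a nonzero `b` misses all `rho tv α t` for one `α`, where `tv t` is the Boolean value
of `t in the tree`, then there is a real `x0` with empty section.
PROOF. For a nonzero `p ≤ b` and a list `t` there is a least `γ ≤ α` with
`p ⊓ (rho tv γ t)ᶜ ≠ ⊥`; put `p' = p ⊓ (rho tv γ t)ᶜ`: then `p' ⊓ rho tv γ t = ⊥` and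
`p' ≤ rho tv β t` for `β < γ`. Build nonzero `p 0 ≥ p 1 ≥ ...` below `b`: `p (n+1) ≤ x.v n (x0 n)` and
`p (n+1)` decides in this way the ordinal `r (t_n)` of the `n`-th list. If `R x0 y`, let
`t k = pre y k`; for large `m`, `p m ≤ tv (t k)` (by `Forces`: `x.pt u` agrees with `x0` below `k`), so
`r (t (k+1)) < r (t k)`: otherwise `p m ≤ rho tv β (t (k+1))` for all `β < r (t k)` and
`p m ≤ rho tv (r (t k)) (t k)`. Infinite descent of ordinals. -/
def T_TRC : Prop :=
  ∀ (B : Type) [CompleteBooleanAlgebra B] (X Y : Type) [Countable X] [Countable Y] [Nonempty X]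
    [Nonempty Y] (R : (ℕ → X) → (ℕ → Y) → Prop), ∀ x : Nm B X, ∀ (b : B) (α : Ordinal.{0}),
      b ≠ ⊥ → (∀ t, b ⊓ rho (fun t => bval fun u => trE R (x.pt u) t) α t = ⊥) →
      ∃ x0, ∀ y, ¬ R x0 y

/-- The transfer lemma for closed relations. PROOF. `tv t = bval (trE R (x.pt u) t)` is in `C`
(`trE R · t` depends on finitely many values). By the maximum principle (`exists_max` with `N` = all
`C`-names, `Φ y = bval (R x y)`; closed relations are decided) take `y` with the largest value `g` of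
`R x y`. With `α` from `T_TRB` and `h = rho tv α`, `T_TRA` gives `rho tv α t ≤ g` for all `t`. If
`gᶜ ≠ ⊥`, `T_TRC` contradicts the hypothesis. -/
def T_TR0 : Prop :=
  ∀ (B : Type) [CompleteBooleanAlgebra B] (C : Set B), CSub C →
    ∀ (X Y : Type) [Countable X] [Countable Y] [Nonempty X] [Nonempty Y]
      (R : (ℕ → X) → (ℕ → Y) → Prop), Clo2 R → (∀ x, ∃ y, R x y) → ∀ x : Nm B X, InC C x →
      ∃ y : Nm B Y, InC C y ∧ Forces ⊤ fun u => R (x.pt u) (y.pt u)

/-- (T) The transfer lemma. PROOF. With the discrete topologies `ℕ → X × Y` is Polish, the Borel set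
`{z | P ..}` is analytic (`MeasurableSet.analyticSet`, `MeasureTheory.AnalyticSet`): the range of a
continuous `f : (ℕ → ℕ) → (ℕ → X × Y)` (it is not empty since `∀ x, ∃ y`). Apply `T_TR0` to the closed
relation `R x (y, z) : f z = (x, y)` with `Y × ℕ` for `Y`, and project. (`bsp` is the Borel σ-algebra
of the product of discrete topologies.) -/
def T_TR : Prop :=
  ∀ (B : Type) [CompleteBooleanAlgebra B] (C : Set B), CSub C →
    ∀ (X Y : Type) [Countable X] [Countable Y] [Nonempty X] [Nonempty Y]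
      (P : (ℕ → X) → (ℕ → Y) → Prop), Mes2 P → (∀ x, ∃ y, P x y) → ∀ x : Nm B X, InC C x →
      ∃ y : Nm B Y, InC C y ∧ Forces ⊤ fun u => P (x.pt u) (y.pt u)

/-! ## C: fusion and the Nash-Williams lemma -/

instance : Countable Wd :=
  Function.Injective.countable (f := fun w : Wd => (w.A, w.V)) fun a b h => by
    cases a; cases b; simp_all

/-- Elementary facts on `LeT`, `Nb`, `InF`, `Beyond`. (For the first: `w' n = act w' p` beyond `t`
implies that all `w' i`, `i ∈ p.A`, are beyond `t`.) -/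
def T_W10 : Prop :=
  (∀ (t : List Wd) (y w v : ℕ → Wd), LeT t y w → LeT t w v → LeT t y v) ∧
  (∀ (t : List Wd) (y w : ℕ → Wd), Le y w → LeT t y w) ∧
  (∀ (t s : List Wd) (y w : ℕ → Wd), LeT s y w → LeT (t ++ s) y w) ∧
  (∀ (t : List Wd) (w' w y : ℕ → Wd), LeT t w' w → Nb t w' y → Nb t w y) ∧
  (∀ (t : List Wd) (w y : ℕ → Wd), Nb t w y → BlkL t ∧ ∀ n, t.length ≤ n → Beyond t (y n)) ∧
  (∀ (t : List Wd) (w' w : ℕ → Wd), Le w' w → InF t w' → InF t w) ∧
  (∀ (t : List Wd) (w : ℕ → Wd) (q : Wd), InF (t ++ [q]) w ↔ InF t w ∧ q ∈ Rg w ∧ Beyond t q) ∧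
  (∀ (t : List Wd) (w y : ℕ → Wd), Nb t w y → Nb (t ++ [y t.length]) w y ∧
    y t.length ∈ Rg w ∧ Beyond t (y t.length)) ∧
  (∀ (t s : List Wd) (w y : ℕ → Wd), Nb (t ++ s) w y → (∀ q ∈ s, q ∈ Rg w) → Nb t w y)

/-- The maximum principle for a functional. There is `w' ≤ w` in `CN` at which `α t` is largest.
PROOF. `exists_max` with `N = {w' | CN C w', Le w' w forced}` and `Φ = α t`. For `w''` with
`LeT t w'' w` forced by `c` only: let `v` be `w''` without its members which are not beyond `t`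
(`v n = w'' (n + m)`, `m` least with `w'' m` beyond `t`), mix it with `w` off `c`: in `N`, and
`c ⊓ α t w'' ≤ α t v` by `mono`. -/
def T_MXF : Prop :=
  ∀ (B : Type) [CompleteBooleanAlgebra B] (C : Set B), CSub C →
    ∀ α : List Wd → Nm B Wd → B, FunH C α → ∀ t w, CN C w →
      ∃ w', CN C w' ∧ Forces ⊤ (fun u => Le (w'.pt u) (w.pt u)) ∧
        ∀ w'' c, CN C w'' → c ∈ C → Forces c (fun u => LeT t (w''.pt u) (w.pt u)) →
          c ⊓ α t w'' ≤ α t w'

/-- The pigeonhole principle for `C`-names: `T_TR` applied to the relation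
`Blk w → Blk w' ∧ Le w' w ∧ (f constant on Rg w')` between `(w, f)` and `w'`, where `f : Wd → B` gives
a `C`-name of a sequence of Booleans along an enumeration of `Wd`; `T_PHw`. -/
def T_HOM : Prop :=
  ∀ (B : Type) [CompleteBooleanAlgebra B] (C : Set B), CSub C → ∀ w, CN C w →
    ∀ f : Wd → B, (∀ q, f q ∈ C) →
      ∃ w', CN C w' ∧ Forces ⊤ (fun u => Le (w'.pt u) (w.pt u)) ∧
        Forces ⊤ fun u => (∀ q ∈ Rg (w'.pt u), u.mem (f q)) ∨ ∀ q ∈ Rg (w'.pt u), ¬ u.mem (f q)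

/-- Finite iteration of `QH.ex`. -/
def T_QIT : Prop :=
  ∀ (B : Type) [CompleteBooleanAlgebra B] (C : Set B), CSub C →
    ∀ Q : List Wd → Nm B Wd → B, QH C Q → ∀ w, CN C w → ∀ L : Set (List Wd), L.Finite →
      (∀ t ∈ L, BlkL t) →
      ∃ w', CN C w' ∧ Forces ⊤ (fun u => Le (w'.pt u) (w.pt u)) ∧ ∀ t ∈ L, Q t w' = ⊤

/-- One step of the fusion. PROOF. Mix over the values `τ` of `pre (w.pt u) n` (countably many; the
finite set of stems of depth `n` depends only on `τ`, `T_W9`) the names given by `T_QIT`: a `C`-name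
`v ≤ w`. Let `w' = glue n w v` (`exists_map2`, `T_M5`, `T_W8`). On
`c = [[FinN n t w]] ⊓ [[pre w n = τ]]`: `Q t v_τ = ⊤`, `v = v_τ`, `LeT t w' v`; so `c ≤ Q t w'`. -/
def T_FS : Prop :=
  ∀ (B : Type) [CompleteBooleanAlgebra B] (C : Set B), CSub C →
    ∀ Q : List Wd → Nm B Wd → B, QH C Q → ∀ n w, CN C w →
      ∃ w', CN C w' ∧
        Forces ⊤ (fun u => (∀ i < n, w'.pt u i = w.pt u i) ∧ Le (w'.pt u) (w.pt u)) ∧
        ∀ t, bval (fun u => FinN n t (w.pt u)) ≤ Q t w'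

/-- Limits of fusion sequences: `w∞ i = (w (i + 1)) i`. -/
def T_LIM : Prop :=
  ∀ (B : Type) [CompleteBooleanAlgebra B] (C : Set B), CSub C → ∀ w : ℕ → Nm B Wd,
    (∀ n, CN C (w n)) → (∀ n, Forces ⊤ fun u =>
      (∀ i < n, (w (n + 1)).pt u i = (w n).pt u i) ∧ Le ((w (n + 1)).pt u) ((w n).pt u)) →
    ∃ w', CN C w' ∧ Forces ⊤ fun u => ∀ n, (∀ i < n, w'.pt u i = (w n).pt u i) ∧
      Le (w'.pt u) ((w n).pt u)

/-- The fusion lemma: iterate `T_FS`, take the limit (`T_LIM`); `t ∈ Fin(w')` has a depth `n`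
(`T_W4`), which is also its depth for `w n` (`T_W9`). -/
def T_FUS : Prop :=
  ∀ (B : Type) [CompleteBooleanAlgebra B] (C : Set B), CSub C →
    ∀ Q : List Wd → Nm B Wd → B, QH C Q → ∀ w, CN C w →
      ∃ w', CN C w' ∧ Forces ⊤ (fun u => Le (w'.pt u) (w.pt u)) ∧
        ∀ t, bval (fun u => InF t (w'.pt u)) ≤ Q t w'

/-- `w` is diagonal for `α`: no `w'' ≤ w` has larger values at stems generated by `w` -/
def Dia {B : Type} [CompleteBooleanAlgebra B] (C : Set B) (α : List Wd → Nm B Wd → B)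
    (w : Nm B Wd) : Prop :=
  ∀ t w'' c, CN C w'' → c ∈ C →
    Forces c (fun u => Le (w''.pt u) (w.pt u) ∧ InF t (w.pt u)) → c ⊓ α t w'' ≤ α t w

/-- Diagonalisation. PROOF. `hat α t w = sSup {c ⊓ α t w'' | CN w'', c ∈ C, c forces LeT t w'' w}`;
`Q t w = ((hat α t w)ᶜ ⊔ α t w) ⊓ ((hat β t w)ᶜ ⊔ β t w)` satisfies `QH` (`T_W10`, `T_MXF` twice);
apply `T_FUS`. -/
def T_DIA : Prop :=
  ∀ (B : Type) [CompleteBooleanAlgebra B] (C : Set B), CSub C →
    ∀ α β : List Wd → Nm B Wd → B, FunH C α → FunH C β → ∀ w, CN C w →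
      ∃ w', CN C w' ∧ Forces ⊤ (fun u => Le (w'.pt u) (w.pt u)) ∧ Dia C α w' ∧ Dia C β w'

/-- Homogenisation at all stems. PROOF. `Q t w` = the Boolean value of: all or none of the
`q ∈ Rg w` beyond `t` have `f t q ∈ u`, and the same for `g`. `QH`: `mono` is clear, `ex` by `T_HOM`
twice. Apply `T_FUS`. -/
def T_HMG : Prop :=
  ∀ (B : Type) [CompleteBooleanAlgebra B] (C : Set B), CSub C →
    ∀ f g : List Wd → Wd → B, (∀ t q, f t q ∈ C) → (∀ t q, g t q ∈ C) → ∀ w, CN C w →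
      ∃ w', CN C w' ∧ Forces ⊤ (fun u => Le (w'.pt u) (w.pt u)) ∧ ∀ t,
        Forces ⊤ fun u => InF t (w'.pt u) →
          ((∀ q ∈ Rg (w'.pt u), Beyond t q → u.mem (f t q)) ∨
            ∀ q ∈ Rg (w'.pt u), Beyond t q → ¬ u.mem (f t q)) ∧
          ((∀ q ∈ Rg (w'.pt u), Beyond t q → u.mem (g t q)) ∨
            ∀ q ∈ Rg (w'.pt u), Beyond t q → ¬ u.mem (g t q))

/-- The Nash-Williams lemma at the empty stem. PROOF. `w1` diagonal (`T_DIA`), `w2 ≤ w1` homogeneous
for `f t q = α (t ++ [q]) w1`, `g t q = β (t ++ [q]) w1` (`T_HMG`). For `t` with `InF t w2`: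
`α t w1 ≤ α t w2` and `[[InF t w2]] ⊓ α t w2 ≤ α t w1`, same for `β`. `U = (α [] w2 ⊔ β [] w2)ᶜ`.
Claim: `U ⊓ [[InF t w2]] ⊓ (α t w2 ⊔ β t w2) = ⊥` for all `t` (induction, `List.reverseRecOn`): for
`t = s ++ [q]` let `E = U ⊓ [[InF (s ++ [q]) w2]] ⊓ α (s ++ [q]) w2`; on `E` the second alternative
of the homogeneity at `s` fails, so `E ⊓ [[q' ∈ Rg w2]] ≤ α (s ++ [q']) w2` for all `q'` beyond `s`, so
`E ≤ α s w2` by `glue`, so `E = ⊥` by the induction hypothesis. If `U ≠ ⊥`, `DnA` at `w2`, `U` gives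
`c'`, `s`, `w'`; `c' ⊓ α s w' ≤ α s w1 ≤ α s w2` by `Dia`, so `c' ⊓ α s w' = ⊥`, same for `β`. -/
def T_NW0 : Prop :=
  ∀ (B : Type) [CompleteBooleanAlgebra B] (C : Set B), CSub C →
    ∀ α β : List Wd → Nm B Wd → B, FunH C α → FunH C β → DnA C α β [] → ∀ w, CN C w →
      ∃ w', CN C w' ∧ Forces ⊤ (fun u => Le (w'.pt u) (w.pt u)) ∧ α [] w' ⊔ β [] w' = ⊤

/-- The Nash-Williams lemma at a stem `t`: `T_NW0` for `fun s w => α (t ++ s) w` (`T_W10`). -/
def T_NW : Prop :=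
  ∀ (B : Type) [CompleteBooleanAlgebra B] (C : Set B), CSub C →
    ∀ α β : List Wd → Nm B Wd → B, FunH C α → FunH C β → ∀ t, DnA C α β t → ∀ w, CN C w →
      ∃ w', CN C w' ∧ Forces ⊤ (fun u => Le (w'.pt u) (w.pt u)) ∧ α t w' ⊔ β t w' = ⊤

/-! ## G: capturing dense sets, generic names -/

/-- Functionals defined by a family of pairs (name, bound): `mono`, `glue` (`T_W10`). Used for `capt`
(all names `y`, `M y = MD Δ y`) and for `aS` (generic names). PROOF of `glue`: for `y` in the family,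
`c ⊓ [[Nb t w y]]` is covered by the `y.v t.length q`; there `q` is beyond `t`, in `Rg w`, and
`Nb (t ++ [q]) w y`. -/
def T_FUN : Prop :=
  ∀ (B : Type) [CompleteBooleanAlgebra B] (C : Set B), CSub C →
    ∀ (N : Set (Nm B Wd)) (M : Nm B Wd → B),
      FunH C fun t w => sSup {c | c ∈ C ∧
        ∀ y ∈ N, c ⊓ bval (fun u => Nb t (w.pt u) (y.pt u)) ≤ M y}

/-- The supremum in the definition of the functional has the property. -/
def T_FUP : Prop :=
  ∀ (B : Type) [CompleteBooleanAlgebra B] (C : Set B) (N : Set (Nm B Wd)) (M : Nm B Wd → B)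
    (t : List Wd) (w : Nm B Wd), ∀ y ∈ N,
      sSup {c | c ∈ C ∧ ∀ y ∈ N, c ⊓ bval (fun u => Nb t (w.pt u) (y.pt u)) ≤ M y} ⊓
        bval (fun u => Nb t (w.pt u) (y.pt u)) ≤ M y

/-- `capt Δ` and the zero functional satisfy the hypotheses of the Nash-Williams lemma. (`glue` for
zero: the `[[q ∈ Rg w]]`, `q` beyond `t`, have supremum `⊤`. Density: `(c, t, w)` has an extension
`p'` in `Δ`; `p'.c ≤ capt Δ p'.t p'.w`.) -/
def T_CPF : Prop :=
  ∀ (B : Type) [CompleteBooleanAlgebra B] (C : Set B), CSub C → ∀ Δ : Set (Cd C),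
    FunH C (capt Δ) ∧ FunH C (fun _ _ => (⊥ : B)) ∧
    (Dns Δ → ∀ t, BlkL t → DnA C (capt Δ) (fun _ _ => ⊥) t)

/-- Finitely many dense sets can be captured. (`T_NW`, `T_CPF`, induction on the list.) -/
def T_CPQ : Prop :=
  ∀ (B : Type) [CompleteBooleanAlgebra B] (C : Set B), CSub C → ∀ L : List (Set (Cd C)),
    (∀ Δ ∈ L, Dns Δ) → QH C fun s w => ⨅ Δ ∈ L, capt Δ s w

/-- the Boolean value of: the sequence with name `g` starts with `σ` -/
def gval {B : Type} [CompleteBooleanAlgebra B] {D : Type} (g : Nm B D) (σ : List D) : B :=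
  ⨅ i : Fin σ.length, g.v i (σ.get i)

/-- The tree of names. `W (σ ++ [Δ])` is obtained from `W σ` by `T_FS` with `n = σ.length` and the
functional of `T_CPQ` for the list `σ ++ [Δ]`. (Recursion on the reversed list.) -/
def T_HG1 : Prop :=
  ∀ (B : Type) [CompleteBooleanAlgebra B] (C : Set B), CSub C → ∀ w, CN C w →
    ∃ W : List {Δ : Set (Cd C) // Dns Δ} → Nm B Wd, W [] = w ∧ (∀ σ, CN C (W σ)) ∧
      ∀ σ Δ, (Forces ⊤ fun u =>
        (∀ i < σ.length, (W (σ ++ [Δ])).pt u i = (W σ).pt u i) ∧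
          Le ((W (σ ++ [Δ])).pt u) ((W σ).pt u)) ∧
        ∀ s, ∀ Δ' ∈ σ ++ [Δ],
          bval (fun u => FinN σ.length s ((W σ).pt u)) ≤ capt Δ'.1 s (W (σ ++ [Δ]))

/-- The limit along a `B`-name `g` of a branch:
`x.v n a = ⨆ σ (of length n + 1), gval g σ ⊓ (W σ).v n a`. On `gval g σ`, `x n = W σ n` for
`n < σ.length`; for `n ≥ σ.length` split by the extensions of `σ` of length `n + 1`. -/
def T_HG2 : Prop :=
  ∀ (B : Type) [CompleteBooleanAlgebra B] (D : Type) (g : Nm B D) (W : List D → Nm B Wd),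
    (∀ σ, Forces ⊤ fun u => Blk ((W σ).pt u)) →
    (∀ σ d, Forces ⊤ fun u => (∀ i < σ.length, (W (σ ++ [d])).pt u i = (W σ).pt u i) ∧
      Le ((W (σ ++ [d])).pt u) ((W σ).pt u)) →
    ∃ x : Nm B Wd, (Forces ⊤ fun u => Blk (x.pt u)) ∧
      ∀ σ, Forces (gval g σ) fun u => (∀ i < σ.length, x.pt u i = (W σ).pt u i) ∧
        Le (x.pt u) ((W σ).pt u)

/-- (HG) Names all of whose reductions are generic. PROOF. `W` from `T_HG1`, `x` from `T_HG2`. Let
`b` force `y ≤ x`, `Δ` dense. It is enough to show `c ≤ MD Δ y` for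
`c = b ⊓ [[pre y k = s]] ⊓ gval g (σ ++ [Δ0]) ⊓ [[FinN N s x]]` with `N = σ.length`, `k = j + 1 ≤ N`,
`σ j = Δ`: these elements cover `b` (`GSurj g`; `T_W5`). On `c`: `FinN N s (W σ)` (`T_W9`), so
`c ≤ capt Δ s (W (σ ++ [Δ0]))`, and `Nb s (W (σ ++ [Δ0])) y` by `T_W7` (`x i ∈ Rg (W (σ ++ [Δ0]))` for
all `i`); `T_FUP`. -/
def T_HG : Prop :=
  ∀ (B : Type) [CompleteBooleanAlgebra B] (C : Set B), CSub C →
    ∀ g : Nm B {Δ : Set (Cd C) // Dns Δ}, GSurj g → ∀ w, CN C w →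
      ∃ x : Nm B Wd, (Forces ⊤ fun u => Blk (x.pt u) ∧ Le (x.pt u) (w.pt u)) ∧
        ∀ (b : B) (y : Nm B Wd), (Forces b fun u => Blk (y.pt u) ∧ Le (y.pt u) (x.pt u)) →
          ∀ Δ : Set (Cd C), Dns Δ → b ≤ MD Δ y

/-! ## D: decision -/

/-- `CdLe` is a preorder and `uv` is monotone. (`p.c` forces `Le w w`.) -/
def T_CDL : Prop :=
  ∀ (B : Type) [CompleteBooleanAlgebra B] (C : Set B), CSub C →
    (∀ p : Cd C, CdLe p p) ∧ (∀ p q r : Cd C, CdLe p q → CdLe q r → CdLe p r) ∧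
    (∀ (p q : Cd C) (x : Nm B Wd), CdLe p q → uv x p ≤ uv x q)

/-- Below every condition `p0` some condition is below `p` or is disjoint from `p` for all names.
PROOF. If `p0.c ⊓ p.c = ⊥`: `p0`. Otherwise shrink `p0.c` below `p.c`; extend the stem of `p0` to
length at least `p.t.length` by the first members of `p0.w` beyond it (shrink `c` to decide them). If
`p.t` is not an initial segment of the new stem `t`: disjoint. Let
`e = [[all new entries (after p.t) of t are in Rg p.w]]`; if `c ⊓ e = ⊥`: disjoint; otherwise shrink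
`c` below `e`. By `T_HOM` (with `f q = [[q ∈ Rg p.w]]`) take `w' ≤ p0.w` such that all or none of
`Rg w'` are in `Rg p.w`; shrink `c` to decide which: all: below `p`; none: disjoint. -/
def T_DC1 : Prop :=
  ∀ (B : Type) [CompleteBooleanAlgebra B] (C : Set B), CSub C → ∀ p0 p : Cd C,
    ∃ p', CdLe p' p0 ∧ (CdLe p' p ∨ ∀ y : Nm B Wd, uv y p' ⊓ uv y p = ⊥)

/-- (MEET) For generic `x`, `uv x p ⊓ uv x q` is the supremum of the `uv x r`, `r ≤ p, q`. PROOF.
`{r | (r ≤ p or disjoint from p) and (r ≤ q or disjoint from q)}` is dense by `T_DC1` (twice,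
`T_CDL`); `MD = ⊤`. -/
def T_MEE : Prop :=
  ∀ (B : Type) [CompleteBooleanAlgebra B] (C : Set B), CSub C → ∀ x : Nm B Wd, Gnr C x →
    ∀ p q : Cd C, uv x p ⊓ uv x q ≤ sSup {z | ∃ r : Cd C, CdLe r p ∧ CdLe r q ∧ z = uv x r}

/-- (DX) Every nonzero element of `Gen C x` contains a nonzero `uv x p`. PROOF. Let `Z` be the set of
all `z` such that `{p | uv x p ≤ z ∨ uv x p ⊓ z = ⊥}` is dense. For `z ∈ Z`, `x` generic gives
`z = sSup {uv x p | uv x p ≤ z}`. `Z` is closed under complements; under suprema: given `p0` with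
`uv x p0 ⊓ sSup S ≠ ⊥`, some `z ∈ S` and `p` with `uv x p ≤ z`, `uv x p0 ⊓ uv x p ≠ ⊥`, now `T_MEE`.
`C ⊆ Z` (shrink `p.c`), `x.v n a ∈ Z` (extend the stem to length `> n` by members of `p.w` beyond
it). -/
def T_DX : Prop :=
  ∀ (B : Type) [CompleteBooleanAlgebra B] (C : Set B), CSub C → ∀ x : Nm B Wd, Gnr C x →
    ∀ z ∈ Gen C x, z ≠ ⊥ → ∃ p : Cd C, uv x p ≠ ⊥ ∧ uv x p ≤ z

/-- (PX) Below a condition of nonzero value there is a hereditarily positive one. PROOF.
`{p | uv x p = ⊥ ∨ HP x p}` is dense, so some `q` in it has `uv x q ⊓ uv x p ≠ ⊥`; `HP x q`; `T_MEE`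
gives `r ≤ p, q`. -/
def T_PX : Prop :=
  ∀ (B : Type) [CompleteBooleanAlgebra B] (C : Set B), CSub C → ∀ x : Nm B Wd, Gnr C x →
    ∀ p : Cd C, uv x p ≠ ⊥ → ∃ q, CdLe q p ∧ HP x q

/-- (ISO) The isomorphism given by a condition which is hereditarily positive for two generic names.
PROOF. `T_ISL` with the index set `{q // CdLe q p}` and the families `uv x q`, `uv x' q`: dense by
`T_DX`, `T_MEE` (`uv x q ≤ z ≤ uv x p`, find `r ≤ q, p`); `uv x q ⊓ uv x r ≠ ⊥` iff `q`, `r` have a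
common extension (`T_MEE`, `HP`). For `c ∈ C`: `c ⊓ uv x p` is the supremum of the `uv x q`, `q ≤ p`,
`q.c ≤ c`; for `x.v n a ⊓ uv x p`: the supremum of the `uv x q`, `q ≤ p`, with stem longer than `n`
and entry `a` at `n`; `T_PIB`. -/
def T_ISO : Prop :=
  ∀ (B : Type) [CompleteBooleanAlgebra B] (C : Set B), CSub C → ∀ x x' : Nm B Wd, Gnr C x →
    Gnr C x' → ∀ p : Cd C, HP x p → HP x' p →
      ∃ θ : PI (Gen C x) (uv x p) (Gen C x') (uv x' p),
        (∀ c ∈ C, θ.f (c ⊓ uv x p) = c ⊓ uv x' p) ∧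
        ∀ n a, θ.f (x.v n a ⊓ uv x p) = x'.v n a ⊓ uv x' p

/-- `uv x p` is in `Gen C x`. (`bval` of a Borel predicate in the names `p.w`, `x`, both with values
in `Gen C x`.) -/
def T_UVG : Prop :=
  ∀ (B : Type) [CompleteBooleanAlgebra B] (C : Set B), CSub C → ∀ (x : Nm B Wd) (p : Cd C),
    uv x p ∈ Gen C x

/-- the functional of a Boolean valued predicate `S`: the largest `c ∈ C` forcing that all generic
reals in the neighbourhood have `S` -/
noncomputable def aS {B : Type} [CompleteBooleanAlgebra B] (C : Set B) (S : Nm B Wd → B)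
    (t : List Wd) (w : Nm B Wd) : B :=
  sSup {c | c ∈ C ∧ ∀ x ∈ {x : Nm B Wd | Gnr C x}, c ⊓ bval (fun u => Nb t (w.pt u) (x.pt u)) ≤ S x}

/-- Density of the decision. PROOF. Given `w`, `c`: `x ≤ w` generic by `T_HG`. Say
`z = c ⊓ S x ≠ ⊥` (or `c ⊓ (S x)ᶜ ≠ ⊥`, symmetric). `z ∈ Gen C x`. With `p0 = (c, [], w)`:
`uv x p0 = c`. `T_DX` gives `p1` with `⊥ ≠ uv x p1 ≤ z`, `T_MEE` gives `p2 ≤ p0, p1` with
`uv x p2 ≠ ⊥`, `T_PX` gives `p3 ≤ p2` hereditarily positive for `x`. Claim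
`p3.c ≤ aS C S p3.t p3.w`: otherwise some generic `x'` has `e = uv x' p3 ⊓ (S x')ᶜ ≠ ⊥`, in
`Gen C x'`; as before some `p4 ≤ p3` is hereditarily positive for `x'` with `uv x' p4 ≤ e`; it is
hereditarily positive for `x`, too. `T_ISO` and `Coh.iso` with `d = uv x p4 ≤ S x`:
`d' = θ d = S x' ⊓ d' = ⊥`, contradiction. Output of `DnA`: `c' = p3.c`, `s = p3.t`, `w' = p3.w`. -/
def T_PDD : Prop :=
  ∀ (B : Type) [CompleteBooleanAlgebra B] (C : Set B), CSub C →
    ∀ g : Nm B {Δ : Set (Cd C) // Dns Δ}, GSurj g → ∀ S : Nm B Wd → B, Coh C S →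
      DnA C (aS C S) (aS C fun x => (S x)ᶜ) []

/-- (PD) Decision. PROOF. `T_NW0` with `T_FUN`, `T_PDD`; `γ = aS C S [] w'`; for generic
`x ≤ w'`: `[[Nb [] w' x]] = ⊤` (`Blk x` is forced since `MD univ x = ⊤`), `T_FUP`. -/
def T_PD : Prop :=
  ∀ (B : Type) [CompleteBooleanAlgebra B] (C : Set B), CSub C →
    ∀ g : Nm B {Δ : Set (Cd C) // Dns Δ}, GSurj g → ∀ S : Nm B Wd → B, Coh C S → ∀ w, CN C w →
      ∃ w', CN C w' ∧ Forces ⊤ (fun u => Le (w'.pt u) (w.pt u)) ∧ ∃ γ ∈ C,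
        ∀ x : Nm B Wd, Gnr C x → (Forces ⊤ fun u => Blk (x.pt u) ∧ Le (x.pt u) (w'.pt u)) →
          S x = γ

/-! ## E: invariance, the final argument -/

/-- Boolean values of Borel predicates are invariant. PROOF. Induction over the generated σ-algebra
(`MeasurableSpace.generateFrom_induction`): generators: `v_eq_bval`; complements and countable
unions: `DecIn.eq_bval` (with `C = univ`), `T_PIB`. -/
def T_INV : Prop :=
  ∀ (B : Type) [CompleteBooleanAlgebra B] (d d' : B) (π : PI (Set.univ : Set B) d Set.univ d')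
    (X : Type) [Nonempty X] (x x' : Nm B X), (∀ n a, π.f (x.v n a ⊓ d) = x'.v n a ⊓ d') →
      ∀ A : Set (ℕ → X), Mes A →
        π.f (bval (fun u => x.pt u ∈ A) ⊓ d) = bval (fun u => x'.pt u ∈ A) ⊓ d'

/-- Names can be transported. (`x'.v n a = π.f (x.v n a ⊓ d) ⊔ (d'ᶜ ⊓ (if a = a0 then ⊤ else ⊥))`;
for the inverse isomorphism swap `f` and `g`.) -/
def T_TRN : Prop :=
  ∀ (B : Type) [CompleteBooleanAlgebra B] (d d' : B) (π : PI (Set.univ : Set B) d Set.univ d')
    (X : Type) [Nonempty X] (x : Nm B X),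
      (∃ x' : Nm B X, ∀ n a, π.f (x.v n a ⊓ d) = x'.v n a ⊓ d') ∧
      (∃ x' : Nm B X, ∀ n a, π.f (x'.v n a ⊓ d) = x.v n a ⊓ d')

/-- invariance of a Boolean valued set under the isomorphisms over `C` -/
def InvS {B : Type} [CompleteBooleanAlgebra B] (C : Set B) {X : Type} (S : Nm B X → B) : Prop :=
  ∀ (d d' : B) (π : PI (Set.univ : Set B) d Set.univ d'), (∀ c ∈ C, π.f (c ⊓ d) = c ⊓ d') →
    ∀ x x' : Nm B X, (∀ n a, π.f (x.v n a ⊓ d) = x'.v n a ⊓ d') → π.f (S x ⊓ d) = S x' ⊓ d'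

/-- the predicate `D`: some member of `S` contains all vectors of `x` -/
noncomputable def DS {B : Type} [CompleteBooleanAlgebra B] {F : Type} [Field F]
    (S : Nm B (ℕ →₀ F) → B) (c : Nm B ((ℕ →₀ F) × (ℕ →₀ F))) (x : Nm B Wd) : B :=
  ⨆ y, S y ⊓ bval fun u => ∀ n, evs (c.pt u) (x.pt u) n ∈ spn (y.pt u)

/-- `DS` is invariant and respects equality. PROOF. `π.f (DS x ⊓ d)` is the supremum over `y` of
`π.f (S y ⊓ d) ⊓ π.f (bval .. ⊓ d)` (`T_PIB`); transport `y` (`T_TRN`), use the invariance of `S` and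
`T_INV` for the name `(c.prod x).prod y` and the Borel set given by `T_V5`, `T_V6`
(`c` is a `C`-name, so `π.f (c.v n a ⊓ d) = c.v n a ⊓ d'`). -/
def T_DI : Prop :=
  ∀ (B : Type) [CompleteBooleanAlgebra B] (C : Set B), CSub C → ∀ (F : Type) [Field F]
    [Countable F] (S : Nm B (ℕ →₀ F) → B), InvS C S →
      ∀ c : Nm B ((ℕ →₀ F) × (ℕ →₀ F)), InC C c → InvS C (DS S c) ∧
        ∀ x y : Nm B Wd, DS S c x ⊓ bval (fun u => x.pt u = y.pt u) ≤ DS S c y

/-- In the Levy algebra invariant predicates are coherent. PROOF. `Gen (Blow lam) x ⊆ Blow mu` for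
some `mu` (`T_H1` for the countably many `x.v n a`, and `lam ≤ mu`). `gen`: `T_H3` (an automorphism
over `Gen C x` fixes all `x.v n a`, so it fixes `S x` by invariance with `d = d' = ⊤`). `iso`:
extend `θ` by `T_H2` (a common `mu` for `x`, `x'`). -/
def T_COH : Prop :=
  ∀ (K : Type) [LinearOrder K], IK K → ∀ (lam : K) (S : Nm (BL K) Wd → BL K),
    InvS (Blow lam) S → (∀ x y : Nm (BL K) Wd, S x ⊓ bval (fun u => x.pt u = y.pt u) ≤ S y) →
      Coh (Blow lam) S

/-- The generic surjection over `Blow lam`: `T_H4` and `T_CAR` (there are fewer than `#K` dense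
sets; the set of all conditions is dense). -/
def T_GSX : Prop :=
  ∀ (K : Type) [LinearOrder K], IK K → ∀ lam : K,
    ∃ g : Nm (BL K) {Δ : Set (Cd (Blow (K := K) lam)) // Dns Δ}, GSurj g

/-- Two members with different spans. PROOF. The fifth clause of `madV` with `k = 0` gives `y1` with
`e1 = madV S ⊓ S y1 ≠ ⊥`; with `k = 1`, `x 0 = y1`, it gives `y2` with
`e = e1 ⊓ S y2 ⊓ [[spn y2 ≠ spn y1]] ≠ ⊥`. -/
def T_B1 : Prop :=
  ∀ (B : Type) [CompleteBooleanAlgebra B] (F : Type) [Field F] (S : Nm B (ℕ →₀ F) → B),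
    madV S ≠ ⊥ → ∃ (e : B) (a1 a2 : Nm B (ℕ →₀ F)), e ≠ ⊥ ∧ e ≤ madV S ∧ e ≤ S a1 ∧ e ≤ S a2 ∧
      Forces e fun u => spn (a1.pt u) ≠ spn (a2.pt u)

/-- The name of the interleaved sequence. (`T_TR` with the relation
`IsBlockSeq a1 ∧ IsBlockSeq a2 → Inter c ∧ ...`, `T_V4`, `T_V5`, `T_V6`.) -/
def T_B2 : Prop :=
  ∀ (B : Type) [CompleteBooleanAlgebra B] (C : Set B), CSub C → ∀ (F : Type) [Field F]
    [Countable F] (a1 a2 : Nm B (ℕ →₀ F)), InC C a1 → InC C a2 →
      ∃ c : Nm B ((ℕ →₀ F) × (ℕ →₀ F)), InC C c ∧ Forces ⊤ fun u =>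
        IsBlockSeq (a1.pt u) → IsBlockSeq (a2.pt u) → Inter (c.pt u) ∧
          (∀ i, (c.pt u i).1 ∈ spn (a1.pt u)) ∧ ∀ i, (c.pt u i).2 ∈ spn (a2.pt u)

/-- Maximality gives a reduction with `D`. Over a field with two elements: if `e` forces that `c` is
interleaved and `x` is a block sequence, `e ≠ ⊥`, `e ≤ madV S`, there are `e' ≤ e`, `e' ≠ ⊥`, and a
name `y` with `⊤` forcing `Blk y, y ≤ x` and `e' ≤ DS S c y`. PROOF. Fourth clause of `madV` for the
name of `evs c x` (`exists_map2`, `T_V6`; a block sequence on `e`, `T_V4`): `z` with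
`e' = e ⊓ S z ⊓ [[spans not almost disjoint]] ≠ ⊥`. `T_TR` with `T_V1` for `((c, x), z)` gives `y`
(outside the hypotheses take `y = x`; relation: `Blk x → Blk y ∧ Le y x ∧ (Inter c → ¬ AlmostDisjoint
.. → ∀ n, evs c y n ∈ spn z)`). -/
def T_B3 : Prop :=
  ∀ (B : Type) [CompleteBooleanAlgebra B] (F : Type) [Field F] [Countable F],
    (∀ a : F, a = 0 ∨ a = 1) → ∀ (S : Nm B (ℕ →₀ F) → B) (c : Nm B ((ℕ →₀ F) × (ℕ →₀ F)))
      (x : Nm B Wd) (e : B), e ≠ ⊥ → e ≤ madV S → (Forces e fun u => Inter (c.pt u)) →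
      (Forces ⊤ fun u => Blk (x.pt u)) →
      ∃ (e' : B) (y : Nm B Wd), e' ≠ ⊥ ∧ e' ≤ e ∧
        (Forces ⊤ fun u => Blk (y.pt u) ∧ Le (y.pt u) (x.pt u)) ∧ e' ≤ DS S c y

/-- The final contradiction: `D x` and `D (zz x)` cannot both have value `≥ e`. PROOF. Otherwise
there are names `y`, `y'` and a nonzero `e'` below `e`, `S y`, `S y'`, the values of
`evs c x n ∈ spn y`, `evs c (zz x) n ∈ spn y'`. Pointwise `T_V3` with `W = spn y`, `W' = spn y'`,
`U1 = spn a1`, `U2 = spn a2`; the alternatives are the third clause of `madV`. -/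
def T_B4 : Prop :=
  ∀ (B : Type) [CompleteBooleanAlgebra B] (F : Type) [Field F] [Countable F]
    (S : Nm B (ℕ →₀ F) → B) (c : Nm B ((ℕ →₀ F) × (ℕ →₀ F))) (a1 a2 : Nm B (ℕ →₀ F))
    (x z : Nm B Wd) (e : B), e ≠ ⊥ → e ≤ madV S → e ≤ S a1 → e ≤ S a2 →
      (Forces e fun u => spn (a1.pt u) ≠ spn (a2.pt u)) →
      (Forces e fun u => Inter (c.pt u) ∧ (∀ i, (c.pt u i).1 ∈ spn (a1.pt u)) ∧
        ∀ i, (c.pt u i).2 ∈ spn (a2.pt u)) →
      (Forces e fun u => Blk (x.pt u) ∧ z.pt u = zz (x.pt u)) →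
      e ≤ DS S c x → e ≤ DS S c z → False

/-- (b) Over a field with two elements there is no infinite mad family in the Solovay class.
PROOF. `lam0` from `InSol S` (`T_OI` turns the order isomorphisms into `PI`: `InvS (Blow lam0) S`).
Suppose `madV S ≠ ⊥`; `e, a1, a2` by `T_B1`; `lam ≥ lam0` with `a1`, `a2` names over
`C = Blow lam` (`T_H1`, `T_SPC`; `InvS` passes to larger `lam`); `c` by `T_B2` (`a1`, `a2` are block
sequences on `e` by the first clause). `DS S c` is coherent (`T_DI`, `T_COH`), `g` by `T_GSX`; `T_PD`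
with the constant name `w0 n = ⟨{n}, {n}⟩` gives `w'`, `γ`. `x ≤ w'` by `T_HG`: all reductions of `x`
are generic (`Gnr`: `b = ⊤`), so have `DS = γ`. If `e ⊓ γᶜ ≠ ⊥`, `T_B3` gives `y ≤ x` with
`⊥ ≠ e' ≤ e ⊓ γᶜ`, `e' ≤ DS S c y = γ`, contradiction. So `e ≤ γ`; `x` and the name `z` of `zz x`
(`exists_map`, `T_V2`) have `DS = γ`; contradiction to `T_B4`. -/
def T_BB : Prop :=
  ∀ (K : Type) [LinearOrder K], IK K → ∀ (F : Type) [Field F] [Countable F],
    (∀ a : F, a = 0 ∨ a = 1) → ∀ S : Nm (BL K) (ℕ →₀ F) → BL K, IsBSet S → InSol S → madV S = ⊥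

/-- (a1) The Boolean valued set given by a closed set of codes of an infinite mad family. PROOF. All
clauses are pointwise, except the fourth and the fifth, where the name is given by `T_TR`
(for the fifth code the finite family of names as one name with values in the functions
`Fin k → (ℕ →₀ F)`, or use induction); Borel by `T_V5`. -/
def T_A1 : Prop :=
  ∀ (B : Type) [CompleteBooleanAlgebra B] (F : Type) [Field F] [Countable F]
    (A : Set (Submodule F (ℕ →₀ F))), A.Infinite → IsMadFamily A → ClosedInProduct (Codes A) →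
      IsBSet (fun x : Nm B (ℕ →₀ F) => bval fun u => x.pt u ∈ Codes A) ∧
      madV (fun x : Nm B (ℕ →₀ F) => bval fun u => x.pt u ∈ Codes A) = ⊤

/-- (a2) It is in the Solovay class. (`T_INV`, `T_OI`; any `lam`.) -/
def T_A2 : Prop :=
  ∀ (K : Type) [LinearOrder K], IK K → ∀ (X : Type) [Nonempty X] (A : Set (ℕ → X)), Mes A →
    InSol (fun x : Nm (BL K) X => bval fun u => x.pt u ∈ A)

end SLV
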