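import Mathlib
import Pool.Agent.SLV.T2
import Pool.Agent.SLV.Basic

/-!
# MP_0a8ab4_lc, project SLV: job A1 (helper89)

The Boolean valued set given by a closed set of codes of an infinite mad family.
-/

set_option autoImplicit false

namespace SLV

open Cardinal CofSN Pool.Agent.MadBlock

namespace A1_

section Mes

variable {X Y : Type}

theorem mes_map [Countable Y] (φ : Y → X) {A : Set (ℕ → X)} (hA : Mes A) :
    Mes {z : ℕ → Y | (fun n => φ (z n)) ∈ A} := by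
  have hm : @Measurable _ _ (bsp Y) (bsp X) (fun (z : ℕ → Y) (n : ℕ) => φ (z n)) := by
    let _ := bsp Y
    refine measurable_generateFrom ?_
    rintro t ⟨n, a, rfl⟩
    have h1 : (fun (z : ℕ → Y) (n : ℕ) => φ (z n)) ⁻¹' {x : ℕ → X | x n = a} =
        ⋃ y : {y : Y // φ y = a}, {z : ℕ → Y | z n = y} := by
      ext z
      simp only [Set.mem_preimage, Set.mem_ofPred_eq, Set.mem_iUnion]
      constructor
      · intro h
        exact ⟨⟨z n, h⟩, rfl⟩
      · rintro ⟨⟨y, hy⟩, h⟩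
        rw [h]
        exact hy
    rw [h1]
    refine MeasurableSet.iUnion fun y => ?_
    exact MeasurableSpace.measurableSet_generateFrom ⟨n, y.1, rfl⟩
  exact hm hA

theorem mes_compl {A : Set (ℕ → X)} (h : Mes A) : Mes Aᶜ := by
  unfold Mes at *
  let _ := bsp X
  exact MeasurableSet.compl h

theorem mes_inter {A A' : Set (ℕ → X)} (h : Mes A) (h' : Mes A') : Mes (A ∩ A') := by
  unfold Mes at *
  let _ := bsp X
  exact MeasurableSet.inter h h'

theorem mes_iInter {ι : Type} [Countable ι] {A : ι → Set (ℕ → X)} (h : ∀ n, Mes (A n)) :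
    Mes (⋂ n, A n) := by
  unfold Mes
  let _ := bsp X
  exact MeasurableSet.iInter h

end Mes

variable {B : Type} [CompleteBooleanAlgebra B]

theorem and_bval_le {P Q R : Ult B → Prop} (h : ∀ u, P u → Q u → R u) :
    bval P ⊓ bval Q ≤ bval R := by
  rw [le_bval_iff]
  exact (((forces_bval P).weak inf_le_left).and ((forces_bval Q).weak inf_le_right)).mono
    fun u hu => h u hu.1 hu.2

theorem himp_top {a b : B} (h : a ≤ b) : ⊤ ≤ a ⇨ b := by
  rw [le_himp_iff, top_inf_eq]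
  exact h

variable {F : Type} [Field F] [Countable F]

/-- the fourth clause -/
theorem four (h_TR : T_TR) (h_V5 : T_V5) {A : Set (Submodule F (ℕ →₀ F))}
    (hmad : IsMadFamily A) (hcl : ClosedInProduct (Codes A)) (y : Nm B (ℕ →₀ F)) :
    bval (fun u => IsBlockSeq (y.pt u)) ≤
      ⨆ x : Nm B (ℕ →₀ F), bval (fun u => x.pt u ∈ Codes A) ⊓
        bval fun u => ¬ AlmostDisjoint (spn (y.pt u)) (spn (x.pt u)) := by
  obtain ⟨v1, -, -, v4, v5, -⟩ := h_V5 F
  have hC := v5 _ hcl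
  have hP : Mes2 (fun y x : ℕ → (ℕ →₀ F) =>
      ¬ (IsBlockSeq y ∧ ¬ (x ∈ Codes A ∧ ¬ AlmostDisjoint (spn y) (spn x)))) := by
    unfold Mes2 at v4 ⊢
    have m1 := mes_map (Y := (ℕ →₀ F) × (ℕ →₀ F)) Prod.fst v1
    have m2 := mes_map (Y := (ℕ →₀ F) × (ℕ →₀ F)) Prod.snd hC
    exact mes_compl (mes_inter m1 (mes_compl (mes_inter m2 (mes_compl v4))))
  have hex : ∀ y : ℕ → (ℕ →₀ F), ∃ x : ℕ → (ℕ →₀ F),
      ¬ (IsBlockSeq y ∧ ¬ (x ∈ Codes A ∧ ¬ AlmostDisjoint (spn y) (spn x))) := by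
    intro y
    by_cases hy : IsBlockSeq y
    · obtain ⟨W, hW, hAD⟩ := hmad.2.2 (spn y) ⟨y, hy, rfl⟩
      obtain ⟨x, hx, hxW⟩ := hmad.1 W hW
      refine ⟨x, fun h => h.2 ⟨⟨hx, ?_⟩, ?_⟩⟩
      · rw [← hxW]; exact hW
      · rw [hxW] at hAD; exact hAD
    · exact ⟨y, fun h => hy h.1⟩
  obtain ⟨x, -, hx⟩ := h_TR B Set.univ CSub.univ (ℕ →₀ F) (ℕ →₀ F) _ hP hex y (inC_univ y)
  refine le_iSup_of_le x (le_inf ?_ ?_)
  · rw [le_bval_iff]
    refine ((forces_bval _).and (forces_top hx)).mono ?_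
    rintro u ⟨h1, h2⟩
    by_contra h3
    exact h2 ⟨h1, fun h4 => h3 h4.1⟩
  · rw [le_bval_iff]
    refine ((forces_bval _).and (forces_top hx)).mono ?_
    rintro u ⟨h1, h2⟩ h3
    exact h2 ⟨h1, fun h4 => h4.2 h3⟩

/-- the fifth clause -/
theorem five (h_TR : T_TR) (h_V5 : T_V5) {A : Set (Submodule F (ℕ →₀ F))} (hinf : A.Infinite)
    (hmad : IsMadFamily A) (hcl : ClosedInProduct (Codes A)) (k : ℕ)
    (x : Fin k → Nm B (ℕ →₀ F)) :
    ⊤ ≤ ⨆ y : Nm B (ℕ →₀ F), bval (fun u => y.pt u ∈ Codes A) ⊓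
        bval fun u => ∀ i, spn (y.pt u) ≠ spn ((x i).pt u) := by
  obtain ⟨-, -, v3, -, v5, -⟩ := h_V5 F
  have hC := v5 _ hcl
  obtain ⟨X, -, hX⟩ := exists_name (X := Fin k → (ℕ →₀ F)) (CSub.univ (B := B))
    (fun u n i => (x i).pt u n) (fun n a => by
      refine (DecIn.all CSub.univ (P := fun i u => (x i).pt u n = a i)
        fun i => decIn_pt (inC_univ (x i)) n (a i)).congr' fun u => ?_
      exact (funext_iff (f := fun i => (x i).pt u n) (g := a)).symm)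
  have hP : Mes2 (fun (X : ℕ → (Fin k → (ℕ →₀ F))) (y : ℕ → (ℕ →₀ F)) =>
      y ∈ Codes A ∧ ∀ i, ¬ spn y = spn (fun n => X n i)) := by
    unfold Mes2 at v3 ⊢
    have m2 := mes_map (Y := (Fin k → (ℕ →₀ F)) × (ℕ →₀ F)) Prod.snd hC
    have m3 : ∀ i : Fin k, Mes ({z : ℕ → (Fin k → (ℕ →₀ F)) × (ℕ →₀ F) |
        spn (fun n => (z n).2) = spn (fun n => (z n).1 i)}ᶜ) := fun i =>
      mes_compl (mes_map (Y := (Fin k → (ℕ →₀ F)) × (ℕ →₀ F))
        (fun p => (p.2, p.1 i)) v3)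
    have m4 := mes_inter m2 (mes_iInter m3)
    have e : {z : ℕ → (Fin k → (ℕ →₀ F)) × (ℕ →₀ F) | (fun n => (z n).2) ∈ Codes A ∧
        ∀ i, ¬ spn (fun n => (z n).2) = spn (fun n => (z n).1 i)} =
        {z : ℕ → (Fin k → (ℕ →₀ F)) × (ℕ →₀ F) | (fun n => (z n).2) ∈ Codes A} ∩
        ⋂ i, {z : ℕ → (Fin k → (ℕ →₀ F)) × (ℕ →₀ F) |
          spn (fun n => (z n).2) = spn (fun n => (z n).1 i)}ᶜ := by
      ext z
      simp only [Set.mem_ofPred_eq, Set.mem_inter_iff, Set.mem_iInter, Set.mem_compl_iff]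
    rw [e]
    exact m4
  have hex : ∀ X : ℕ → (Fin k → (ℕ →₀ F)), ∃ y : ℕ → (ℕ →₀ F),
      y ∈ Codes A ∧ ∀ i, ¬ spn y = spn (fun n => X n i) := by
    intro X
    have hfin : (Set.range fun i : Fin k => spn (fun n => X n i)).Finite := Set.finite_range _
    obtain ⟨W, hW, hW2⟩ := hinf.exists_notMem_finite hfin
    obtain ⟨y, hy, hyW⟩ := hmad.1 W hW
    refine ⟨y, ⟨hy, ?_⟩, fun i hi => hW2 ⟨i, ?_⟩⟩
    · rw [← hyW]; exact hW
    · rw [hyW]; exact hi.symm
  obtain ⟨y, -, hy⟩ := h_TR B Set.univ CSub.univ (Fin k → (ℕ →₀ F)) (ℕ →₀ F) _ hP hex X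
    (inC_univ X)
  refine le_iSup_of_le y (le_inf ?_ ?_)
  · rw [le_bval_iff]
    exact hy.mono fun u h => h.1
  · rw [le_bval_iff]
    refine (hy.and hX).mono ?_
    rintro u ⟨⟨-, h1⟩, h2⟩ i
    have h3 := h1 i
    rw [h2] at h3
    exact h3

end A1_

open A1_ in
theorem p_A1 (h_TR : T_TR) (h_V5 : T_V5) : T_A1 := by
  intro B _ F _ _ A hinf hmad hcl
  refine ⟨fun x y => ?_, ?_⟩
  · refine and_bval_le fun u h1 h2 => ?_
    rw [← h2]
    exact h1
  · apply top_le_iff.1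
    unfold madV
    refine le_inf (le_inf (le_inf (le_inf ?_ ?_) ?_) ?_) ?_
    · refine le_iInf fun x => himp_top (bval_mono fun u h => h.1)
    · refine le_iInf fun x => le_iInf fun y => himp_top (and_bval_le fun u h1 h2 => ?_)
      refine ⟨h2.1, ?_⟩
      have h3 : spn (y.pt u) ∈ A := by
        rw [h2.2]; exact h1.2
      exact h3
    · refine le_iInf fun x => le_iInf fun y => himp_top (and_bval_le fun u h1 h2 => ?_)
      by_cases h : spn (x.pt u) = spn (y.pt u)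
      · exact Or.inl h
      · exact Or.inr (hmad.2.1 _ h1.2 _ h2.2 h)
    · exact le_iInf fun y => himp_top (four h_TR h_V5 hmad hcl y)
    · exact le_iInf fun k => le_iInf fun x => five h_TR h_V5 hinf hmad hcl k x

end SLV
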