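import Mathlib
import Pool.Agent.SLV.T2

/-!
# MP_0a8ab4_lc, project SLV: Borel sets are in the Solovay class (helper49)
-/

set_option autoImplicit false

namespace SLV

theorem p_A2 (h_INV : T_INV) (h_OI : T_OI) : T_A2 := by
  intro K _ hK X _ A hA
  have hne : Nonempty K := by
    by_contra h
    rw [not_nonempty_iff] at h
    have h1 : Cardinal.mk K = 0 := Cardinal.mk_eq_zero K
    have h2 := hK.unc
    rw [h1] at h2
    exact absurd h2 not_lt_zero
  refine ⟨hne.some, fun d d' o _ x x' hx => ?_⟩
  obtain ⟨π, hπ⟩ := (h_OI (BL K) d d').2 o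
  rw [hπ]
  exact h_INV (BL K) d d' π X x x' (fun n a => by rw [← hπ]; exact hx n a) A hA

end SLV
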