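import Pool.Agent.SLV.T2

/-!
# SLV: two members with different spans (target B1, helper94)
-/

set_option autoImplicit false

namespace SLV

open Cardinal CofSN Pool.Agent.MadBlock

/-- a nonzero element below a supremum meets one of the members -/
theorem B1_.meet {B : Type} [CompleteBooleanAlgebra B] {ι : Sort*} {e : B} {f : ι → B}
    (he : e ≠ ⊥) (h : e ≤ ⨆ i, f i) : ∃ i, e ⊓ f i ≠ ⊥ := by
  by_contra hc
  push Not at hc
  apply he
  have h1 : e ⊓ ⨆ i, f i = e := inf_eq_left.2 h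
  rw [← h1, inf_iSup_eq]
  exact iSup_eq_bot.2 hc

theorem p_B1 : T_B1 := by
  intro B _ F _ S hm
  have h5 : ∀ (k : ℕ) (x : Fin k → Nm B (ℕ →₀ F)), madV S ≤ ⨆ y : Nm B (ℕ →₀ F),
      S y ⊓ bval fun u => ∀ i, spn (y.pt u) ≠ spn ((x i).pt u) := by
    intro k x
    exact le_trans inf_le_right (iInf_le_of_le k (iInf_le _ x))
  obtain ⟨y1, h1⟩ := B1_.meet hm (h5 0 (fun i => i.elim0))
  have he1 : madV S ⊓ S y1 ≠ ⊥ := by
    intro h
    apply h1
    apply le_bot_iff.1
    rw [← h]
    exact inf_le_inf_left _ inf_le_left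
  obtain ⟨y2, h2⟩ := B1_.meet he1 (le_trans inf_le_left (h5 1 (fun _ => y1)))
  refine ⟨_, y1, y2, h2, inf_le_left.trans inf_le_left, inf_le_left.trans inf_le_right,
    inf_le_right.trans inf_le_left, ?_⟩
  refine ((forces_bval _).weak (inf_le_right.trans inf_le_right)).mono fun u hu => ?_
  exact fun h => hu 0 h.symm

end SLV
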