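import Mathlib
import Pool.Agent.SLV.T1

/-!
# MP_0a8ab4_lc, project SLV: job V5 (helper20)

Borel sets of sequences of vectors.
-/

set_option autoImplicit false

namespace SLV

open Cardinal CofSN Pool.Agent.MadBlock

namespace V5_

variable {X : Type}

theorem mes_iInter {A : ℕ → Set (ℕ → X)} (h : ∀ n, Mes (A n)) : Mes (⋂ n, A n) := by
  unfold Mes
  letI := bsp X
  exact MeasurableSet.iInter h

theorem mes_iUnion {A : ℕ → Set (ℕ → X)} (h : ∀ n, Mes (A n)) : Mes (⋃ n, A n) := by
  unfold Mes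
  letI := bsp X
  exact MeasurableSet.iUnion h

theorem mes_iUnionC {ι : Type} [Countable ι] {A : ι → Set (ℕ → X)} (h : ∀ n, Mes (A n)) :
    Mes (⋃ n, A n) := by
  unfold Mes
  letI := bsp X
  exact MeasurableSet.iUnion h

theorem mes_compl {A : Set (ℕ → X)} (h : Mes A) : Mes Aᶜ := by
  unfold Mes at *
  letI := bsp X
  exact MeasurableSet.compl h

theorem mes_inter {A A' : Set (ℕ → X)} (h : Mes A) (h' : Mes A') : Mes (A ∩ A') := by
  unfold Mes at *
  letI := bsp X
  exact MeasurableSet.inter h h'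

variable {F : Type} [Field F]

/-- membership in the span of a sequence -/
theorem mem_spn_iff (x : ℕ → (ℕ →₀ F)) (v : ℕ →₀ F) :
    v ∈ spn x ↔ ∃ N : ℕ, v ∈ Submodule.span F (x '' Set.Iio N) := by
  constructor
  · intro h
    obtain ⟨c, hc⟩ := (Finsupp.mem_span_range_iff_exists_finsupp).1 h
    refine ⟨c.support.sup id + 1, ?_⟩
    rw [← hc]
    refine Submodule.sum_mem _ fun i hi => Submodule.smul_mem _ _ (Submodule.subset_span ⟨i, ?_, rfl⟩)
    have : id i ≤ c.support.sup id := Finset.le_sup (f := id) hi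
    exact Set.mem_Iio.2 (Nat.lt_succ_of_le this)
  · rintro ⟨N, h⟩
    exact Submodule.span_mono (Set.image_subset_range _ _) h

theorem image_congr {x y : ℕ → (ℕ →₀ F)} {N : ℕ} (h : ∀ i < N, x i = y i) :
    x '' Set.Iio N = y '' Set.Iio N :=
  Set.image_congr fun i hi => h i hi

/-- a subspace is infinite dimensional iff it contains nonzero vectors with support beyond any
bound -/
theorem infinite_iff (W : Submodule F (ℕ →₀ F)) :
    ¬ FiniteDimensional F W ↔
      ∀ N : ℕ, ∃ v : ℕ →₀ F, v ≠ 0 ∧ (∀ i ∈ v.support, N ≤ i) ∧ v ∈ W := by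
  constructor
  · intro h N
    by_contra hcon
    push Not at hcon
    apply h
    let L : W →ₗ[F] (Fin N → F) :=
      { toFun := fun w i => (w : ℕ →₀ F) i
        map_add' := by intro a b; rfl
        map_smul' := by intro a b; rfl }
    have hL : Function.Injective L := by
      intro a b hab
      by_contra hne
      have h1 : (a : ℕ →₀ F) - b ≠ 0 := fun h0 => hne (Subtype.ext (sub_eq_zero.1 h0))
      refine hcon ((a : ℕ →₀ F) - b) h1 ?_ (W.sub_mem a.2 b.2)
      intro i hi
      by_contra hlt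
      push Not at hlt
      have h2 : (a : ℕ →₀ F) i = (b : ℕ →₀ F) i := congrFun hab ⟨i, hlt⟩
      exact (Finsupp.mem_support_iff.1 hi) (by rw [Finsupp.sub_apply, h2, sub_self])
    exact FiniteDimensional.of_injective L hL
  · intro h hfin
    obtain ⟨S, hS⟩ := (Submodule.fg_iff_finiteDimensional W).2 hfin
    let N : ℕ := S.sup (fun v => v.support.sup id) + 1
    obtain ⟨v, hv0, hvN, hvW⟩ := h N
    have key : ∀ w ∈ W, ∀ i, N ≤ i → w i = 0 := by
      intro w hw
      rw [← hS] at hw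
      induction hw using Submodule.span_induction with
      | mem w hw =>
        intro i hi
        by_contra hne
        have h1 : i ∈ w.support := Finsupp.mem_support_iff.2 hne
        have h2 : id i ≤ w.support.sup id := Finset.le_sup (f := id) h1
        have h3 : w.support.sup id ≤ S.sup (fun v => v.support.sup id) :=
          Finset.le_sup (f := fun v : ℕ →₀ F => v.support.sup id) hw
        have h4 : i ≤ S.sup (fun v => v.support.sup id) := le_trans h2 h3
        have h5 : S.sup (fun v => v.support.sup id) + 1 ≤ i := hi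
        omega
      | zero => intro i _; rfl
      | add a b _ _ ha hb =>
        intro i hi
        rw [Finsupp.add_apply, ha i hi, hb i hi, add_zero]
      | smul c a _ ha =>
        intro i hi
        rw [Finsupp.smul_apply, ha i hi, smul_zero]
    apply hv0
    ext i
    by_contra hne
    have h1 : i ∈ v.support := Finsupp.mem_support_iff.2 hne
    exact hne (key v hvW i (hvN i h1))

theorem mes_memspn (M1 : T_M1) (Y : Type) [Countable Y] (f g : Y → (ℕ →₀ F)) (n : ℕ) :
    Mes {z : ℕ → Y | f (z n) ∈ spn fun k => g (z k)} := by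
  have : {z : ℕ → Y | f (z n) ∈ spn fun k => g (z k)} =
      ⋃ N : ℕ, {z : ℕ → Y | f (z n) ∈ Submodule.span F ((fun k => g (z k)) '' Set.Iio N)} := by
    ext z
    simp only [Set.mem_setOf_eq, Set.mem_iUnion]
    exact mem_spn_iff _ _
  rw [this]
  refine mes_iUnion fun N => M1 Y _ (max N (n + 1)) ?_
  intro x y h
  have h1 : (fun k => g (x k)) '' Set.Iio N = (fun k => g (y k)) '' Set.Iio N :=
    image_congr fun i hi => by rw [h i (lt_of_lt_of_le hi (le_max_left _ _))]
  have h2 : x n = y n := h n (lt_of_lt_of_le (Nat.lt_succ_self n) (le_max_right _ _))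
  simp only [Set.mem_setOf_eq, h1, h2]

theorem mes_memspnC (M1 : T_M1) (Y : Type) [Countable Y] (v : ℕ →₀ F) (g : Y → (ℕ →₀ F)) :
    Mes {z : ℕ → Y | v ∈ spn fun k => g (z k)} :=
  mes_memspn M1 Y (fun _ => v) g 0

theorem mes_sub (M1 : T_M1) (Y : Type) [Countable Y] (f g : Y → (ℕ →₀ F)) :
    Mes {z : ℕ → Y | spn (fun k => f (z k)) ≤ spn fun k => g (z k)} := by
  have : {z : ℕ → Y | spn (fun k => f (z k)) ≤ spn fun k => g (z k)} =
      ⋂ n : ℕ, {z : ℕ → Y | f (z n) ∈ spn fun k => g (z k)} := by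
    ext z
    simp only [Set.mem_setOf_eq, Set.mem_iInter]
    rw [Submodule.span_le]
    constructor
    · intro h n
      exact h ⟨n, rfl⟩
    · rintro h _ ⟨n, rfl⟩
      exact h n
  rw [this]
  exact mes_iInter fun n => mes_memspn M1 Y f g n

theorem mes_closed (M1 : T_M1) (X : Type) [Countable X] (A : Set (ℕ → X))
    (hA : @IsClosed (ℕ → X) (@Pi.topologicalSpace ℕ (fun _ => X) (fun _ => ⊥)) A) : Mes A := by
  letI tX : TopologicalSpace X := ⊥
  have hopen : IsOpen (Aᶜ : Set (ℕ → X)) := hA.isOpen_compl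
  have key : Aᶜ = ⋃ N : ℕ, {x : ℕ → X | ∀ y : ℕ → X, (∀ i < N, y i = x i) → y ∈ Aᶜ} := by
    ext x
    simp only [Set.mem_iUnion, Set.mem_setOf_eq]
    constructor
    · intro hx
      obtain ⟨I, u, hu, hsub⟩ := isOpen_pi_iff.1 hopen x hx
      refine ⟨I.sup id + 1, fun y hy => hsub ?_⟩
      intro i hi
      have h1 : id i ≤ I.sup id := Finset.le_sup (f := id) hi
      rw [hy i (Nat.lt_succ_of_le h1)]
      exact (hu i hi).2
    · rintro ⟨N, hN⟩
      exact hN x fun i _ => rfl
  have h1 : Mes (Aᶜ : Set (ℕ → X)) := by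
    rw [key]
    refine mes_iUnion fun N => M1 X _ N ?_
    intro x y h
    simp only [Set.mem_setOf_eq]
    constructor
    · intro hx z hz
      exact hx z fun i hi => by rw [hz i hi, h i hi]
    · intro hx z hz
      exact hx z fun i hi => by rw [hz i hi, h i hi]
  have h2 := mes_compl h1
  rwa [compl_compl] at h2

end V5_

open V5_ in
theorem p_V5 (h_M1 : T_M1) : T_V5 := by
  intro F _ _
  refine ⟨?_, ?_, ?_, ?_, ?_, ?_⟩
  · have : {x : ℕ → (ℕ →₀ F) | IsBlockSeq x} =
        ⋂ n : ℕ, {x : ℕ → (ℕ →₀ F) | x n ≠ 0 ∧ Bef (x n) (x (n + 1))} := by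
      ext x
      simp only [Set.mem_setOf_eq, Set.mem_iInter]
      rfl
    rw [this]
    refine mes_iInter fun n => h_M1 _ _ (n + 2) ?_
    intro x y h
    simp only [Set.mem_setOf_eq, h n (by omega), h (n + 1) (by omega)]
  · intro v
    exact mes_memspnC h_M1 _ v (fun a => a)
  · unfold Mes2
    have : {z : ℕ → (ℕ →₀ F) × (ℕ →₀ F) |
        spn (fun n => (z n).1) = spn (fun n => (z n).2)} =
        {z : ℕ → (ℕ →₀ F) × (ℕ →₀ F) | spn (fun n => (z n).1) ≤ spn (fun n => (z n).2)} ∩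
        {z : ℕ → (ℕ →₀ F) × (ℕ →₀ F) | spn (fun n => (z n).2) ≤ spn (fun n => (z n).1)} := by
      ext z
      simp only [Set.mem_setOf_eq, Set.mem_inter_iff]
      exact le_antisymm_iff
    rw [this]
    exact mes_inter (mes_sub h_M1 _ Prod.fst Prod.snd) (mes_sub h_M1 _ Prod.snd Prod.fst)
  · unfold Mes2
    have : {z : ℕ → (ℕ →₀ F) × (ℕ →₀ F) |
        AlmostDisjoint (spn (fun n => (z n).1)) (spn (fun n => (z n).2))} =
        (⋂ N : ℕ, ⋃ v : {v : ℕ →₀ F // v ≠ 0 ∧ ∀ i ∈ v.support, N ≤ i},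
          ({z : ℕ → (ℕ →₀ F) × (ℕ →₀ F) | (v : ℕ →₀ F) ∈ spn (fun n => (z n).1)} ∩
          {z : ℕ → (ℕ →₀ F) × (ℕ →₀ F) | (v : ℕ →₀ F) ∈ spn (fun n => (z n).2)}))ᶜ := by
      ext z
      rw [Set.mem_compl_iff, Set.mem_iInter, Set.mem_setOf_eq, ← not_iff_not, not_not]
      have h1 := infinite_iff (spn (fun n => (z n).1) ⊓ spn (fun n => (z n).2))
      unfold AlmostDisjoint
      rw [h1]
      refine forall_congr' fun N => ?_
      simp only [Set.mem_iUnion, Set.mem_inter_iff, Set.mem_setOf_eq, Submodule.mem_inf]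
      constructor
      · rintro ⟨v, h1, h2, h3⟩
        exact ⟨⟨v, h1, h2⟩, h3⟩
      · rintro ⟨⟨v, h1, h2⟩, h3⟩
        exact ⟨v, h1, h2, h3⟩
    rw [this]
    refine mes_compl (mes_iInter fun N => mes_iUnionC fun v => mes_inter ?_ ?_)
    · exact mes_memspnC h_M1 _ _ Prod.fst
    · exact mes_memspnC h_M1 _ _ Prod.snd
  · intro A hA
    exact mes_closed h_M1 _ A hA
  · have : {c : ℕ → (ℕ →₀ F) × (ℕ →₀ F) | Inter c} =
        ⋂ n : ℕ, {c : ℕ → (ℕ →₀ F) × (ℕ →₀ F) |
          (c n).1 ≠ 0 ∧ (c n).2 ≠ 0 ∧ Bef (c n).1 (c n).2 ∧ Bef (c n).2 (c (n + 1)).1} := by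
      ext x
      simp only [Set.mem_setOf_eq, Set.mem_iInter]
      rfl
    rw [this]
    refine mes_iInter fun n => h_M1 _ _ (n + 2) ?_
    intro x y h
    simp only [Set.mem_setOf_eq, h n (by omega), h (n + 1) (by omega)]

end SLV
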