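import Mathlib
import Pool.Agent.SLV.T2
import Pool.Agent.SLV.V5

/-!
# MP_0a8ab4_lc, project SLV: job B2 (helper20)

The name of the interleaved sequence.
-/

set_option autoImplicit false

namespace SLV

open Cardinal CofSN Pool.Agent.MadBlock

namespace B2_

open V5_

variable {F : Type} [Field F]

theorem mes_block (M1 : T_M1) (Y : Type) [Countable Y] (g : Y → (ℕ →₀ F)) :
    Mes {z : ℕ → Y | IsBlockSeq fun n => g (z n)} := by
  have : {z : ℕ → Y | IsBlockSeq fun n => g (z n)} =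
      ⋂ n : ℕ, {z : ℕ → Y | g (z n) ≠ 0 ∧ Bef (g (z n)) (g (z (n + 1)))} := by
    ext x
    simp only [Set.mem_setOf_eq, Set.mem_iInter]
    rfl
  rw [this]
  refine mes_iInter fun n => M1 _ _ (n + 2) ?_
  intro x y h
  simp only [Set.mem_setOf_eq, h n (by omega), h (n + 1) (by omega)]

theorem mes_inter' (M1 : T_M1) (Y : Type) [Countable Y] (g : Y → (ℕ →₀ F) × (ℕ →₀ F)) :
    Mes {z : ℕ → Y | Inter fun n => g (z n)} := by
  have : {z : ℕ → Y | Inter fun n => g (z n)} =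
      ⋂ n : ℕ, {z : ℕ → Y | (g (z n)).1 ≠ 0 ∧ (g (z n)).2 ≠ 0 ∧ Bef (g (z n)).1 (g (z n)).2 ∧
        Bef (g (z n)).2 (g (z (n + 1))).1} := by
    ext x
    simp only [Set.mem_setOf_eq, Set.mem_iInter]
    rfl
  rw [this]
  refine mes_iInter fun n => M1 _ _ (n + 2) ?_
  intro x y h
  simp only [Set.mem_setOf_eq, h n (by omega), h (n + 1) (by omega)]

theorem mes_imp {X : Type} {A A' : Set (ℕ → X)} (h : Mes A) (h' : Mes A') :
    Mes {z | z ∈ A → z ∈ A'} := by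
  have h1 := mes_compl (mes_inter h (mes_compl h'))
  have h2 : (A ∩ A'ᶜ)ᶜ = {z | z ∈ A → z ∈ A'} := by
    ext z
    simp only [Set.mem_compl_iff, Set.mem_inter_iff, Set.mem_setOf_eq, not_and, not_not]
  rwa [h2] at h1

theorem mes_all {X : Type} {A : ℕ → Set (ℕ → X)} (h : ∀ n, Mes (A n)) :
    Mes {z | ∀ n, z ∈ A n} := by
  have h1 := mes_iInter h
  have h2 : (⋂ n, A n) = {z | ∀ n, z ∈ A n} := by
    ext z
    simp only [Set.mem_iInter, Set.mem_setOf_eq]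
  rwa [h2] at h1

/-- the relation -/
def P (z c : ℕ → (ℕ →₀ F) × (ℕ →₀ F)) : Prop :=
  IsBlockSeq (fun n => (z n).1) → IsBlockSeq (fun n => (z n).2) → Inter c ∧
    (∀ i, (c i).1 ∈ spn fun n => (z n).1) ∧ ∀ i, (c i).2 ∈ spn fun n => (z n).2

theorem mes_P [Countable F] (M1 : T_M1) : Mes2 (P (F := F)) := by
  let Y := ((ℕ →₀ F) × (ℕ →₀ F)) × ((ℕ →₀ F) × (ℕ →₀ F))
  have h1 := mes_block M1 Y (fun y => y.1.1)
  have h2 := mes_block M1 Y (fun y => y.1.2)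
  have h3 := mes_inter' M1 Y (fun y => y.2)
  have h4 := mes_all fun n => mes_memspn M1 Y (fun y => y.2.1) (fun y => y.1.1) n
  have h5 := mes_all fun n => mes_memspn M1 Y (fun y => y.2.2) (fun y => y.1.2) n
  exact mes_imp h1 (mes_imp h2 (mes_inter h3 (mes_inter h4 h5)))

end B2_

open B2_ in
theorem p_B2 (h_M1 : T_M1) (h_TR : T_TR) (h_V4 : T_V4) : T_B2 := by
  intro B _ C hC F _ _ a1 a2 ha1 ha2
  have hex : ∀ z : ℕ → (ℕ →₀ F) × (ℕ →₀ F), ∃ c, P z c := by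
    intro z
    by_cases h1 : IsBlockSeq (fun n => (z n).1)
    · by_cases h2 : IsBlockSeq (fun n => (z n).2)
      · obtain ⟨c, h3, h4, h5⟩ := (h_V4 F).1 _ _ h1 h2
        exact ⟨c, fun _ _ => ⟨h3, h4, h5⟩⟩
      · exact ⟨z, fun _ h => absurd h h2⟩
    · exact ⟨z, fun h => absurd h h1⟩
  obtain ⟨c, hc1, hc2⟩ := h_TR B C hC ((ℕ →₀ F) × (ℕ →₀ F)) ((ℕ →₀ F) × (ℕ →₀ F)) P (mes_P h_M1)
    hex (a1.prod a2) (ha1.prod hC ha2)
  refine ⟨c, hc1, ?_⟩
  refine (hc2.and (a1.prod_pt a2)).mono ?_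
  rintro u ⟨h1, h2⟩ h3 h4
  rw [h2] at h1
  exact h1 h3 h4

end SLV
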