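import Mathlib
import Pool.Agent.SLV.T2

/-!
# MP_0a8ab4_lc, project SLV: target B3 (maximality gives a reduction with `D`)
-/

set_option autoImplicit false

namespace SLV

open Cardinal CofSN Pool.Agent.MadBlock

namespace B3_

variable {X Y : Type}

theorem mes_inter {A A' : Set (ℕ → X)} (h : Mes A) (h' : Mes A') : Mes (A ∩ A') :=
  @MeasurableSet.inter _ (bsp X) _ _ h h'

theorem mes_compl {A : Set (ℕ → X)} (h : Mes A) : Mes Aᶜ :=
  @MeasurableSet.compl _ _ (bsp X) h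

theorem mes_iUnion {ι : Type} [Countable ι] {A : ι → Set (ℕ → X)} (h : ∀ i, Mes (A i)) :
    Mes (⋃ i, A i) :=
  @MeasurableSet.iUnion _ _ (bsp X) _ _ h

theorem mes_and {P Q : (ℕ → X) → Prop} (h : Mes {z | P z}) (h' : Mes {z | Q z}) :
    Mes {z | P z ∧ Q z} := mes_inter h h'

theorem mes_not {P : (ℕ → X) → Prop} (h : Mes {z | P z}) : Mes {z | ¬ P z} := mes_compl h

theorem mes_ex {ι : Type} [Countable ι] {P : ι → (ℕ → X) → Prop} (h : ∀ i, Mes {z | P i z}) :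
    Mes {z | ∃ i, P i z} := by
  have := mes_iUnion h
  have e : {z | ∃ i, P i z} = ⋃ i, {z | P i z} := by
    ext z; simp
  rw [e]
  exact this

theorem mes_all {ι : Type} [Countable ι] {P : ι → (ℕ → X) → Prop} (h : ∀ i, Mes {z | P i z}) :
    Mes {z | ∀ i, P i z} := by
  have := mes_not (mes_ex fun i => mes_not (h i))
  have e : {z | ∀ i, P i z} = {z | ¬ ∃ i, ¬ P i z} := by
    ext z; simp
  rw [e]
  exact this

theorem mes_imp {P Q : (ℕ → X) → Prop} (h : Mes {z | P z}) (h' : Mes {z | Q z}) :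
    Mes {z | P z → Q z} := by
  have := mes_not (mes_and h (mes_not h'))
  have e : {z | P z → Q z} = {z | ¬ (P z ∧ ¬ Q z)} := by
    ext z
    simp only [Set.mem_setOf_eq]
    tauto
  rw [e]
  exact this

/-- preimages under coordinatewise maps -/
theorem mes_comp (h_M1 : T_M1) (h_M4 : T_M4) [Countable X] (f : X → Y) {P : (ℕ → Y) → Prop}
    (hA : Mes {z | P z}) : Mes {z : ℕ → X | P fun n => f (z n)} := by
  refine h_M4 X Y (fun z n => f (z n)) (fun n a => ?_) _ hA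
  refine h_M1 X _ (n + 1) fun x y hxy => ?_
  simp only [Set.mem_setOf_eq]
  rw [hxy n (Nat.lt_succ_self n)]

variable (F : Type) [Field F]

/-- the type of the values of the name `((c, x), z)` -/
abbrev XT : Type := (((ℕ →₀ F) × (ℕ →₀ F)) × Wd) × (ℕ →₀ F)

/-- the relation for the transfer lemma -/
def Rl (q : ℕ → XT F) (y : ℕ → Wd) : Prop :=
  Blk (fun n => (q n).1.2) → (Blk y ∧ Le y (fun n => (q n).1.2)) ∧
    (Inter (fun n => (q n).1.1) → ¬ AlmostDisjoint (spn (evs (fun n => (q n).1.1)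
      (fun n => (q n).1.2))) (spn (fun n => (q n).2)) →
      ∀ n, evs (fun n => (q n).1.1) y n ∈ spn (fun n => (q n).2))

theorem rl_ex (h_V1 : T_V1) (h_W1 : T_W1) (h01 : ∀ a : F, a = 0 ∨ a = 1) (q : ℕ → XT F) :
    ∃ y, Rl F q y := by
  by_cases hx : Blk (fun n => (q n).1.2)
  · by_cases hc : Inter (fun n => (q n).1.1) ∧ ¬ AlmostDisjoint (spn (evs (fun n => (q n).1.1)
      (fun n => (q n).1.2))) (spn (fun n => (q n).2))
    · obtain ⟨y, h1, h2, h3⟩ := h_V1 F h01 _ hc.1 _ hx _ hc.2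
      exact ⟨y, fun _ => ⟨⟨h1, h2⟩, fun _ _ => h3⟩⟩
    · exact ⟨_, fun h => ⟨⟨h, h_W1.2.1 _⟩, fun h1 h2 => absurd ⟨h1, h2⟩ hc⟩⟩
  · exact ⟨fun _ => default, fun h => absurd h hx⟩

theorem rl_mes [Countable F] (h_M1 : T_M1) (h_M2 : T_M2) (h_M3 : T_M3) (h_M4 : T_M4)
    (h_V5 : T_V5) (h_V6 : T_V6) : Mes2 (Rl F) := by
  have hb := h_M2.1
  have hle := h_M3.1
  obtain ⟨-, v1, -, v3, -, v5⟩ := h_V5 F
  have w1 := (h_V6 F).1
  -- blocks
  have b1 : Mes {z : ℕ → XT F × Wd | Blk fun n => (z n).1.1.2} :=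
    mes_comp h_M1 h_M4 (fun a : XT F × Wd => a.1.1.2) (P := Blk) hb
  have b2 : Mes {z : ℕ → XT F × Wd | Blk fun n => (z n).2} :=
    mes_comp h_M1 h_M4 (fun a : XT F × Wd => a.2) (P := Blk) hb
  have b3 : Mes {z : ℕ → XT F × Wd | Le (fun n => (z n).2) (fun n => (z n).1.1.2)} :=
    mes_comp h_M1 h_M4 (fun a : XT F × Wd => (a.2, a.1.1.2))
      (P := fun t : ℕ → Wd × Wd => Le (fun n => (t n).1) (fun n => (t n).2)) hle
  have b4 : Mes {z : ℕ → XT F × Wd | Inter fun n => (z n).1.1.1} :=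
    mes_comp h_M1 h_M4 (fun a : XT F × Wd => a.1.1.1) (P := Inter) v5
  -- almost disjointness
  have b5 : Mes {z : ℕ → XT F × Wd | AlmostDisjoint (spn (evs (fun n => (z n).1.1.1)
      (fun n => (z n).1.1.2))) (spn (fun n => (z n).1.2))} := by
    refine h_M4 (XT F × Wd) ((ℕ →₀ F) × (ℕ →₀ F))
      (fun z n => (evs (fun n => (z n).1.1.1) (fun n => (z n).1.1.2) n, (z n).1.2)) (fun n a => ?_)
      {t | AlmostDisjoint (spn fun n => (t n).1) (spn fun n => (t n).2)} v3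
    have e1 : Mes {z : ℕ → XT F × Wd | evs (fun n => (z n).1.1.1) (fun n => (z n).1.1.2) n =
        a.1} :=
      mes_comp h_M1 h_M4 (fun a : XT F × Wd => (a.1.1.1, a.1.1.2))
        (P := fun t : ℕ → ((ℕ →₀ F) × (ℕ →₀ F)) × Wd =>
          evs (fun n => (t n).1) (fun n => (t n).2) n = a.1) (w1 n a.1)
    have e2 : Mes {z : ℕ → XT F × Wd | (z n).1.2 = a.2} := by
      refine h_M1 _ _ (n + 1) fun x y hxy => ?_
      simp only [Set.mem_setOf_eq]
      rw [hxy n (Nat.lt_succ_self n)]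
    have e3 := mes_and e1 e2
    have e4 : {z : ℕ → XT F × Wd | (evs (fun n => (z n).1.1.1) (fun n => (z n).1.1.2) n,
        (z n).1.2) = a} = {z : ℕ → XT F × Wd | evs (fun n => (z n).1.1.1)
        (fun n => (z n).1.1.2) n = a.1 ∧ (z n).1.2 = a.2} := by
      ext z
      simp only [Set.mem_setOf_eq]
      exact Prod.ext_iff
    rw [e4]
    exact e3
  -- the vectors are in the span
  have b6 : ∀ n, Mes {z : ℕ → XT F × Wd | evs (fun n => (z n).1.1.1) (fun n => (z n).2) n ∈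
      spn (fun n => (z n).1.2)} := by
    intro n
    have e1 : ∀ v : ℕ →₀ F, Mes {z : ℕ → XT F × Wd | evs (fun n => (z n).1.1.1)
        (fun n => (z n).2) n = v} := fun v =>
      mes_comp h_M1 h_M4 (fun a : XT F × Wd => (a.1.1.1, a.2))
        (P := fun t : ℕ → ((ℕ →₀ F) × (ℕ →₀ F)) × Wd =>
          evs (fun n => (t n).1) (fun n => (t n).2) n = v) (w1 n v)
    have e2 : ∀ v : ℕ →₀ F, Mes {z : ℕ → XT F × Wd | v ∈ spn (fun n => (z n).1.2)} := fun v =>
      mes_comp h_M1 h_M4 (fun a : XT F × Wd => a.1.2)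
        (P := fun t : ℕ → (ℕ →₀ F) => v ∈ spn t) (v1 v)
    have e3 := mes_ex fun v : ℕ →₀ F => mes_and (e1 v) (e2 v)
    have e4 : {z : ℕ → XT F × Wd | evs (fun n => (z n).1.1.1) (fun n => (z n).2) n ∈
        spn (fun n => (z n).1.2)} = {z : ℕ → XT F × Wd | ∃ v : ℕ →₀ F,
        evs (fun n => (z n).1.1.1) (fun n => (z n).2) n = v ∧ v ∈ spn (fun n => (z n).1.2)} := by
      ext z
      simp only [Set.mem_setOf_eq]
      constructor
      · intro h
        exact ⟨_, rfl, h⟩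
      · rintro ⟨v, rfl, h⟩
        exact h
    rw [e4]
    exact e3
  exact mes_imp b1 (mes_and (mes_and b2 b3) (mes_imp b4 (mes_imp (mes_not b5) (mes_all b6))))

end B3_

theorem p_B3 (h_TR : T_TR) (h_V1 : T_V1) (h_V4 : T_V4) (h_V5 : T_V5) (h_V6 : T_V6)
    (h_W1 : T_W1) (h_M1 : T_M1) (h_M2 : T_M2) (h_M3 : T_M3) (h_M4 : T_M4) : T_B3 := by
  intro B _ F _ _ h01 S c x e he heM hcI hxB
  -- the name of the vectors
  obtain ⟨w, -, hw⟩ := exists_map2 (Z := ℕ →₀ F) CSub.univ (inC_univ c) (inC_univ x)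
    (fun c x => evs c x) (fun n a => (h_V6 F).1 n a)
  have hwb : Forces e fun u => IsBlockSeq (w.pt u) := by
    refine ((hcI.and (forces_top hxB)).and (forces_top hw)).mono ?_
    rintro u ⟨⟨h1, h2⟩, h3⟩
    rw [h3]
    exact (h_V4 F).2 _ h1 _ h2
  -- the fourth clause
  have h4 : e ≤ ⨆ z : Nm B (ℕ →₀ F), S z ⊓
      bval fun u => ¬ AlmostDisjoint (spn (w.pt u)) (spn (z.pt u)) := by
    have h5 : madV S ≤ bval (fun u => IsBlockSeq (w.pt u)) ⇨ ⨆ z : Nm B (ℕ →₀ F), S z ⊓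
        bval fun u => ¬ AlmostDisjoint (spn (w.pt u)) (spn (z.pt u)) :=
      (inf_le_left.trans inf_le_right).trans (iInf_le _ w)
    have h6 := le_himp_iff.1 (heM.trans h5)
    rwa [inf_eq_left.2 (le_bval_iff.2 hwb)] at h6
  obtain ⟨z, hz⟩ : ∃ z : Nm B (ℕ →₀ F), e ⊓ (S z ⊓
      bval fun u => ¬ AlmostDisjoint (spn (w.pt u)) (spn (z.pt u))) ≠ ⊥ := by
    by_contra hcon
    push Not at hcon
    apply he
    have h7 : e ⊓ ⨆ z : Nm B (ℕ →₀ F), (S z ⊓
        bval fun u => ¬ AlmostDisjoint (spn (w.pt u)) (spn (z.pt u))) = ⊥ := by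
      rw [inf_iSup_eq]
      exact iSup_eq_bot.2 hcon
    rwa [inf_eq_left.2 h4] at h7
  -- transfer
  obtain ⟨y, -, hy⟩ := h_TR B Set.univ CSub.univ (B3_.XT F) Wd (B3_.Rl F)
    (B3_.rl_mes F h_M1 h_M2 h_M3 h_M4 h_V5 h_V6) (B3_.rl_ex F h_V1 h_W1 h01)
    ((c.prod x).prod z) (inC_univ _)
  have hq : Forces (⊤ : B) fun u => ((c.prod x).prod z).pt u =
      fun n => ((c.pt u n, x.pt u n), z.pt u n) := by
    refine (((c.prod x).prod_pt z).and (c.prod_pt x)).mono ?_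
    rintro u ⟨h1, h2⟩
    rw [h1, h2]
  have hyR : Forces (⊤ : B) fun u => (Blk (y.pt u) ∧ Le (y.pt u) (x.pt u)) ∧
      (Inter (c.pt u) → ¬ AlmostDisjoint (spn (evs (c.pt u) (x.pt u))) (spn (z.pt u)) →
        ∀ n, evs (c.pt u) (y.pt u) n ∈ spn (z.pt u)) := by
    refine ((hy.and hq).and hxB).mono ?_
    rintro u ⟨⟨h1, h2⟩, h3⟩
    rw [h2] at h1
    exact h1 h3
  refine ⟨_, y, hz, inf_le_left, hyR.mono fun u hu => hu.1, ?_⟩
  refine le_trans ?_ (le_iSup _ z)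
  refine le_inf (inf_le_right.trans inf_le_left) (le_bval_iff.2 ?_)
  have a1 := hcI.weak (inf_le_left : e ⊓ (S z ⊓
      bval fun u => ¬ AlmostDisjoint (spn (w.pt u)) (spn (z.pt u))) ≤ e)
  have a2 : Forces (e ⊓ (S z ⊓
      bval fun u => ¬ AlmostDisjoint (spn (w.pt u)) (spn (z.pt u))))
      fun u => ¬ AlmostDisjoint (spn (w.pt u)) (spn (z.pt u)) :=
    (forces_bval _).weak (inf_le_right.trans inf_le_right)
  refine ((a1.and a2).and ((forces_top hw).and (forces_top hyR))).mono ?_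
  rintro u ⟨⟨h1, h2⟩, h3, h4⟩
  rw [h3] at h2
  exact h4.2 h1 h2

end SLV
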