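import Pool.Agent.SLV.T2

/-!
# MP_0a8ab4_lc, project SLV: the final contradiction (target T_B4)
-/

set_option autoImplicit false

namespace SLV

open Cardinal CofSN Pool.Agent.MadBlock

namespace B4_

variable {B : Type} [CompleteBooleanAlgebra B]

/-- a nonzero element below a supremum meets a member of the family -/
theorem exists_meet {ι : Sort*} {e : B} {f : ι → B} (he : e ≠ ⊥) (h : e ≤ ⨆ i, f i) :
    ∃ i, e ⊓ f i ≠ ⊥ := by
  by_contra hc
  push Not at hc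
  apply he
  have h1 : e = e ⊓ ⨆ i, f i := (inf_eq_left.2 h).symm
  rw [h1, inf_iSup_eq]
  exact le_bot_iff.1 (iSup_le fun i => (hc i).le)

/-- the third clause of `madV` -/
theorem clause {F : Type} [Field F] {S : Nm B (ℕ →₀ F) → B} {e : B} (he : e ≤ madV S)
    (x y : Nm B (ℕ →₀ F)) (hx : e ≤ S x) (hy : e ≤ S y) :
    Forces e fun u => spn (x.pt u) = spn (y.pt u) ∨ AlmostDisjoint (spn (x.pt u))
      (spn (y.pt u)) := by
  rw [← le_bval_iff]
  have h1 : madV S ≤ ⨅ x : Nm B (ℕ →₀ F), ⨅ y : Nm B (ℕ →₀ F), S x ⊓ S y ⇨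
      bval fun u => spn (x.pt u) = spn (y.pt u) ∨
        AlmostDisjoint (spn (x.pt u)) (spn (y.pt u)) := by
    unfold madV
    exact inf_le_left.trans (inf_le_left.trans inf_le_right)
  have h2 := (he.trans h1).trans ((iInf_le _ x).trans (iInf_le _ y))
  rw [le_himp_iff] at h2
  exact (le_inf le_rfl (le_inf hx hy)).trans h2

end B4_

open B4_ in
theorem p_B4 (hV3 : T_V3) : T_B4 := by
  intro B _ F _ _ S c a1 a2 x z e he hmad h1 h2 hne hc hx hD hD'
  obtain ⟨y, hy⟩ := exists_meet he hD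
  have hle : e ⊓ (S y ⊓ bval fun u => ∀ n, evs (c.pt u) (x.pt u) n ∈ spn (y.pt u)) ≤ e :=
    inf_le_left
  obtain ⟨y', hy'⟩ := exists_meet hy (hle.trans hD')
  set e2 := e ⊓ (S y ⊓ bval fun u => ∀ n, evs (c.pt u) (x.pt u) n ∈ spn (y.pt u)) ⊓
    (S y' ⊓ bval fun u => ∀ n, evs (c.pt u) (z.pt u) n ∈ spn (y'.pt u)) with he2
  have l0 : e2 ≤ e := inf_le_left.trans inf_le_left
  have l1 : e2 ≤ S y := inf_le_left.trans (inf_le_right.trans inf_le_left)
  have l2 : e2 ≤ S y' := inf_le_right.trans inf_le_left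
  have f1 : Forces e2 fun u => ∀ n, evs (c.pt u) (x.pt u) n ∈ spn (y.pt u) :=
    le_bval_iff.1 (inf_le_left.trans (inf_le_right.trans inf_le_right))
  have f2 : Forces e2 fun u => ∀ n, evs (c.pt u) (z.pt u) n ∈ spn (y'.pt u) :=
    le_bval_iff.1 (inf_le_right.trans inf_le_right)
  have g1 := clause (l0.trans hmad) y y' l1 l2
  have g2 := clause (l0.trans hmad) y a1 l1 (l0.trans h1)
  have g3 := clause (l0.trans hmad) a1 a2 (l0.trans h1) (l0.trans h2)
  apply hy'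
  apply eq_bot_of_forces_false
  refine (((f1.and f2).and (g1.and (g2.and g3))).and
    ((hne.weak l0).and ((hc.weak l0).and (hx.weak l0)))).mono ?_
  rintro u ⟨⟨⟨k1, k2⟩, k3, k4, k5⟩, k6, ⟨k7, k8, k9⟩, k10, k11⟩
  rw [k11] at k2
  exact k6 (hV3 F (c.pt u) k7 (x.pt u) k10 (spn (y.pt u)) (spn (y'.pt u)) (spn (a1.pt u))
    (spn (a2.pt u)) k8 k9 k1 k2 k3 k4 k5)

end SLV
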