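import Pool.Agent.SLV.T1

/-! # SLV: sets depending on finitely many values are Borel (T_M1) -/

set_option autoImplicit false

namespace SLV

/-- sets depending on finitely many values are Borel -/
theorem p_M1 : T_M1 := by
  intro X _ A N hA
  let _ : MeasurableSpace (ℕ → X) := bsp X
  change MeasurableSet A
  have e : A = ⋃ t : {t : Fin N → X // ∃ y ∈ A, ∀ i : Fin N, y i = t i},
      ⋂ i : Fin N, {x : ℕ → X | x i = t.1 i} := by
    ext x
    simp only [Set.mem_iUnion, Set.mem_iInter, Set.mem_ofPred_eq]
    constructor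
    · intro hx
      exact ⟨⟨fun i => x i, x, hx, fun _ => rfl⟩, fun _ => rfl⟩
    · rintro ⟨⟨t, y, hy, hyt⟩, hx⟩
      refine (hA x y ?_).2 hy
      intro i hi
      have h1 := hx ⟨i, hi⟩
      have h2 := hyt ⟨i, hi⟩
      simp only at h1 h2
      rw [h1, h2]
  rw [e]
  refine MeasurableSet.iUnion fun t => MeasurableSet.iInter fun i => ?_
  exact MeasurableSpace.measurableSet_generateFrom ⟨i, t.1 i, rfl⟩

end SLV
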