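import Pool.Agent.SLV.T1

/-!
# MP_0a8ab4_lc, project SLV: composition of patterns (helper53, job SLV-W1)
-/

set_option autoImplicit false

namespace SLV

namespace W1_

theorem comp (w p : ℕ → Wd) (q : Wd) :
    act (fun n => act w (p n)) q = act w (act p q) := by
  apply Wd.ext
  · show (q.A.biUnion fun i => (p i).A.biUnion fun k => (w k).A) =
      (q.A.biUnion fun i => (p i).A).biUnion fun k => (w k).A
    rw [Finset.biUnion_biUnion]
  · show (q.V.biUnion fun i => (p i).V.biUnion fun k => (w k).V) =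
      (q.V.biUnion fun i => (p i).V).biUnion fun k => (w k).V
    rw [Finset.biUnion_biUnion]

theorem refl (w : ℕ → Wd) : Le w w := by
  intro n
  refine ⟨⟨{n}, {n}, subset_rfl, Finset.singleton_nonempty n⟩, ?_⟩
  apply Wd.ext
  · show (({n} : Finset ℕ).biUnion fun i => (w i).A) = (w n).A
    rw [Finset.singleton_biUnion]
  · show (({n} : Finset ℕ).biUnion fun i => (w i).V) = (w n).V
    rw [Finset.singleton_biUnion]

theorem mono (y w : ℕ → Wd) (h : Le y w) : Rg y ⊆ Rg w := by
  rintro _ ⟨q, rfl⟩
  choose P hP using h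
  refine ⟨act P q, ?_⟩
  have e : y = fun n => act w (P n) := funext fun n => (hP n).symm
  rw [← comp, ← e]

end W1_

theorem p_W1 : T_W1 :=
  ⟨W1_.comp, W1_.refl, fun _ _ _ h h' n => W1_.mono _ _ h' (h n), W1_.mono⟩

end SLV
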