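import Mathlib
import Pool.Agent.SLV.T2
import Pool.Agent.SLV.M1
import Pool.Agent.SLV.W1

/-!
# MP_0a8ab4_lc, project SLV: no infinite mad family in the Solovay class (helper79)
-/

set_option autoImplicit false

namespace SLV

open Cardinal CofSN Pool.Agent.MadBlock

namespace BB_

theorem lowc_mono {K : Type} [LinearOrder K] {lam mu : K} (h : lam ≤ mu) :
    lowc lam ⊆ lowc mu := fun _ hj => lt_of_lt_of_le hj h

theorem sp_mono {K : Type} [LinearOrder K] {J J' : Set (K × ℕ)} (h : J ⊆ J') :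
    (Sp J : Set (BL K)) ⊆ Sp J' := fun _ hU p q hpq => hU p q fun j hj => hpq j (h hj)

/-- invariance over a larger subalgebra, from the Solovay class -/
theorem inv {K : Type} [LinearOrder K] (OI : T_OI) {X : Type} {S : Nm (BL K) X → BL K} {lam0 : K}
    (hI : ∀ (d d' : BL K) (π : Set.Iic d ≃o Set.Iic d'),
      (∀ c ∈ Blow lam0, (π (rs c d) : BL K) = c ⊓ d') →
      ∀ x x' : Nm (BL K) X, (∀ n a, (π (rs (x.v n a) d) : BL K) = x'.v n a ⊓ d') →
        (π (rs (S x) d) : BL K) = S x' ⊓ d') {lam : K} (h : lam0 ≤ lam) :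
    InvS (Blow lam) S := by
  intro d d' π hπ x x' hx
  obtain ⟨o, ho⟩ := (OI (BL K) d d').1 π
  rw [← ho]
  refine hI d d' o ?_ x x' ?_
  · intro c hc
    rw [ho]
    exact hπ c (sp_mono (lowc_mono h) hc)
  · intro n a
    rw [ho]
    exact hx n a

/-- countably many names are names over some `Blow lam` above `lam0` -/
theorem names {K : Type} [LinearOrder K] (hK : IK K) (H1 : T_H1) {X : Type} [Countable X]
    [Nonempty X] (a1 a2 : Nm (BL K) X) (lam0 : K) :
    ∃ lam : K, lam0 ≤ lam ∧ InC (Blow lam) a1 ∧ InC (Blow lam) a2 := by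
  obtain ⟨f, hf⟩ := exists_surjective_nat (Bool × ℕ × X)
  obtain ⟨lam1, h1⟩ := H1 K hK fun t =>
    if (f t).1 = true then a1.v (f t).2.1 (f t).2.2 else a2.v (f t).2.1 (f t).2.2
  have hsub : (Blow lam1 : Set (BL K)) ⊆ Blow (max lam0 lam1) :=
    sp_mono (lowc_mono (le_max_right _ _))
  refine ⟨max lam0 lam1, le_max_left _ _, ?_, ?_⟩
  · intro n a
    obtain ⟨t, ht⟩ := hf (true, n, a)
    have h2 := h1 t
    rw [ht] at h2
    exact hsub h2
  · intro n a
    obtain ⟨t, ht⟩ := hf (false, n, a)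
    have h2 := h1 t
    rw [ht] at h2
    exact hsub h2

theorem w0_blk : Blk fun n => (⟨{n}, {n}, subset_rfl, Finset.singleton_nonempty n⟩ : Wd) := by
  intro n i hi j hj
  have h1 : i = n := Finset.mem_singleton.1 hi
  have h2 : j = n + 1 := Finset.mem_singleton.1 hj
  omega

/-- the special reduction depends on finitely many members -/
theorem zz_mes (n : ℕ) (a : Wd) : Mes {x : ℕ → Wd | zz x n = a} := by
  refine p_M1 Wd _ (3 * (n / 2) + 3) ?_
  intro x y hxy
  have h : zz x n = zz y n := by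
    unfold zz
    split_ifs with h
    · exact hxy _ (by omega)
    · have h1 := hxy (3 * (n / 2) + 1) (by omega)
      have h2 := hxy (3 * (n / 2) + 2) (by omega)
      apply Wd.ext
      · show (({3 * (n / 2) + 1, 3 * (n / 2) + 2} : Finset ℕ).biUnion fun i => (x i).A) =
          (({3 * (n / 2) + 1, 3 * (n / 2) + 2} : Finset ℕ).biUnion fun i => (y i).A)
        refine Finset.biUnion_congr rfl ?_
        intro i hi
        rw [Finset.mem_insert, Finset.mem_singleton] at hi
        rcases hi with rfl | rfl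
        · rw [h1]
        · rw [h2]
      · show (({3 * (n / 2) + 2} : Finset ℕ).biUnion fun i => (x i).V) =
          (({3 * (n / 2) + 2} : Finset ℕ).biUnion fun i => (y i).V)
        rw [Finset.singleton_biUnion, Finset.singleton_biUnion, h2]
  show zz x n = a ↔ zz y n = a
  rw [h]

/-- members of a mad family are block sequences -/
theorem block {B : Type} [CompleteBooleanAlgebra B] {F : Type} [Field F]
    {S : Nm B (ℕ →₀ F) → B} {e : B} (he : e ≤ madV S) {a : Nm B (ℕ →₀ F)} (ha : e ≤ S a) :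
    Forces e fun u => IsBlockSeq (a.pt u) := by
  rw [← le_bval_iff]
  have h1 : madV S ≤ ⨅ x : Nm B (ℕ →₀ F), S x ⇨ bval fun u => IsBlockSeq (x.pt u) := by
    unfold madV
    exact inf_le_left.trans (inf_le_left.trans (inf_le_left.trans inf_le_left))
  have h2 : e ≤ S a ⇨ bval fun u => IsBlockSeq (a.pt u) := (he.trans h1).trans (iInf_le _ a)
  rw [le_himp_iff] at h2
  exact (le_inf le_rfl ha).trans h2

end BB_

open BB_ in
/-- `T_BB`: over a field with two elements there is no infinite mad family in the Solovay class -/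
theorem p_BB (OI : T_OI) (B1 : T_B1) (B2 : T_B2) (B3 : T_B3) (B4 : T_B4) (DI : T_DI)
    (COH : T_COH) (GSX : T_GSX) (PD : T_PD) (HG : T_HG) (H1 : T_H1) (SPC : T_SPC) (V2 : T_V2) :
    T_BB := by
  intro K _ hK F _ _ hF S _ hSol
  by_contra hne
  obtain ⟨lam0, hI⟩ := hSol
  obtain ⟨e, a1, a2, he0, hemad, hea1, hea2, hspn⟩ := B1 (BL K) F S hne
  obtain ⟨lam, hlam, ha1, ha2⟩ := names hK H1 a1 a2 lam0
  have hC : CSub (Blow lam : Set (BL K)) := SPC K (lowc lam)
  obtain ⟨c, hcC, hc⟩ := B2 (BL K) (Blow lam) hC F a1 a2 ha1 ha2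
  have hcI : Forces e fun u => Inter (c.pt u) ∧ (∀ i, (c.pt u i).1 ∈ spn (a1.pt u)) ∧
      ∀ i, (c.pt u i).2 ∈ spn (a2.pt u) := by
    have h1 := block hemad hea1
    have h2 := block hemad hea2
    have h3 : Forces e fun u => IsBlockSeq (a1.pt u) → IsBlockSeq (a2.pt u) →
      Inter (c.pt u) ∧ (∀ i, (c.pt u i).1 ∈ spn (a1.pt u)) ∧
        ∀ i, (c.pt u i).2 ∈ spn (a2.pt u) := forces_top hc
    exact ((h1.and h2).and h3).mono fun u hu => hu.2 hu.1.1 hu.1.2
  obtain ⟨hDinv, hDext⟩ := DI (BL K) (Blow lam) hC F S (inv OI hI hlam) c hcC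
  have hcoh := COH K hK lam (DS S c) hDinv hDext
  obtain ⟨g, hg⟩ := GSX K hK lam
  have hw0 : CN (Blow lam : Set (BL K)) (Nm.const (BL K)
      fun n => (⟨{n}, {n}, subset_rfl, Finset.singleton_nonempty n⟩ : Wd)) := by
    refine ⟨InC.const hC _, ?_⟩
    have h5 := Nm.const_pt (B := BL K)
      (fun n => (⟨{n}, {n}, subset_rfl, Finset.singleton_nonempty n⟩ : Wd))
    refine h5.mono ?_
    intro u hu
    rw [hu]
    exact w0_blk
  obtain ⟨w', hw', -, γ, -, hγ⟩ := PD (BL K) (Blow lam) hC g hg (DS S c) hcoh _ hw0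
  obtain ⟨x, hx, hgen⟩ := HG (BL K) (Blow lam) hC g hg w' hw'
  -- all reductions of `x` have the value `γ`
  have hred : ∀ y : Nm (BL K) Wd, (Forces ⊤ fun u => Blk (y.pt u) ∧ Le (y.pt u) (x.pt u)) →
      DS S c y = γ := by
    intro y hy
    refine hγ y ?_ ?_
    · intro Δ hΔ
      exact top_le_iff.1 (hgen ⊤ y hy Δ hΔ)
    · exact (hy.and hx).mono fun u hu => ⟨hu.1.1, p_W1.2.2.1 _ _ _ hu.1.2 hu.2.2⟩
  have hxB : Forces (⊤ : BL K) fun u => Blk (x.pt u) := hx.mono fun _ hu => hu.1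
  have heγ : e ≤ γ := by
    rw [← disjoint_compl_right_iff, disjoint_iff]
    by_contra h0
    obtain ⟨e', y, he', hle, hy, hD⟩ := B3 (BL K) F hF S c x (e ⊓ γᶜ) h0
      (inf_le_left.trans hemad) ((hcI.mono fun _ hu => hu.1).weak inf_le_left) hxB
    rw [hred y hy] at hD
    apply he'
    rw [← le_bot_iff, ← inf_compl_eq_bot (a := γ)]
    exact le_inf hD (hle.trans inf_le_right)
  obtain ⟨z, -, hz⟩ := exists_map CSub.univ (inC_univ x) zz zz_mes
  have hxz : Forces (⊤ : BL K) fun u => Blk (x.pt u) ∧ z.pt u = zz (x.pt u) := hxB.and hz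
  have hDx : DS S c x = γ := hred x (hxB.mono fun u hu => ⟨hu, p_W1.2.1 _⟩)
  have hDz : DS S c z = γ := hred z (hxz.mono fun u hu => by
    rw [hu.2]
    exact V2 _ hu.1)
  exact B4 (BL K) F S c a1 a2 x z e he0 hemad hea1 hea2 hspn hcI (forces_top hxz)
    (heγ.trans hDx.ge) (heγ.trans hDz.ge)

end SLV
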