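import Pool.Agent.SLV.T1

/-!
# SLV, job CAR
-/

set_option autoImplicit false

namespace SLV

open Cardinal CofSN

namespace CAR_

/-- the graph of a condition below `lam` -/
def gr {K : Type} [LinearOrder K] (lam : K) (p : Lv K) :
    Set (Set.Iio lam × ℕ × Set.Iio lam) :=
  {t | p.f ((t.1 : K), t.2.1) = some (t.2.2 : K)}

theorem gr_sub {K : Type} [LinearOrder K] (lam : K) (p q : Lv K) (h : gr lam p ⊆ gr lam q)
    (j : K × ℕ) (hj : j ∈ lowc lam) (k : K) (hk : p.f j = some k) : q.f j = some k := by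
  have hj' : j.1 < lam := hj
  have hk' : k < j.1 := p.lt j k hk
  exact h (show ((⟨j.1, hj'⟩, j.2, ⟨k, hk'.trans hj'⟩) :
    Set.Iio lam × ℕ × Set.Iio lam) ∈ gr lam p from hk)

theorem gr_agree {K : Type} [LinearOrder K] (lam : K) (p q : Lv K) (h : gr lam p = gr lam q) :
    ∀ j ∈ lowc lam, p.f j = q.f j := by
  intro j hj
  cases hp : p.f j with
  | some k => exact (gr_sub lam p q h.le j hj k hp).symm
  | none =>
    cases hq : q.f j with
    | none => rfl
    | some k =>
      have := gr_sub lam q p h.ge j hj k hq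
      rw [hp] at this
      exact absurd this (by simp)

theorem mk_blow_le {K : Type} [LinearOrder K] (lam : K) :
    #(Blow (K := K) lam) ≤ #(Set (Set (Set.Iio lam × ℕ × Set.Iio lam))) := by
  refine mk_le_of_injective (f := fun U : Blow (K := K) lam => (gr lam) '' {p | p ∈ U.1}) ?_
  intro U V hUV
  have hUV' : (gr lam) '' {p | p ∈ U.1} = (gr lam) '' {p | p ∈ V.1} := hUV
  refine Subtype.ext (RO.ext_mem fun p => ⟨fun hp => ?_, fun hp => ?_⟩)
  · have h1 : gr lam p ∈ (gr lam) '' {p | p ∈ V.1} := hUV' ▸ ⟨p, hp, rfl⟩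
    obtain ⟨q, hq, hqp⟩ := h1
    exact (V.2 q p (gr_agree lam q p hqp)).1 hq
  · have h1 : gr lam p ∈ (gr lam) '' {p | p ∈ U.1} := hUV' ▸ ⟨p, hp, rfl⟩
    obtain ⟨q, hq, hqp⟩ := h1
    exact (U.2 q p (gr_agree lam q p hqp)).1 hq

theorem countable_wd : Countable Wd := by
  have : Function.Injective (fun w : Wd => (w.A, w.V)) := by
    intro a b h
    simp only [Prod.mk.injEq] at h
    exact Wd.ext h.1 h.2
  exact this.countable

/-- the code of a condition -/
def code {B : Type} [CompleteBooleanAlgebra B] (C : Set B) (p : Cd C) :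
    C × List Wd × Set (ℕ × Wd × C) :=
  (⟨p.c, p.hc⟩, p.t, {z | p.w.v z.1 z.2.1 = (z.2.2 : B)})

theorem code_inj {B : Type} [CompleteBooleanAlgebra B] (C : Set B) :
    Function.Injective (code C) := by
  intro p q h
  obtain ⟨pc, pt, pw, phc, pne, pht, phw⟩ := p
  obtain ⟨qc, qt, qw, qhc, qne, qht, qhw⟩ := q
  simp only [code, Prod.mk.injEq, Subtype.mk.injEq] at h
  obtain ⟨h1, h2, h3⟩ := h
  have h4 : pw = qw := by
    obtain ⟨pv, pd, pcv⟩ := pw
    obtain ⟨qv, qd, qcv⟩ := qw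
    have h5 : pv = qv := by
      funext n a
      have h6 : ((n, a, ⟨pv n a, phw.1 n a⟩) : ℕ × Wd × C) ∈
          {z : ℕ × Wd × C | pv z.1 z.2.1 = (z.2.2 : B)} := rfl
      rw [h3] at h6
      exact (show qv n a = pv n a from h6).symm
    subst h5
    rfl
  subst h1 h2 h4
  rfl

end CAR_

theorem p_CAR : T_CAR := by
  intro K _ hK lam
  have hω : ℵ₀ ≤ #K := hK.unc.le
  have hmul : ∀ X Y : Type, #X < #K → #Y < #K → #(X × Y) < #K := by
    intro X Y hX hY
    rw [mk_prod, lift_id, lift_id]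
    exact mul_lt_of_lt hω hX hY
  have hcnt : ∀ X : Type, Countable X → #X < #K := fun X hX =>
    (mk_le_aleph0_iff.2 hX).trans_lt hK.unc
  have hB : #(Blow (K := K) lam) < #K :=
    (CAR_.mk_blow_le lam).trans_lt (hK.pow _ (hK.pow _
      (hmul _ _ (hK.small lam) (hmul _ _ (hcnt ℕ inferInstance) (hK.small lam)))))
  refine ⟨hB, hK.pow _ ?_⟩
  have hW := CAR_.countable_wd
  refine (mk_le_of_injective (CAR_.code_inj (Blow (K := K) lam))).trans_lt ?_
  exact hmul _ _ hB (hmul _ _ (hcnt _ inferInstance)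
    (hK.pow _ (hmul _ _ (hcnt _ inferInstance) (hmul _ _ (hcnt _ inferInstance) hB))))

end SLV
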