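import Mathlib
import Pool.Agent.SLV.T2

/-!
# MP_0a8ab4_lc, project SLV: the order of the conditions (helper49)
-/

set_option autoImplicit false

namespace SLV

namespace CDL_

theorem pre_split {y : ℕ → Wd} {t s : List Wd} (h : pre y (t ++ s).length = t ++ s) :
    pre y t.length = t ∧ ∀ i < s.length, y (t.length + i) ∈ s := by
  have h1 : pre y (t ++ s).length =
      pre y t.length ++ (List.range s.length).map fun i => y (t.length + i) := by
    simp only [pre, List.length_append, List.range_add, List.map_append, List.map_map]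
    rfl
  rw [h1] at h
  have h2 := List.append_inj h (by simp [pre])
  refine ⟨h2.1, fun i hi => ?_⟩
  rw [← h2.2]
  exact List.mem_map.2 ⟨i, List.mem_range.2 (by simpa using hi), rfl⟩

end CDL_

theorem p_CDL (h_W1 : T_W1) : T_CDL := by
  intro B _ C _
  refine ⟨fun p => ⟨le_rfl, List.prefix_rfl, forces_of fun u _ => ⟨?_, h_W1.2.1 _⟩⟩,
    fun p q r hpq hqr => ?_, fun p q x hpq => ?_⟩
  · intro q hq
    simp at hq
  · obtain ⟨h1, ⟨s', h2⟩, h3⟩ := hpq
    obtain ⟨k1, ⟨s, k2⟩, k3⟩ := hqr
    refine ⟨h1.trans k1, ⟨s ++ s', by rw [← List.append_assoc, k2, h2]⟩, ?_⟩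
    refine (h3.and (k3.weak h1)).mono ?_
    rintro u ⟨⟨a1, a2⟩, b1, b2⟩
    refine ⟨fun z hz => ?_, h_W1.2.2.1 _ _ _ a2 b2⟩
    rw [← h2, ← k2, List.append_assoc, List.drop_left, List.mem_append] at hz
    rcases hz with hz | hz
    · refine b1 z ?_
      rw [← k2, List.drop_left]
      exact hz
    · refine h_W1.2.2.2 _ _ b2 (a1 z ?_)
      rw [← h2, List.drop_left]
      exact hz
  · obtain ⟨h1, ⟨s, h2⟩, h3⟩ := hpq
    refine le_inf (inf_le_left.trans h1) ?_
    rw [le_bval_iff]
    refine (((forces_bval _).weak inf_le_right).and (h3.weak inf_le_left)).mono ?_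
    rintro u ⟨⟨a1, a2, a3⟩, b1, b2⟩
    rw [← h2] at a2
    obtain ⟨c1, c2⟩ := CDL_.pre_split a2
    refine ⟨a1, c1, fun n hn => ?_⟩
    rcases lt_or_ge n p.t.length with hlt | hge
    · refine b1 _ ?_
      rw [← h2, List.drop_left]
      have h4 : p.t.length = q.t.length + s.length := by rw [← h2, List.length_append]
      have := c2 (n - q.t.length) (by omega)
      rwa [show q.t.length + (n - q.t.length) = n by omega] at this
    · exact h_W1.2.2.2 _ _ b2 (a3 n hge)

end SLV
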