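import Pool.Agent.SLV.T3

/-! # SLV-CLT: closed sets are given by trees -/

set_option autoImplicit false

namespace SLV

open Pool.Agent.MadBlock

namespace CLT_

theorem pre_length {X : Type} (x : ℕ → X) (n : ℕ) : (pre x n).length = n := by simp [pre]

theorem pre_eq {X : Type} {x y : ℕ → X} {n m : ℕ} (h : pre y m = pre x n) :
    m = n ∧ ∀ i < n, y i = x i := by
  have h1 : m = n := by
    have := congrArg List.length h
    rwa [pre_length, pre_length] at this
  subst h1
  refine ⟨rfl, fun i hi => ?_⟩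
  have h2 : (pre y m)[i]'(by rw [pre_length]; exact hi) = (pre x m)[i]'(by rw [pre_length]; exact hi) := by
    simp only [h]
  simpa [pre] using h2

end CLT_

open CLT_ in
theorem p_CLT : T_CLT := by
  intro F _ A hA
  refine ⟨{t | ∃ y ∈ A, ∃ n, pre y n = t}, fun x => ⟨fun hx n => ⟨x, hx, n, rfl⟩, fun h => ?_⟩⟩
  by_contra hx
  let _ : TopologicalSpace (ℕ →₀ F) := ⊥
  have hA' : IsClosed A := hA
  have hO : IsOpen Aᶜ := hA'.isOpen_compl
  obtain ⟨I, u, hu, hsub⟩ := isOpen_pi_iff.1 hO x hx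
  obtain ⟨y, hy, m, hm⟩ := h (I.sup id + 1)
  obtain ⟨-, hyx⟩ := pre_eq hm
  refine hsub (a := y) (fun i hi => ?_) hy
  have hi' : i < I.sup id + 1 := Nat.lt_succ_of_le (Finset.le_sup (f := id) hi)
  rw [hyx i hi']
  exact (hu i hi).2

end SLV
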