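import Mathlib
import Pool.Agent.SLV.ModelDefs

/-!
# MP_0a8ab4_lc, project SLV: the definitions of `V^B` and `L(R)` are in `Stmt.lean` (helper90)
-/
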