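import Mathlib
import Pool.Agent.SLV.T2
import Pool.Agent.SLV.LRDefs

/-!
# MP_0a8ab4_lc, project SLV: targets, part 3 (`L(R)` in the Boolean valued universe) (helper90)

Everything here is independent of the fusion arguments of part 2.
-/

set_option autoImplicit false

namespace SLV

open Cardinal CofSN Pool.Agent.MadBlock BSet

/-! ## R: basic facts on Boolean valued sets -/

/-- Equality is an equivalence relation, membership respects it. PROOF (as in every treatment of
`V^B`). `eqv S S = ⊤` and symmetry by induction. Transitivity: induction on `S` (for all `T`, `U`):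
`eqv S T ⊓ eqv T U ⊓ b i ≤ ⨆ j, ⨆ k, ...`. Members: `S.vl i ≤ mem (S.el i) S`;
`eqv S T ⊓ mem U S ≤ mem U T`. -/
def T_EQV : Prop :=
  ∀ (B : Type) [CompleteBooleanAlgebra B],
    (∀ S : BSet B, eqv S S = ⊤) ∧ (∀ S T : BSet B, eqv S T = eqv T S) ∧
    (∀ S T U : BSet B, eqv S T ⊓ eqv T U ≤ eqv S U) ∧
    (∀ (S : BSet B) (i : S.ty), S.vl i ≤ mem (S.el i) S) ∧
    (∀ S T U : BSet B, mem S T ⊓ eqv S U ≤ mem U T) ∧
    (∀ S T U : BSet B, mem S T ⊓ eqv T U ≤ mem S U) ∧
    (∀ S T : BSet B, eqv S T = (⨅ i, S.vl i ⇨ mem (S.el i) T) ⊓ ⨅ j, T.vl j ⇨ mem (T.el j) S)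

/-- Different natural numbers are different; so `n ∈ realN x` has the value `x n`. -/
def T_NAT : Prop :=
  ∀ (B : Type) [CompleteBooleanAlgebra B],
    (∀ m n : ℕ, m ≠ n → eqv (natN m : BSet B) (natN n) = ⊥) ∧
    (∀ (x : ℕ → B) (n : ℕ), mem (natN n) (realN x) = x n) ∧
    (∀ x y : ℕ → B, eqv (realN x) (realN y) = ⨅ n, (x n ⇨ y n) ⊓ (y n ⇨ x n))

/-- The hierarchy: the unfolding of the definition, all values are `⊤`, and a definable subset of a
level is in `L(R)`. -/
def T_LRU : Prop :=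
  ∀ (B : Type) [CompleteBooleanAlgebra B],
    (∀ α : Ordinal.{0}, Lr B α = unn (Option α.ToType) fun o => match o with
      | none => powN B
      | some β => Dfn (Lr B (Ordinal.typein (α := α.ToType) (· < ·) β))) ∧
    (∀ (α : Ordinal.{0}) (i : (Lr B α).ty), (Lr B α).vl i = ⊤) ∧
    (∀ (α : Ordinal.{0}) (i : (Lr B α).ty), inLR ((Lr B α).el i) = ⊤) ∧
    (∀ (α : Ordinal.{0}) (φ : Fml) (v : ℕ → (Lr B α).ty), inLR (sub (Lr B α) φ v) = ⊤)

/-- The code respects the equality of names (`T_NAT` for `eqv` of reals, pointwise). -/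
def T_COE : Prop :=
  ∀ (B : Type) [CompleteBooleanAlgebra B] (X : Type) [Nonempty X] (e : List X → ℕ)
    (x y : Nm B X), bval (fun u => x.pt u = y.pt u) ≤ eqv (codeN e x) (codeN e y)

/-! ## Z: transport of Boolean valued sets -/

section Tr

variable {B : Type} [CompleteBooleanAlgebra B]

/-- `z` below `d` corresponds to `z'` below `d'` -/
def Rl {d d' : B} (π : PI (Set.univ : Set B) d Set.univ d') (z z' : B) : Prop :=
  π.f (z ⊓ d) = z' ⊓ d'

/-- `S` corresponds to `S'` -/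
def Trn {d d' : B} (π : PI (Set.univ : Set B) d Set.univ d') : BSet B → BSet B → Prop
  | BSet.mk _ A b, BSet.mk _ A' b' =>
    (∀ i, ∃ j, Rl π (b i) (b' j) ∧ Trn π (A i) (A' j)) ∧
      (∀ j, ∃ i, Rl π (b i) (b' j) ∧ Trn π (A i) (A' j))

/-- the members `i` of `M` and `j` of `M'` correspond to each other -/
def Ix {d d' : B} (π : PI (Set.univ : Set B) d Set.univ d') (M M' : BSet B) (i : M.ty)
    (j : M'.ty) : Prop :=
  Rl π (M.vl i) (M'.vl j) ∧ Trn π (M.el i) (M'.el j)

end Tr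

/-- The correspondence of elements respects all operations (`T_PIB`; index types arbitrary). -/
def T_RL : Prop :=
  ∀ (B : Type) [CompleteBooleanAlgebra B] (d d' : B) (π : PI (Set.univ : Set B) d Set.univ d'),
    Rl π ⊤ ⊤ ∧ Rl π ⊥ ⊥ ∧
    (∀ z z' w w', Rl π z z' → Rl π w w' → Rl π (z ⊓ w) (z' ⊓ w')) ∧
    (∀ z z' w w', Rl π z z' → Rl π w w' → Rl π (z ⇨ w) (z' ⇨ w')) ∧
    (∀ z z', Rl π z z' → Rl π zᶜ z'ᶜ) ∧
    (∀ (ι ι' : Type) (z : ι → B) (z' : ι' → B), (∀ i, ∃ j, Rl π (z i) (z' j)) →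
      (∀ j, ∃ i, Rl π (z i) (z' j)) →
        Rl π (⨆ i, z i) (⨆ j, z' j) ∧ Rl π (⨅ i, z i) (⨅ j, z' j)) ∧
    (∀ z, ∃ z', Rl π z z') ∧ (∀ z', ∃ z, Rl π z z')

/-- Equality and membership of corresponding sets (`T_RL`, induction). -/
def T_TRE : Prop :=
  ∀ (B : Type) [CompleteBooleanAlgebra B] (d d' : B) (π : PI (Set.univ : Set B) d Set.univ d')
    (S S' T T' : BSet B), Trn π S S' → Trn π T T' →
      Rl π (eqv S T) (eqv S' T') ∧ Rl π (mem S T) (mem S' T')

/-- Truth in corresponding sets (`T_RL`, `T_TRE`, induction on the formula; for `all` the members of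
`M` and `M'` correspond to each other by `Trn π M M'`). -/
def T_TVL : Prop :=
  ∀ (B : Type) [CompleteBooleanAlgebra B] (d d' : B) (π : PI (Set.univ : Set B) d Set.univ d')
    (M M' : BSet B), Trn π M M' → ∀ (φ : Fml) (v : ℕ → M.ty) (v' : ℕ → M'.ty),
      (∀ n, Ix π M M' (v n) (v' n)) →
        Rl π (sat M φ v) (sat M' φ v') ∧ Trn π (sub M φ v) (sub M' φ v')

/-- Naturals and reals: `natN n` corresponds to itself, `realN x` to `realN x'`, the power set to
itself. -/
def T_TNR : Prop :=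
  ∀ (B : Type) [CompleteBooleanAlgebra B] (d d' : B) (π : PI (Set.univ : Set B) d Set.univ d'),
    (∀ n : ℕ, Trn π (natN n) (natN n)) ∧
    (∀ x x' : ℕ → B, (∀ n, Rl π (x n) (x' n)) → Trn π (realN x) (realN x')) ∧
    Trn π (powN B) (powN B)

/-- Every level of the hierarchy corresponds to itself. (`Trn π M M → Trn π (Dfn M) (Dfn M)` by
`T_TVL`, `T_RL`; unions; well-founded induction with `T_LRU`.) -/
def T_TLR : Prop :=
  ∀ (B : Type) [CompleteBooleanAlgebra B] (d d' : B) (π : PI (Set.univ : Set B) d Set.univ d')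
    (α : Ordinal.{0}), Trn π (Lr B α) (Lr B α)

/-- Corresponding names of sequences have corresponding codes (`T_INV` for the set of all `z` with
`∃ n, e (pre z n) = k`, Borel by `T_M1` and a countable union; `T_TNR`). -/
def T_TCN : Prop :=
  ∀ (B : Type) [CompleteBooleanAlgebra B] (d d' : B) (π : PI (Set.univ : Set B) d Set.univ d')
    (X : Type) [Countable X] [Nonempty X] (e : List X → ℕ) (x x' : Nm B X),
      (∀ n a, Rl π (x.v n a) (x'.v n a)) → Trn π (codeN e x) (codeN e x')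

/-- Every member of the hierarchy depends on few coordinates. PROOF. Induction on `α` (`T_LRU`): a
real: `T_H1`; a definable subset of `Lr β`: countably many parameters, each with its `lam`; take an
upper bound (`IK.bdd`, `IK.unc`; the property for `lam` gives it for all larger ones); `T_TLR`,
`T_TVL`. -/
def T_LAM : Prop :=
  ∀ (K : Type) [LinearOrder K], IK K → ∀ (α : Ordinal.{0}) (i : (Lr (BL K) α).ty), ∃ lam : K,
    ∀ (d d' : BL K) (π : PI (Set.univ : Set (BL K)) d Set.univ d'),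
      (∀ c ∈ Blow lam, π.f (c ⊓ d) = c ⊓ d') → Trn π ((Lr (BL K) α).el i) ((Lr (BL K) α).el i)

/-- The set of reals given by a member of the hierarchy is in the Solovay class (`T_LAM`, `T_TRE`,
`T_TCN`, `T_OI`; `T_COE`, `T_EQV`). -/
def T_LSW : Prop :=
  ∀ (K : Type) [LinearOrder K], IK K → ∀ (α : Ordinal.{0}) (i : (Lr (BL K) α).ty)
    (X : Type) [Countable X] [Nonempty X] (e : List X → ℕ),
      IsBSet (fun x : Nm (BL K) X => mem (codeN e x) ((Lr (BL K) α).el i)) ∧
      InSol (fun x : Nm (BL K) X => mem (codeN e x) ((Lr (BL K) α).el i))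

/-- `madV` depends only on the values of `S`, locally. -/
def T_LOC : Prop :=
  ∀ (B : Type) [CompleteBooleanAlgebra B] (F : Type) [Field F] (S S' : Nm B (ℕ →₀ F) → B) (b : B),
    (∀ x, b ⊓ S x = b ⊓ S' x) → b ⊓ madV S = b ⊓ madV S'

/-! ## Y: closed sets are in `L(R)` -/

/-- A closed set given by a tree `T` is in `L(R)`: `w = {z ∈ L 0 | z ⊆ p}` with `p` the set of the
codes of the elements of `T`. PROOF. `φ = all 2 (neg (and (mem 2 0) (neg (mem 2 1))))`, `v 1` = the
index of `realN p`, `p k = ⊤` if `k = e s` for some `s ∈ T`, else `⊥`. For a real `z`,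
`sat (Lr 0) φ ..` is `⨅ n, z n ⇨ p n` (`T_NAT`, `T_LRU`; members `a` of `Lr 0` are reals, and for `≥`
use that `mem a (realN z) = ⨆ n, z n ⊓ eqv a (natN n)`; for `≤` the natural numbers are among the
reals, `natN n` equals `realN` of a characteristic function; `T_EQV`). Then
`mem (codeN e x) w = ⨅ n, (codeN e x).vl n ⇨ p n`: `≥` with the index of `codeN e x` itself, `≤` by
`T_NAT`. This is `bval (∀ n, pre (x.pt u) n ∈ T)`, `e` is injective. -/
def T_CLW : Prop :=
  ∀ (B : Type) [CompleteBooleanAlgebra B] (X : Type) [Countable X] [Nonempty X] (e : List X → ℕ),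
    Function.Injective e → ∀ T : Set (List X), ∃ w : BSet B, inLR w = ⊤ ∧
      ∀ x : Nm B X, mem (codeN e x) w = bval fun u => ∀ n, pre (x.pt u) n ∈ T

/-- Closed sets are given by trees. -/
def T_CLT : Prop :=
  ∀ (F : Type) [Field F] (A : Set (ℕ → (ℕ →₀ F))), ClosedInProduct A →
    ∃ T : Set (List (ℕ →₀ F)), ∀ x, x ∈ A ↔ ∀ n, pre x n ∈ T

/-! ## The final theorems -/

/-- (LRA) `|F| ≥ 3`: the closed set of codes of `ClosedMadFamily` (`Pool.Agent.MadBlock.main_fin`,
`main_inf`), `T_CLT`, `T_CLW`, `T_A1`. -/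
def T_LRA : Prop :=
  ∀ (B : Type) [CompleteBooleanAlgebra B] (F : Type) [Field F] [Countable F],
    (∃ a : F, a ≠ 0 ∧ a ≠ 1) → ∀ e : List (ℕ →₀ F) → ℕ, Function.Injective e →
      ∃ S : BSet B, inLR S = ⊤ ∧ madB e S = ⊤

/-- (LRB) `|F| = 2`. PROOF. If `inLR S ⊓ madB e S ≠ ⊥` there are `α`, `i` with
`b = eqv S ((Lr α).el i) ⊓ madB e S ≠ ⊥`; `b ⊓ mem z S = b ⊓ mem z ((Lr α).el i)` (`T_EQV`), so
`b ≤ madB e ((Lr α).el i)` by `T_LOC`, and this is `⊥` by `T_LSW`, `T_BB`. -/
def T_LRB : Prop :=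
  ∀ (K : Type) [LinearOrder K], IK K → ∀ (F : Type) [Field F] [Countable F],
    (∀ a : F, a = 0 ∨ a = 1) → ∀ (e : List (ℕ →₀ F) → ℕ) (S : BSet (BL K)),
      inLR S ⊓ madB e S = ⊥

end SLV
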