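import Mathlib
import Pool.Agent.SLV.T3

/-!
# MP_0a8ab4_lc, project SLV: closed sets are in `L(R)`
-/

set_option autoImplicit false

namespace SLV

open Cardinal CofSN Pool.Agent.MadBlock BSet

namespace CLW_

variable {B : Type} [CompleteBooleanAlgebra B]

theorem natN_eq (n : ℕ) : (natN n : BSet B) = .mk (Fin n) (fun k => natN k.1) (fun _ => ⊤) := by
  rw [natN]

/-- the natural number `n` as a real -/
noncomputable def chi (B : Type) [CompleteBooleanAlgebra B] (n : ℕ) : ℕ → B :=
  fun k => if k < n then ⊤ else ⊥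

theorem natN_real (h_EQV : T_EQV) (h_NAT : T_NAT) (n : ℕ) :
    eqv (natN n : BSet B) (realN (chi B n)) = ⊤ := by
  obtain ⟨_, _, _, hmem, _, _, h7⟩ := h_EQV B
  have hm : ∀ j, j < n → mem (natN j : BSet B) (natN n) = ⊤ := by
    intro j hj
    have h1 : ⊤ ≤ mem (natN j : BSet B) (.mk (Fin n) (fun k => natN k.1) (fun _ => ⊤)) :=
      hmem (.mk (Fin n) (fun k => natN k.1) (fun _ => ⊤)) (⟨j, hj⟩ : Fin n)
    rw [← natN_eq n] at h1
    exact top_le_iff.1 h1
  rw [h7]
  apply top_le_iff.1
  refine le_inf ?_ ?_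
  · rw [natN_eq n]
    refine le_iInf fun i => ?_
    refine le_himp_iff.2 ?_
    refine inf_le_left.trans ?_
    change ⊤ ≤ mem (natN (i : Fin n).1) (realN (chi B n))
    rw [(h_NAT B).2.1]
    have hi : (i : Fin n).1 < n := Fin.isLt _
    simp only [chi]
    rw [if_pos hi]
  · refine le_iInf fun (j : ℕ) => ?_
    change ⊤ ≤ chi B n j ⇨ mem (natN j) (natN n)
    by_cases hj : j < n
    · rw [hm j hj]; simp
    · simp [chi, hj]

/-- the formula: every member of `0` is a member of `1` -/
def fml : Fml := .all 2 (.neg (.and (.mem 2 0) (.neg (.mem 2 1))))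

/-- the family of sets with the reals as its first member -/
def ff {I : Type} (g : I → BSet B) : Option I → BSet B
  | none => powN B
  | some i => g i

/-- the index of a real -/
def idx {I : Type} (g : I → BSet B) (x : ℕ → B) : (unn (Option I) (ff g)).ty :=
  ⟨none, x⟩

theorem el_idx {I : Type} (g : I → BSet B) (x : ℕ → B) :
    (unn (Option I) (ff g)).el (idx g x) = realN x := rfl

theorem vl_idx {I : Type} (g : I → BSet B) (x : ℕ → B) :
    (unn (Option I) (ff g)).vl (idx g x) = ⊤ := rfl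

theorem idx_cases {I : Type} [IsEmpty I] (g : I → BSet B)
    (a : (unn (Option I) (ff g)).ty) : ∃ x : ℕ → B, a = idx g x := by
  rcases (a : Σ i, (ff g i).ty) with ⟨_ | i, y⟩
  · exact ⟨y, rfl⟩
  · exact (IsEmpty.false i).elim

theorem sat_fml (h_EQV : T_EQV) (h_NAT : T_NAT) {I : Type} [IsEmpty I] (g : I → BSet B)
    (p z : ℕ → B) (v : ℕ → (unn (Option I) (ff g)).ty)
    (h0 : v 0 = idx g z) (h1 : v 1 = idx g p) :
    sat (unn (Option I) (ff g)) fml v = ⨅ n, z n ⇨ p n := by
  have e1 : sat (unn (Option I) (ff g)) fml v = ⨅ a : (unn (Option I) (ff g)).ty,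
      (unn (Option I) (ff g)).vl a ⇨ (mem ((unn (Option I) (ff g)).el a) (realN z) ⊓
        (mem ((unn (Option I) (ff g)).el a) (realN p))ᶜ)ᶜ := by
    unfold fml
    simp only [sat]
    refine iInf_congr fun a => ?_
    have u2 : Function.update v 2 a 2 = a := Function.update_self ..
    have u0 : Function.update v 2 a 0 = v 0 := Function.update_of_ne (by decide) ..
    have u1 : Function.update v 2 a 1 = v 1 := Function.update_of_ne (by decide) ..
    rw [u2, u0, u1, h0, h1, el_idx, el_idx]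
  rw [e1]
  apply le_antisymm
  · refine le_iInf fun n => ?_
    refine (iInf_le _ (idx g (chi B n))).trans ?_
    rw [vl_idx, el_idx, top_himp]
    have key : ∀ y : ℕ → B, mem (realN (chi B n)) (realN y) = y n := by
      intro y
      rw [← (h_NAT B).2.1 y n]
      obtain ⟨_, hsymm, _, _, h5, _, _⟩ := h_EQV B
      apply le_antisymm
      · have := h5 (realN (chi B n)) (realN y) (natN n)
        rwa [hsymm, natN_real h_EQV h_NAT, inf_top_eq] at this
      · have := h5 (natN n) (realN y) (realN (chi B n))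
        rwa [natN_real h_EQV h_NAT, inf_top_eq] at this
    rw [key, key, compl_inf, compl_compl, himp_eq, sup_comm]
  · refine le_iInf fun a => ?_
    have h2 : (⨅ n, z n ⇨ p n) ⊓ mem ((unn (Option I) (ff g)).el a) (realN z) ≤
        mem ((unn (Option I) (ff g)).el a) (realN p) := by
      change (⨅ n, z n ⇨ p n) ⊓ (⨆ n : ℕ, z n ⊓ eqv ((unn (Option I) (ff g)).el a) (natN n)) ≤
        ⨆ n : ℕ, p n ⊓ eqv ((unn (Option I) (ff g)).el a) (natN n)
      rw [inf_iSup_eq]
      refine iSup_le fun n => ?_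
      refine le_trans ?_ (le_iSup _ n)
      rw [← inf_assoc]
      refine inf_le_inf_right _ ?_
      exact (inf_le_inf_right _ (iInf_le _ n)).trans himp_inf_le
    rw [le_himp_iff]
    refine inf_le_left.trans ?_
    rw [compl_inf, compl_compl, sup_comm, ← himp_eq, le_himp_iff]
    exact h2

/-- membership in the set of all reals below `p` -/
theorem mem_sub (h_EQV : T_EQV) (h_NAT : T_NAT) {I : Type} [IsEmpty I] (g : I → BSet B)
    (p c : ℕ → B) :
    mem (realN c) (sub (unn (Option I) (ff g)) fml fun _ => idx g p) = ⨅ n, c n ⇨ p n := by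
  have e1 : mem (realN c) (sub (unn (Option I) (ff g)) fml fun _ => idx g p) =
      ⨆ a : (unn (Option I) (ff g)).ty, ((unn (Option I) (ff g)).vl a ⊓
        sat (unn (Option I) (ff g)) fml (Function.update (fun _ => idx g p) 0 a)) ⊓
        eqv (realN c) ((unn (Option I) (ff g)).el a) := rfl
  have e2 : ∀ z : ℕ → B, sat (unn (Option I) (ff g)) fml
      (Function.update (fun _ => idx g p) 0 (idx g z)) = ⨅ n, z n ⇨ p n := fun z =>
    sat_fml h_EQV h_NAT g p z _ (Function.update_self ..) (Function.update_of_ne (by decide) ..)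
  rw [e1]
  apply le_antisymm
  · refine iSup_le fun a => ?_
    obtain ⟨z, rfl⟩ := idx_cases g a
    rw [e2, vl_idx, el_idx, top_inf_eq, (h_NAT B).2.2]
    refine le_iInf fun n => ?_
    rw [le_himp_iff]
    have h1 : (⨅ n, z n ⇨ p n) ≤ z n ⇨ p n := iInf_le _ n
    have h2 : (⨅ n, (c n ⇨ z n) ⊓ (z n ⇨ c n)) ≤ c n ⇨ z n := (iInf_le _ n).trans inf_le_left
    calc (⨅ n, z n ⇨ p n) ⊓ (⨅ n, (c n ⇨ z n) ⊓ (z n ⇨ c n)) ⊓ c n
        ≤ (z n ⇨ p n) ⊓ ((c n ⇨ z n) ⊓ c n) := by
          rw [inf_assoc]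
          exact inf_le_inf h1 (inf_le_inf_right _ h2)
      _ ≤ (z n ⇨ p n) ⊓ z n := inf_le_inf_left _ himp_inf_le
      _ ≤ p n := himp_inf_le
  · refine le_trans ?_ (le_iSup _ (idx g c))
    rw [e2, vl_idx, el_idx, top_inf_eq, (h_EQV B).1, inf_top_eq]

theorem pre_eq_iff {X : Type} (y : ℕ → X) (n : ℕ) (s : List X) :
    pre y n = s ↔ s.length = n ∧ ∀ i : Fin n, s[i.1]? = some (y i) := by
  unfold pre
  constructor
  · rintro rfl
    refine ⟨by simp, fun i => ?_⟩
    simp
  · rintro ⟨h1, h2⟩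
    apply List.ext_getElem?
    intro i
    by_cases hi : i < n
    · rw [h2 ⟨i, hi⟩]
      simp [hi]
    · have h3 : s.length ≤ i := by omega
      have h4 : ((List.range n).map y).length ≤ i := by simp; omega
      rw [List.getElem?_eq_none h3, List.getElem?_eq_none h4]

theorem dec_pre {X : Type} [Nonempty X] (x : Nm B X) (n : ℕ) (s : List X) :
    DecIn (Set.univ : Set B) fun u => pre (x.pt u) n = s := by
  have h1 : DecIn (Set.univ : Set B) fun u => s.length = n ∧ ∀ i : Fin n, s[i.1]? = some (x.pt u i) := by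
    refine (DecIn.const CSub.univ _).and CSub.univ (DecIn.all CSub.univ fun i => ?_)
    rcases h : s[i.1]? with _ | a
    · exact (DecIn.const CSub.univ False).congr' fun u => by simp
    · exact (decIn_pt (inC_univ x) i.1 a).congr' fun u => by
        rw [Option.some_inj]; exact eq_comm
  exact h1.congr' fun u => (pre_eq_iff _ _ _).symm

theorem dec_code {X : Type} [Countable X] [Nonempty X] (e : List X → ℕ) (x : Nm B X) (k : ℕ) :
    DecIn (Set.univ : Set B) fun u => ∃ n, e (pre (x.pt u) n) = k := by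
  have h1 : DecIn (Set.univ : Set B) fun u => ∃ n, ∃ s : {s : List X // e s = k},
      pre (x.pt u) n = s.1 :=
    DecIn.ex CSub.univ fun n => DecIn.ex CSub.univ fun s => dec_pre x n s.1
  refine h1.congr' fun u => exists_congr fun n => ?_
  constructor
  · rintro ⟨s, hs⟩
    rw [hs]; exact s.2
  · intro h
    exact ⟨⟨_, h⟩, rfl⟩

theorem final {X : Type} [Countable X] [Nonempty X] (e : List X → ℕ) (he : Function.Injective e)
    (T : Set (List X)) (p : ℕ → B) (hp : ∀ s ∈ T, p (e s) = ⊤)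
    (hp' : ∀ k, (∀ s ∈ T, e s ≠ k) → p k = ⊥) (x : Nm B X) :
    (⨅ k, (bval fun u => ∃ n, e (pre (x.pt u) n) = k) ⇨ p k) =
      bval fun u => ∀ n, pre (x.pt u) n ∈ T := by
  have hall := forces_all fun k => (dec_code e x k).iff_mem
  apply le_antisymm
  · rw [le_bval_iff]
    refine (((forces_mem _).and (forces_top hall))).mono ?_
    rintro u ⟨h1, h2⟩ n
    set k := e (pre (x.pt u) n) with hk
    have h3 : u.mem (bval fun u => ∃ n, e (pre (x.pt u) n) = k) := (h2 k).2 ⟨n, rfl⟩
    have h4 : u.mem ((bval fun u => ∃ n, e (pre (x.pt u) n) = k) ⇨ p k) :=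
      u.mono (iInf_le _ k) h1
    have h5 : u.mem (p k) := u.mono himp_inf_le ((u.inf _ _).2 ⟨h4, h3⟩)
    by_contra hn
    have h6 : p k = ⊥ := hp' k fun s hs hsk => hn (by rwa [← he hsk])
    rw [h6] at h5
    exact u.bot h5
  · refine le_iInf fun k => ?_
    rw [le_himp_iff]
    by_cases hk : ∃ s ∈ T, e s = k
    · obtain ⟨s, hs, rfl⟩ := hk
      rw [hp s hs]
      exact le_top
    · push Not at hk
      rw [hp' k hk]
      refine le_bot_iff.2 (eq_bot_of_forces_false ?_)
      refine (((forces_bval _).weak inf_le_left).and ((forces_bval _).weak inf_le_right)).mono ?_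
      rintro u ⟨h1, n, h2⟩
      exact hk _ (h1 n) h2

end CLW_

open CLW_ in
theorem p_CLW (h_EQV : T_EQV) (h_NAT : T_NAT) (h_LRU : T_LRU) : T_CLW := by
  intro B _ X _ _ e he T
  classical
  obtain ⟨hL1, _, _, hL4⟩ := h_LRU B
  have hL := hL1 0
  set p : ℕ → B := fun k => if ∃ s ∈ T, e s = k then ⊤ else ⊥ with hp
  have : IsEmpty (Ordinal.ToType 0) := inferInstance
  set g : (Ordinal.ToType 0) → BSet B :=
    fun β => Dfn (Lr B (Ordinal.typein (α := Ordinal.ToType 0) (· < ·) β)) with hg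
  have hL' : Lr B 0 = unn (Option (Ordinal.ToType 0)) (ff g) := by
    rw [hL]
    congr 1
    funext o
    cases o <;> rfl
  have h4 : ∀ (φ : Fml) (v : ℕ → (unn (Option (Ordinal.ToType 0)) (ff g)).ty),
      inLR (sub (unn (Option (Ordinal.ToType 0)) (ff g)) φ v) = ⊤ := by
    have h5 := hL4 0
    exact hL' ▸ h5
  refine ⟨sub (unn (Option (Ordinal.ToType 0)) (ff g)) fml fun _ => idx g p, h4 _ _, fun x => ?_⟩
  unfold codeN
  rw [mem_sub h_EQV h_NAT]
  refine final e he T p ?_ ?_ x
  · intro s hs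
    rw [hp]
    exact if_pos ⟨s, hs, rfl⟩
  · intro k hk
    rw [hp]
    refine if_neg ?_
    rintro ⟨s, hs, hsk⟩
    exact hk s hs hsk

end SLV
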