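import Pool.Agent.SLV.T1

/-! # SLV, target `T_CNF`: elementary facts on the elements `cn p` -/

set_option autoImplicit false

namespace SLV

open Cardinal CofSN

namespace CNF_

variable {K : Type} [LinearOrder K]

open Classical in
/-- the condition `a` on `J`, `b` off `J` -/
noncomputable def mix (J : Set (K × ℕ)) (a b : Lv K) : Lv K where
  f j := if j ∈ J then a.f j else b.f j
  fin := by
    refine (a.fin.union b.fin).subset ?_
    intro j hj
    by_cases h : j ∈ J
    · left; simpa [h] using hj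
    · right; simpa [h] using hj
  lt := by
    intro j k h
    by_cases hj : j ∈ J
    · rw [if_pos hj] at h; exact a.lt j k h
    · rw [if_neg hj] at h; exact b.lt j k h

theorem mix_in (J : Set (K × ℕ)) (a b : Lv K) {j : K × ℕ} (h : j ∈ J) :
    (mix J a b).f j = a.f j := if_pos h

theorem mix_out (J : Set (K × ℕ)) (a b : Lv K) {j : K × ℕ} (h : j ∉ J) :
    (mix J a b).f j = b.f j := if_neg h

theorem le_def {q p : Lv K} : q ≤ p ↔ ∀ j k, p.f j = some k → q.f j = some k := Iff.rfl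

theorem mem_cn {p q : Lv K} : q ∈ cn p ↔ ∀ r ≤ q, ∃ s ≤ r, s ≤ p := by
  unfold cn
  rw [RO.mem_gen]
  simp

theorem self_mem (p : Lv K) : p ∈ cn p := mem_cn.2 fun r hr => ⟨r, le_rfl, hr⟩

theorem of_le {p q : Lv K} (h : q ≤ p) : q ∈ cn p := RO.mem_down (self_mem p) h

theorem ne_bot {U : BL K} : U ≠ ⊥ ↔ ∃ p : Lv K, p ∈ U := by
  constructor
  · intro h
    by_contra hc
    push Not at hc
    exact h (RO.ext_mem fun p => ⟨fun hp => absurd hp (hc p), fun hp => absurd hp (RO.notMem_bot p)⟩)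
  · rintro ⟨p, hp⟩ rfl
    exact RO.notMem_bot p hp

theorem sp_aux (J : Set (K × ℕ)) (p : Lv K) (hp : ∀ j, p.f j ≠ none → j ∈ J) (q q' : Lv K)
    (h : ∀ j ∈ J, q.f j = q'.f j) (hq : q ∈ cn p) : q' ∈ cn p := by
  rw [mem_cn] at hq ⊢
  intro r' hr'
  obtain ⟨s, hs, hsp⟩ := hq (mix J r' q) (by
    intro j k hk
    by_cases hj : j ∈ J
    · rw [mix_in J _ _ hj]
      exact hr' j k ((h j hj) ▸ hk)
    · rw [mix_out J _ _ hj]
      exact hk)
  refine ⟨mix J s r', ?_, ?_⟩
  · intro j k hk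
    by_cases hj : j ∈ J
    · rw [mix_in J _ _ hj]
      exact hs j k (by rw [mix_in J _ _ hj]; exact hk)
    · rw [mix_out J _ _ hj]
      exact hk
  · intro j k hk
    have hj : j ∈ J := hp j (by rw [hk]; simp)
    rw [mix_in J _ _ hj]
    exact hsp j k hk

end CNF_

open CNF_ in
theorem p_CNF : T_CNF := by
  intro K _
  refine ⟨?_, ?_, ?_, ?_, ?_, ?_⟩
  · intro p U
    constructor
    · intro hp q hq
      refine RO.mem_reg fun r hr => ?_
      obtain ⟨s, hs, hsp⟩ := mem_cn.1 hq r hr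
      exact ⟨s, hs, RO.mem_down hp hsp⟩
    · intro h
      exact h p (self_mem p)
  · intro U hU
    exact ne_bot.1 hU
  · intro p
    exact ne_bot.2 ⟨p, self_mem p⟩
  · intro J U p hU hne hoff
    obtain ⟨q, hq⟩ := ne_bot.1 hne
    refine ne_bot.2 ⟨mix J q p, ?_, ?_⟩
    · exact (hU q (mix J q p) (fun j hj => (mix_in J _ _ hj).symm)).1 hq
    · refine of_le ?_
      intro j k hk
      have hj : j ∉ J := by
        intro hj
        rw [hoff j hj] at hk
        exact absurd hk (by simp)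
      rw [mix_out J _ _ hj]
      exact hk
  · intro J p hp q q' h
    exact ⟨sp_aux J p hp q q' h, sp_aux J p hp q' q (fun j hj => (h j hj).symm)⟩
  · intro p q
    constructor
    · intro h
      obtain ⟨t, ht1, ht2⟩ := ne_bot.1 h
      obtain ⟨s, hs, hsp⟩ := mem_cn.1 ht1 t le_rfl
      obtain ⟨r, hr, hrq⟩ := mem_cn.1 ht2 s hs
      exact ⟨r, hr.trans hsp, hrq⟩
    · rintro ⟨r, hp, hq⟩
      exact ne_bot.2 ⟨r, of_le hp, of_le hq⟩

end SLV
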