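import Mathlib
import Pool.Agent.SLV.T3

/-!
# MP_0a8ab4_lc, project SLV: the code respects the equality of names (helper17)
-/

set_option autoImplicit false

namespace SLV

namespace COE_

variable {B : Type} [CompleteBooleanAlgebra B]

theorem half {X : Type} [Nonempty X] (e : List X → ℕ) (x y : Nm B X) (k : ℕ) :
    bval (fun u => x.pt u = y.pt u) ≤
      (bval fun u => ∃ n, e (pre (x.pt u) n) = k) ⇨ (bval fun u => ∃ n, e (pre (y.pt u) n) = k) := by
  rw [le_himp_iff, le_bval_iff]
  have h1 : Forces ((bval fun u => x.pt u = y.pt u) ⊓ (bval fun u => ∃ n, e (pre (x.pt u) n) = k))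
      (fun u => x.pt u = y.pt u) := (forces_bval _).weak inf_le_left
  have h2 : Forces ((bval fun u => x.pt u = y.pt u) ⊓ (bval fun u => ∃ n, e (pre (x.pt u) n) = k))
      (fun u => ∃ n, e (pre (x.pt u) n) = k) := (forces_bval _).weak inf_le_right
  exact (h1.and h2).mono fun u hu => by
    obtain ⟨h3, h4⟩ := hu
    rwa [h3] at h4

end COE_

theorem p_COE (h_NAT : T_NAT) : T_COE := by
  intro B _ X _ e x y
  have h := (h_NAT B).2.2 (fun k => bval fun u => ∃ n, e (pre (x.pt u) n) = k)
    (fun k => bval fun u => ∃ n, e (pre (y.pt u) n) = k)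
  have h' : BSet.eqv (codeN e x) (codeN e y) = _ := h
  rw [h']
  refine le_iInf fun k => le_inf (COE_.half e x y k) ?_
  have h5 := COE_.half e y x k
  refine le_trans (bval_mono fun u hu => ?_) h5
  exact hu.symm

end SLV
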