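import Mathlib
import Pool.Agent.SLV.T2

/-!
# MP_0a8ab4_lc, project SLV: in the Levy algebra invariant predicates are coherent
-/

set_option autoImplicit false

namespace SLV

open Cardinal CofSN

namespace COH_

theorem blow_mono {K : Type} [LinearOrder K] {lam mu : K} (h : lam ≤ mu) :
    (Blow lam : Set (BL K)) ⊆ Blow mu := by
  intro U hU p q hpq
  exact hU p q fun j hj => hpq j (lt_of_lt_of_le hj h)

theorem gen_sub {B : Type} [CompleteBooleanAlgebra B] {X : Type} {C D : Set B} {x : Nm B X}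
    (hD : CSub D) (hCD : C ⊆ D) (hx : ∀ n a, x.v n a ∈ D) : Gen C x ⊆ D :=
  fun _ hz => hz D hD hCD hx

theorem exists_mu (h1 : T_H1) {K : Type} [LinearOrder K] (hK : IK K) (lam : K)
    (x : Nm (BL K) Wd) : ∃ mu : K, lam ≤ mu ∧ ∀ n a, x.v n a ∈ Blow mu := by
  obtain ⟨f, hf⟩ := exists_surjective_nat (ℕ × Wd)
  obtain ⟨mu, hmu⟩ := h1 K hK fun n => x.v (f n).1 (f n).2
  refine ⟨max lam mu, le_max_left _ _, fun n a => ?_⟩
  obtain ⟨k, hk⟩ := hf (n, a)
  have := hmu k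
  simp only [hk] at this
  exact blow_mono (le_max_right _ _) this

theorem gen_le (hS : T_SPC) {K : Type} [LinearOrder K] {lam mu : K} (h : lam ≤ mu)
    {x : Nm (BL K) Wd} (hx : ∀ n a, x.v n a ∈ Blow mu) : Gen (Blow lam) x ⊆ Blow mu :=
  gen_sub (hS K (lowc mu)) (blow_mono h) hx

end COH_

open COH_

theorem p_COH (h1 : T_H1) (h2 : T_H2) (h3 : T_H3) (hS : T_SPC) : T_COH := by
  intro K _ hK lam S hinv hext
  have hgen : ∀ x, S x ∈ Gen (Blow lam) x := by
    intro x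
    obtain ⟨mu, hle, hmu⟩ := exists_mu h1 hK lam x
    refine h3 K hK mu (Gen (Blow lam) x) (csub_gen _ x) (gen_le hS hle hmu) (S x) ?_
    intro π hπ
    have e := hinv ⊤ ⊤ π (fun c hc => by
      rw [inf_top_eq]; exact hπ c (subset_gen _ x hc)) x x (fun n a => by
      rw [inf_top_eq]; exact hπ _ (mem_gen _ x n a))
    rwa [inf_top_eq] at e
  refine ⟨hext, hgen, ?_⟩
  intro x x' d hd d' hd' θ hC hv
  obtain ⟨mu1, hle1, hmu1⟩ := exists_mu h1 hK lam x
  obtain ⟨mu2, hle2, hmu2⟩ := exists_mu h1 hK mu1 x'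
  have hx1 : ∀ n a, x.v n a ∈ Blow mu2 := fun n a => blow_mono hle2 (hmu1 n a)
  obtain ⟨π, hπ⟩ := h2 K hK mu2 (Gen (Blow lam) x) (Gen (Blow lam) x') (csub_gen _ x)
    (csub_gen _ x') (gen_le hS (hle1.trans hle2) hx1) (gen_le hS (hle1.trans hle2) hmu2)
    d hd d' hd' θ
  have hcs := csub_gen (Blow lam) x
  have e := hinv d d' π (fun c hc => by
    rw [hπ _ (hcs.inf (subset_gen _ x hc) hd) inf_le_right]; exact hC c hc) x x' (fun n a => by
    rw [hπ _ (hcs.inf (mem_gen _ x n a) hd) inf_le_right]; exact hv n a)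
  rw [← e, hπ _ (hcs.inf (hgen x) hd) inf_le_right]

end SLV
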