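import Pool.Agent.SLV.T2

/-!
# MP_0a8ab4_lc, project SLV: target T_CPF (helper91)
-/

set_option autoImplicit false

namespace SLV

namespace CPF_

theorem ge_idx {w : ℕ → Wd} (hw : Blk w) : ∀ n, ∀ i ∈ (w n).A, n ≤ i := by
  intro n
  induction n with
  | zero => intro i _; exact Nat.zero_le i
  | succ n ih =>
    intro i hi
    obtain ⟨j, hj⟩ := (w n).ne
    have hj' := (w n).sub hj
    exact Nat.succ_le_of_lt (lt_of_le_of_lt (ih j hj') (hw n j hj' i hi))

theorem bound (t : List Wd) : ∃ N : ℕ, ∀ r ∈ t, ∀ a ∈ r.A, a < N := by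
  induction t with
  | nil => exact ⟨0, by simp⟩
  | cons r t ih =>
    obtain ⟨N, hN⟩ := ih
    obtain ⟨M, hM⟩ := r.A.exists_nat_subset_range
    refine ⟨max N M, fun r' hr' a ha => ?_⟩
    rcases List.mem_cons.1 hr' with rfl | h
    · exact lt_of_lt_of_le (Finset.mem_range.1 (hM ha)) (le_max_right _ _)
    · exact lt_of_lt_of_le (hN r' h a ha) (le_max_left _ _)

theorem exists_beyond {w : ℕ → Wd} (hw : Blk w) (t : List Wd) : ∃ n, Beyond t (w n) := by
  obtain ⟨N, hN⟩ := bound t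
  exact ⟨N, fun r hr a ha b hb => lt_of_lt_of_le (hN r hr a ha) (ge_idx hw N b hb)⟩

theorem mem_Rg (w : ℕ → Wd) (n : ℕ) : w n ∈ Rg w :=
  ⟨⟨{n}, {n}, subset_rfl, ⟨n, by simp⟩⟩, by ext k <;> simp [act]⟩

end CPF_

open CPF_

theorem p_CPF (h_FUN : T_FUN) (h_M2 : T_M2) : T_CPF := by
  intro B _ C hC Δ
  refine ⟨?_, ?_, ?_⟩
  · have h := h_FUN B C hC Set.univ (MD Δ)
    have e : (fun t w => sSup {c | c ∈ C ∧ ∀ y ∈ (Set.univ : Set (Nm B Wd)),
        c ⊓ bval (fun u => Nb t (w.pt u) (y.pt u)) ≤ MD Δ y}) = capt Δ := by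
      funext t w
      simp only [Set.mem_univ, true_implies]
      rfl
    rw [e] at h
    exact h
  · refine ⟨fun _ _ _ => hC.bot, fun t w w' c _ _ _ _ => inf_le_right, fun t w c hw hc h => ?_⟩
    have h1 : ∀ q : Wd, Forces c fun u => Beyond t q → ¬ q ∈ Rg (w.pt u) := by
      intro q
      by_cases hq : Beyond t q
      · have h2 := h q hq
        have h3 : DecIn C fun u => q ∈ Rg (w.pt u) := decIn_mes hC hw.1 (h_M2.2.1 q)
        have h4 : c ≤ (bval fun u => q ∈ Rg (w.pt u))ᶜ :=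
          (disjoint_iff.2 (le_bot_iff.1 h2)).le_compl_right
        rw [← h3.eq_bval.2] at h4
        exact (le_bval_iff.1 h4).mono fun u hu _ => hu
      · exact forces_of fun u _ h' => absurd h' hq
    have h5 : Forces c fun _ => False := by
      refine ((forces_all h1).and (forces_top hw.2)).mono fun u hu => ?_
      obtain ⟨n, hn⟩ := exists_beyond hu.2 t
      exact hu.1 _ hn (mem_Rg _ n)
    exact (eq_bot_of_forces_false h5).le
  · intro hD t ht w c hw hc hne
    obtain ⟨p', hp', hle⟩ := hD ⟨c, t, w, hc, hne, ht, hw⟩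
    obtain ⟨h1, h2, h3⟩ := hle
    obtain ⟨s, hs⟩ := h2
    have hs' : p'.t.drop t.length = s := by
      rw [← hs]; exact List.drop_left
    have h3' : Forces p'.c fun u => (∀ q ∈ s, q ∈ Rg (w.pt u)) ∧ Le (p'.w.pt u) (w.pt u) := by
      have := h3
      simp only [hs'] at this
      exact this
    refine ⟨p'.c, p'.hc, s, p'.w, p'.ne, h1, p'.hw, ?_, h3', ?_⟩
    · have := p'.ht
      rw [← hs] at this
      exact this
    · have hs2 : t ++ s = p'.t := hs
      rw [hs2]
      refine le_trans ?_ le_sup_left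
      refine le_sSup ⟨p'.hc, fun y => ?_⟩
      exact le_sSup ⟨p', hp', rfl⟩

end SLV
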