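import Pool.Agent.SLV.T2
import Pool.Agent.SLV.W1

/-!
# MP_0a8ab4_lc, project SLV: capturing finitely many dense sets (helper92)
-/

set_option autoImplicit false

namespace SLV

namespace CPQ_

variable {B : Type} [CompleteBooleanAlgebra B] {C : Set B}

theorem ex (h_CPF : T_CPF) (h_NW : T_NW) (hC : CSub C) (t : List Wd) (ht : BlkL t) (w : Nm B Wd)
    (hw : CN C w) (L : List (Set (Cd C))) (hL : ∀ Δ ∈ L, Dns Δ) :
    ∃ w', CN C w' ∧ Forces ⊤ (fun u => Le (w'.pt u) (w.pt u)) ∧ ∀ Δ ∈ L, capt Δ t w' = ⊤ := by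
  induction L with
  | nil => exact ⟨w, hw, forces_of fun u _ => p_W1.2.1 _, by simp⟩
  | cons Δ L ih =>
    obtain ⟨w1, hw1, hle1, hcap1⟩ := ih fun Δ' h => hL Δ' (List.mem_cons_of_mem _ h)
    obtain ⟨hF, h0, hD⟩ := h_CPF B C hC Δ
    obtain ⟨w2, hw2, hle2, hcap2⟩ := h_NW B C hC (capt Δ) (fun _ _ => ⊥) hF h0 t
      (hD (hL Δ List.mem_cons_self) t ht) w1 hw1
    refine ⟨w2, hw2, (hle1.and hle2).mono fun u hu => p_W1.2.2.1 _ _ _ hu.2 hu.1, ?_⟩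
    intro Δ' hΔ'
    rcases List.mem_cons.1 hΔ' with rfl | h
    · rwa [sup_bot_eq] at hcap2
    · have h1 := (h_CPF B C hC Δ').1.mono t w1 w2 ⊤ hw1 hw2 hC.top
        (hle2.mono fun u hu n _ => hu n)
      rw [hcap1 Δ' h, top_inf_eq] at h1
      exact top_le_iff.1 h1

end CPQ_

theorem p_CPQ (h_CPF : T_CPF) (h_NW : T_NW) : T_CPQ := by
  intro B _ C hC L hL
  refine ⟨?_, ?_⟩
  · intro t w w' c hw hw' hc hf
    refine le_iInf₂ fun Δ hΔ => ?_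
    refine le_trans ?_ ((h_CPF B C hC Δ).1.mono t w w' c hw hw' hc hf)
    exact inf_le_inf_left _ (iInf₂_le Δ hΔ)
  · intro t w ht hw
    obtain ⟨w', h1, h2, h3⟩ := CPQ_.ex h_CPF h_NW hC t ht w hw L hL
    exact ⟨w', h1, h2, by simp only [iInf_eq_top]; exact h3⟩

end SLV
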