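import Pool.Agent.SLV.T2

/-!
# SLV: DC1, below every condition some condition is below `p` or disjoint from `p`
-/

set_option autoImplicit false

namespace SLV

open Cardinal CofSN Pool.Agent.MadBlock

namespace DC1_

variable {B : Type} [CompleteBooleanAlgebra B] {C : Set B}

theorem le_of_blk {w : ℕ → Wd} (h : Blk w) : ∀ n, ∀ i ∈ (w n).A, n ≤ i := by
  intro n
  induction n with
  | zero => intro i _; exact Nat.zero_le i
  | succ n ih =>
    intro i hi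
    obtain ⟨j, hj⟩ := (w n).ne
    have hj' := (w n).sub hj
    have h1 := ih j hj'
    have h2 := h n j hj' i hi
    omega

theorem exists_bound (t : List Wd) : ∃ N : ℕ, ∀ r ∈ t, ∀ i ∈ r.A, i < N := by
  induction t with
  | nil => exact ⟨0, by simp⟩
  | cons a t ih =>
    obtain ⟨N, hN⟩ := ih
    refine ⟨max N (a.A.sup id + 1), fun r hr i hi => ?_⟩
    rcases List.mem_cons.1 hr with rfl | hr
    · exact lt_max_of_lt_right (Nat.lt_succ_of_le (Finset.le_sup (f := id) hi))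
    · exact lt_max_of_lt_left (hN r hr i hi)

theorem exists_beyond {w : ℕ → Wd} (h : Blk w) (t : List Wd) : ∃ n, Beyond t (w n) := by
  obtain ⟨N, hN⟩ := exists_bound t
  exact ⟨N, fun r hr i hi j hj => lt_of_lt_of_le (hN r hr i hi) (le_of_blk h N j hj)⟩

theorem mem_rg (w : ℕ → Wd) (n : ℕ) : w n ∈ Rg w := by
  refine ⟨⟨{n}, {n}, subset_rfl, ⟨n, by simp⟩⟩, ?_⟩
  refine Wd.ext ?_ ?_ <;> simp [act]

theorem le_refl' (w : ℕ → Wd) : Le w w := fun n => mem_rg w n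

/-- one more member of the stem -/
theorem ext1 (hC : CSub C) (p : Cd C) :
    ∃ p' : Cd C, CdLe p' p ∧ p'.t.length = p.t.length + 1 := by
  have hb : ∃ n q, Beyond p.t q ∧ p.c ⊓ p.w.v n q ≠ ⊥ := by
    by_contra hcon
    push Not at hcon
    apply p.ne
    apply eq_bot_of_forces_false
    refine ((forces_mem p.c).and (forces_top (p.hw.2.and p.w.pt_spec))).mono ?_
    rintro u ⟨h1, h2, h3⟩
    obtain ⟨n, hn⟩ := exists_beyond h2 p.t
    have h4 := hcon n _ hn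
    exact u.bot (h4 ▸ (u.inf _ _).2 ⟨h1, (h3 n _).1 rfl⟩)
  obtain ⟨n, q, hq, hne⟩ := hb
  have hbl : BlkL (p.t ++ [q]) := by
    refine List.pairwise_append.2 ⟨p.ht, List.pairwise_singleton _ _, ?_⟩
    intro a ha b hb
    rw [List.mem_singleton.1 hb]
    exact hq a ha
  refine ⟨⟨p.c ⊓ p.w.v n q, p.t ++ [q], p.w, hC.inf p.hc (p.hw.1 n q), hne, hbl, p.hw⟩,
    ⟨inf_le_left, List.prefix_append _ _, ?_⟩, by simp⟩
  refine ((forces_mem (p.c ⊓ p.w.v n q)).and (forces_top p.w.pt_spec)).mono ?_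
  rintro u ⟨h1, h2⟩
  refine ⟨fun r hr => ?_, le_refl' _⟩
  have hr' : r ∈ (p.t ++ [q]).drop p.t.length := hr
  rw [List.drop_left, List.mem_singleton] at hr'
  subst hr'
  rw [← (h2 n r).2 ((u.inf _ _).1 h1).2]
  exact mem_rg _ n

/-- long stems -/
theorem extN (h_CDL : T_CDL) (hC : CSub C) (p : Cd C) (N : ℕ) :
    ∃ p' : Cd C, CdLe p' p ∧ N ≤ p'.t.length := by
  induction N with
  | zero => exact ⟨p, (h_CDL B C hC).1 p, Nat.zero_le _⟩
  | succ N ih =>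
    obtain ⟨p1, h1, h2⟩ := ih
    obtain ⟨p2, h3, h4⟩ := ext1 hC p1
    exact ⟨p2, (h_CDL B C hC).2.1 _ _ _ h3 h1, by omega⟩

theorem pre_prefix {y : ℕ → Wd} {m n : ℕ} (h : m ≤ n) : pre y m <+: pre y n := by
  unfold pre
  refine List.IsPrefix.map y ?_
  rw [← Nat.add_sub_cancel' h, List.range_add]
  exact List.prefix_append _ _

theorem mem_drop_pre {y : ℕ → Wd} {m n : ℕ} {q : Wd} (h : q ∈ (pre y n).drop m) :
    ∃ i, m ≤ i ∧ y i = q := by
  unfold pre at h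
  rw [← List.map_drop] at h
  obtain ⟨i, hi, rfl⟩ := List.mem_map.1 h
  refine ⟨i, ?_, rfl⟩
  rw [List.mem_iff_getElem] at hi
  obtain ⟨j, hj, rfl⟩ := hi
  simp

/-- shrinking the Boolean part -/
theorem shrink (p : Cd C) (c : B) (hc : c ∈ C) (hne : c ≠ ⊥) (hle : c ≤ p.c)
    (w' : Nm B Wd) (hw' : CN C w') (hle' : Forces ⊤ fun u => Le (w'.pt u) (p.w.pt u)) :
    CdLe (⟨c, p.t, w', hc, hne, p.ht, hw'⟩ : Cd C) p := by
  refine ⟨hle, List.prefix_refl _, ?_⟩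
  refine (forces_top hle').mono fun u hu => ⟨fun q hq => ?_, hu⟩
  have hq' : q ∈ p.t.drop p.t.length := hq
  rw [List.drop_length] at hq'
  simp at hq'

/-- names satisfying two conditions -/
theorem uv_forces (y : Nm B Wd) (p q : Cd C) : Forces (uv y p ⊓ uv y q) fun u =>
    u.mem p.c ∧ u.mem q.c ∧ Nb p.t (p.w.pt u) (y.pt u) ∧ Nb q.t (q.w.pt u) (y.pt u) := by
  have h1 := forces_mem_bval fun u : Ult B => Nb p.t (p.w.pt u) (y.pt u)
  have h2 := forces_mem_bval fun u : Ult B => Nb q.t (q.w.pt u) (y.pt u)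
  refine ((forces_mem _).and (forces_top (h1.and h2))).mono ?_
  rintro u ⟨h3, h4, h5⟩
  unfold uv at h3
  obtain ⟨h6, h7⟩ := (u.inf _ _).1 h3
  obtain ⟨h8, h9⟩ := (u.inf _ _).1 h6
  obtain ⟨h10, h11⟩ := (u.inf _ _).1 h7
  exact ⟨h8, h10, h4 h9, h5 h11⟩

end DC1_

open DC1_ in
theorem p_DC1 (h_CDL : T_CDL) (h_HOM : T_HOM) (h_M2 : T_M2) : T_DC1 := by
  intro B _ C hC p0 p
  obtain ⟨hrefl, htr, -⟩ := h_CDL B C hC
  by_cases hAB : p0.c ⊓ p.c = ⊥
  · refine ⟨p0, hrefl p0, Or.inr fun y => ?_⟩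
    apply eq_bot_of_forces_false
    refine (uv_forces y p0 p).mono ?_
    rintro u ⟨h1, h2, -, -⟩
    exact u.bot (hAB ▸ (u.inf _ _).2 ⟨h1, h2⟩)
  -- shrink below `p.c`
  let p1 : Cd C := ⟨p0.c ⊓ p.c, p0.t, p0.w, hC.inf p0.hc p.hc, hAB, p0.ht, p0.hw⟩
  have h10 : CdLe p1 p0 := shrink p0 _ _ hAB inf_le_left p0.w p0.hw (forces_of fun u _ => le_refl' _)
  obtain ⟨p2, h21, hlen⟩ := extN h_CDL hC p1 p.t.length
  have h20 : CdLe p2 p0 := htr _ _ _ h21 h10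
  have h2c : p2.c ≤ p.c := h21.1.trans inf_le_right
  by_cases hpre : p.t <+: p2.t
  swap
  · refine ⟨p2, h20, Or.inr fun y => ?_⟩
    apply eq_bot_of_forces_false
    refine (uv_forces y p2 p).mono ?_
    rintro u ⟨-, -, h1, h2⟩
    apply hpre
    rw [← h2.2.1, ← h1.2.1]
    have : (pre (y.pt u) p.t.length).length = p.t.length := by simp [pre]
    simp only [pre, List.length_map, List.length_range]
    exact pre_prefix hlen
  have hdec : ∀ (w : Nm B Wd), InC C w → ∀ q, DecIn C fun u => q ∈ Rg (w.pt u) := fun w hw q =>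
    decIn_mes hC hw (h_M2.2.1 q)
  -- the new entries
  have hE : DecIn C fun u => ∀ q, q ∈ p2.t.drop p.t.length → q ∈ Rg (p.w.pt u) :=
    DecIn.all hC fun q => DecIn.imp hC (DecIn.const hC _) (hdec p.w p.hw.1 q)
  by_cases he : p2.c ⊓ bval (fun u => ∀ q, q ∈ p2.t.drop p.t.length → q ∈ Rg (p.w.pt u)) = ⊥
  · refine ⟨p2, h20, Or.inr fun y => ?_⟩
    apply eq_bot_of_forces_false
    refine ((uv_forces y p2 p).and (forces_top hE.iff_mem)).mono ?_
    rintro u ⟨⟨h1, -, h2, h3⟩, h4⟩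
    refine u.bot (he ▸ (u.inf _ _).2 ⟨h1, h4.2 fun q hq => ?_⟩)
    rw [← h2.2.1] at hq
    obtain ⟨i, hi, rfl⟩ := mem_drop_pre hq
    exact h3.2.2 i hi
  -- homogenise
  obtain ⟨w', hw', hle', hhom⟩ := h_HOM B C hC p2.w p2.hw
    (fun q => bval fun u => q ∈ Rg (p.w.pt u)) fun q => (hdec p.w p.hw.1 q).eq_bval.1
  have hmem : Forces (⊤ : B) fun u => ∀ q : Wd,
      u.mem (bval fun u => q ∈ Rg (p.w.pt u)) ↔ q ∈ Rg (p.w.pt u) :=
    forces_all fun q => (hdec p.w p.hw.1 q).iff_mem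
  have hA : DecIn C fun u => ∀ q, q ∈ Rg (w'.pt u) → q ∈ Rg (p.w.pt u) :=
    DecIn.all hC fun q => DecIn.imp hC (hdec w' hw'.1 q) (hdec p.w p.hw.1 q)
  set e : B := bval (fun u => ∀ q, q ∈ p2.t.drop p.t.length → q ∈ Rg (p.w.pt u)) with hedef
  set a : B := bval (fun u => ∀ q, q ∈ Rg (w'.pt u) → q ∈ Rg (p.w.pt u)) with hadef
  have heC : e ∈ C := hE.eq_bval.1
  have haC : a ∈ C := hA.eq_bval.1
  by_cases hca : p2.c ⊓ e ⊓ a = ⊥
  · -- none
    let p3 : Cd C := ⟨p2.c ⊓ e, p2.t, w', hC.inf p2.hc heC, he, p2.ht, hw'⟩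
    have h32 : CdLe p3 p2 := shrink p2 _ _ he inf_le_left w' hw' hle'
    refine ⟨p3, htr _ _ _ h32 h20, Or.inr fun y => ?_⟩
    apply eq_bot_of_forces_false
    refine ((uv_forces y p3 p).and (forces_top ((hhom.and hmem).and hA.iff_mem))).mono ?_
    rintro u ⟨⟨h1, -, h2, h3⟩, ⟨h4, h5⟩, h6⟩
    rcases h4 with h4 | h4
    · exact u.bot (hca ▸ (u.inf _ _).2 ⟨h1, h6.2 fun q hq => (h5 q).1 (h4 q hq)⟩)
    · exact h4 _ (h2.2.2 p2.t.length le_rfl) ((h5 _).2 (h3.2.2 p2.t.length hlen))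
  · -- all
    let p3 : Cd C := ⟨p2.c ⊓ e ⊓ a, p2.t, w', hC.inf (hC.inf p2.hc heC) haC, hca, p2.ht, hw'⟩
    have h32 : CdLe p3 p2 := shrink p2 _ _ hca (inf_le_left.trans inf_le_left) w' hw' hle'
    refine ⟨p3, htr _ _ _ h32 h20, Or.inl ⟨?_, hpre, ?_⟩⟩
    · exact (inf_le_left.trans inf_le_left).trans h2c
    · refine ((forces_mem p3.c).and (forces_top (hE.iff_mem.and hA.iff_mem))).mono ?_
      rintro u ⟨h1, h2, h3⟩
      obtain ⟨h4, h5⟩ := (u.inf _ _).1 h1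
      obtain ⟨h6, h7⟩ := (u.inf _ _).1 h4
      refine ⟨fun q hq => h2.1 h7 q hq, fun n => h3.1 h5 _ (mem_rg _ n)⟩

end SLV
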