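import Mathlib
import Pool.Agent.SLV.T2

/-!
# MP_0a8ab4_lc, project SLV: job DI, the predicate `DS` is invariant (helper37)
-/

set_option autoImplicit false

namespace SLV

open Cardinal CofSN Pool.Agent.MadBlock

namespace DI_

/-- the relation in the definition of `DS` -/
def Q {F : Type} [Field F] (c : ℕ → (ℕ →₀ F) × (ℕ →₀ F)) (x : ℕ → Wd) (y : ℕ → (ℕ →₀ F)) : Prop :=
  ∀ n, evs c x n ∈ spn y

/-- the set of triples -/
def A0 (F : Type) [Field F] : Set (ℕ → (((ℕ →₀ F) × (ℕ →₀ F)) × Wd) × (ℕ →₀ F)) :=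
  {z | Q (fun n => (z n).1.1) (fun n => (z n).1.2) (fun n => (z n).2)}

theorem mes_A0 (h_V5 : T_V5) (h_V6 : T_V6) (h_M1 : T_M1) (h_M4 : T_M4) (F : Type) [Field F]
    [Countable F] : Mes (A0 F) := by
  obtain ⟨-, h5, -⟩ := h_V5 F
  obtain ⟨h6, -⟩ := h_V6 F
  have e : A0 F = ⋂ n : ℕ, ⋃ v : ℕ →₀ F,
      {z : ℕ → (((ℕ →₀ F) × (ℕ →₀ F)) × Wd) × (ℕ →₀ F) | (fun n => (z n).1) ∈
        {w : ℕ → ((ℕ →₀ F) × (ℕ →₀ F)) × Wd | evs (fun n => (w n).1) (fun n => (w n).2) n = v}} ∩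
      {z | (fun n => (z n).2) ∈ {x : ℕ → (ℕ →₀ F) | v ∈ spn x}} := by
    ext z
    simp only [A0, Q, Set.mem_ofPred_eq, Set.mem_iInter, Set.mem_iUnion, Set.mem_inter_iff]
    refine forall_congr' fun n => ?_
    constructor
    · intro h
      exact ⟨_, rfl, h⟩
    · rintro ⟨v, rfl, h⟩
      exact h
  rw [e]
  unfold Mes
  refine @MeasurableSet.iInter _ _ (bsp _) _ _ fun n => ?_
  refine @MeasurableSet.iUnion _ _ (bsp _) _ _ fun v => ?_
  refine @MeasurableSet.inter _ (bsp _) _ _ ?_ ?_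
  · refine h_M4 ((((ℕ →₀ F) × (ℕ →₀ F)) × Wd) × (ℕ →₀ F)) (((ℕ →₀ F) × (ℕ →₀ F)) × Wd)
      (fun z n => (z n).1) (fun n a => ?_) _ (h6 n v)
    refine h_M1 _ _ (n + 1) fun x y hxy => ?_
    simp only [Set.mem_ofPred_eq]
    rw [hxy n (by omega)]
  · refine h_M4 ((((ℕ →₀ F) × (ℕ →₀ F)) × Wd) × (ℕ →₀ F)) (ℕ →₀ F)
      (fun z n => (z n).2) (fun n a => ?_) _ (h5 v)
    refine h_M1 _ _ (n + 1) fun x y hxy => ?_
    simp only [Set.mem_ofPred_eq]
    rw [hxy n (by omega)]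

end DI_

open DI_ in
theorem p_DI (h_INV : T_INV) (h_TRN : T_TRN) (h_PIB : T_PIB) (h_V5 : T_V5) (h_V6 : T_V6)
    (h_M1 : T_M1) (h_M4 : T_M4) : T_DI := by
  intro B _ C hC F _ _ S hS c hc
  constructor
  · intro d d' π hπ x x' hx
    obtain ⟨-, -, hinf, hsup, -⟩ :=
      h_PIB B Set.univ Set.univ CSub.univ CSub.univ d (Set.mem_univ _) d' (Set.mem_univ _) π
    have hinf' : ∀ z z' : B, π.f ((z ⊓ z') ⊓ d) = π.f (z ⊓ d) ⊓ π.f (z' ⊓ d) := by
      intro z z'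
      rw [inf_inf_distrib_right]
      exact hinf _ (Set.mem_univ _) _ (Set.mem_univ _) inf_le_right inf_le_right
    have hisup : ∀ {ι : Type} (f : ι → B), π.f ((⨆ i, f i) ⊓ d) = ⨆ i, π.f (f i ⊓ d) := by
      intro ι f
      rw [iSup_inf_eq, iSup, hsup _ (Set.subset_univ _), ← Set.range_comp]
      · rfl
      · rintro _ ⟨i, rfl⟩
        exact inf_le_right
    -- the Boolean values of the relation
    have key : ∀ y y' : Nm B (ℕ →₀ F), (∀ n a, π.f (y.v n a ⊓ d) = y'.v n a ⊓ d') →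
        π.f ((S y ⊓ bval fun u => ∀ n, evs (c.pt u) (x.pt u) n ∈ spn (y.pt u)) ⊓ d) =
          (S y' ⊓ bval fun u => ∀ n, evs (c.pt u) (x'.pt u) n ∈ spn (y'.pt u)) ⊓ d' := by
      intro y y' hy
      have h1 := h_INV B d d' π _ ((c.prod x).prod y) ((c.prod x').prod y') (by
        rintro n ⟨⟨a1, a2⟩, a3⟩
        show π.f ((c.v n a1 ⊓ x.v n a2 ⊓ y.v n a3) ⊓ d) = (c.v n a1 ⊓ x'.v n a2 ⊓ y'.v n a3) ⊓ d'
        rw [hinf', hinf', hπ _ (hc n a1), hx, hy, ← inf_inf_distrib_right,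
          ← inf_inf_distrib_right]) (A0 F) (mes_A0 h_V5 h_V6 h_M1 h_M4 F)
      have h2 : ∀ (x : Nm B Wd) (y : Nm B (ℕ →₀ F)),
          bval (fun u => ((c.prod x).prod y).pt u ∈ A0 F) =
            bval fun u => ∀ n, evs (c.pt u) (x.pt u) n ∈ spn (y.pt u) := by
        intro x y
        refine bval_congr (((c.prod_pt x).and ((c.prod x).prod_pt y)).mono ?_)
        rintro u ⟨h3, h4⟩
        rw [h4, h3]
        exact Iff.rfl
      rw [h2, h2] at h1
      rw [hinf', h1, hS d d' π hπ y y' hy, ← inf_inf_distrib_right]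
    unfold DS
    rw [hisup, iSup_inf_eq]
    refine le_antisymm (iSup_le fun y => ?_) (iSup_le fun y' => ?_)
    · obtain ⟨y', hy'⟩ := (h_TRN B d d' π _ y).1
      rw [key y y' hy']
      exact le_iSup (fun y' => (S y' ⊓ bval fun u => ∀ n, evs (c.pt u) (x'.pt u) n ∈
        spn (y'.pt u)) ⊓ d') y'
    · obtain ⟨y, hy⟩ := (h_TRN B d d' π _ y').2
      rw [← key y y' hy]
      exact le_iSup (fun y => π.f ((S y ⊓ bval fun u => ∀ n, evs (c.pt u) (x.pt u) n ∈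
        spn (y.pt u)) ⊓ d)) y
  · intro x y
    unfold DS
    rw [iSup_inf_eq]
    refine iSup_le fun z => le_trans (le_inf ?_ ?_) (le_iSup (fun z => S z ⊓ bval fun u =>
      ∀ n, evs (c.pt u) (y.pt u) n ∈ spn (z.pt u)) z)
    · exact inf_le_left.trans inf_le_left
    · refine le_bval_iff.2 ?_
      refine (((forces_bval _).weak (inf_le_left.trans inf_le_right)).and
        ((forces_bval _).weak inf_le_right)).mono ?_
      rintro u ⟨h1, h2⟩ n
      have := h1 n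
      rwa [h2] at this

end SLV
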