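import Pool.Agent.SLV.T2
import Pool.Agent.SLV.Basic
import Pool.Agent.SLV.W1

/-!
# MP_0a8ab4_lc, project SLV: values of conditions are dense in the algebra of a generic name
(helper7, job SLV-DX)
-/

set_option autoImplicit false

namespace SLV

namespace DX_

variable {B : Type} [CompleteBooleanAlgebra B] {C : Set B}

theorem ge_index (w : ℕ → Wd) (hw : Blk w) : ∀ m, ∀ j ∈ (w m).A, m ≤ j := by
  intro m
  induction m with
  | zero => intro j _; exact Nat.zero_le j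
  | succ m ih =>
    intro j hj
    obtain ⟨i, hi⟩ := (w m).ne
    have hi' := (w m).sub hi
    exact lt_of_le_of_lt (ih i hi') (hw m i hi' j hj)

theorem bound (t : List Wd) : ∃ N : ℕ, ∀ r ∈ t, ∀ i ∈ r.A, i ≤ N := by
  induction t with
  | nil => exact ⟨0, by simp⟩
  | cons a t ih =>
    obtain ⟨N, hN⟩ := ih
    refine ⟨max N (a.A.sup id), ?_⟩
    intro r hr i hi
    rcases List.mem_cons.1 hr with rfl | hr
    · exact le_trans (Finset.le_sup (f := id) hi) (le_max_right _ _)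
    · exact le_trans (hN r hr i hi) (le_max_left _ _)

theorem exists_beyond (w : ℕ → Wd) (hw : Blk w) (t : List Wd) : ∃ m, Beyond t (w m) := by
  obtain ⟨N, hN⟩ := bound t
  refine ⟨N + 1, fun r hr i hi j hj => ?_⟩
  exact lt_of_le_of_lt (hN r hr i hi) (ge_index w hw (N + 1) j hj)

/-- extension of the stem by one word -/
theorem ext1 (hC : CSub C) (p0 : Cd C) :
    ∃ p' : Cd C, CdLe p' p0 ∧ p'.t.length = p0.t.length + 1 := by
  obtain ⟨m, q, hq, hne⟩ : ∃ (m : ℕ) (q : Wd), Beyond p0.t q ∧ p0.c ⊓ p0.w.v m q ≠ ⊥ := by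
    by_contra hcon
    push Not at hcon
    apply p0.ne
    apply eq_bot_of_forces_false
    refine ((forces_mem p0.c).and ((forces_top p0.hw.2).and (forces_top p0.w.pt_spec))).mono ?_
    rintro u ⟨h1, h2, h3⟩
    obtain ⟨m, hm⟩ := exists_beyond _ h2 p0.t
    have h4 := (h3 m _).1 rfl
    have h5 := hcon m _ hm
    exact u.bot (h5 ▸ (u.inf _ _).2 ⟨h1, h4⟩)
  have ht : BlkL (p0.t ++ [q]) := by
    refine List.pairwise_append.2 ⟨p0.ht, List.pairwise_singleton _ _, ?_⟩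
    intro a ha b hb
    rw [List.mem_singleton] at hb
    subst hb
    exact hq a ha
  refine ⟨⟨p0.c ⊓ p0.w.v m q, p0.t ++ [q], p0.w, hC.inf p0.hc (p0.hw.1 m q), hne, ht, p0.hw⟩,
    ⟨inf_le_left, List.prefix_append _ _, ?_⟩, by simp⟩
  refine ((forces_mem _).and (forces_top p0.w.pt_spec)).mono ?_
  rintro u ⟨h1, h3⟩
  have h4 : p0.w.pt u m = q := (h3 m q).2 ((u.inf _ _).1 h1).2
  refine ⟨fun q' hq' => ?_, W1_.refl _⟩
  have h5 : (p0.t ++ [q]).drop p0.t.length = [q] := List.drop_left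
  have h6 : q' ∈ [q] := h5 ▸ hq'
  rw [List.mem_singleton] at h6
  rw [h6, ← h4]
  exact W1_.refl _ m

theorem long (h_CDL : T_CDL) (hC : CSub C) (n : ℕ) (p0 : Cd C) :
    ∃ p' : Cd C, CdLe p' p0 ∧ n < p'.t.length := by
  induction n with
  | zero =>
    obtain ⟨p', h1, h2⟩ := ext1 hC p0
    exact ⟨p', h1, by omega⟩
  | succ n ih =>
    obtain ⟨p1, h1, h2⟩ := ih
    obtain ⟨p', h3, h4⟩ := ext1 hC p1
    exact ⟨p', (h_CDL B C hC).2.1 _ _ _ h3 h1, by omega⟩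

/-- genericity: a dense set meets every nonzero element -/
theorem gen_ex {x : Nm B Wd} (hx : Gnr C x) {Δ : Set (Cd C)} (hΔ : Dns Δ) {y : B} (hy : y ≠ ⊥) :
    ∃ p ∈ Δ, y ⊓ uv x p ≠ ⊥ := by
  by_contra hcon
  push Not at hcon
  apply hy
  have h1 : y ⊓ MD Δ x = ⊥ := by
    unfold MD
    rw [inf_sSup_eq]
    refine iSup₂_eq_bot.2 ?_
    rintro _ ⟨p, hp, rfl⟩
    exact hcon p hp
  rwa [hx Δ hΔ, inf_top_eq] at h1

theorem uv_le_c (x : Nm B Wd) (p : Cd C) : uv x p ≤ p.c := inf_le_left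

theorem uv_le_v (x : Nm B Wd) (p : Cd C) (n : ℕ) (hn : n < p.t.length) :
    uv x p ≤ x.v n p.t[n] := by
  apply le_of_forces
  have h1 : Forces (uv x p) fun u => Nb p.t (p.w.pt u) (x.pt u) :=
    (forces_bval _).weak inf_le_right
  refine (h1.and (forces_top x.pt_spec)).mono ?_
  rintro u ⟨⟨_, h2, _⟩, h3⟩
  refine (h3 n _).1 ?_
  have h4 : (pre (x.pt u) p.t.length)[n]? = p.t[n]? := by rw [h2]
  unfold pre at h4
  rw [List.getElem?_eq_getElem hn] at h4
  simp only [List.getElem?_map, List.getElem?_range hn, Option.map_some, Option.some.injEq] at h4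
  exact h4

/-- the elements which are decided by a dense set of conditions -/
def Z (C : Set B) (x : Nm B Wd) : Set B := {z | Dns {p : Cd C | uv x p ≤ z ∨ uv x p ⊓ z = ⊥}}

theorem z_compl (x : Nm B Wd) (z : B) (hz : z ∈ Z C x) : zᶜ ∈ Z C x := by
  intro p0
  obtain ⟨p', hp', hle⟩ := hz p0
  refine ⟨p', ?_, hle⟩
  rcases hp' with h | h
  · right
    rw [← disjoint_iff, disjoint_compl_right_iff]
    exact h
  · left
    exact (disjoint_iff.2 h).le_compl_right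

theorem z_sSup (h_CDL : T_CDL) (h_MEE : T_MEE) (hC : CSub C) (x : Nm B Wd) (hx : Gnr C x)
    (S : Set B) (hS : S ⊆ Z C x) : sSup S ∈ Z C x := by
  intro p0
  by_cases h0 : uv x p0 ⊓ sSup S = ⊥
  · exact ⟨p0, Or.inr h0, (h_CDL B C hC).1 p0⟩
  obtain ⟨z, hz, hne⟩ : ∃ z ∈ S, uv x p0 ⊓ z ≠ ⊥ := by
    by_contra hcon
    push Not at hcon
    apply h0
    rw [inf_sSup_eq]
    exact iSup₂_eq_bot.2 hcon
  obtain ⟨p, hp, hne2⟩ := gen_ex hx (hS hz) hne
  have hpz : uv x p ≤ z := by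
    rcases hp with h | h
    · exact h
    · exfalso
      apply hne2
      apply le_bot_iff.1
      calc uv x p0 ⊓ z ⊓ uv x p ≤ uv x p ⊓ z := le_inf inf_le_right (inf_le_left.trans inf_le_right)
        _ = ⊥ := h
  have h1 : uv x p0 ⊓ uv x p ≠ ⊥ := by
    intro h
    apply hne2
    apply le_bot_iff.1
    calc uv x p0 ⊓ z ⊓ uv x p ≤ uv x p0 ⊓ uv x p := inf_le_inf_right _ inf_le_left
      _ = ⊥ := h
  obtain ⟨r, hr1, hr2⟩ : ∃ r : Cd C, CdLe r p0 ∧ CdLe r p := by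
    by_contra hcon
    push Not at hcon
    apply h1
    apply le_bot_iff.1
    refine (h_MEE B C hC x hx p0 p).trans (sSup_le ?_)
    rintro _ ⟨r, hr1, hr2, _⟩
    exact absurd hr2 (hcon r hr1)
  exact ⟨r, Or.inl (((h_CDL B C hC).2.2 r p x hr2).trans (hpz.trans (le_sSup hz))), hr1⟩

theorem z_mem (h_CDL : T_CDL) (hC : CSub C) (x : Nm B Wd) (c : B) (hc : c ∈ C) : c ∈ Z C x := by
  intro p0
  by_cases h0 : p0.c ⊓ c = ⊥
  · refine ⟨p0, Or.inr (le_bot_iff.1 ?_), (h_CDL B C hC).1 p0⟩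
    rw [← h0]
    exact inf_le_inf_right _ (uv_le_c x p0)
  · refine ⟨⟨p0.c ⊓ c, p0.t, p0.w, hC.inf p0.hc hc, h0, p0.ht, p0.hw⟩,
      Or.inl ((uv_le_c x _).trans inf_le_right), inf_le_left, List.prefix_rfl, ?_⟩
    exact ((h_CDL B C hC).1 p0).2.2.weak inf_le_left

theorem z_v (h_CDL : T_CDL) (hC : CSub C) (x : Nm B Wd) (n : ℕ) (a : Wd) : x.v n a ∈ Z C x := by
  intro p0
  obtain ⟨p', h1, h2⟩ := long h_CDL hC n p0
  refine ⟨p', ?_, h1⟩
  have h3 := uv_le_v x p' n h2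
  by_cases h4 : p'.t[n] = a
  · left
    rwa [h4] at h3
  · right
    apply le_bot_iff.1
    rw [← x.disj n _ a h4]
    exact inf_le_inf_right _ h3

end DX_

open DX_

theorem p_DX (h_MEE : T_MEE) (h_CDL : T_CDL) : T_DX := by
  intro B _ C hC x hx z hz hne
  have hZ : CSub (Z C x) :=
    ⟨z_compl x, z_sSup h_CDL h_MEE hC x hx⟩
  have hzZ : z ∈ Z C x := hz (Z C x) hZ (z_mem h_CDL hC x) (z_v h_CDL hC x)
  obtain ⟨p, hp, hne2⟩ := gen_ex hx hzZ hne
  refine ⟨p, fun h => hne2 (by rw [h, inf_bot_eq]), ?_⟩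
  rcases hp with h | h
  · exact h
  · exact absurd (by rw [inf_comm]; exact h) hne2

end SLV
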