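import Pool.Agent.SLV.T3

/-!
# MP_0a8ab4_lc, project SLV: equality and membership of Boolean valued sets
-/

set_option autoImplicit false

namespace SLV

open Cardinal CofSN Pool.Agent.MadBlock BSet

namespace EQV_

variable {B : Type} [CompleteBooleanAlgebra B]

theorem eqv_mk (ι ι' : Type) (A : ι → BSet B) (b : ι → B) (A' : ι' → BSet B) (b' : ι' → B) :
    eqv (BSet.mk ι A b) (BSet.mk ι' A' b') =
      (⨅ i, b i ⇨ ⨆ j, b' j ⊓ eqv (A i) (A' j)) ⊓
        (⨅ j, b' j ⇨ ⨆ i, b i ⊓ eqv (A i) (A' j)) := rfl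

theorem rfl_ (S : BSet B) : eqv S S = ⊤ := by
  induction S with
  | mk ι A b ih =>
    rw [eqv_mk, ← top_le_iff]
    refine le_inf (le_iInf fun i => ?_) (le_iInf fun i => ?_)
    · rw [le_himp_iff, top_inf_eq]
      exact le_iSup_of_le i (le_inf le_rfl (by rw [ih i]; exact le_top))
    · rw [le_himp_iff, top_inf_eq]
      exact le_iSup_of_le i (le_inf le_rfl (by rw [ih i]; exact le_top))

theorem symm_ (S : BSet B) : ∀ T : BSet B, eqv S T = eqv T S := by
  induction S with
  | mk ι A b ih =>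
    intro T
    cases T with
    | mk ι' A' b' =>
      rw [eqv_mk, eqv_mk, inf_comm]
      simp only [ih]

theorem left_ (S T : BSet B) (i : S.ty) :
    eqv S T ⊓ S.vl i ≤ ⨆ j, T.vl j ⊓ eqv (S.el i) (T.el j) := by
  cases S with
  | mk ι A b =>
    cases T with
    | mk ι' A' b' =>
      rw [eqv_mk]
      exact le_himp_iff.1 (inf_le_left.trans (iInf_le _ i))

theorem right_ (S T : BSet B) (j : T.ty) :
    eqv S T ⊓ T.vl j ≤ ⨆ i, S.vl i ⊓ eqv (S.el i) (T.el j) := by
  cases S with
  | mk ι A b =>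
    cases T with
    | mk ι' A' b' =>
      rw [eqv_mk]
      exact le_himp_iff.1 (inf_le_right.trans (iInf_le _ j))

/-- to show that an element is below the value of an equality -/
theorem le_eqv {x : B} {S T : BSet B}
    (h1 : ∀ i, x ⊓ S.vl i ≤ ⨆ j, T.vl j ⊓ eqv (S.el i) (T.el j))
    (h2 : ∀ j, x ⊓ T.vl j ≤ ⨆ i, S.vl i ⊓ eqv (S.el i) (T.el j)) : x ≤ eqv S T := by
  cases S with
  | mk ι A b =>
    cases T with
    | mk ι' A' b' =>
      rw [eqv_mk]
      exact le_inf (le_iInf fun i => le_himp_iff.2 (h1 i)) (le_iInf fun j => le_himp_iff.2 (h2 j))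

theorem trans_ (S : BSet B) : ∀ T U : BSet B, eqv S T ⊓ eqv T U ≤ eqv S U := by
  induction S with
  | mk ι A b ih =>
    intro T U
    refine le_eqv (fun i => ?_) (fun k => ?_)
    · have h1 : eqv (BSet.mk ι A b) T ⊓ eqv T U ⊓ (BSet.mk ι A b).vl i ≤
          eqv T U ⊓ ⨆ j, T.vl j ⊓ eqv (A i) (T.el j) :=
        le_inf (inf_le_left.trans inf_le_right)
          ((inf_le_inf_right _ inf_le_left).trans (left_ (BSet.mk ι A b) T i))
      refine h1.trans ?_
      rw [inf_iSup_eq]
      refine iSup_le fun j => ?_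
      have h2 : eqv T U ⊓ (T.vl j ⊓ eqv (A i) (T.el j)) ≤
          (⨆ k, U.vl k ⊓ eqv (T.el j) (U.el k)) ⊓ eqv (A i) (T.el j) := by
        rw [← inf_assoc]
        exact inf_le_inf_right _ (left_ T U j)
      refine h2.trans ?_
      rw [iSup_inf_eq]
      refine iSup_le fun k => le_iSup_of_le k ?_
      refine le_inf (inf_le_left.trans inf_le_left) ?_
      exact (le_inf inf_le_right (inf_le_left.trans inf_le_right)).trans (ih i (T.el j) (U.el k))
    · have h1 : eqv (BSet.mk ι A b) T ⊓ eqv T U ⊓ U.vl k ≤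
          eqv (BSet.mk ι A b) T ⊓ ⨆ j, T.vl j ⊓ eqv (T.el j) (U.el k) :=
        le_inf (inf_le_left.trans inf_le_left)
          ((inf_le_inf_right _ inf_le_right).trans (right_ T U k))
      refine h1.trans ?_
      rw [inf_iSup_eq]
      refine iSup_le fun j => ?_
      have h2 : eqv (BSet.mk ι A b) T ⊓ (T.vl j ⊓ eqv (T.el j) (U.el k)) ≤
          (⨆ i, b i ⊓ eqv (A i) (T.el j)) ⊓ eqv (T.el j) (U.el k) := by
        rw [← inf_assoc]
        exact inf_le_inf_right _ (right_ (BSet.mk ι A b) T j)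
      refine h2.trans ?_
      rw [iSup_inf_eq]
      refine iSup_le fun i => le_iSup_of_le i ?_
      refine le_inf (inf_le_left.trans inf_le_left) ?_
      exact (le_inf (inf_le_left.trans inf_le_right) inf_le_right).trans
        (ih i (T.el j) (U.el k))

theorem mem_self (S : BSet B) (i : S.ty) : S.vl i ≤ mem (S.el i) S :=
  le_iSup_of_le i (le_inf le_rfl (by rw [rfl_]; exact le_top))

theorem mem_left (S T U : BSet B) : mem S T ⊓ eqv S U ≤ mem U T := by
  unfold mem
  rw [iSup_inf_eq]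
  refine iSup_le fun j => le_iSup_of_le j ?_
  refine le_inf (inf_le_left.trans inf_le_left) ?_
  refine le_trans (le_inf ?_ (inf_le_left.trans inf_le_right)) (trans_ U S (T.el j))
  rw [symm_ U S]
  exact inf_le_right

theorem eq_inf (S T : BSet B) :
    eqv S T = (⨅ i, S.vl i ⇨ mem (S.el i) T) ⊓ ⨅ j, T.vl j ⇨ mem (T.el j) S := by
  apply le_antisymm
  · refine le_inf (le_iInf fun i => le_himp_iff.2 (left_ S T i))
      (le_iInf fun j => le_himp_iff.2 ((right_ S T j).trans ?_))
    exact iSup_mono fun i => inf_le_inf_left _ (symm_ (S.el i) (T.el j)).le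
  · refine le_eqv (fun i => ?_) (fun j => ?_)
    · exact le_himp_iff.1 (inf_le_left.trans (iInf_le _ i))
    · refine (le_himp_iff.1 (inf_le_right.trans (iInf_le _ j))).trans ?_
      exact iSup_mono fun i => inf_le_inf_left _ (symm_ (T.el j) (S.el i)).le

theorem mem_right (S T U : BSet B) : mem S T ⊓ eqv T U ≤ mem S U := by
  have h : mem S T = ⨆ j, T.vl j ⊓ eqv S (T.el j) := rfl
  rw [h, iSup_inf_eq]
  refine iSup_le fun j => ?_
  refine le_trans (le_inf ?_ ?_) (mem_left (T.el j) U S)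
  · have h1 : T.vl j ⊓ eqv S (T.el j) ⊓ eqv T U ≤ eqv T U ⊓ T.vl j :=
      le_inf inf_le_right (inf_le_left.trans inf_le_left)
    exact h1.trans (left_ T U j)
  · rw [symm_ (T.el j) S]
    exact inf_le_left.trans inf_le_right

end EQV_

theorem p_EQV : T_EQV := fun _ _ =>
  ⟨EQV_.rfl_, EQV_.symm_, EQV_.trans_, EQV_.mem_self, EQV_.mem_left, EQV_.mem_right,
    EQV_.eq_inf⟩

end SLV
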