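import Mathlib
import Pool.Agent.SLV.T2

/-!
# MP_0a8ab4_lc, project SLV, job FS (helper15): one step of the fusion
-/

set_option autoImplicit false

namespace SLV

namespace FS_

/-- the sequence starting with `τ` -/
noncomputable def ext {n : ℕ} (τ : Fin n → Wd) : ℕ → Wd := fun i =>
  if h : i < n then τ ⟨i, h⟩ else default

theorem ext_eq {n : ℕ} (τ : Fin n → Wd) (w : ℕ → Wd) (h : ∀ i : Fin n, w i = τ i) :
    ∀ i < n, w i = ext τ i := by
  intro i hi
  have := h ⟨i, hi⟩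
  simp only [ext, hi, dif_pos]
  exact this

theorem blkL_of_finN (h2 : T_W2) {n : ℕ} {t : List Wd} {w : ℕ → Wd} (hw : Blk w)
    (h : FinN n t w) : BlkL t := by
  obtain ⟨P, hP, rfl, -, -⟩ := h
  unfold BlkL at hP ⊢
  rw [List.pairwise_map]
  exact hP.imp fun {a b} hab => ((h2 w hw).2.1 a b).1 hab

end FS_

open FS_ in
/-- one step of the fusion -/
theorem p_FS (hQIT : T_QIT) (hW2 : T_W2) (hW8 : T_W8) (hW9 : T_W9) (hM2 : T_M2) (hM5 : T_M5) :
    T_FS := by
  intro B _ C hC Q hQ n w hw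
  -- the partition
  let d : (Fin n → Wd) → B := fun τ => bval fun u => ∀ i : Fin n, w.pt u i = τ i
  have hdec : ∀ τ : Fin n → Wd, DecIn C fun u => ∀ i : Fin n, w.pt u i = τ i := fun τ =>
    DecIn.all hC fun i => decIn_pt hw.1 i (τ i)
  have hd : ∀ τ, d τ ∈ C := fun τ => (hdec τ).eq_bval.1
  have hdF : ∀ τ, Forces (d τ) fun u => ∀ i : Fin n, w.pt u i = τ i := fun τ => forces_bval _
  have hdis : ∀ τ σ, τ ≠ σ → d τ ⊓ d σ = ⊥ := by
    intro τ σ hne
    apply eq_bot_of_forces_false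
    refine (((hdF τ).weak inf_le_left).and ((hdF σ).weak inf_le_right)).mono ?_
    rintro u ⟨h1, h2⟩
    exact hne (funext fun i => (h1 i).symm.trans (h2 i))
  have hcov : ⨆ τ, d τ = ⊤ := by
    apply top_le_iff.1
    apply le_of_forces
    refine ((forces_mem_iSup d).and (forces_all fun τ => (hdec τ).iff_mem)).mono ?_
    rintro u ⟨h1, h2⟩
    exact h1.2 ⟨fun i => w.pt u i, (h2 _).2 fun i => rfl⟩
  -- the names for the pieces
  have hex : ∀ τ : Fin n → Wd, ∃ v, CN C v ∧ Forces ⊤ (fun u => Le (v.pt u) (w.pt u)) ∧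
      ∀ t ∈ {t : List Wd | FinN n t (ext τ) ∧ BlkL t}, Q t v = ⊤ := by
    intro τ
    exact hQIT B C hC Q hQ w hw _ ((hW9.1 n (ext τ)).subset fun t ht => ht.1) fun t ht => ht.2
  choose v hv1 hv2 hv3 using hex
  obtain ⟨m, hm1, hm2⟩ := exists_mix hC d hd hdis hcov v fun τ => (hv1 τ).1
  have hmB : Forces ⊤ fun u => Blk (m.pt u) ∧ Le (m.pt u) (w.pt u) := by
    refine forces_of_cover hcov fun τ => ?_
    refine (((hm2 τ).weak inf_le_right).and
      ((forces_top (hv1 τ).2).and (forces_top (hv2 τ)))).mono ?_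
    rintro u ⟨h1, h2, h3⟩
    rw [h1]
    exact ⟨h2, h3⟩
  obtain ⟨w', hw'1, hw'2⟩ := exists_map2 hC hw.1 hm1 (fun a b => glue n a b) (hM5.1 n)
  have hG : Forces ⊤ fun u => Blk (w'.pt u) ∧ (∀ i < n, w'.pt u i = w.pt u i) ∧
      Le (w'.pt u) (w.pt u) ∧ ∀ t, FinN n t (w.pt u) → LeT t (w'.pt u) (m.pt u) := by
    refine (hw'2.and (hw.2.and hmB)).mono ?_
    rintro u ⟨h1, h2, h3, h4⟩
    rw [h1]
    exact hW8 (w.pt u) (m.pt u) h2 h3 h4 n
  have hCN : CN C w' := ⟨hw'1, hG.mono fun u h => h.1⟩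
  refine ⟨w', hCN, hG.mono fun u h => ⟨h.2.1, h.2.2.1⟩, fun t => ?_⟩
  have hfin : DecIn C fun u => FinN n t (w.pt u) := decIn_mes hC hw.1 (hM2.2.2.1 n t)
  have key : ∀ τ, bval (fun u => FinN n t (w.pt u)) ⊓ d τ ≤ Q t w' := by
    intro τ
    by_cases ht : FinN n t (ext τ) ∧ BlkL t
    · have h1 : Forces (bval (fun u => FinN n t (w.pt u)) ⊓ d τ)
          fun u => LeT t (w'.pt u) ((v τ).pt u) := by
        refine (((forces_bval fun u => FinN n t (w.pt u)).weak inf_le_left).and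
          (((hm2 τ).weak inf_le_right).and (forces_top hG))).mono ?_
        rintro u ⟨h1, h2, h3⟩
        rw [← h2]
        exact h3.2.2.2 t h1
      have h2 := hQ.mono t (v τ) w' _ (hv1 τ) hCN (hC.inf hfin.eq_bval.1 (hd τ)) h1
      rwa [hv3 τ t ht, inf_top_eq] at h2
    · have h1 : bval (fun u => FinN n t (w.pt u)) ⊓ d τ = ⊥ := by
        apply eq_bot_of_forces_false
        refine (((forces_bval fun u => FinN n t (w.pt u)).weak inf_le_left).and
          (((hdF τ).weak inf_le_right).and (forces_top hw.2))).mono ?_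
        rintro u ⟨h1, h2, h3⟩
        exact ht ⟨(hW9.2 n t (w.pt u) (ext τ) (ext_eq τ _ h2)).1 h1, blkL_of_finN hW2 h3 h1⟩
      rw [h1]
      exact bot_le
  calc bval (fun u => FinN n t (w.pt u))
      = ⨆ τ, bval (fun u => FinN n t (w.pt u)) ⊓ d τ := by rw [← inf_iSup_eq, hcov, inf_top_eq]
    _ ≤ Q t w' := iSup_le key

end SLV
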