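import Pool.Agent.SLV.T2

/-! # SLV: T_FUN (helper9) -/

set_option autoImplicit false

namespace SLV

theorem FUN_.fup {B : Type} [CompleteBooleanAlgebra B] (C : Set B) (N : Set (Nm B Wd))
    (M : Nm B Wd → B) (t : List Wd) (w : Nm B Wd) (y : Nm B Wd) (hy : y ∈ N) :
    sSup {c | c ∈ C ∧ ∀ y ∈ N, c ⊓ bval (fun u => Nb t (w.pt u) (y.pt u)) ≤ M y} ⊓
      bval (fun u => Nb t (w.pt u) (y.pt u)) ≤ M y := by
  rw [sSup_inf_eq]
  exact iSup₂_le fun c hc => hc.2 y hy

theorem p_FUN (h10 : T_W10) : T_FUN := by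
  obtain ⟨-, -, -, hW4, -, -, -, hW8, -⟩ := h10
  intro B _ C hC N M
  refine ⟨fun t w _ => hC.sSup _ fun c hc => hc.1, ?_, ?_⟩
  · intro t w w' c _ _ hc hf
    show c ⊓ sSup _ ≤ sSup _
    rw [inf_sSup_eq]
    refine iSup₂_le fun s hs => le_sSup ⟨hC.inf hc hs.1, fun y hy => ?_⟩
    refine le_trans ?_ (hs.2 y hy)
    refine le_inf (inf_le_left.trans inf_le_right) ?_
    rw [le_bval_iff]
    have h1 : Forces (c ⊓ s ⊓ bval fun u => Nb t (w'.pt u) (y.pt u))
        fun u => LeT t (w'.pt u) (w.pt u) := hf.weak (inf_le_left.trans inf_le_left)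
    have h2 : Forces (c ⊓ s ⊓ bval fun u => Nb t (w'.pt u) (y.pt u))
        fun u => Nb t (w'.pt u) (y.pt u) := (forces_bval _).weak inf_le_right
    exact (h1.and h2).mono fun u hu => hW4 t _ _ _ hu.1 hu.2
  · intro t w c _ hc hg
    refine le_sSup ⟨hc, fun y hy => ?_⟩
    have hcov : c ⊓ bval (fun u => Nb t (w.pt u) (y.pt u)) =
        ⨆ q, c ⊓ bval (fun u => Nb t (w.pt u) (y.pt u)) ⊓ y.v t.length q := by
      rw [← inf_iSup_eq, y.cover, inf_top_eq]
    rw [hcov]
    refine iSup_le fun q => ?_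
    by_cases hbot : c ⊓ bval (fun u => Nb t (w.pt u) (y.pt u)) ⊓ y.v t.length q = ⊥
    · rw [hbot]
      exact bot_le
    have hall : Forces (c ⊓ bval (fun u => Nb t (w.pt u) (y.pt u)) ⊓ y.v t.length q)
        fun u => Nb (t ++ [q]) (w.pt u) (y.pt u) ∧ q ∈ Rg (w.pt u) ∧ Beyond t q := by
      have h1 : Forces (c ⊓ bval (fun u => Nb t (w.pt u) (y.pt u)) ⊓ y.v t.length q)
          fun u => Nb t (w.pt u) (y.pt u) :=
        (forces_bval _).weak (inf_le_left.trans inf_le_right)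
      have h2 : Forces (c ⊓ bval (fun u => Nb t (w.pt u) (y.pt u)) ⊓ y.v t.length q)
          fun u => u.mem (y.v t.length q) := (forces_mem _).weak inf_le_right
      refine ((h1.and h2).and (forces_top y.pt_spec)).mono ?_
      rintro u ⟨⟨h3, h4⟩, h5⟩
      have h6 : y.pt u t.length = q := (h5 _ _).2 h4
      have h7 := hW8 t _ _ h3
      rw [h6] at h7
      exact h7
    have hB : Beyond t q := by
      by_contra hB
      exact hbot (eq_bot_of_forces_false (hall.mono fun u hu => hB hu.2.2))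
    have h8 := FUN_.fup C N M (t ++ [q]) w y hy
    refine le_trans (le_inf (le_trans (le_inf (inf_le_left.trans inf_le_left) ?_) (hg q hB)) ?_) h8
    · rw [le_bval_iff]
      exact hall.mono fun u hu => hu.2.1
    · rw [le_bval_iff]
      exact hall.mono fun u hu => hu.1

end SLV
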