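import Pool.Agent.SLV.T2

/-!
# MP_0a8ab4_lc, project SLV: the supremum in the definition of the functional has the property
-/

set_option autoImplicit false

namespace SLV

open Cardinal CofSN Pool.Agent.MadBlock

theorem p_FUP : T_FUP := by
  intro B _ C N M t w y hy
  rw [sSup_inf_eq]
  exact iSup₂_le fun c hc => hc.2 y hy

end SLV
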