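import Pool.Agent.SLV.T2

/-!
# MP_0a8ab4_lc, project SLV: the fusion lemma
-/

set_option autoImplicit false

namespace SLV

open Cardinal CofSN Pool.Agent.MadBlock

theorem p_FUS (h_FS : T_FS) (h_LIM : T_LIM) (h_W4 : T_W4) (h_W9 : T_W9) (h_M2 : T_M2) :
    T_FUS := by
  intro B _ C hC Q hQ w hw
  choose f hf1 hf2 hf3 using
    fun (n : ℕ) (w : {w : Nm B Wd // CN C w}) => h_FS B C hC Q hQ n w.1 w.2
  let W : ℕ → {w : Nm B Wd // CN C w} := fun n =>
    Nat.rec ⟨w, hw⟩ (fun n x => ⟨f n x, hf1 n x⟩) n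
  obtain ⟨v, hv, hv2⟩ := h_LIM B C hC (fun n => (W n).1) (fun n => (W n).2)
    (fun n => hf2 n (W n))
  refine ⟨v, hv, hv2.mono (fun u hu => (hu 0).2), fun t => ?_⟩
  have key : ∀ n, bval (fun u => FinN n t ((W n).1.pt u)) ≤ Q t v := by
    intro n
    refine (hf3 n (W n) t).trans ?_
    have h1 := hQ.mono t (f n (W n)) v ⊤ (hf1 n (W n)) hv hC.top
      (hv2.mono fun u hu m _ => (hu (n + 1)).2 m)
    rwa [top_inf_eq] at h1
  refine le_trans (le_of_forces (c := ⨆ n, bval fun u => FinN n t ((W n).1.pt u)) ?_)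
    (iSup_le key)
  have h1 := forces_bval (B := B) fun u => InF t (v.pt u)
  have h2 := forces_all fun n =>
    (decIn_mes hC (W n).2.1 (h_M2.2.2.1 n t)).iff_mem
  have h3 := forces_mem_iSup fun n => bval fun u => FinN n t ((W n).1.pt u)
  refine ((h1.and (forces_top hv.2)).and
    ((forces_top hv2).and (forces_top (h2.and h3)))).mono ?_
  rintro u ⟨⟨g1, g2⟩, g3, g4, g5⟩
  obtain ⟨n, hn⟩ := (h_W4 (v.pt u) g2 t).1 g1
  refine g5.2 ⟨n, (g4 n).2 ?_⟩
  exact (h_W9.2 n t (v.pt u) ((W n).1.pt u) (g3 n).1).1 hn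

end SLV
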