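import Mathlib
import Pool.Agent.SLV.T2

/-!
# MP_0a8ab4_lc, project SLV, job GSX (helper15): the generic surjection over `Blow lam`
-/

set_option autoImplicit false

namespace SLV

open Cardinal CofSN

/-- the generic surjection over `Blow lam` onto the set of dense sets of conditions -/
theorem p_GSX (hH4 : T_H4) (hCAR : T_CAR) (hCDL : T_CDL) (hSPC : T_SPC) : T_GSX := by
  intro K _ hK lam
  refine hH4 K hK _ ⟨⟨Set.univ, fun p => ⟨p, Set.mem_univ p, ?_⟩⟩⟩ ?_
  · exact (hCDL (BL K) (Blow lam) (hSPC K (lowc lam))).1 p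
  · exact (mk_subtype_le _).trans_lt (hCAR K hK lam).2

end SLV
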