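import Pool.Agent.SLV.T1

/-!
# SLV: H1, countably many elements of the Levy algebra have support below some coordinate
-/

set_option autoImplicit false

namespace SLV

open Cardinal CofSN

namespace H1_

variable {K : Type} [LinearOrder K]

open Classical in
/-- the condition `a` on `J`, the condition `b` outside of `J` -/
noncomputable def glue (J : Set (K × ℕ)) (a b : Lv K) : Lv K where
  f := fun j => if j ∈ J then a.f j else b.f j
  fin := by
    refine (a.fin.union b.fin).subset fun j hj => ?_
    change (if j ∈ J then a.f j else b.f j) ≠ none at hj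
    by_cases h : j ∈ J
    · rw [if_pos h] at hj
      exact Or.inl hj
    · rw [if_neg h] at hj
      exact Or.inr hj
  lt := by
    intro j k hk
    by_cases h : j ∈ J
    · rw [if_pos h] at hk
      exact a.lt j k hk
    · rw [if_neg h] at hk
      exact b.lt j k hk

theorem glue_pos {J : Set (K × ℕ)} (a b : Lv K) {j : K × ℕ} (h : j ∈ J) :
    (glue J a b).f j = a.f j := if_pos h

theorem glue_neg {J : Set (K × ℕ)} (a b : Lv K) {j : K × ℕ} (h : j ∉ J) :
    (glue J a b).f j = b.f j := if_neg h

/-- the empty condition -/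
def emp (K : Type) [LinearOrder K] : Lv K where
  f := fun _ => none
  fin := by simp
  lt := fun _ _ h => by simp at h

/-- all coordinates of `p` are below `β` -/
def CB (β : K) : Set (Lv K) := {p | ∀ j, p.f j ≠ none → j.1 < β}

/-- the coordinates of `p` -/
def crd (p : Lv K) : Set K := {α | ∃ n, p.f (α, n) ≠ none}

theorem crd_finite (p : Lv K) : (crd p).Finite := by
  refine (p.fin.image Prod.fst).subset ?_
  rintro α ⟨n, hn⟩
  exact ⟨(α, n), hn, rfl⟩

/-- there are few conditions with coordinates below `β` -/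
theorem mk_CB (hK : IK K) (β : K) : #(CB β) < #K := by
  have h1 : #((Set.Iio β × ℕ) × Set.Iio β) < #K := by
    rw [mk_prod, mk_prod]
    simp only [lift_id, mk_nat]
    exact mul_lt_of_lt hK.unc.le (mul_lt_of_lt hK.unc.le (hK.small β) hK.unc) (hK.small β)
  refine lt_of_le_of_lt ?_ (hK.pow _ h1)
  let φ : CB β → Set ((Set.Iio β × ℕ) × Set.Iio β) :=
    fun p => {x | p.1.f (x.1.1.1, x.1.2) = some x.2.1}
  refine mk_le_of_injective (f := φ) ?_
  intro p q hpq
  have key : ∀ (p q : CB β), φ p = φ q → ∀ j k, p.1.f j = some k → q.1.f j = some k := by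
    intro p q hpq j k hk
    have hj : j.1 < β := p.2 j (by rw [hk]; simp)
    have hk' : k < β := (p.1.lt j k hk).trans hj
    have h2 : ((⟨j.1, hj⟩, j.2), ⟨k, hk'⟩) ∈ φ p := hk
    rw [hpq] at h2
    exact h2
  apply Subtype.ext
  apply Lv.ext
  funext j
  rcases h : p.1.f j with _ | k
  · rcases h' : q.1.f j with _ | k
    · rfl
    · have := key q p hpq.symm j k h'
      rw [h] at this
      exact absurd this (by simp)
  · exact (key p q hpq j k h).symm

/-- one step of the closing off -/
theorem step (hK : IK K) (e : Lv K → Lv K) (β : K) :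
    ∃ γ, β < γ ∧ ∀ p ∈ CB β, e p ∈ CB γ := by
  have h1 : #(⋃ p : CB β, crd (e p.1) : Set K) < #K := by
    refine lt_of_le_of_lt (mk_iUnion_le_sum_mk) ?_
    refine lt_of_le_of_lt (sum_le_sum _ (fun _ => ℵ₀) fun p => ?_) ?_
    · exact (crd_finite (e p.1)).countable.le_aleph0
    · rw [sum_const]
      simp only [lift_id]
      exact mul_lt_of_lt hK.unc.le (mk_CB hK β) hK.unc
  have h2 : #((⋃ p : CB β, crd (e p.1)) ∪ {β} : Set K) < #K := by
    refine lt_of_le_of_lt (mk_union_le _ _) ?_
    exact add_lt_of_lt hK.unc.le h1 (by rw [mk_singleton]; exact one_lt_aleph0.trans hK.unc)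
  obtain ⟨γ, hγ⟩ := hK.bdd _ h2
  refine ⟨γ, hγ β (Or.inr rfl), fun p hp j hj => ?_⟩
  exact hγ j.1 (Or.inl (Set.mem_iUnion.mpr ⟨⟨p, hp⟩, j.2, hj⟩))

/-- the union of the coordinates below the members of a sequence -/
def JJ (β : ℕ → K) : Set (K × ℕ) := {j | ∃ n, j.1 < β n}

theorem exists_stage {β : ℕ → K} (hβ : ∀ n, β n < β (n + 1)) (p : Lv K)
    (hp : ∀ j, p.f j ≠ none → j ∈ JJ β) : ∃ n, p ∈ CB (β n) := by
  have hm : Monotone β := monotone_nat_of_le_succ fun n => (hβ n).le
  have h : ∀ j : K × ℕ, ∃ n, p.f j ≠ none → j.1 < β n := by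
    intro j
    by_cases hj : p.f j = none
    · exact ⟨0, fun h => absurd hj h⟩
    · obtain ⟨n, hn⟩ := hp j hj
      exact ⟨n, fun _ => hn⟩
  choose N hN using h
  refine ⟨p.fin.toFinset.sup N, fun j hj => (hN j hj).trans_le (hm ?_)⟩
  exact Finset.le_sup (f := N) (p.fin.mem_toFinset.mpr hj)

/-- a single element has support in a countable union of initial segments -/
theorem one (hK : IK K) (U : BL K) : ∃ lam : K, U ∈ Blow lam := by
  classical
  -- chosen extensions in `U`
  have he : ∀ p : Lv K, ∃ q : Lv K, (∃ r ≤ p, r ∈ U) → q ≤ p ∧ q ∈ U := by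
    intro p
    by_cases h : ∃ r ≤ p, r ∈ U
    · obtain ⟨r, hr, hU⟩ := h
      exact ⟨r, fun _ => ⟨hr, hU⟩⟩
    · exact ⟨p, fun h' => absurd h' h⟩
  choose e he using he
  choose s hs1 hs2 using step hK e
  have hne : Nonempty K := by
    rw [← mk_ne_zero_iff]
    exact (aleph0_pos.trans hK.unc).ne'
  obtain ⟨b0⟩ := hne
  let β : ℕ → K := fun n => s^[n] b0
  have hβs : ∀ n, β (n + 1) = s (β n) := fun n => Function.iterate_succ_apply' s n b0
  have hβ : ∀ n, β n < β (n + 1) := fun n => by rw [hβs]; exact hs1 (β n)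
  set J := JJ β with hJ
  -- closure
  have hcl : ∀ p : Lv K, (∀ j, p.f j ≠ none → j ∈ J) → ∀ j, (e p).f j ≠ none → j ∈ J := by
    intro p hp j hj
    obtain ⟨n, hn⟩ := exists_stage hβ p hp
    refine ⟨n + 1, ?_⟩
    rw [hβs]
    exact hs2 (β n) p hn j hj
  -- the restriction of a member of `U` to `J` is in `U`
  have hres : ∀ p : Lv K, p ∈ U → glue J p (emp K) ∈ U := by
    intro p hp
    by_contra hcon
    obtain ⟨q, hq, hqU⟩ := RO.exists_compl hcon
    rw [RO.mem_compl] at hqU
    -- the restriction of `q`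
    set q' := glue J q (emp K) with hq'
    have hqq' : q ≤ q' := by
      intro j k hk
      by_cases h : j ∈ J
      · rwa [hq', glue_pos q (emp K) h] at hk
      · rw [hq', glue_neg q (emp K) h] at hk
        exact absurd hk (by simp [emp])
    have hq'J : ∀ j, q'.f j ≠ none → j ∈ J := by
      intro j hj
      by_contra h
      rw [hq', glue_neg q (emp K) h] at hj
      exact hj rfl
    -- a common extension of `q'` and `p`
    have hc : ∃ r ≤ q', r ∈ U := by
      refine ⟨glue J q p, ?_, RO.mem_down hp ?_⟩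
      · intro j k hk
        by_cases h : j ∈ J
        · rw [glue_pos q p h]
          rwa [hq', glue_pos q (emp K) h] at hk
        · rw [hq', glue_neg q (emp K) h] at hk
          exact absurd hk (by simp [emp])
      · intro j k hk
        by_cases h : j ∈ J
        · rw [glue_pos q p h]
          exact hq j k (by rwa [glue_pos p (emp K) h])
        · rwa [glue_neg q p h]
    obtain ⟨h1, h2⟩ := he q' hc
    have h3 := hcl q' hq'J
    refine hqU (glue J (e q') q) ?_ (RO.mem_down h2 ?_)
    · intro j k hk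
      by_cases h : j ∈ J
      · rw [glue_pos (e q') q h]
        exact h1 j k (by rwa [hq', glue_pos q (emp K) h])
      · rwa [glue_neg (e q') q h]
    · intro j k hk
      have h : j ∈ J := h3 j (by rw [hk]; simp)
      rwa [glue_pos (e q') q h]
  -- membership depends only on the part on `J`
  have hJU : ∀ p q : Lv K, (∀ j ∈ J, p.f j = q.f j) → p ∈ U → q ∈ U := by
    intro p q hpq hp
    have h1 : glue J p (emp K) = glue J q (emp K) := by
      apply Lv.ext
      funext j
      by_cases h : j ∈ J
      · rw [glue_pos p (emp K) h, glue_pos q (emp K) h, hpq j h]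
      · rw [glue_neg p (emp K) h, glue_neg q (emp K) h]
    have h2 := hres p hp
    rw [h1] at h2
    refine RO.mem_down h2 fun j k hk => ?_
    by_cases h : j ∈ J
    · rwa [glue_pos q (emp K) h] at hk
    · rw [glue_neg q (emp K) h] at hk
      exact absurd hk (by simp [emp])
  -- an upper bound of the sequence
  have hb : #(Set.range β) < #K := lt_of_le_of_lt (Set.countable_range β).le_aleph0 hK.unc
  obtain ⟨lam, hlam⟩ := hK.bdd _ hb
  refine ⟨lam, fun p q hpq => ?_⟩
  have hsub : ∀ j ∈ J, j ∈ lowc lam := by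
    rintro j ⟨n, hn⟩
    exact hn.trans (hlam (β n) ⟨n, rfl⟩)
  exact ⟨hJU p q fun j hj => hpq j (hsub j hj), hJU q p fun j hj => (hpq j (hsub j hj)).symm⟩

end H1_

open H1_ in
theorem p_H1 : T_H1 := by
  intro K _ hK U
  choose lam hlam using fun n => one hK (U n)
  have hb : #(Set.range lam) < #K := lt_of_le_of_lt (Set.countable_range lam).le_aleph0 hK.unc
  obtain ⟨mu, hmu⟩ := hK.bdd _ hb
  refine ⟨mu, fun n p q hpq => hlam n p q fun j hj => hpq j ?_⟩
  exact lt_trans (show j.1 < lam n from hj) (hmu (lam n) ⟨n, rfl⟩)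

end SLV
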