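import Mathlib
import Pool.Agent.SLV.T1

/-!
# MP_0a8ab4_lc, project SLV: extension of isomorphisms to the Levy algebra (helper98)
-/

set_option autoImplicit false

namespace SLV

open CofSN

namespace H2_

theorem csub_univ {B : Type} [CompleteBooleanAlgebra B] : CSub (Set.univ : Set B) :=
  ⟨fun _ _ => trivial, fun _ _ => trivial⟩

theorem inf_mem {B : Type} [CompleteBooleanAlgebra B] {G : Set B} (hG : CSub G) {a b : B}
    (ha : a ∈ G) (hb : b ∈ G) : a ⊓ b ∈ G := by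
  have h : (sSup {aᶜ, bᶜ} : B)ᶜ ∈ G := by
    refine hG.compl _ (hG.sSup _ ?_)
    intro x hx
    rcases hx with rfl | hx
    · exact hG.compl _ ha
    · rw [Set.mem_singleton_iff.1 hx]
      exact hG.compl _ hb
  rwa [sSup_pair, compl_sup, compl_compl, compl_compl] at h

/-- the empty condition -/
def em (K : Type) [LinearOrder K] : Lv K where
  f := fun _ => none
  fin := by simp
  lt := by
    intro j k h
    simp at h

theorem cn_em (K : Type) [LinearOrder K] : cn (em K) = ⊤ := by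
  rw [RO.eq_top_iff']
  intro p
  show p ∈ RO.gen {em K}
  rw [RO.mem_gen]
  intro q _
  refine ⟨q, le_rfl, em K, rfl, ?_⟩
  intro j k h
  simp [em] at h

theorem inf_ne {B : Type} [CompleteBooleanAlgebra B] (PIB : T_PIB) {C1 C2 : Set B}
    (h1 : CSub C1) (h2 : CSub C2) {d1 d2 : B} (hd1 : d1 ∈ C1) (hd2 : d2 ∈ C2)
    (θ : PI C1 d1 C2 d2) {c c' : B} (hc : c ∈ C1) (hc' : c' ∈ C1) (hcd : c ≤ d1)
    (hcd' : c' ≤ d1) : θ.f c ⊓ θ.f c' ≠ ⊥ ↔ c ⊓ c' ≠ ⊥ := by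
  obtain ⟨hb, -, hi, -, -⟩ := PIB B C1 C2 h1 h2 d1 hd1 d2 hd2 θ
  have hbot : (⊥ : B) ∈ C1 := by
    have := h1.sSup ∅ (by simp)
    simpa using this
  rw [← hi c hc c' hc' hcd hcd', not_iff_not]
  constructor
  · intro h
    have e1 := θ.gf (c ⊓ c') (inf_mem h1 hc hc') (inf_le_left.trans hcd)
    have e2 := θ.gf ⊥ hbot bot_le
    rw [← e1, h]
    rw [hb] at e2
    exact e2
  · intro h
    rw [h, hb]

end H2_

open H2_ in
theorem p_H2 (SYS : T_SYS) (UDJ : T_UDJ) (UDN : T_UDN) (ISL : T_ISL) (PIB : T_PIB) : T_H2 := by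
  intro K _ hK mu C1 C2 hC1 hC2 hC1m hC2m d1 hd1 d2 hd2 θ
  obtain ⟨nu, I, -, hT⟩ := SYS K hK mu
  obtain ⟨T1, hs1, hden1⟩ := hT C1 hC1 hC1m d1 hd1
  obtain ⟨T2, hs2, hden2⟩ := hT C2 hC2 hC2m d2 hd2
  let ι : Type := {x : BL K × List I × Lv K // x.1 ∈ C1 ∧ x.1 ≤ d1 ∧ Off (lowcol mu nu) x.2.2}
  let u : ι → BL K := fun x => uu T1 x.1.1 x.1.2.1 x.1.2.2
  let u' : ι → BL K := fun x => uu T2 (θ.f x.1.1) x.1.2.1 x.1.2.2
  obtain ⟨π, hπ⟩ := ISL (BL K) Set.univ Set.univ csub_univ csub_univ d1 trivial d2 trivial ι u u'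
    (fun x => ⟨trivial, inf_le_left.trans (inf_le_left.trans x.2.2.1)⟩)
    (fun x => ⟨trivial, inf_le_left.trans (inf_le_left.trans (θ.fG _ x.2.1 x.2.2.1).2)⟩)
    (by
      intro z _ hzd hz
      obtain ⟨c, hc, hcd, s, r, hr, hne, hle⟩ :=
        UDN K mu nu I C1 hC1 hC1m d1 hd1 T1 hs1 hden1 z hzd hz
      exact ⟨⟨(c, s, r), hc, hcd, hr⟩, hne, hle⟩)
    (by
      intro z _ hzd hz
      obtain ⟨c, hc, hcd, s, r, hr, hne, hle⟩ :=
        UDN K mu nu I C2 hC2 hC2m d2 hd2 T2 hs2 hden2 z hzd hz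
      refine ⟨⟨(θ.g c, s, r), (θ.gG c hc hcd).1, (θ.gG c hc hcd).2, hr⟩, ?_, ?_⟩
      · show uu T2 (θ.f (θ.g c)) s r ≠ ⊥
        rw [θ.fg c hc hcd]
        exact hne
      · show uu T2 (θ.f (θ.g c)) s r ≤ z
        rw [θ.fg c hc hcd]
        exact hle)
    (by
      rintro ⟨⟨c, s, r⟩, hc, hcd, hr⟩ ⟨⟨c', s', r'⟩, hc', hcd', hr'⟩
      have e1 := UDJ K mu nu I C1 hC1 hC1m d1 hd1 T1 hs1 c hc c' hc' hcd hcd' s s' r r' hr hr'
      have e2 := UDJ K mu nu I C2 hC2 hC2m d2 hd2 T2 hs2 (θ.f c) (θ.fG c hc hcd).1 (θ.f c')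
        (θ.fG c' hc' hcd').1 (θ.fG c hc hcd).2 (θ.fG c' hc' hcd').2 s s' r r' hr hr'
      rw [inf_ne PIB hC1 hC2 hd1 hd2 θ hc hc' hcd hcd'] at e2
      exact not_iff_not.1 (e1.trans e2.symm))
  refine ⟨π, fun z hz hzd => ?_⟩
  have hoff : Off (lowcol mu nu) (em K) := fun _ _ => rfl
  have h := hπ ⟨(z, [], em K), hz, hzd, hoff⟩
  have e1 : u ⟨(z, [], em K), hz, hzd, hoff⟩ = z := by
    show z ⊓ T1.ds [] ⊓ cn (em K) = z
    rw [T1.nil, cn_em, inf_top_eq, inf_eq_left.2 hzd]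
  have e2 : u' ⟨(z, [], em K), hz, hzd, hoff⟩ = θ.f z := by
    show θ.f z ⊓ T2.ds [] ⊓ cn (em K) = θ.f z
    rw [T2.nil, cn_em, inf_top_eq, inf_eq_left.2 (θ.fG z hz hzd).2]
  rw [e1, e2] at h
  exact h

end SLV
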