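import Pool.Agent.SLV.T1

/-! # SLV-H3: elements fixed by all automorphisms over a complete subalgebra are in it -/

set_option autoImplicit false

namespace SLV

open Cardinal CofSN

namespace H3_

variable {K : Type} [LinearOrder K]

/-! ### lists -/

section L

variable {I : Type}

/-- permutations acting level by level -/
def sg (e : ℕ → Equiv.Perm I) (t : List I) : List I := t.mapIdx fun k x => e k x

theorem sg_length (e : ℕ → Equiv.Perm I) (t : List I) : (sg e t).length = t.length := by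
  simp [sg]

theorem sg_nil (e : ℕ → Equiv.Perm I) : sg e [] = [] := by simp [sg]

theorem sg_sg (e : ℕ → Equiv.Perm I) (he : ∀ k x, e k (e k x) = x) (t : List I) :
    sg e (sg e t) = t := by
  apply List.ext_getElem
  · simp [sg]
  · intro i h1 h2
    simp [sg, he]

theorem sg_prefix (e : ℕ → Equiv.Perm I) {t t' : List I} (h : t <+: t') : sg e t <+: sg e t' := by
  obtain ⟨r, rfl⟩ := h
  simp only [sg, List.mapIdx_append]
  exact List.prefix_append _ _

open Classical in
/-- the swap of the entries of `s` and `s'` at every level -/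
noncomputable def sw (s s' : List I) (k : ℕ) : Equiv.Perm I :=
  if h : k < s.length ∧ k < s'.length then Equiv.swap (s[k]'h.1) (s'[k]'h.2) else 1

theorem sw_sw (s s' : List I) (k : ℕ) (x : I) : sw s s' k (sw s s' k x) = x := by
  unfold sw
  split_ifs with h
  · simp
  · simp

theorem sg_sw (s s' : List I) (h : s.length = s'.length) : sg (sw s s') s = s' := by
  apply List.ext_getElem
  · simp [sg, h]
  · intro i h1 h2
    have h3 : i < s.length ∧ i < s'.length := ⟨by rw [h]; exact h2, h2⟩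
    simp only [sg, List.getElem_mapIdx, sw, dif_pos h3, Equiv.swap_apply_left]

end L

/-! ### conditions -/

/-- permutations of the values acting coordinate by coordinate -/
def ta (e : K × ℕ → Equiv.Perm K) (he : ∀ j k, k < j.1 → e j k < j.1) (r : Lv K) : Lv K where
  f := fun j => (r.f j).map (e j)
  fin := r.fin.subset fun j hj => by
    intro h
    apply hj
    simp only [h, Option.map_none]
  lt := by
    intro j k hk
    obtain ⟨k0, h1, h2⟩ := Option.map_eq_some_iff.1 hk
    rw [← h2]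
    exact he j k0 (r.lt j k0 h1)

theorem ta_f (e : K × ℕ → Equiv.Perm K) (he : ∀ j k, k < j.1 → e j k < j.1) (r : Lv K)
    (j : K × ℕ) : (ta e he r).f j = (r.f j).map (e j) := rfl

theorem ta_ta (e : K × ℕ → Equiv.Perm K) (he : ∀ j k, k < j.1 → e j k < j.1)
    (hee : ∀ j k, e j (e j k) = k) (r : Lv K) : ta e he (ta e he r) = r := by
  ext j k
  rw [ta_f, ta_f]
  cases h : r.f j with
  | none => simp
  | some a => simp [hee]

theorem ta_mono (e : K × ℕ → Equiv.Perm K) (he : ∀ j k, k < j.1 → e j k < j.1) {p q : Lv K}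
    (h : q ≤ p) : ta e he q ≤ ta e he p := by
  intro j k hk
  rw [ta_f] at hk ⊢
  obtain ⟨k0, h1, h2⟩ := Option.map_eq_some_iff.1 hk
  rw [h j k0 h1, Option.map_some, h2]

theorem ta_off (e : K × ℕ → Equiv.Perm K) (he : ∀ j k, k < j.1 → e j k < j.1) (J : Set (K × ℕ))
    {r : Lv K} (h : Off J r) : Off J (ta e he r) := by
  intro j hj
  rw [ta_f, h j hj, Option.map_none]

open Classical in
/-- the swap of the values of `r` and `r'` at every coordinate -/
noncomputable def sv (r r' : Lv K) (j : K × ℕ) : Equiv.Perm K :=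
  match r.f j, r'.f j with
  | some a, some b => Equiv.swap a b
  | _, _ => 1

theorem sv_sv (r r' : Lv K) (j : K × ℕ) (x : K) : sv r r' j (sv r r' j x) = x := by
  unfold sv
  split <;> simp

theorem sv_lt (r r' : Lv K) (j : K × ℕ) (k : K) (hk : k < j.1) : sv r r' j k < j.1 := by
  unfold sv
  split
  · rename_i a b h1 h2
    rw [Equiv.swap_apply_def]
    split_ifs
    · exact r'.lt j b h2
    · exact r.lt j a h1
    · exact hk
  · exact hk

theorem sv_eq (r r' : Lv K) (j : K × ℕ) (a b : K) (h1 : r.f j = some a) (h2 : r'.f j = some b) :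
    sv r r' j a = b := by
  unfold sv
  rw [h1, h2]
  simp

/-- the union of two conditions -/
def un (a b : Lv K) : Lv K where
  f := fun j => (a.f j).or (b.f j)
  fin := (a.fin.union b.fin).subset fun j hj => by
    by_contra h
    have h1 : ¬ a.f j ≠ none := fun h1 => h (Or.inl h1)
    have h2 : ¬ b.f j ≠ none := fun h2 => h (Or.inr h2)
    rw [not_not] at h1 h2
    apply hj
    simp [h1, h2]
  lt := by
    intro j k hk
    rcases Option.or_eq_some_iff.1 hk with h | h
    · exact a.lt j k h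
    · exact b.lt j k h.2

theorem un_left (a b : Lv K) : un a b ≤ a := by
  intro j k hk
  change (a.f j).or (b.f j) = some k
  rw [hk, Option.some_or]

theorem un_right (a b : Lv K) (h : ∀ j k l, a.f j = some k → b.f j = some l → k = l) :
    un a b ≤ b := by
  intro j k hk
  change (a.f j).or (b.f j) = some k
  cases h1 : a.f j with
  | none => rw [hk, Option.none_or]
  | some l => rw [Option.some_or, h j l k h1 hk]

/-- the empty condition -/
def emp : Lv K where
  f := fun _ => none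
  fin := by simp
  lt := by simp

theorem le_emp (p : Lv K) : p ≤ emp := by
  intro j k hk
  exact absurd hk (by simp [emp])

theorem ta_emp (e : K × ℕ → Equiv.Perm K) (he : ∀ j k, k < j.1 → e j k < j.1) :
    ta e he emp = emp := by
  ext j k
  simp [ta, emp]

theorem cn_emp (hC : T_CNF) : cn (emp : Lv K) = ⊤ := by
  obtain ⟨h1, h2, -, -, -, h6⟩ := hC K
  by_contra h
  have h3 : (cn (emp : Lv K))ᶜ ≠ ⊥ := fun h4 => h (compl_eq_bot.1 h4)
  obtain ⟨p, hp⟩ := h2 _ h3
  have h4 : cn p ≤ (cn (emp : Lv K))ᶜ := (h1 _ _).1 hp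
  have h5 : cn p ⊓ cn (emp : Lv K) ≠ ⊥ := (h6 p emp).2 ⟨p, le_rfl, le_emp p⟩
  exact h5 (by
    rw [← le_bot_iff]
    calc cn p ⊓ cn (emp : Lv K) ≤ (cn (emp : Lv K))ᶜ ⊓ cn (emp : Lv K) := inf_le_inf_right _ h4
      _ = ⊥ := compl_inf_self _)

/-! ### trees -/

section T

variable {C1 : Set (BL K)} {d : BL K} {I : Type}

theorem ds_step (T : Tre C1 d I) (s : List I) (i : I) : T.ds (s ++ [i]) ≤ T.ds s := by
  rw [← T.cover s]
  exact le_iSup (fun i => T.ds (s ++ [i])) i

theorem ds_app (T : Tre C1 d I) (s t : List I) : T.ds (s ++ t) ≤ T.ds s := by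
  induction t using List.reverseRecOn with
  | nil => rw [List.append_nil]
  | append_singleton t i ih =>
    rw [← List.append_assoc]
    exact (ds_step T _ i).trans ih

theorem ex_ext {I : Type} (hI : Nonempty I) (s s' : List I) :
    ∃ t t', (s ++ t).length = (s' ++ t').length := by
  obtain ⟨i⟩ := hI
  refine ⟨List.replicate s'.length i, List.replicate s.length i, ?_⟩
  simp [Nat.add_comm]

end T

end H3_

open H3_ in
theorem p_H3 (h_CNF : T_CNF) (h_SYS : T_SYS) (h_UDJ : T_UDJ) (h_UDN : T_UDN) (h_ISL : T_ISL) :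
    T_H3 := by
  classical
  intro K _ hK mu C1 hC1 hmu z hz
  have htop : (⊤ : BL K) ∈ C1 := by
    have h := hC1.compl _ (hC1.sSup ∅ (Set.empty_subset _))
    rwa [sSup_empty, compl_bot] at h
  obtain ⟨nu, I, -, h⟩ := h_SYS K hK mu
  obtain ⟨T, hT1, hT2⟩ := h C1 hC1 hmu ⊤ htop
  have UDJ := h_UDJ K mu nu I C1 hC1 hmu ⊤ htop T hT1
  have UDN := h_UDN K mu nu I C1 hC1 hmu ⊤ htop T hT1 hT2
  -- the largest element of `C1` below `z`
  obtain ⟨c0, hc0, hc0z, hc0m⟩ : ∃ c0 ∈ C1, c0 ≤ z ∧ ∀ c ∈ C1, c ≤ z → c ≤ c0 := by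
    refine ⟨sSup {c | c ∈ C1 ∧ c ≤ z}, hC1.sSup _ fun c hc => hc.1, sSup_le fun c hc => hc.2, ?_⟩
    intro c hc hcz
    exact le_sSup ⟨hc, hcz⟩
  by_contra hzC
  have hne : z ⊓ c0ᶜ ≠ ⊥ := by
    intro h0
    have h1 : z ≤ c0 := by rwa [← sdiff_eq_bot_iff, sdiff_eq]
    exact hzC (le_antisymm h1 hc0z ▸ hc0)
  obtain ⟨c, hc, -, s, r, hr, hu, hule⟩ := UDN _ le_top hne
  have hcz : c ⊓ zᶜ ≠ ⊥ := by
    intro h0
    have h1 : c ≤ z := by rwa [← sdiff_eq_bot_iff, sdiff_eq]
    have h2 := hc0m c hc h1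
    apply hu
    rw [← le_bot_iff]
    calc uu T c s r ≤ c0 ⊓ c0ᶜ := le_inf ((inf_le_left.trans inf_le_left).trans h2)
          (hule.trans inf_le_right)
      _ = ⊥ := inf_compl_self _
  obtain ⟨c1, hc1, -, s', r', hr', hu', hule'⟩ := UDN _ le_top hcz
  -- replace `c1` by the meet with `c`
  obtain ⟨c', hc', hc'c, hu'', hule''⟩ : ∃ c' ∈ C1, c' ≤ c ∧ uu T c' s' r' ≠ ⊥ ∧
      uu T c' s' r' ≤ zᶜ := by
    refine ⟨c1 ⊓ c, ?_, inf_le_right, ?_, ?_⟩
    · have h1 := hC1.compl _ (hC1.sSup {c1ᶜ, cᶜ} (by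
        rintro x (rfl | rfl)
        · exact hC1.compl _ hc1
        · exact hC1.compl _ hc))
      rwa [sSup_pair, compl_sup, compl_compl, compl_compl] at h1
    · intro h0
      apply hu'
      have h1 : uu T c1 s' r' ≤ uu T (c1 ⊓ c) s' r' := by
        refine le_inf (le_inf (le_inf ?_ ?_) ?_) ?_
        · exact inf_le_left.trans inf_le_left
        · exact hule'.trans inf_le_left
        · exact inf_le_left.trans inf_le_right
        · exact inf_le_right
      rw [h0] at h1
      exact le_bot_iff.1 h1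
    · refine le_trans ?_ (hule'.trans inf_le_right)
      exact inf_le_inf_right _ (inf_le_inf_right _ inf_le_left)
  have hc'ne : c' ≠ ⊥ := by
    intro h0
    apply hu''
    rw [← le_bot_iff]
    exact (inf_le_left.trans inf_le_left).trans h0.le
  have hI : Nonempty I := by
    by_contra hI
    rw [not_nonempty_iff] at hI
    have h1 := T.cover s'
    rw [iSup_of_empty] at h1
    apply hu''
    rw [← le_bot_iff]
    exact (inf_le_left.trans inf_le_right).trans h1.symm.le
  obtain ⟨t, t', htt⟩ := ex_ext hI s s'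
  set a := s ++ t with ha
  set a' := s' ++ t' with ha'
  have h1 : uu T c' a r ≤ z := by
    refine le_trans ?_ (hule.trans inf_le_left)
    exact inf_le_inf_right _ (inf_le_inf hc'c (ds_app T s t))
  have h2 : uu T c' a' r' ≤ zᶜ := by
    refine le_trans ?_ hule''
    exact inf_le_inf_right _ (inf_le_inf_left _ (ds_app T s' t'))
  -- the automorphism
  set e := sw a a' with he
  set f := sv r r' with hf
  have hee : ∀ k x, e k (e k x) = x := sw_sw a a'
  have hff : ∀ j k, f j (f j k) = k := sv_sv r r'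
  have hfl : ∀ j k, k < j.1 → f j k < j.1 := sv_lt r r'
  let ι : Type := {x : BL K × List I × Lv K // x.1 ∈ C1 ∧ Off (lowcol mu nu) x.2.2}
  let u : ι → BL K := fun x => uu T x.1.1 x.1.2.1 x.1.2.2
  let u' : ι → BL K := fun x => uu T x.1.1 (sg e x.1.2.1) (ta f hfl x.1.2.2)
  have huniv : CSub (Set.univ : Set (BL K)) := ⟨fun _ _ => trivial, fun _ _ => trivial⟩
  have hcompat : ∀ p q : Lv K, (∃ r'', r'' ≤ p ∧ r'' ≤ q) →
      ∃ r'', r'' ≤ ta f hfl p ∧ r'' ≤ ta f hfl q := by
    rintro p q ⟨r'', h3, h4⟩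
    exact ⟨ta f hfl r'', ta_mono f hfl h3, ta_mono f hfl h4⟩
  obtain ⟨π, hπ⟩ := h_ISL (BL K) Set.univ Set.univ huniv huniv ⊤ trivial ⊤ trivial ι u u'
    (fun _ => ⟨trivial, le_top⟩) (fun _ => ⟨trivial, le_top⟩)
    (by
      intro y _ _ hy
      obtain ⟨b, hb, -, l, q, hq, h3, h4⟩ := UDN y le_top hy
      exact ⟨⟨(b, l, q), hb, hq⟩, h3, h4⟩)
    (by
      intro y _ _ hy
      obtain ⟨b, hb, -, l, q, hq, h3, h4⟩ := UDN y le_top hy
      refine ⟨⟨(b, sg e l, ta f hfl q), hb, ta_off f hfl _ hq⟩, ?_, ?_⟩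
      · change uu T b (sg e (sg e l)) (ta f hfl (ta f hfl q)) ≠ ⊥
        rw [sg_sg e hee, ta_ta f hfl hff]
        exact h3
      · change uu T b (sg e (sg e l)) (ta f hfl (ta f hfl q)) ≤ y
        rw [sg_sg e hee, ta_ta f hfl hff]
        exact h4)
    (by
      rintro ⟨⟨b, l, q⟩, hb, hq⟩ ⟨⟨b', l', q'⟩, hb', hq'⟩
      rw [← not_iff_not]
      change uu T b l q ⊓ uu T b' l' q' ≠ ⊥ ↔
        uu T b (sg e l) (ta f hfl q) ⊓ uu T b' (sg e l') (ta f hfl q') ≠ ⊥
      rw [UDJ b hb b' hb' le_top le_top l l' q q' hq hq',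
        UDJ b hb b' hb' le_top le_top _ _ _ _ (ta_off f hfl _ hq) (ta_off f hfl _ hq')]
      have hpre : ∀ l l' : List I, (l <+: l' ∨ l' <+: l) → (sg e l <+: sg e l' ∨ sg e l' <+: sg e l) := by
        rintro l l' (h | h)
        · exact Or.inl (sg_prefix e h)
        · exact Or.inr (sg_prefix e h)
      constructor
      · rintro ⟨h3, h4, h5⟩
        exact ⟨h3, hpre _ _ h4, hcompat _ _ h5⟩
      · rintro ⟨h3, h4, h5⟩
        refine ⟨h3, ?_, ?_⟩
        · have h6 := hpre _ _ h4
          rwa [sg_sg e hee, sg_sg e hee] at h6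
        · have h6 := hcompat _ _ h5
          rwa [ta_ta f hfl hff, ta_ta f hfl hff] at h6)
  have hcn : ∀ b ∈ C1, uu T b [] emp = b := by
    intro b hb
    change b ⊓ T.ds [] ⊓ cn emp = b
    rw [cn_emp h_CNF, T.nil, inf_top_eq, inf_top_eq]
  have hoffe : Off (lowcol mu nu) (emp : Lv K) := fun _ _ => rfl
  have hfix : ∀ b ∈ C1, π.f b = b := by
    intro b hb
    have h3 := hπ ⟨(b, [], emp), hb, hoffe⟩
    change π.f (uu T b [] emp) = uu T b (sg e []) (ta f hfl emp) at h3
    rwa [sg_nil, ta_emp, hcn b hb] at h3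
  have hπz := hz π hfix
  have h3 : uu T c' a' (ta f hfl r) ≤ z := by
    have h4 := hπ ⟨(c', a, r), hc', hr⟩
    change π.f (uu T c' a r) = uu T c' (sg e a) (ta f hfl r) at h4
    rw [sg_sw a a' htt] at h4
    rw [← h4]
    calc π.f (uu T c' a r) ≤ π.f z := π.fm _ trivial le_top _ trivial le_top h1
      _ = z := hπz
  have h4 : uu T c' a' (ta f hfl r) ⊓ uu T c' a' r' ≠ ⊥ := by
    rw [UDJ c' hc' c' hc' le_top le_top _ _ _ _ (ta_off f hfl _ hr) hr']
    refine ⟨by rwa [inf_idem], Or.inl (List.prefix_refl _), un (ta f hfl r) r', un_left _ _, ?_⟩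
    apply un_right
    intro j k l hk hl
    rw [ta_f] at hk
    obtain ⟨k0, h5, h6⟩ := Option.map_eq_some_iff.1 hk
    rw [← h6]
    exact sv_eq r r' j k0 l h5 hl
  apply h4
  rw [← le_bot_iff]
  calc uu T c' a' (ta f hfl r) ⊓ uu T c' a' r' ≤ z ⊓ zᶜ := inf_le_inf h3 h2
    _ = ⊥ := inf_compl_self _

end SLV
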