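import Pool.Agent.SLV.T1

/-! # SLV-H4: names of surjections onto small sets -/

set_option autoImplicit false

namespace SLV

open Cardinal CofSN

namespace H4_

variable {K : Type} [LinearOrder K]

/-- change the value at one coordinate -/
noncomputable def upd (q : Lv K) (j : K × ℕ) (k : K) (h : k < j.1) : Lv K := by
  classical
  exact
  { f := Function.update q.f j (some k)
    fin := by
      refine (q.fin.union (Set.finite_singleton j)).subset fun i hi => ?_
      by_cases hij : i = j
      · exact Or.inr hij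
      · left
        have h1 : Function.update q.f j (some k) i ≠ none := hi
        rw [Function.update_of_ne hij] at h1
        exact h1
    lt := by
      intro i l hl
      by_cases hij : i = j
      · subst hij
        rw [Function.update_self] at hl
        rw [← Option.some.inj hl]
        exact h
      · rw [Function.update_of_ne hij] at hl
        exact q.lt i l hl }

theorem upd_self (q : Lv K) (j : K × ℕ) (k : K) (h : k < j.1) :
    (upd q j k h).f j = some k := by
  classical
  exact Function.update_self (f := q.f) _ _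

theorem upd_ne (q : Lv K) (j : K × ℕ) (k : K) (h : k < j.1) (i : K × ℕ) (hij : i ≠ j) :
    (upd q j k h).f i = q.f i := by
  classical
  exact Function.update_of_ne hij _ _

theorem upd_le (q : Lv K) (j : K × ℕ) (k : K) (h : k < j.1) (hq : q.f j = none) :
    upd q j k h ≤ q := by
  intro i l hl
  have hij : i ≠ j := by
    rintro rfl
    rw [hq] at hl
    exact absurd hl (by simp)
  rw [upd_ne q j k h i hij]
  exact hl

/-- the empty condition -/
def emp : Lv K where
  f := fun _ => none
  fin := by simp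
  lt := fun _ _ h => absurd h (by simp)

/-- the condition with one coordinate -/
noncomputable def sgl (j : K × ℕ) (k : K) (h : k < j.1) : Lv K := upd emp j k h

theorem le_sgl {q : Lv K} {j : K × ℕ} {k : K} {h : k < j.1} : q ≤ sgl j k h ↔ q.f j = some k := by
  constructor
  · intro hq
    exact hq j k (upd_self emp j k h)
  · intro hq i l hl
    by_cases hij : i = j
    · subst hij
      have h1 : (sgl i k h).f i = some k := upd_self emp i k h
      rw [h1] at hl
      rw [hq, hl]
    · have h1 : (sgl j k h).f i = none := upd_ne emp j k h i hij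
      rw [h1] at hl
      exact absurd hl (by simp)

theorem mem_cn {p q : Lv K} : p ∈ cn q ↔ ∀ r ≤ p, ∃ s ≤ r, s ≤ q := by
  constructor
  · intro h r hr
    obtain ⟨s, hs, t, ht, hst⟩ := RO.mem_gen.1 h r hr
    rw [Set.mem_singleton_iff] at ht
    exact ⟨s, hs, ht ▸ hst⟩
  · intro h
    refine RO.mem_gen.2 fun r hr => ?_
    obtain ⟨s, hs, hst⟩ := h r hr
    exact ⟨s, hs, q, Set.mem_singleton q, hst⟩

theorem mem_cn_of_le {p q : Lv K} (h : p ≤ q) : p ∈ cn q :=
  mem_cn.2 fun r hr => ⟨r, le_rfl, hr.trans h⟩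

end H4_

open H4_ in
/-- H4 -/
theorem p_H4 : T_H4 := by
  intro K _ hK Z hZ hcard
  obtain ⟨ν, ⟨e⟩⟩ := hK.init Z hcard
  obtain ⟨z0⟩ := hZ
  have key : ∀ (n : ℕ) (z : Z) (q : Lv K), q.f (ν, n) = none →
      ∃ r ≤ q, r ∈ cn (sgl (ν, n) ((e.symm z).1) (e.symm z).2) := by
    intro n z q hq
    exact ⟨upd q (ν, n) ((e.symm z).1) (e.symm z).2, upd_le _ _ _ _ hq,
      mem_cn_of_le (le_sgl.2 (upd_self _ _ _ _))⟩
  refine ⟨⟨fun n z => cn (sgl (ν, n) ((e.symm z).1) (e.symm z).2), ?_, ?_⟩, ?_⟩
  · intro n a b hab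
    refine RO.ext_mem fun q => ⟨fun hq => ?_, fun hq => absurd hq (RO.notMem_bot q)⟩
    exfalso
    obtain ⟨h1, h2⟩ := RO.mem_inf.1 hq
    obtain ⟨r, hr, hra⟩ := mem_cn.1 h1 q le_rfl
    obtain ⟨s, hs, hsb⟩ := mem_cn.1 h2 r hr
    have e1 := le_sgl.1 (hs.trans hra)
    have e2 := le_sgl.1 hsb
    rw [e1] at e2
    exact hab (e.symm.injective (Subtype.ext (Option.some.inj e2)))
  · intro n
    rw [RO.eq_top_iff']
    intro p
    rw [RO.mem_iSup]
    intro q _
    cases hq : q.f (ν, n) with
    | none =>
      obtain ⟨r, hr, h⟩ := key n z0 q hq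
      exact ⟨r, hr, z0, h⟩
    | some k =>
      have hk : k < ν := q.lt _ _ hq
      refine ⟨q, le_rfl, e ⟨k, Set.mem_Iio.2 hk⟩, mem_cn_of_le (le_sgl.2 ?_)⟩
      rw [hq, e.symm_apply_apply]
  · intro z
    rw [RO.eq_top_iff']
    intro p
    rw [RO.mem_iSup]
    intro q _
    have hinf : ∃ n : ℕ, q.f (ν, n) = none := by
      by_contra hcon
      push Not at hcon
      have h1 : (Set.range fun n : ℕ => ((ν, n) : K × ℕ)) ⊆ {j | q.f j ≠ none} := by
        rintro j ⟨n, rfl⟩
        exact hcon n
      have h2 := q.fin.subset h1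
      exact Set.infinite_range_of_injective
        (fun a b h => (Prod.mk.inj h).2) h2
    obtain ⟨n, hn⟩ := hinf
    obtain ⟨r, hr, h⟩ := key n z q hn
    exact ⟨r, hr, n, h⟩

end SLV
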