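import Pool.Agent.SLV.T2

/-!
# MP_0a8ab4_lc, project SLV: names all of whose reductions are generic (helper84)
-/

set_option autoImplicit false

namespace SLV

namespace HG_

variable {B : Type} [CompleteBooleanAlgebra B]

theorem mem_inf_finset {ι : Type} (u : Ult B) (s : Finset ι) (f : ι → B) :
    u.mem (s.inf f) ↔ ∀ i ∈ s, u.mem (f i) := by
  classical
  induction s using Finset.induction_on with
  | empty => simp [u.top]
  | insert a s ha ih =>
    rw [Finset.inf_insert, u.inf, ih]
    simp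

theorem mem_gval {D : Type} (g : Nm B D) (σ : List D) (u : Ult B) :
    u.mem (gval g σ) ↔ ∀ i : Fin σ.length, u.mem (g.v i (σ.get i)) := by
  unfold gval
  rw [← Finset.inf_univ_eq_iInf, mem_inf_finset]
  simp

theorem capt_inf {C : Set B} (Δ : Set (Cd C)) (t : List Wd) (w y : Nm B Wd) :
    capt Δ t w ⊓ bval (fun u => Nb t (w.pt u) (y.pt u)) ≤ MD Δ y := by
  unfold capt
  rw [sSup_inf_eq]
  exact iSup₂_le fun c hc => hc.2 y

theorem gval_nil {D : Type} (g : Nm B D) : gval g [] = ⊤ := by
  unfold gval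
  refine top_le_iff.1 (le_iInf fun i => ?_)
  exact absurd i.2 (by simp)

theorem cover {D : Type} [Nonempty D] (g : Nm B D) (n : ℕ) :
    ⨆ τ : {τ : List D // τ.length = n}, gval g τ.1 = ⊤ := by
  apply top_le_iff.1
  apply le_of_forces
  refine (g.pt_spec.and
    (forces_mem_iSup fun τ : {τ : List D // τ.length = n} => gval g τ.1)).mono ?_
  rintro u ⟨h1, h2⟩
  refine h2.2 ⟨⟨pre (g.pt u) n, by simp [pre]⟩, ?_⟩
  rw [mem_gval]
  intro i
  rw [← h1]
  obtain ⟨i, hi⟩ := i
  have hi' : i < ((List.range n).map (g.pt u)).length := hi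
  change g.pt u i = ((List.range n).map (g.pt u))[i]'hi'
  rw [List.getElem_map, List.getElem_range]

end HG_

open HG_ in
theorem p_HG (hHG1 : T_HG1) (hHG2 : T_HG2) (hW1 : T_W1) (hW5 : T_W5) (hW9 : T_W9)
    (hM1 : T_M1) (hM2 : T_M2) : T_HG := by
  intro B _ C hC g hg w hw
  obtain ⟨W, hW0, hWC, hW⟩ := hHG1 B C hC w hw
  obtain ⟨x, hx1, hx2⟩ := hHG2 B _ g W (fun σ => (hWC σ).2) (fun σ Δ => (hW σ Δ).1)
  have hxw : Forces ⊤ fun u => Le (x.pt u) (w.pt u) := by
    have := hx2 []
    rw [gval_nil, hW0] at this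
    exact this.mono fun u hu => hu.2
  refine ⟨x, hx1.and hxw, ?_⟩
  intro b y hby Δ hΔ
  have : Nonempty {Δ : Set (Cd C) // Dns Δ} := ⟨⟨Δ, hΔ⟩⟩
  -- the statement for a fixed depth
  have key : ∀ N : ℕ, Forces b fun u => (∃ j ≤ N, g.pt u j = ⟨Δ, hΔ⟩) →
      ∀ (k : ℕ) (s : List Wd), pre (y.pt u) k = s → FinN N s (x.pt u) → u.mem (MD Δ y) := by
    intro N
    refine forces_of_cover (cover g (N + 1)) ?_
    rintro ⟨τ, hτ⟩
    by_cases hmem : (⟨Δ, hΔ⟩ : {Δ : Set (Cd C) // Dns Δ}) ∈ τ
    · have hne : τ ≠ [] := by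
        rintro rfl
        simp at hτ
      obtain ⟨σ, Δ0, rfl⟩ : ∃ σ Δ0, τ = σ ++ [Δ0] :=
        ⟨τ.dropLast, τ.getLast hne, (List.dropLast_append_getLast hne).symm⟩
      have hσ : σ.length = N := by simpa using hτ
      subst hσ
      have hall : Forces (b ⊓ gval g (σ ++ [Δ0])) fun u => ∀ (k : ℕ) (s : List Wd),
          pre (y.pt u) k = s → FinN σ.length s (x.pt u) → u.mem (MD Δ y) := by
        refine forces_all fun k => forces_all fun s => ?_
        have hd1 : DecIn (Set.univ : Set B) fun u => pre (y.pt u) k = s :=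
          decIn_mes CSub.univ (inC_univ y) (A := {z | pre z k = s})
            (hM1 Wd _ k fun z z' hz => by
              have : pre z k = pre z' k := by
                unfold pre
                exact List.map_congr_left fun i hi => hz i (List.mem_range.1 hi)
              simp [this])
        have hd2 : DecIn (Set.univ : Set B) fun u => FinN σ.length s (x.pt u) :=
          decIn_mes CSub.univ (inC_univ x) (A := {z | FinN σ.length s z})
            (hM2.2.2.1 σ.length s)
        have hle : b ⊓ gval g (σ ++ [Δ0]) ⊓ (bval (fun u => pre (y.pt u) k = s) ⊓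
            bval fun u => FinN σ.length s (x.pt u)) ≤ MD Δ y := by
          refine le_trans (le_inf ?_ ?_) (capt_inf Δ s (W (σ ++ [Δ0])) y)
          · refine le_trans (le_bval_iff.2 ?_) ((hW σ Δ0).2 s ⟨Δ, hΔ⟩ hmem)
            have f1 : Forces (b ⊓ gval g (σ ++ [Δ0]) ⊓ (bval (fun u => pre (y.pt u) k = s) ⊓
                bval fun u => FinN σ.length s (x.pt u))) fun u => FinN σ.length s (x.pt u) :=
              (forces_bval _).weak (inf_le_right.trans inf_le_right)
            have f2 := (hx2 (σ ++ [Δ0])).weak (show b ⊓ gval g (σ ++ [Δ0]) ⊓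
              (bval (fun u => pre (y.pt u) k = s) ⊓
                bval fun u => FinN σ.length s (x.pt u)) ≤ gval g (σ ++ [Δ0]) from
                inf_le_left.trans inf_le_right)
            have f3 := (hW σ Δ0).1
            refine ((f1.and f2).and (forces_top f3)).mono ?_
            rintro u ⟨⟨h1, h2⟩, h3⟩
            refine (hW9.2 σ.length s _ _ fun i hi => ?_).1 h1
            rw [h2.1 i (by simp; omega), h3.1 i hi]
          · refine le_bval_iff.2 ?_
            have f1 : Forces (b ⊓ gval g (σ ++ [Δ0]) ⊓ (bval (fun u => pre (y.pt u) k = s) ⊓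
                bval fun u => FinN σ.length s (x.pt u))) fun u => pre (y.pt u) k = s :=
              (forces_bval _).weak (inf_le_right.trans inf_le_left)
            have f2 := (hx2 (σ ++ [Δ0])).weak (show b ⊓ gval g (σ ++ [Δ0]) ⊓
              (bval (fun u => pre (y.pt u) k = s) ⊓
                bval fun u => FinN σ.length s (x.pt u)) ≤ gval g (σ ++ [Δ0]) from
                inf_le_left.trans inf_le_right)
            have f3 := hby.weak (show b ⊓ gval g (σ ++ [Δ0]) ⊓
              (bval (fun u => pre (y.pt u) k = s) ⊓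
                bval fun u => FinN σ.length s (x.pt u)) ≤ b from
                inf_le_left.trans inf_le_left)
            refine ((f1.and f2).and f3).mono ?_
            rintro u ⟨⟨h1, h2⟩, h3⟩
            have hlen : s.length = k := by rw [← h1]; simp [pre]
            refine ⟨h3.1, by rw [hlen, h1], fun n _ => ?_⟩
            exact hW1.2.2.2 _ _ h2.2 (h3.2 n)
        have h1 := forces_imp_iff.1 (forces_mem_iff.2 hle)
        refine (h1.and ((forces_top hd1.iff_mem).and (forces_top hd2.iff_mem))).mono ?_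
        rintro u ⟨h2, h3, h4⟩ h5 h6
        exact h2 ((u.inf _ _).2 ⟨h3.2 h5, h4.2 h6⟩)
      exact hall.mono fun u hu _ k s => hu k s
    · refine ((forces_mem (b ⊓ gval g τ)).and (forces_top g.pt_spec)).mono ?_
      rintro u ⟨h1, h2⟩ ⟨j, hj, hj2⟩
      exfalso
      apply hmem
      have h3 := (mem_gval g τ u).1 ((u.inf _ _).1 h1).2 ⟨j, by omega⟩
      have h4 := (h2 _ _).2 h3
      rw [← hj2]
      have h5 : g.pt u j = τ.get ⟨j, by omega⟩ := h4
      rw [h5]
      exact List.get_mem _ _
  apply le_of_forces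
  have hsurj : Forces b fun u => ∃ n, u.mem (g.v n ⟨Δ, hΔ⟩) := by
    have := forces_mem_iSup fun n => g.v n ⟨Δ, hΔ⟩
    rw [hg ⟨Δ, hΔ⟩] at this
    exact (forces_top this).mono fun u hu => hu.1 u.top
  refine (((forces_nat key).and hby).and ((forces_top (hx1.and g.pt_spec)).and hsurj)).mono ?_
  rintro u ⟨⟨h1, h2⟩, ⟨h3, h4⟩, ⟨j, hj⟩⟩
  obtain ⟨N, hN, hF⟩ := hW5 (x.pt u) (y.pt u) h3 h2.1 h2.2 (j + 1)
  exact h1 N ⟨j, by omega, (h4 _ _).2 hj⟩ (j + 1) _ rfl hF

end SLV
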