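import Mathlib
import Pool.Agent.SLV.T2

/-!
# MP_0a8ab4_lc, project SLV: the tree of names (helper43)
-/

set_option autoImplicit false

namespace SLV

namespace HG1_

theorem step (h_FS : T_FS) (h_CPQ : T_CPQ) {B : Type} [CompleteBooleanAlgebra B] {C : Set B}
    (hC : CSub C) (σ : List {Δ : Set (Cd C) // Dns Δ}) (Δ : {Δ : Set (Cd C) // Dns Δ})
    (w : {w : Nm B Wd // CN C w}) :
    ∃ w' : {w : Nm B Wd // CN C w},
      (Forces (⊤ : B) fun u => (∀ i < σ.length, w'.1.pt u i = w.1.pt u i) ∧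
          Le (w'.1.pt u) (w.1.pt u)) ∧
        ∀ s, ∀ Δ' ∈ σ ++ [Δ], bval (fun u => FinN σ.length s (w.1.pt u)) ≤ capt Δ'.1 s w'.1 := by
  obtain ⟨w', h1, h2, h3⟩ := h_FS B C hC _
    (h_CPQ B C hC ((σ ++ [Δ]).map Subtype.val) (by
      intro Δ' h
      obtain ⟨⟨a, ha⟩, _, rfl⟩ := List.mem_map.1 h
      exact ha)) σ.length w.1 w.2
  refine ⟨⟨w', h1⟩, h2, fun s Δ' hΔ' => (h3 s).trans ?_⟩
  exact iInf₂_le Δ'.1 (List.mem_map.2 ⟨Δ', hΔ', rfl⟩)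

end HG1_

theorem p_HG1 (h_FS : T_FS) (h_CPQ : T_CPQ) : T_HG1 := by
  intro B _ C hC w hw
  choose st h1 h2 using HG1_.step h_FS h_CPQ (B := B) hC
  let Wr : List {Δ : Set (Cd C) // Dns Δ} → {w : Nm B Wd // CN C w} := fun τ =>
    List.rec ⟨w, hw⟩ (fun Δ τ' x => st τ'.reverse Δ x) τ
  have hW : ∀ σ Δ, Wr ((σ ++ [Δ]).reverse) = st σ Δ (Wr σ.reverse) := by
    intro σ Δ
    rw [List.reverse_append]
    show st σ.reverse.reverse Δ (Wr σ.reverse) = _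
    rw [List.reverse_reverse]
  refine ⟨fun σ => (Wr σ.reverse).1, rfl, fun σ => (Wr σ.reverse).2, fun σ Δ => ?_⟩
  dsimp only
  rw [hW σ Δ]
  exact ⟨h1 σ Δ (Wr σ.reverse), h2 σ Δ (Wr σ.reverse)⟩

end SLV
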