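import Mathlib
import Pool.Agent.SLV.T2
import Pool.Agent.SLV.Basic

/-!
# MP_0a8ab4_lc, project SLV: the limit along a name of a branch (helper98)
-/

set_option autoImplicit false

namespace SLV

namespace HG2_

instance : Countable Wd := by
  have h : Function.Injective (fun w : Wd => (w.A, w.V)) := by
    intro w w' h
    have h1 := congrArg Prod.fst h
    have h2 := congrArg Prod.snd h
    exact Wd.ext h1 h2
  exact h.countable

variable {B : Type} [CompleteBooleanAlgebra B]

theorem mem_iInf_fin (u : Ult B) {n : ℕ} (f : Fin n → B) :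
    u.mem (⨅ i, f i) ↔ ∀ i, u.mem (f i) := by
  have key : ∀ s : Finset (Fin n), u.mem (s.inf f) ↔ ∀ i ∈ s, u.mem (f i) := by
    intro s
    induction s using Finset.induction_on with
    | empty => simp [u.top]
    | insert a s _ ih =>
      rw [Finset.inf_insert, u.inf, ih]
      simp
  have h := key Finset.univ
  rw [Finset.inf_univ_eq_iInf] at h
  rw [h]
  simp

theorem length_pre {X : Type} (y : ℕ → X) (k : ℕ) : (pre y k).length = k := by
  simp [pre]

theorem gval_spec {D : Type} [Nonempty D] (g : Nm B D) :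
    Forces (⊤ : B) fun u => ∀ σ : List D, u.mem (gval g σ) ↔ pre (g.pt u) σ.length = σ := by
  refine g.pt_spec.mono fun u hu σ => ?_
  unfold gval
  rw [mem_iInf_fin]
  constructor
  · intro h
    refine List.ext_getElem (by simp [pre]) fun i h1 h2 => ?_
    have h3 := (hu i (σ.get ⟨i, h2⟩)).2 (h ⟨i, h2⟩)
    simp only [pre, List.getElem_map, List.getElem_range]
    rw [h3]
    rfl
  · intro h i
    rw [← hu]
    have h1 : (pre (g.pt u) σ.length)[i.1]'(by rw [length_pre]; exact i.2) = σ.get i := by
      simp only [h]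
      rfl
    rw [← h1]
    simp [pre]

theorem cover_gval {D : Type} [Nonempty D] (g : Nm B D) (m : ℕ) :
    ⨆ σ : {σ : List D // σ.length = m}, gval g σ.1 = ⊤ := by
  apply top_le_iff.1
  apply le_of_forces
  refine ((forces_mem_iSup fun σ : {σ : List D // σ.length = m} => gval g σ.1).and
    (gval_spec g)).mono ?_
  rintro u ⟨h1, h2⟩
  refine h1.2 ⟨⟨pre (g.pt u) m, length_pre _ _⟩, ?_⟩
  rw [h2, length_pre]

/-- the value of the limit -/
noncomputable def lim {D : Type} [Nonempty D] (g : Nm B D) (W : List D → Nm B Wd) (u : Ult B)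
    (n : ℕ) : Wd := (W (pre (g.pt u) (n + 1))).pt u n

theorem dec_lim {D : Type} [Nonempty D] (g : Nm B D) (W : List D → Nm B Wd) (n : ℕ) (a : Wd) :
    DecIn (Set.univ : Set B) fun u => lim g W u n = a := by
  refine ⟨⨆ σ : {σ : List D // σ.length = n + 1}, gval g σ.1 ⊓ (W σ.1).v n a, trivial, ?_, ?_⟩
  · refine forces_iSup fun σ => ?_
    refine ((forces_mem _).and ((forces_top (gval_spec g)).and
      (forces_top (W σ.1).pt_spec))).mono ?_
    rintro u ⟨h1, h2, h3⟩
    have h4 := (u.inf _ _).1 h1
    have h5 := (h2 _).1 h4.1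
    rw [σ.2] at h5
    show (W (pre (g.pt u) (n + 1))).pt u n = a
    rw [h5]
    exact (h3 n a).2 h4.2
  · refine forces_of_cover (cover_gval g (n + 1)) fun σ => ?_
    refine ((forces_mem _).and ((forces_top (gval_spec g)).and
      ((forces_top (W σ.1).pt_spec)))).mono ?_
    rintro u ⟨h1, h2, h3⟩ h6
    have h4 := (u.inf _ _).1 h1
    have h5 := (h2 _).1 h4.2
    rw [σ.2] at h5
    change (W (pre (g.pt u) (n + 1))).pt u n = a at h6
    rw [h5] at h6
    refine (u.compl _).1 h4.1 ?_
    refine u.mono (le_iSup (fun σ : {σ : List D // σ.length = n + 1} =>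
      gval g σ.1 ⊓ (W σ.1).v n a) σ) ?_
    exact (u.inf _ _).2 ⟨h4.2, (h3 n a).1 h6⟩

theorem ext_W (W1 : T_W1) {D : Type} (W : List D → Nm B Wd)
    (hW : ∀ σ d, Forces ⊤ fun u => (∀ i < σ.length, (W (σ ++ [d])).pt u i = (W σ).pt u i) ∧
      Le ((W (σ ++ [d])).pt u) ((W σ).pt u)) (σ ρ : List D) :
    Forces ⊤ fun u => (∀ i < σ.length, (W (σ ++ ρ)).pt u i = (W σ).pt u i) ∧
      Le ((W (σ ++ ρ)).pt u) ((W σ).pt u) := by
  obtain ⟨-, hrefl, htr, -⟩ := W1
  induction ρ using List.reverseRecOn with
  | nil =>
    rw [List.append_nil]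
    exact forces_of fun u _ => ⟨fun _ _ => rfl, hrefl _⟩
  | append_singleton ρ d ih =>
    have h := hW (σ ++ ρ) d
    rw [List.append_assoc] at h
    refine (ih.and h).mono ?_
    rintro u ⟨⟨h1, h2⟩, h3, h4⟩
    refine ⟨fun i hi => ?_, htr _ _ _ h4 h2⟩
    rw [h3 i (by rw [List.length_append]; omega), h1 i hi]

theorem pre_take {X : Type} (y : ℕ → X) {k m : ℕ} (h : k ≤ m) : (pre y m).take k = pre y k := by
  unfold pre
  rw [← List.map_take, List.take_range, min_eq_left h]

end HG2_

open HG2_ in
theorem p_HG2 (W1 : T_W1) : T_HG2 := by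
  intro B _ D g W hB hW
  rcases isEmpty_or_nonempty D with hD | hD
  · have hbot : (⊤ : B) = ⊥ := by
      rw [← g.cover 0]
      simp
    have hno : ∀ (b : B) (P : Ult B → Prop), Forces b P := fun b P =>
      forces_of fun u _ => (u.bot (hbot ▸ u.top)).elim
    exact ⟨W [], hno _ _, fun σ => hno _ _⟩
  obtain ⟨x, -, hx⟩ := exists_name CSub.univ (lim g W) (dec_lim g W)
  have main : ∀ σ, Forces (gval g σ) fun u => (∀ i < σ.length, x.pt u i = (W σ).pt u i) ∧
      Le (x.pt u) ((W σ).pt u) := by
    intro σ
    have h1 : Forces (gval g σ) fun u => ∀ i, i < σ.length → x.pt u i = (W σ).pt u i := by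
      refine forces_all fun i => ?_
      by_cases hi : i < σ.length
      · have he := ext_W W1 W hW (σ.take (i + 1)) (σ.drop (i + 1))
        rw [List.take_append_drop] at he
        refine ((forces_mem _).and ((forces_top he).and ((forces_top hx).and
          (forces_top (gval_spec g))))).mono ?_
        rintro u ⟨h1, h2, h3, h4⟩ _
        rw [h3]
        show (W (pre (g.pt u) (i + 1))).pt u i = _
        have h5 : pre (g.pt u) (i + 1) = σ.take (i + 1) := by
          rw [← (h4 σ).1 h1]
          rw [pre_take _ (by omega)]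
        rw [h5]
        refine (h2.1 i ?_).symm
        rw [List.length_take]
        omega
      · exact forces_of fun u _ h => absurd h hi
    have h2 : Forces (gval g σ) fun u => ∀ n, x.pt u n ∈ Rg ((W σ).pt u) := by
      refine forces_all fun n => ?_
      by_cases hn : n < σ.length
      · refine h1.mono fun u hu => ?_
        rw [hu n hn]
        exact W1.2.1 _ n
      · refine forces_of_cover (cover_gval g (n + 1)) fun τ => ?_
        by_cases hτ : τ.1.take σ.length = σ
        · have he := ext_W W1 W hW σ (τ.1.drop σ.length)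
          have e1 : σ ++ τ.1.drop σ.length = τ.1 := by
            conv_lhs => rw [← hτ]
            rw [hτ]
            conv_rhs => rw [← List.take_append_drop σ.length τ.1, hτ]
          rw [e1] at he
          refine ((forces_mem _).and ((forces_top he).and ((forces_top hx).and
            (forces_top (gval_spec g))))).mono ?_
          rintro u ⟨h1, h2, h3, h4⟩
          rw [h3]
          show (W (pre (g.pt u) (n + 1))).pt u n ∈ _
          have h5 := (h4 τ.1).1 ((u.inf _ _).1 h1).2
          rw [τ.2] at h5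
          rw [h5]
          exact h2.2 n
        · refine ((forces_mem _).and (forces_top (gval_spec g))).mono ?_
          rintro u ⟨h1, h4⟩
          exfalso
          apply hτ
          have h5 := (h4 τ.1).1 ((u.inf _ _).1 h1).2
          have h6 := (h4 σ).1 ((u.inf _ _).1 h1).1
          rw [τ.2] at h5
          rw [← h5, pre_take _ (by omega), h6]
    exact (h1.and h2).mono fun u hu => ⟨hu.1, hu.2⟩
  refine ⟨x, ?_, main⟩
  refine forces_all fun n => ?_
  refine forces_of_cover (cover_gval g (n + 2)) fun τ => ?_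
  rw [top_inf_eq]
  refine ((main τ.1).and (forces_top (hB τ.1))).mono ?_
  rintro u ⟨⟨h1, -⟩, h2⟩
  rw [h1 n (by rw [τ.2]; omega), h1 (n + 1) (by rw [τ.2]; omega)]
  exact h2 n

end SLV
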