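import Mathlib
import Pool.Agent.SLV.T2

/-!
# MP_0a8ab4_lc, project SLV: homogenisation at all stems (helper13)
-/

set_option autoImplicit false

namespace SLV

namespace HMG_

/-- all or none of the words of `w` beyond `t` have the property -/
def H (P : Wd → Prop) (t : List Wd) (w : ℕ → Wd) : Prop :=
  (∀ q ∈ Rg w, Beyond t q → P q) ∨ ∀ q ∈ Rg w, Beyond t q → ¬ P q

theorem mem_of_leT (h : T_W10) {t : List Wd} {w' w : ℕ → Wd} (hl : LeT t w' w) {q : Wd}
    (hq : q ∈ Rg w') (hb : Beyond t q) : q ∈ Rg w :=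
  h.1 t (fun _ => q) w' w (fun _ _ => hq) hl 0 hb

theorem rg_sub (h : T_W10) {w' w : ℕ → Wd} (hl : Le w' w) : Rg w' ⊆ Rg w := fun _ hq =>
  mem_of_leT h (h.2.1 [] w' w hl) hq (fun r hr => absurd hr (by simp))

theorem H_mono (h : T_W10) {P : Wd → Prop} {t : List Wd} {w' w : ℕ → Wd} (hl : LeT t w' w)
    (hH : H P t w) : H P t w' := by
  rcases hH with h1 | h1
  · exact Or.inl fun q hq hb => h1 q (mem_of_leT h hl hq hb) hb
  · exact Or.inr fun q hq hb => h1 q (mem_of_leT h hl hq hb) hb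

theorem H_of {P : Wd → Prop} (t : List Wd) {w : ℕ → Wd}
    (hH : (∀ q ∈ Rg w, P q) ∨ ∀ q ∈ Rg w, ¬ P q) : H P t w := by
  rcases hH with h1 | h1
  · exact Or.inl fun q hq _ => h1 q hq
  · exact Or.inr fun q hq _ => h1 q hq

end HMG_

open HMG_ in
theorem p_HMG (h_HOM : T_HOM) (h_FUS : T_FUS) (h_W10 : T_W10) (h_M2 : T_M2) : T_HMG := by
  intro B _ C hC f g hf hg w hw
  let Q : List Wd → Nm B Wd → B := fun t w => bval fun u =>
    H (fun q => u.mem (f t q)) t (w.pt u) ∧ H (fun q => u.mem (g t q)) t (w.pt u)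
  have hQ : QH C Q := by
    refine ⟨?_, ?_⟩
    · intro t w w' c _ _ _ hle
      refine le_bval_iff.2 ?_
      refine (((forces_bval _).weak inf_le_right).and (hle.weak inf_le_left)).mono ?_
      rintro u ⟨⟨h1, h2⟩, h3⟩
      exact ⟨H_mono h_W10 h3 h1, H_mono h_W10 h3 h2⟩
    · intro t w _ hw
      obtain ⟨w1, hw1, hle1, hh1⟩ := h_HOM B C hC w hw (f t) (hf t)
      obtain ⟨w2, hw2, hle2, hh2⟩ := h_HOM B C hC w1 hw1 (g t) (hg t)
      refine ⟨w2, hw2, ?_, ?_⟩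
      · refine (hle1.and hle2).mono ?_
        rintro u ⟨h1, h2⟩ n
        exact rg_sub h_W10 h1 (h2 n)
      · refine bval_eq_top.2 ?_
        refine ((hh1.and hh2).and hle2).mono ?_
        rintro u ⟨⟨h1, h2⟩, h3⟩
        refine ⟨H_mono h_W10 (h_W10.2.1 t _ _ h3) (H_of t h1), H_of t h2⟩
  obtain ⟨w', hw', hle, hall⟩ := h_FUS B C hC Q hQ w hw
  refine ⟨w', hw', hle, fun t => ?_⟩
  have hdec : DecIn C fun u => InF t (w'.pt u) := decIn_mes hC hw'.1 (h_M2.2.2.2.1 t)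
  have h1 : Forces (⊤ : B) fun u => u.mem (Q t w') →
      H (fun q => u.mem (f t q)) t (w'.pt u) ∧ H (fun q => u.mem (g t q)) t (w'.pt u) :=
    forces_mem_bval _
  refine (h1.and hdec.iff_mem).mono ?_
  rintro u ⟨h2, h3⟩ h4
  exact h2 (u.mono (hall t) (h3.2 h4))

end SLV
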