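import Pool.Agent.SLV.T2

/-!
# SLV: the pigeonhole principle for names (`T_HOM`) (helper2)
-/

set_option autoImplicit false

namespace SLV

namespace HOM_

theorem all {X ι : Type} [Countable ι] {P : ι → (ℕ → X) → Prop}
    (h : ∀ i, Mes {x | P i x}) : Mes {x | ∀ i, P i x} := by
  have h1 : {x : ℕ → X | ∀ i, P i x} = ⋂ i, {x | P i x} := by
    ext x
    rw [Set.mem_iInter]
    exact Iff.rfl
  rw [h1]
  exact @MeasurableSet.iInter _ _ (bsp X) _ _ h

theorem and {X : Type} {P Q : (ℕ → X) → Prop}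
    (h : Mes {x | P x}) (h' : Mes {x | Q x}) : Mes {x | P x ∧ Q x} :=
  @MeasurableSet.inter _ (bsp X) _ _ h h'

theorem or {X : Type} {P Q : (ℕ → X) → Prop}
    (h : Mes {x | P x}) (h' : Mes {x | Q x}) : Mes {x | P x ∨ Q x} :=
  @MeasurableSet.union _ (bsp X) _ _ h h'

theorem not {X : Type} {P : (ℕ → X) → Prop}
    (h : Mes {x | P x}) : Mes {x | ¬ P x} :=
  @MeasurableSet.compl _ _ (bsp X) h

theorem imp {X : Type} {P Q : (ℕ → X) → Prop}
    (h : Mes {x | P x}) (h' : Mes {x | Q x}) : Mes {x | P x → Q x} := by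
  have h1 : {x : ℕ → X | P x → Q x} = {x | ¬ P x ∨ Q x} := by
    ext x
    exact imp_iff_not_or
  rw [h1]
  exact or (not h) h'

/-- the relation for the transfer lemma; `e` is an enumeration of the words -/
def Rl (e : Wd → ℕ) (x : ℕ → Wd × Bool) (y : ℕ → Wd) : Prop :=
  Blk (fun n => (x n).1) → Blk y ∧ Le y (fun n => (x n).1) ∧
    ((∀ q, q ∈ Rg y → (x (e q)).2 = true) ∨ ∀ q, q ∈ Rg y → (x (e q)).2 = false)

theorem rel_mes (h_M1 : T_M1) (h_M2 : T_M2) (h_M3 : T_M3) (h_M4 : T_M4) (e : Wd → ℕ) :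
    Mes2 (Rl e) := by
  have pt : ∀ (n : ℕ) (P : (Wd × Bool) × Wd → Prop),
      Mes {z : ℕ → (Wd × Bool) × Wd | P (z n)} := fun n P =>
    h_M1 _ _ (n + 1) fun x y h => by
      show P (x n) ↔ P (y n)
      rw [h n (by omega)]
  have hb : Mes {z : ℕ → (Wd × Bool) × Wd | Blk fun n => (z n).1.1} :=
    h_M4 _ _ (fun (z : ℕ → (Wd × Bool) × Wd) n => (z n).1.1)
      (fun n a => pt n fun c => c.1.1 = a) _ h_M2.1
  have hb' : Mes {z : ℕ → (Wd × Bool) × Wd | Blk fun n => (z n).2} :=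
    h_M4 _ _ (fun (z : ℕ → (Wd × Bool) × Wd) n => (z n).2)
      (fun n a => pt n fun c => c.2 = a) _ h_M2.1
  have hl : Mes {z : ℕ → (Wd × Bool) × Wd | Le (fun n => (z n).2) fun n => (z n).1.1} :=
    h_M4 _ _ (fun (z : ℕ → (Wd × Bool) × Wd) n => ((z n).2, (z n).1.1))
      (fun n a => pt n fun c => (c.2, c.1.1) = a) _ h_M3.1
  have hr : ∀ q : Wd, Mes {z : ℕ → (Wd × Bool) × Wd | q ∈ Rg fun n => (z n).2} := fun q =>
    h_M4 _ _ (fun (z : ℕ → (Wd × Bool) × Wd) n => (z n).2)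
      (fun n a => pt n fun c => c.2 = a) _ (h_M2.2.1 q)
  have hc : ∀ b : Bool, Mes {z : ℕ → (Wd × Bool) × Wd |
      ∀ q, (q ∈ Rg fun n => (z n).2) → (z (e q)).1.2 = b} := fun b =>
    all fun q => imp (hr q) (pt (e q) fun c => c.1.2 = b)
  exact imp hb (and hb' (and hl (or (hc true) (hc false))))

end HOM_

open HOM_ Classical in
theorem p_HOM (h_TR : T_TR) (h_PHw : T_PHw) (h_M1 : T_M1) (h_M2 : T_M2) (h_M3 : T_M3)
    (h_M4 : T_M4) : T_HOM := by
  intro B _ C hC w hw f hf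
  obtain ⟨e, he⟩ := exists_injective_nat Wd
  obtain ⟨x, hx, hxe⟩ := exists_name (X := Wd × Bool) hC
    (fun u n => (w.pt u n, decide (∃ q, e q = n ∧ u.mem (f q)))) (by
      rintro n ⟨a, b⟩
      have h1 : DecIn C fun u => w.pt u n = a := decIn_pt hw.1 n a
      have h2 : DecIn C fun u => ∃ q, e q = n ∧ u.mem (f q) :=
        DecIn.ex hC fun q => (DecIn.const hC (e q = n)).and hC (DecIn.mem (hf q))
      cases b with
      | true =>
        refine (h1.and hC h2).congr' fun u => ?_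
        rw [Prod.mk.injEq, decide_eq_true_iff]
      | false =>
        refine (h1.and hC (h2.not hC)).congr' fun u => ?_
        rw [Prod.mk.injEq, decide_eq_false_iff_not])
  obtain ⟨y, hy, hr⟩ := h_TR B C hC (Wd × Bool) Wd (Rl e) (rel_mes h_M1 h_M2 h_M3 h_M4 e)
    (by
      intro x
      by_cases h : Blk fun n => (x n).1
      · obtain ⟨w', h1, h2, h3⟩ := h_PHw _ h fun q => (x (e q)).2 = true
        refine ⟨w', fun _ => ⟨h1, h2, ?_⟩⟩
        rcases h3 with h3 | h3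
        · exact Or.inl h3
        · exact Or.inr fun q hq => by simpa using h3 q hq
      · exact ⟨default, fun h' => absurd h' h⟩) x hx
  have key : Forces (⊤ : B) fun u => Blk (y.pt u) ∧ Le (y.pt u) (w.pt u) ∧
      ((∀ q ∈ Rg (y.pt u), u.mem (f q)) ∨ ∀ q ∈ Rg (y.pt u), ¬ u.mem (f q)) := by
    refine ((hxe.and hr).and hw.2).mono ?_
    rintro u ⟨⟨h1, h2⟩, h3⟩
    have e1 : (fun n => (x.pt u n).1) = w.pt u := by
      rw [h1]
    have e2 : ∀ q, (x.pt u (e q)).2 = true ↔ u.mem (f q) := by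
      intro q
      rw [h1]
      simp only [decide_eq_true_eq]
      constructor
      · rintro ⟨q', hq', h⟩
        rwa [he hq'] at h
      · intro h
        exact ⟨q, rfl, h⟩
    unfold Rl at h2
    rw [e1] at h2
    obtain ⟨h4, h5, h6⟩ := h2 h3
    refine ⟨h4, h5, ?_⟩
    rcases h6 with h6 | h6
    · exact Or.inl fun q hq => (e2 q).1 (h6 q hq)
    · refine Or.inr fun q hq h => ?_
      have h7 := (e2 q).2 h
      rw [h6 q hq] at h7
      exact Bool.false_ne_true h7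
  exact ⟨y, ⟨hy, key.mono fun _ hu => hu.1⟩, key.mono fun _ hu => hu.2.1,
    key.mono fun _ hu => hu.2.2⟩

end SLV
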