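import Pool.Agent.SLV.T1

/-!
# MP_0a8ab4_lc, project SLV: the order type of an inaccessible cardinal
-/

set_option autoImplicit false

namespace SLV

open Cardinal CofSN

theorem p_IK : T_IK := by
  intro κ hκ
  have hK : #κ.ord.ToType = κ := mk_ord_toType κ
  refine ⟨fun α => Cardinal.mk_Iio_lt α (by simp), ?_, ?_, ?_, ?_⟩
  · intro S hS
    by_contra hcon
    push Not at hcon
    have hcof : IsCofinal S := fun β => by
      obtain ⟨s, hs, hle⟩ := hcon β
      exact ⟨s, hs, hle⟩
    have h1 : Order.cof κ.ord.ToType ≤ #S := Order.cof_le hcof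
    rw [Ordinal.cof_toType] at h1
    rw [hK] at hS
    exact absurd (hκ.le_cof_ord.trans h1) (not_le.2 hS)
  · intro Z hZ
    rw [hK] at hZ
    have h1 : (#Z).ord < Ordinal.type (α := κ.ord.ToType) (· < ·) := by
      rw [Ordinal.type_toType]
      exact Cardinal.ord_lt_ord.2 hZ
    obtain ⟨ν, hν⟩ := Ordinal.typein_surj (· < ·) h1
    refine ⟨ν, Cardinal.eq.1 ?_⟩
    have h2 := congrArg Ordinal.card hν
    rw [Cardinal.card_ord] at h2
    rw [← h2]
    rfl
  · intro Z hZ
    rw [hK] at hZ ⊢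
    rw [Cardinal.mk_set]
    exact hκ.isStrongPrelimit hZ
  · rw [hK]
    exact hκ.aleph0_lt

end SLV
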