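import Mathlib
import Pool.Agent.SLV.T2

/-!
# MP_0a8ab4_lc, project SLV: Boolean values of Borel predicates are invariant (T_INV, helper5)
-/

set_option autoImplicit false

namespace SLV.INV_

variable {B : Type} [CompleteBooleanAlgebra B]

theorem bval_false {P : Ult B → Prop} (h : ∀ u, ¬ P u) : bval P = ⊥ :=
  eq_bot_of_forces_false ((forces_bval P).mono fun u hu => h u hu)

theorem bval_ex {C : Set B} {P : ℕ → Ult B → Prop} (h : ∀ i, DecIn C (P i)) :
    bval (fun u => ∃ i, P i u) = ⨆ i, bval (P i) := by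
  rw [← bval_mem (⨆ i, bval (P i))]
  refine bval_congr ?_
  have h2 := forces_all fun i => (h i).iff_mem
  refine ((forces_mem_iSup fun i => bval (P i)).and h2).mono fun u hu => ?_
  rw [hu.1]
  exact exists_congr fun i => (hu.2 i).symm

theorem compl_inf_inf (a d : B) : (a ⊓ d)ᶜ ⊓ d = aᶜ ⊓ d := by
  rw [compl_inf, inf_sup_right, compl_inf_eq_bot, sup_bot_eq]

end SLV.INV_

namespace SLV

open INV_

theorem p_INV (h_PIB : T_PIB) : T_INV := by
  intro B _ d d' π X _ x x' hx A hA
  obtain ⟨h0, -, -, hS, hc⟩ :=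
    h_PIB B Set.univ Set.univ CSub.univ CSub.univ d trivial d' trivial π
  have hdx : ∀ t : Set (ℕ → X), Mes t → DecIn (Set.univ : Set B) fun u => x.pt u ∈ t :=
    fun t ht => decIn_mes CSub.univ (inC_univ x) ht
  have hdx' : ∀ t : Set (ℕ → X), Mes t → DecIn (Set.univ : Set B) fun u => x'.pt u ∈ t :=
    fun t ht => decIn_mes CSub.univ (inC_univ x') ht
  unfold Mes bsp at hA
  induction A, hA using MeasurableSpace.generateFrom_induction with
  | hC t ht _ =>
    obtain ⟨n, a, rfl⟩ := ht
    have e1 : bval (fun u : Ult B => x.pt u ∈ {z : ℕ → X | z n = a}) = x.v n a :=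
      (v_eq_bval x n a).symm
    have e2 : bval (fun u : Ult B => x'.pt u ∈ {z : ℕ → X | z n = a}) = x'.v n a :=
      (v_eq_bval x' n a).symm
    rw [e1, e2]
    exact hx n a
  | empty =>
    rw [bval_false fun u => Set.notMem_empty _, bval_false fun u => Set.notMem_empty _,
      bot_inf_eq, bot_inf_eq]
    exact h0
  | compl t ht ih =>
    have e1 : bval (fun u : Ult B => x.pt u ∈ tᶜ) = (bval fun u => x.pt u ∈ t)ᶜ :=
      (hdx t ht).eq_bval.2
    have e2 : bval (fun u : Ult B => x'.pt u ∈ tᶜ) = (bval fun u => x'.pt u ∈ t)ᶜ :=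
      (hdx' t ht).eq_bval.2
    rw [e1, e2, ← compl_inf_inf, hc _ trivial inf_le_right, ih, compl_inf_inf]
  | iUnion s hs ih =>
    have e1 : bval (fun u : Ult B => x.pt u ∈ ⋃ i, s i) = ⨆ i, bval fun u => x.pt u ∈ s i := by
      rw [← bval_ex fun i => hdx (s i) (hs i)]
      refine bval_congr (forces_of fun u _ => ?_)
      simp
    have e2 : bval (fun u : Ult B => x'.pt u ∈ ⋃ i, s i) = ⨆ i, bval fun u => x'.pt u ∈ s i := by
      rw [← bval_ex fun i => hdx' (s i) (hs i)]
      refine bval_congr (forces_of fun u _ => ?_)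
      simp
    rw [e1, e2, iSup_inf_eq, iSup_inf_eq]
    have h1 := hS (Set.range fun i => bval (fun u : Ult B => x.pt u ∈ s i) ⊓ d)
      (Set.subset_univ _) (by
        rintro _ ⟨i, rfl⟩
        exact inf_le_right)
    rw [← Set.range_comp] at h1
    have h2 : (π.f ∘ fun i => bval (fun u : Ult B => x.pt u ∈ s i) ⊓ d) =
        fun i => bval (fun u : Ult B => x'.pt u ∈ s i) ⊓ d' := funext fun i => ih i
    rw [h2] at h1
    exact h1

end SLV
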