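import Mathlib
import Pool.Agent.SLV.T1

/-!
# MP_0a8ab4_lc, project SLV: isomorphisms from dense families (helper98)
-/

set_option autoImplicit false

namespace SLV

namespace ISL_

variable {B : Type} [CompleteBooleanAlgebra B]

theorem inf_mem {G : Set B} (hG : CSub G) {a b : B} (ha : a ∈ G) (hb : b ∈ G) : a ⊓ b ∈ G := by
  have h : (sSup {aᶜ, bᶜ} : B)ᶜ ∈ G := by
    refine hG.compl _ (hG.sSup _ ?_)
    intro x hx
    rcases hx with rfl | hx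
    · exact hG.compl _ ha
    · rw [Set.mem_singleton_iff.1 hx]
      exact hG.compl _ hb
  rwa [sSup_pair, compl_sup, compl_compl, compl_compl] at h

/-- the map given by two families -/
def fn {ι : Type} (u u' : ι → B) (z : B) : B := sSup {y | ∃ i, u i ≤ z ∧ y = u' i}

theorem le_fn {ι : Type} (u u' : ι → B) {z : B} {i : ι} (h : u i ≤ z) : u' i ≤ fn u u' z :=
  le_sSup ⟨i, h, rfl⟩

theorem key {G : Set B} (hG : CSub G) {d : B} {ι : Type} {u u' : ι → B}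
    (hu : ∀ i, u i ∈ G ∧ u i ≤ d)
    (hden : ∀ z ∈ G, z ≤ d → z ≠ ⊥ → ∃ i, u i ≠ ⊥ ∧ u i ≤ z)
    (hdis : ∀ i j, u i ⊓ u j = ⊥ ↔ u' i ⊓ u' j = ⊥)
    {z : B} (hz : z ∈ G) {i : ι} (h : u' i ≤ fn u u' z) : u i ≤ z := by
  by_contra hc
  have h1 : u i ⊓ zᶜ ≠ ⊥ := fun h2 => hc (by
    rw [← disjoint_iff, disjoint_compl_right_iff] at h2
    exact h2)
  obtain ⟨j, hj, hjz⟩ := hden _ (inf_mem hG (hu i).1 (hG.compl _ hz))
    (inf_le_left.trans (hu i).2) h1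
  have h2 : u' j ⊓ fn u u' z = ⊥ := by
    unfold fn
    rw [inf_sSup_eq]
    refine le_bot_iff.1 (iSup₂_le ?_)
    rintro y ⟨k, hk, rfl⟩
    refine ((hdis j k).1 ?_).le
    refine le_bot_iff.1 ?_
    calc u j ⊓ u k ≤ zᶜ ⊓ z := inf_le_inf (hjz.trans inf_le_right) hk
      _ = ⊥ := compl_inf_eq_bot
  have h3 : u' j ⊓ u' i = ⊥ := le_bot_iff.1 (h2 ▸ inf_le_inf_left _ h)
  have h4 := (hdis j i).2 h3
  rw [inf_eq_left.2 (hjz.trans inf_le_left)] at h4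
  exact hj h4

theorem eq_sup {G : Set B} (hG : CSub G) {d : B} {ι : Type} {u u' : ι → B}
    (hu : ∀ i, u i ∈ G ∧ u i ≤ d)
    (hden : ∀ z ∈ G, z ≤ d → z ≠ ⊥ → ∃ i, u i ≠ ⊥ ∧ u i ≤ z)
    (hdis : ∀ i j, u i ⊓ u j = ⊥ ↔ u' i ⊓ u' j = ⊥)
    {z : B} (hz : z ∈ G) (hzd : z ≤ d) : fn u' u (fn u u' z) = z := by
  apply le_antisymm
  · unfold fn
    refine sSup_le ?_
    rintro y ⟨i, hi, rfl⟩
    exact key hG hu hden hdis hz hi
  · by_contra hc
    have hm : fn u' u (fn u u' z) ∈ G := hG.sSup _ (by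
      rintro y ⟨i, _, rfl⟩
      exact (hu i).1)
    have h1 : z ⊓ (fn u' u (fn u u' z))ᶜ ≠ ⊥ := fun h2 => hc (by
      rw [← disjoint_iff, disjoint_compl_right_iff] at h2
      exact h2)
    obtain ⟨j, hj, hjz⟩ := hden _ (inf_mem hG hz (hG.compl _ hm)) (inf_le_left.trans hzd) h1
    have h2 : u j ≤ fn u' u (fn u u' z) := le_fn u' u (le_fn u u' (hjz.trans inf_le_left))
    refine hj (le_bot_iff.1 ?_)
    calc u j ≤ fn u' u (fn u u' z) ⊓ (fn u' u (fn u u' z))ᶜ := le_inf h2 (hjz.trans inf_le_right)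
      _ = ⊥ := inf_compl_eq_bot

theorem fn_mono {ι : Type} (u u' : ι → B) {z z' : B} (h : z ≤ z') : fn u u' z ≤ fn u u' z' := by
  unfold fn
  refine sSup_le ?_
  rintro y ⟨i, hi, rfl⟩
  exact le_sSup ⟨i, hi.trans h, rfl⟩

theorem fn_mem {G' : Set B} (hG' : CSub G') {d' : B} {ι : Type} {u u' : ι → B}
    (hu' : ∀ i, u' i ∈ G' ∧ u' i ≤ d') (z : B) : fn u u' z ∈ G' ∧ fn u u' z ≤ d' := by
  constructor
  · refine hG'.sSup _ ?_
    rintro y ⟨i, _, rfl⟩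
    exact (hu' i).1
  · unfold fn
    refine sSup_le ?_
    rintro y ⟨i, _, rfl⟩
    exact (hu' i).2

end ISL_

open ISL_ in
theorem p_ISL : T_ISL := by
  intro B _ G G' hG hG' d hd d' hd' ι u u' hu hu' hden hden' hdis
  have hdis' : ∀ i j, u' i ⊓ u' j = ⊥ ↔ u i ⊓ u j = ⊥ := fun i j => (hdis i j).symm
  refine ⟨⟨fn u u', fn u' u, fun z _ _ => fn_mem hG' hu' z, fun z _ _ => fn_mem hG hu z,
    fun z _ _ z' _ _ h => fn_mono u u' h, fun z _ _ z' _ _ h => fn_mono u' u h,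
    fun z hz hzd => eq_sup hG hu hden hdis hz hzd,
    fun z hz hzd => eq_sup hG' hu' hden' hdis' hz hzd⟩, fun i => ?_⟩
  show fn u u' (u i) = u' i
  apply le_antisymm
  · unfold fn
    refine sSup_le ?_
    rintro y ⟨k, hk, rfl⟩
    exact key hG' hu' hden' hdis' (hu' i).1 (hk.trans (le_fn u' u le_rfl))
  · exact le_fn u u' le_rfl

end SLV
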