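import Pool.Agent.SLV.T2

/-!
# MP_0a8ab4_lc, project SLV: the isomorphism given by a condition
-/

set_option autoImplicit false

namespace SLV

open Cardinal CofSN Pool.Agent.MadBlock

namespace ISO_

variable {B : Type} [CompleteBooleanAlgebra B] {C : Set B}

/-- block sequences leave every finite set of words -/
theorem beyond_late (h_W2 : T_W2) {w : ℕ → Wd} (hw : Blk w) (t : List Wd) :
    ∃ N, ∀ m, N ≤ m → Beyond t (w m) := by
  have h1 := (h_W2 w hw).1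
  have h2 : ∀ m, ∀ i ∈ (w m).A, m ≤ i := by
    intro m
    induction m with
    | zero => intro i _; exact Nat.zero_le i
    | succ m ih =>
      intro i hi
      obtain ⟨k, hk⟩ := (w m).ne
      have hk' := (w m).sub hk
      have e1 := h1 m (m + 1) (Nat.lt_succ_self m) k hk' i hi
      have e2 := ih k hk'
      omega
  induction t with
  | nil => exact ⟨0, fun m _ r hr => by simp at hr⟩
  | cons r t ih =>
    obtain ⟨N, hN⟩ := ih
    refine ⟨max N (r.A.sup id + 1), fun m hm s hs => ?_⟩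
    rcases List.mem_cons.1 hs with rfl | hs
    · intro i hi j hj
      have h3 : i ≤ s.A.sup id := Finset.le_sup (f := id) hi
      have h4 := h2 m j hj
      have h5 := le_max_right N (s.A.sup id + 1)
      omega
    · exact hN m ((le_max_left _ _).trans hm) s hs

/-- the stem can be extended -/
theorem extend (h_W1 : T_W1) (h_W2 : T_W2) (hC : CSub C) (r : Cd C) :
    ∃ r' : Cd C, CdLe r' r ∧ r.t.length + 1 ≤ r'.t.length := by
  have h1 : r.c ≤ ⨆ i : ℕ × {q : Wd // Beyond r.t q}, r.w.v i.1 i.2.1 := by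
    apply le_of_forces
    refine ((forces_top r.hw.2).and ((forces_top r.w.pt_spec).and (forces_top
      (forces_mem_iSup fun i : ℕ × {q : Wd // Beyond r.t q} => r.w.v i.1 i.2.1)))).mono ?_
    rintro u ⟨g1, g2, g3⟩
    obtain ⟨N, hN⟩ := beyond_late h_W2 g1 r.t
    exact g3.2 ⟨(N, ⟨r.w.pt u N, hN N le_rfl⟩), (g2 N _).1 rfl⟩
  have h2 : ∃ i : ℕ × {q : Wd // Beyond r.t q}, r.c ⊓ r.w.v i.1 i.2.1 ≠ ⊥ := by
    by_contra hcon
    push Not at hcon
    apply r.ne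
    have h3 : r.c ⊓ (⨆ i : ℕ × {q : Wd // Beyond r.t q}, r.w.v i.1 i.2.1) = ⊥ := by
      rw [inf_iSup_eq]
      exact iSup_eq_bot.2 hcon
    rwa [inf_eq_left.2 h1] at h3
  obtain ⟨⟨m, q, hq⟩, hne⟩ := h2
  refine ⟨⟨r.c ⊓ r.w.v m q, r.t ++ [q], r.w, hC.inf r.hc (r.hw.1 m q), hne, ?_, r.hw⟩,
    ⟨inf_le_left, List.prefix_append _ _, ?_⟩, by simp⟩
  · refine List.pairwise_append.2 ⟨r.ht, List.pairwise_singleton _ _, fun a ha b hb => ?_⟩
    rw [List.mem_singleton.1 hb]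
    exact hq a ha
  · refine ((forces_mem _).and (forces_top r.w.pt_spec)).mono ?_
    rintro u ⟨g1, g2⟩
    have h3 : r.w.pt u m = q := (g2 m q).2 ((u.inf _ _).1 g1).2
    refine ⟨fun q' hq' => ?_, h_W1.2.1 _⟩
    rw [List.drop_left, List.mem_singleton] at hq'
    rw [hq', ← h3]
    exact h_W1.2.1 (r.w.pt u) m

theorem dense_len (h_W1 : T_W1) (h_W2 : T_W2) (h_CDL : T_CDL) (hC : CSub C) (n : ℕ) :
    Dns {r : Cd C | n < r.t.length} := by
  intro p
  induction n with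
  | zero =>
    obtain ⟨r', h1, h2⟩ := extend h_W1 h_W2 hC p
    refine ⟨r', ?_, h1⟩
    change 0 < r'.t.length
    omega
  | succ n ih =>
    obtain ⟨r, hr, hrp⟩ := ih
    obtain ⟨r', h1, h2⟩ := extend h_W1 h_W2 hC r
    refine ⟨r', ?_, (h_CDL B C hC).2.1 r' r p h1 hrp⟩
    have hr' : n < r.t.length := hr
    change n + 1 < r'.t.length
    omega

/-- the entries of the stem -/
theorem uv_le_v (x : Nm B Wd) (q : Cd C) {n : ℕ} {a : Wd} (h : q.t[n]? = some a) :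
    uv x q ≤ x.v n a := by
  apply le_of_forces
  have h1 : Forces (uv x q) fun u => Nb q.t (q.w.pt u) (x.pt u) :=
    (forces_bval _).weak inf_le_right
  refine (h1.and (forces_top x.pt_spec)).mono ?_
  rintro u ⟨g1, g2⟩
  refine (g2 n a).1 ?_
  have hn : n < q.t.length := (List.getElem?_eq_some_iff.1 h).1
  have h2 : (pre (x.pt u) q.t.length)[n]? = some a := by rw [g1.2.1]; exact h
  unfold pre at h2
  rw [List.getElem?_map, List.getElem?_range hn] at h2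
  simpa using h2

theorem meet (h_MEE : T_MEE) (hC : CSub C) {x : Nm B Wd} (hx : Gnr C x) {p q : Cd C}
    (h : uv x p ⊓ uv x q ≠ ⊥) : ∃ r : Cd C, CdLe r p ∧ CdLe r q ∧ uv x r ≠ ⊥ := by
  by_contra hcon
  push Not at hcon
  apply h
  refine le_bot_iff.1 ((h_MEE B C hC x hx p q).trans (sSup_le ?_))
  rintro z ⟨r, h1, h2, rfl⟩
  exact (hcon r h1 h2).le

/-- density below `p` -/
theorem dens (h_DX : T_DX) (h_MEE : T_MEE) (h_CDL : T_CDL) (hC : CSub C) {x : Nm B Wd}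
    (hx : Gnr C x) (p : Cd C) {z : B} (hz : z ∈ Gen C x) (hzp : z ≤ uv x p) (hz0 : z ≠ ⊥) :
    ∃ r : Cd C, CdLe r p ∧ uv x r ≠ ⊥ ∧ uv x r ≤ z := by
  obtain ⟨q, h1, h2⟩ := h_DX B C hC x hx z hz hz0
  have h3 : uv x q ⊓ uv x p ≠ ⊥ := by
    rw [inf_eq_left.2 (h2.trans hzp)]
    exact h1
  obtain ⟨r, h4, h5, h6⟩ := meet h_MEE hC hx h3
  exact ⟨r, h5, h6, ((h_CDL B C hC).2.2 r q x h4).trans h2⟩

/-- compatibility -/
theorem compat (h_MEE : T_MEE) (h_CDL : T_CDL) (hC : CSub C) {x : Nm B Wd}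
    (hx : Gnr C x) {p : Cd C} (hp : HP x p) {q q' : Cd C} (hq : CdLe q p) :
    uv x q ⊓ uv x q' ≠ ⊥ ↔ ∃ r : Cd C, CdLe r q ∧ CdLe r q' := by
  constructor
  · intro h
    obtain ⟨r, h1, h2, _⟩ := meet h_MEE hC hx h
    exact ⟨r, h1, h2⟩
  · rintro ⟨r, h1, h2⟩ h3
    have h4 := (h_CDL B C hC).2.2 r q x h1
    have h5 := (h_CDL B C hC).2.2 r q' x h2
    exact hp r ((h_CDL B C hC).2.1 r q p h1 hq) (le_bot_iff.1 (h3 ▸ le_inf h4 h5))

/-- the values of the name -/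
theorem sup_eq (h_W1 : T_W1) (h_W2 : T_W2) (h_DX : T_DX) (h_MEE : T_MEE) (h_CDL : T_CDL)
    (h_UVG : T_UVG) (hC : CSub C) {x : Nm B Wd} (hx : Gnr C x) (p : Cd C) (n : ℕ) (a : Wd) :
    x.v n a ⊓ uv x p = sSup {z | ∃ q : Cd C, CdLe q p ∧ q.t[n]? = some a ∧ z = uv x q} := by
  have hG := csub_gen C x
  apply le_antisymm
  · by_contra hcon
    obtain ⟨s, hs⟩ : ∃ s, s = sSup {z | ∃ q : Cd C, CdLe q p ∧ q.t[n]? = some a ∧ z = uv x q} :=
      ⟨_, rfl⟩
    rw [← hs] at hcon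
    have hsG : s ∈ Gen C x := by
      rw [hs]
      refine hG.sSup _ ?_
      rintro z ⟨q, _, _, rfl⟩
      exact h_UVG B C hC x q
    have h0 : x.v n a ⊓ uv x p ⊓ sᶜ ≠ ⊥ := by
      intro h
      apply hcon
      have := (disjoint_iff.2 h).le_compl_right
      rwa [compl_compl] at this
    have hzG : x.v n a ⊓ uv x p ⊓ sᶜ ∈ Gen C x :=
      hG.inf (hG.inf (mem_gen C x n a) (h_UVG B C hC x p)) (hG.compl _ hsG)
    obtain ⟨q, hqp, hq0, hqz⟩ := dens h_DX h_MEE h_CDL hC hx p hzG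
      (inf_le_left.trans inf_le_right) h0
    -- a longer stem
    have hex : ∃ r : Cd C, n < r.t.length ∧ uv x q ⊓ uv x r ≠ ⊥ := by
      by_contra hc
      push Not at hc
      apply hq0
      have h1 := hx _ (dense_len h_W1 h_W2 h_CDL hC n)
      have h2 : uv x q ⊓ MD {r : Cd C | n < r.t.length} x = ⊥ := by
        unfold MD
        rw [inf_sSup_eq]
        refine iSup₂_eq_bot.2 ?_
        rintro _ ⟨r, hr, rfl⟩
        exact hc r hr
      rwa [h1, inf_top_eq] at h2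
    obtain ⟨r, hr, hqr⟩ := hex
    obtain ⟨t, htq, htr, ht0⟩ := meet h_MEE hC hx hqr
    have hlen : n < t.t.length := hr.trans_le htr.2.1.length_le
    have htz : uv x t ≤ x.v n a ⊓ uv x p ⊓ sᶜ := ((h_CDL B C hC).2.2 t q x htq).trans hqz
    have hta : t.t[n]? = some a := by
      obtain ⟨b, hb⟩ : ∃ b, t.t[n]? = some b := ⟨_, List.getElem?_eq_getElem hlen⟩
      by_cases hab : a = b
      · rw [hab]; exact hb
      · exfalso
        apply ht0
        refine le_bot_iff.1 ?_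
        rw [← x.disj n a b hab]
        exact le_inf (htz.trans (inf_le_left.trans inf_le_left)) (uv_le_v x t hb)
    have hts : uv x t ≤ s := by
      rw [hs]
      exact le_sSup ⟨t, (h_CDL B C hC).2.1 t q p htq hqp, hta, rfl⟩
    apply ht0
    refine le_bot_iff.1 ?_
    rw [← inf_compl_eq_bot (a := s)]
    exact le_inf hts (htz.trans inf_le_right)
  · refine sSup_le ?_
    rintro z ⟨q, h1, h2, rfl⟩
    exact le_inf (uv_le_v x q h2) ((h_CDL B C hC).2.2 q p x h1)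

end ISO_

open ISO_ in
theorem p_ISO (h_ISL : T_ISL) (h_PIB : T_PIB) (h_DX : T_DX) (h_MEE : T_MEE) (h_CDL : T_CDL)
    (h_UVG : T_UVG) (h_W1 : T_W1) (h_W2 : T_W2) : T_ISO := by
  intro B _ C hC x x' hx hx' p hp hp'
  have hmono := (h_CDL B C hC).2.2
  have htrans := (h_CDL B C hC).2.1
  obtain ⟨π, hπ⟩ := h_ISL B (Gen C x) (Gen C x') (csub_gen C x) (csub_gen C x')
    (uv x p) (h_UVG B C hC x p) (uv x' p) (h_UVG B C hC x' p) {q : Cd C // CdLe q p}
    (fun q => uv x q.1) (fun q => uv x' q.1)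
    (fun q => ⟨h_UVG B C hC x q.1, hmono q.1 p x q.2⟩)
    (fun q => ⟨h_UVG B C hC x' q.1, hmono q.1 p x' q.2⟩)
    (fun z hz hzp hz0 => by
      obtain ⟨r, h1, h2, h3⟩ := dens h_DX h_MEE h_CDL hC hx p hz hzp hz0
      exact ⟨⟨r, h1⟩, h2, h3⟩)
    (fun z hz hzp hz0 => by
      obtain ⟨r, h1, h2, h3⟩ := dens h_DX h_MEE h_CDL hC hx' p hz hzp hz0
      exact ⟨⟨r, h1⟩, h2, h3⟩)
    (fun i j => by
      rw [← not_iff_not]
      exact (compat h_MEE h_CDL hC hx hp i.2).trans (compat h_MEE h_CDL hC hx' hp' i.2).symm)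
  have hPIB := h_PIB B (Gen C x) (Gen C x') (csub_gen C x) (csub_gen C x')
    (uv x p) (h_UVG B C hC x p) (uv x' p) (h_UVG B C hC x' p) π
  have hπ' : ∀ q : Cd C, CdLe q p → π.f (uv x q) = uv x' q := fun q hq => hπ ⟨q, hq⟩
  refine ⟨π, fun c hc => ?_, fun n a => ?_⟩
  · by_cases h0 : c ⊓ p.c = ⊥
    · have h1 : ∀ y : Nm B Wd, c ⊓ uv y p = ⊥ := fun y => by
        unfold uv
        rw [← inf_assoc, h0, bot_inf_eq]
      rw [h1 x, h1 x', hPIB.1]
    · have h1 : ∀ y : Nm B Wd, c ⊓ uv y p =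
          uv y (⟨c ⊓ p.c, p.t, p.w, hC.inf hc p.hc, h0, p.ht, p.hw⟩ : Cd C) := fun y => by
        unfold uv
        rw [← inf_assoc]
      rw [h1 x, h1 x']
      refine hπ' _ ⟨inf_le_right, List.prefix_rfl, ?_⟩
      refine forces_of fun u _ => ⟨fun q hq => ?_, h_W1.2.1 _⟩
      simp at hq
  · rw [sup_eq h_W1 h_W2 h_DX h_MEE h_CDL h_UVG hC hx p n a,
      sup_eq h_W1 h_W2 h_DX h_MEE h_CDL h_UVG hC hx' p n a, hPIB.2.2.2.1]
    · congr 1
      ext z
      constructor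
      · rintro ⟨_, ⟨q, h1, h2, rfl⟩, rfl⟩
        exact ⟨q, h1, h2, hπ' q h1⟩
      · rintro ⟨q, h1, h2, rfl⟩
        exact ⟨uv x q, ⟨q, h1, h2, rfl⟩, hπ' q h1⟩
    · rintro z ⟨q, _, _, rfl⟩
      exact h_UVG B C hC x q
    · rintro z ⟨q, h1, _, rfl⟩
      exact hmono q p x h1

end SLV
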