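import Mathlib
import Pool.Agent.SLV.T3

/-!
# MP_0a8ab4_lc, project SLV: members of the hierarchy depend on few coordinates (helper49)
-/

set_option autoImplicit false

namespace SLV

open Cardinal CofSN BSet

namespace LAM_

/-- every member of `S` is fixed by all isomorphisms over some `Blow lam` -/
def Pr {K : Type} [LinearOrder K] (S : BSet (BL K)) : Prop :=
  ∀ i : S.ty, ∃ lam : K, ∀ (d d' : BL K) (π : PI (Set.univ : Set (BL K)) d Set.univ d'),
      (∀ c ∈ Blow lam, π.f (c ⊓ d) = c ⊓ d') → Trn π (S.el i) (S.el i)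

theorem pr_unn {K : Type} [LinearOrder K] (I : Type) (f : I → BSet (BL K))
    (h : ∀ i, Pr (f i)) : Pr (unn I f) := by
  rintro ⟨i, j⟩
  exact h i j

theorem blow_mono {K : Type} [LinearOrder K] {lam mu : K} (h : lam ≤ mu) :
    (Blow lam : Set (BL K)) ⊆ Blow mu := by
  intro U hU p q hpq
  exact hU p q fun j hj => hpq j (lt_of_lt_of_le hj h)

end LAM_

open LAM_ in
theorem p_LAM (h_H1 : T_H1) (h_LRU : T_LRU) (h_TLR : T_TLR) (h_TVL : T_TVL) (h_TNR : T_TNR)
    (h_RL : T_RL) : T_LAM := by
  intro K _ hK α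
  change Pr (Lr (BL K) α)
  induction α using WellFoundedLT.induction with
  | ind α ih =>
    rw [(h_LRU (BL K)).1 α]
    apply pr_unn
    rintro (_ | β)
    · -- reals
      intro x
      obtain ⟨lam, hlam⟩ := h_H1 K hK x
      refine ⟨lam, fun d d' π hπ => ?_⟩
      exact (h_TNR (BL K) d d' π).2.1 x x fun n => hπ (x n) (hlam n)
    · -- definable sets
      have hβ : Ordinal.typein (α := α.ToType) (· < ·) β < α := Ordinal.typein_lt_self β
      have hM := ih _ hβ
      rintro ⟨φ, v⟩
      choose lam hlam using fun n => hM (v n)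
      have hct : Countable (Set.range lam) := (Set.countable_range lam).to_subtype
      obtain ⟨mu, hmu⟩ := hK.bdd (Set.range lam)
        (lt_of_le_of_lt Cardinal.mk_le_aleph0 hK.unc)
      refine ⟨mu, fun d d' π hπ => ?_⟩
      refine (h_TVL (BL K) d d' π _ _ (h_TLR (BL K) d d' π _) φ v v fun n => ⟨?_, ?_⟩).2
      · rw [(h_LRU (BL K)).2.1]
        exact (h_RL (BL K) d d' π).1
      · exact hlam n d d' π fun c hc => hπ c (blow_mono (hmu _ ⟨n, rfl⟩).le hc)

end SLV
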