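import Mathlib
import Pool.Agent.SLV.T2

/-!
# MP_0a8ab4_lc, project SLV: limits of fusion sequences (helper49)
-/

set_option autoImplicit false

namespace SLV

theorem p_LIM (h_W1 : T_W1) : T_LIM := by
  intro B _ C hC w hw hstep
  obtain ⟨w', hw'C, hw'⟩ := exists_name hC (fun u i => (w (i + 1)).pt u i)
    (fun n a => decIn_pt (hw (n + 1)).1 n a)
  have hall : Forces (⊤ : B) fun u => (w'.pt u = fun i => (w (i + 1)).pt u i) ∧
      (∀ n, (∀ i < n, (w (n + 1)).pt u i = (w n).pt u i) ∧
        Le ((w (n + 1)).pt u) ((w n).pt u)) ∧ ∀ n, Blk ((w n).pt u) :=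
    hw'.and ((forces_nat hstep).and (forces_nat fun n => (hw n).2))
  -- pointwise statement
  have key : ∀ u : Ult B, ((w'.pt u = fun i => (w (i + 1)).pt u i) ∧
      (∀ n, (∀ i < n, (w (n + 1)).pt u i = (w n).pt u i) ∧
        Le ((w (n + 1)).pt u) ((w n).pt u)) ∧ ∀ n, Blk ((w n).pt u)) →
      Blk (w'.pt u) ∧ ∀ n, (∀ i < n, w'.pt u i = (w n).pt u i) ∧ Le (w'.pt u) ((w n).pt u) := by
    rintro u ⟨h1, h2, h3⟩
    have heq : ∀ i k, (w (i + 1 + k)).pt u i = w'.pt u i := by
      intro i k
      induction k with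
      | zero => rw [h1]
      | succ k ih =>
        rw [← ih]
        exact (h2 (i + 1 + k)).1 i (by omega)
    have heq' : ∀ n, ∀ i < n, w'.pt u i = (w n).pt u i := by
      intro n i hi
      have := heq i (n - (i + 1))
      rw [← this]
      congr 2
      omega
    have hle : ∀ n k, Le ((w (n + k)).pt u) ((w n).pt u) := by
      intro n k
      induction k with
      | zero => exact h_W1.2.1 _
      | succ k ih => exact h_W1.2.2.1 _ _ _ (h2 (n + k)).2 ih
    refine ⟨fun i => ?_, fun n => ⟨heq' n, fun i => ?_⟩⟩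
    · rw [heq' (i + 2) i (by omega), heq' (i + 2) (i + 1) (by omega)]
      exact h3 (i + 2) i
    · rcases lt_or_ge i n with hi | hi
      · rw [heq' n i hi]
        exact h_W1.2.1 _ i
      · rw [heq' (i + 1) i (by omega)]
        have := hle n (i + 1 - n) i
        rwa [show n + (i + 1 - n) = i + 1 by omega] at this
  exact ⟨w', ⟨hw'C, hall.mono fun u hu => (key u hu).1⟩, hall.mono fun u hu => (key u hu).2⟩

end SLV
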