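import Pool.Agent.SLV.T3

/-!
# MP_0a8ab4_lc, project SLV: `madV` is local (helper53)
-/

set_option autoImplicit false

namespace SLV

namespace LOC_

variable {B : Type} [CompleteBooleanAlgebra B]

/-- the two elements agree below `b` -/
def E (b a a' : B) : Prop := b ⊓ a ≤ a' ∧ b ⊓ a' ≤ a

lemma E.symm {b a a' : B} (h : E b a a') : E b a' a := ⟨h.2, h.1⟩

lemma E.refl (b a : B) : E b a a := ⟨inf_le_right, inf_le_right⟩

lemma inf_one {b a a' c c' : B} (h : b ⊓ a ≤ a') (h' : b ⊓ c ≤ c') : b ⊓ (a ⊓ c) ≤ a' ⊓ c' :=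
  le_inf ((inf_le_inf_left _ inf_le_left).trans h) ((inf_le_inf_left _ inf_le_right).trans h')

lemma E.inf {b a a' c c' : B} (h : E b a a') (h' : E b c c') : E b (a ⊓ c) (a' ⊓ c') :=
  ⟨inf_one h.1 h'.1, inf_one h.2 h'.2⟩

lemma himp_one {b a a' c c' : B} (h : b ⊓ a' ≤ a) (h' : b ⊓ c ≤ c') :
    b ⊓ (a ⇨ c) ≤ a' ⇨ c' := by
  rw [le_himp_iff]
  refine le_trans ?_ h'
  refine le_inf (inf_le_left.trans inf_le_left) ?_
  have h1 : b ⊓ (a ⇨ c) ⊓ a' ≤ (a ⇨ c) ⊓ a :=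
    le_inf (inf_le_left.trans inf_le_right)
      ((le_inf (inf_le_left.trans inf_le_left) inf_le_right).trans h)
  exact h1.trans himp_inf_le

lemma E.himp {b a a' c c' : B} (h : E b a a') (h' : E b c c') : E b (a ⇨ c) (a' ⇨ c') :=
  ⟨himp_one h.2 h'.1, himp_one h.1 h'.2⟩

lemma iInf_one {ι : Sort*} {b : B} {f f' : ι → B} (h : ∀ i, b ⊓ f i ≤ f' i) :
    b ⊓ ⨅ i, f i ≤ ⨅ i, f' i :=
  le_iInf fun i => (inf_le_inf_left _ (iInf_le _ i)).trans (h i)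

lemma E.iInf {ι : Sort*} {b : B} {f f' : ι → B} (h : ∀ i, E b (f i) (f' i)) :
    E b (⨅ i, f i) (⨅ i, f' i) :=
  ⟨iInf_one fun i => (h i).1, iInf_one fun i => (h i).2⟩

lemma iSup_one {ι : Sort*} {b : B} {f f' : ι → B} (h : ∀ i, b ⊓ f i ≤ f' i) :
    b ⊓ ⨆ i, f i ≤ ⨆ i, f' i := by
  rw [inf_iSup_eq]
  exact iSup_mono h

lemma E.iSup {ι : Sort*} {b : B} {f f' : ι → B} (h : ∀ i, E b (f i) (f' i)) :
    E b (⨆ i, f i) (⨆ i, f' i) :=
  ⟨iSup_one fun i => (h i).1, iSup_one fun i => (h i).2⟩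

lemma E.eq {b a a' : B} (h : E b a a') : b ⊓ a = b ⊓ a' :=
  le_antisymm (le_inf inf_le_left h.1) (le_inf inf_le_left h.2)

lemma E.of_eq {b a a' : B} (h : b ⊓ a = b ⊓ a') : E b a a' :=
  ⟨h.le.trans inf_le_right, h.ge.trans inf_le_right⟩

end LOC_

open LOC_ in
theorem p_LOC : T_LOC := by
  intro B _ F _ S S' b h
  have h' : ∀ x, E b (S x) (S' x) := fun x => E.of_eq (h x)
  apply E.eq
  unfold madV
  refine E.inf (E.inf (E.inf (E.inf ?_ ?_) ?_) ?_) ?_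
  · exact E.iInf fun x => (h' x).himp (E.refl _ _)
  · exact E.iInf fun x => E.iInf fun y => ((h' x).inf (E.refl _ _)).himp (h' y)
  · exact E.iInf fun x => E.iInf fun y => ((h' x).inf (h' y)).himp (E.refl _ _)
  · exact E.iInf fun y => (E.refl _ _).himp (E.iSup fun x => (h' x).inf (E.refl _ _))
  · exact E.iInf fun k => E.iInf fun x => E.iSup fun y => (h' y).inf (E.refl _ _)

end SLV
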