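import Pool.Agent.SLV.T3
import Pool.Agent.MadBlock.FinHit
import Pool.Agent.MadBlock.InfHit

/-!
# MP_0a8ab4_lc, project SLV: mad families in `L(R)`, fields with at least three elements
(helper41, job SLV-LRA)
-/

set_option autoImplicit false

namespace SLV

open Cardinal CofSN Pool.Agent.MadBlock BSet

namespace LRA_

theorem family (F : Type) [Field F] [Countable F] (hF : ∃ a : F, a ≠ 0 ∧ a ≠ 1) :
    ∃ A : Set (Submodule F (ℕ →₀ F)), A.Infinite ∧ IsMadFamily A ∧ ClosedInProduct (Codes A) := by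
  cases finite_or_infinite F with
  | inl h => exact main_fin hF
  | inr h => exact main_inf

end LRA_

theorem p_LRA (h_CLT : T_CLT) (h_CLW : T_CLW) (h_A1 : T_A1) : T_LRA := by
  intro B _ F _ _ hF e he
  obtain ⟨A, hinf, hmad, hcl⟩ := LRA_.family F hF
  obtain ⟨T, hT⟩ := h_CLT F (Codes A) hcl
  obtain ⟨w, hw, hw'⟩ := h_CLW B (ℕ →₀ F) e he T
  refine ⟨w, hw, ?_⟩
  have h1 := (h_A1 B F A hinf hmad hcl).2
  have h2 : (fun x : Nm B (ℕ →₀ F) => mem (codeN e x) w) =
      fun x : Nm B (ℕ →₀ F) => bval fun u => x.pt u ∈ Codes A := by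
    funext x
    rw [hw' x]
    congr 1
    funext u
    exact propext (hT (x.pt u)).symm
  show madV (fun x : Nm B (ℕ →₀ F) => mem (codeN e x) w) = ⊤
  rw [h2]
  exact h1

end SLV
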