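import Pool.Agent.SLV.T3

/-!
# SLV: LRB, no infinite mad family of block subspaces in `L(R)` over a field with two elements
-/

set_option autoImplicit false

namespace SLV

open Cardinal CofSN Pool.Agent.MadBlock BSet

namespace LRB_

/-- one member of the hierarchy -/
theorem step (h_EQV : T_EQV) (h_LOC : T_LOC) (h_LSW : T_LSW) (h_BB : T_BB)
    (K : Type) [LinearOrder K] (hK : IK K) (F : Type) [Field F] [Countable F]
    (h2 : ∀ a : F, a = 0 ∨ a = 1) (e : List (ℕ →₀ F) → ℕ) (S : BSet (BL K))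
    (α : Ordinal.{0}) (i : (Lr (BL K) α).ty) :
    eqv S ((Lr (BL K) α).el i) ⊓ madB e S ≤ ⊥ := by
  obtain ⟨-, hsym, -, -, -, hmem, -⟩ := h_EQV (BL K)
  set T : BSet (BL K) := (Lr (BL K) α).el i with hT
  set b : BL K := eqv S T ⊓ madB e S with hb
  have hbe : b ≤ eqv S T := inf_le_left
  have hloc : ∀ x : Nm (BL K) (ℕ →₀ F),
      b ⊓ mem (codeN e x) S = b ⊓ mem (codeN e x) T := by
    intro x
    apply le_antisymm
    · refine le_inf inf_le_left ?_
      calc b ⊓ mem (codeN e x) S ≤ mem (codeN e x) S ⊓ eqv S T :=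
            le_inf inf_le_right (inf_le_left.trans hbe)
        _ ≤ mem (codeN e x) T := hmem _ _ _
    · refine le_inf inf_le_left ?_
      calc b ⊓ mem (codeN e x) T ≤ mem (codeN e x) T ⊓ eqv T S :=
            le_inf inf_le_right ((inf_le_left.trans hbe).trans (hsym S T).le)
        _ ≤ mem (codeN e x) S := hmem _ _ _
  have h3 := h_LOC (BL K) F (fun x => mem (codeN e x) S) (fun x => mem (codeN e x) T) b hloc
  obtain ⟨h4, h5⟩ := h_LSW K hK α i (ℕ →₀ F) e
  have h6 := h_BB K hK F h2 (fun x => mem (codeN e x) T) h4 h5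
  rw [h6, inf_bot_eq] at h3
  have h7 : b ≤ b ⊓ madV (fun x : Nm (BL K) (ℕ →₀ F) => mem (codeN e x) S) :=
    le_inf le_rfl inf_le_right
  exact h7.trans h3.le

end LRB_

theorem p_LRB (h_EQV : T_EQV) (h_LOC : T_LOC) (h_LSW : T_LSW) (h_BB : T_BB) : T_LRB := by
  intro K _ hK F _ _ h2 e S
  apply le_bot_iff.1
  unfold inLR mem
  rw [iSup_inf_eq]
  refine iSup_le fun α => ?_
  rw [iSup_inf_eq]
  refine iSup_le fun i => ?_
  refine le_trans ?_ (LRB_.step h_EQV h_LOC h_LSW h_BB K hK F h2 e S α i)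
  exact inf_le_inf_right _ inf_le_right

end SLV
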