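import Mathlib
import Pool.Agent.SLV.T3

/-!
# MP_0a8ab4_lc, project SLV: the sets of reals of the hierarchy are in the Solovay class (helper91)
-/

set_option autoImplicit false

namespace SLV

open Cardinal CofSN Pool.Agent.MadBlock BSet

/-- The set of reals given by a member of the hierarchy is in the Solovay class. -/
theorem p_LSW (h_LAM : T_LAM) (h_TRE : T_TRE) (h_TCN : T_TCN) (h_OI : T_OI) (h_COE : T_COE)
    (h_EQV : T_EQV) : T_LSW := by
  intro K _ hK α i X _ _ e
  refine ⟨?_, ?_⟩
  · intro x y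
    obtain ⟨-, -, -, -, h5, -, -⟩ := h_EQV (BL K)
    exact le_trans (inf_le_inf_left _ (h_COE (BL K) X e x y)) (h5 _ _ _)
  · obtain ⟨lam, hlam⟩ := h_LAM K hK α i
    refine ⟨lam, ?_⟩
    intro d d' o ho x x' hx
    obtain ⟨π, hπ⟩ := (h_OI (BL K) d d').2 o
    have hT : Trn π ((Lr (BL K) α).el i) ((Lr (BL K) α).el i) := by
      apply hlam d d' π
      intro c hc
      rw [← hπ c]
      exact ho c hc
    have hC : Trn π (codeN e x) (codeN e x') := by
      apply h_TCN (BL K) d d' π X e x x'
      intro n a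
      change π.f (x.v n a ⊓ d) = x'.v n a ⊓ d'
      rw [← hπ (x.v n a)]
      exact hx n a
    have hM := (h_TRE (BL K) d d' π _ _ _ _ hC hT).2
    change π.f (mem (codeN e x) ((Lr (BL K) α).el i) ⊓ d) =
      mem (codeN e x') ((Lr (BL K) α).el i) ⊓ d' at hM
    rw [hπ]
    exact hM

end SLV
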