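import Pool.Agent.SLV.T1

/-!
# SLV: M2, Borel sets of words
-/

set_option autoImplicit false

namespace SLV

namespace M2_

theorem ctbl : Countable Wd := by
  have h : Function.Injective fun w : Wd => (w.A, w.V) := by
    intro w v h
    exact Wd.ext (congrArg Prod.fst h) (congrArg Prod.snd h)
  exact h.countable

theorem inter {X ι : Type} [Countable ι] (f : ι → Set (ℕ → X)) (h : ∀ i, Mes (f i)) :
    Mes (⋂ i, f i) := by
  letI := bsp X
  exact MeasurableSet.iInter h

theorem union {X ι : Type} [Countable ι] (f : ι → Set (ℕ → X)) (h : ∀ i, Mes (f i)) :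
    Mes (⋃ i, f i) := by
  letI := bsp X
  exact MeasurableSet.iUnion h

theorem act_congr (w v : ℕ → Wd) (p : Wd) (h : ∀ i ∈ p.A, w i = v i) : act w p = act v p := by
  refine Wd.ext ?_ ?_
  · exact Finset.biUnion_congr rfl fun i hi => by rw [h i hi]
  · exact Finset.biUnion_congr rfl fun i hi => by rw [h i (p.sub hi)]

theorem rg (h_M1 : T_M1) (q : Wd) : Mes {w : ℕ → Wd | q ∈ Rg w} := by
  haveI := ctbl
  have e : {w : ℕ → Wd | q ∈ Rg w} = ⋃ p : Wd, {w : ℕ → Wd | act w p = q} := by
    ext w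
    simp [Rg]
  rw [e]
  refine union _ fun p => h_M1 Wd _ (p.A.sup id + 1) fun w v h => ?_
  have h1 : act w p = act v p := act_congr w v p fun i hi =>
    h i (Nat.lt_succ_of_le (Finset.le_sup (f := id) hi))
  simp only [Set.mem_setOf_eq, h1]

end M2_

open M2_ in
theorem p_M2 (h_M1 : T_M1) (h_W9 : T_W9) : T_M2 := by
  haveI := ctbl
  refine ⟨?_, rg h_M1, ?_, ?_, ?_⟩
  · have e : {w | Blk w} = ⋂ n, {w : ℕ → Wd | (w n).lt (w (n + 1))} := by
      ext w
      simp [Blk]
    rw [e]
    refine inter _ fun n => h_M1 Wd _ (n + 2) fun w v h => ?_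
    simp only [Set.mem_setOf_eq, h n (by omega), h (n + 1) (by omega)]
  · intro n t
    exact h_M1 Wd _ n fun w v h => h_W9.2 n t w v h
  · intro t
    have e : {w | InF t w} = ⋂ q : {q : Wd // q ∈ t}, {w : ℕ → Wd | q.1 ∈ Rg w} ∩ {_w | BlkL t} ∪
        {_w | False} ∪ ∅ := by
      rcases t with _ | ⟨a, t⟩
      · ext w
        simp [InF, BlkL]
      · ext w
        simp only [InF, Set.mem_setOf_eq, Set.mem_iInter, Set.mem_union, Set.mem_inter_iff,
          Set.mem_empty_iff_false, or_false, Subtype.forall]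
        constructor
        · rintro ⟨h1, h2⟩ q hq
          exact ⟨h2 q hq, h1⟩
        · intro h
          exact ⟨(h a (by simp)).2, fun q hq => (h q hq).1⟩
    rw [e]
    refine inter _ fun q => ?_
    have h1 := rg h_M1 q.1
    have h2 : Mes {_w : ℕ → Wd | BlkL t} := h_M1 Wd _ 0 fun w v _ => Iff.rfl
    have h3 : ({w : ℕ → Wd | q.1 ∈ Rg w} ∩ {_w | BlkL t} ∪ {_w | False} ∪ ∅ : Set (ℕ → Wd)) =
        {w : ℕ → Wd | q.1 ∈ Rg w} ∩ {_w | BlkL t} := by
      simp
    rw [h3]
    letI := bsp Wd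
    exact MeasurableSet.inter h1 h2
  · intro n
    have e : {w : ℕ → Wd | ∀ m, Beyond (pre w n) (w (n + m))} =
        ⋂ m, {w : ℕ → Wd | Beyond (pre w n) (w (n + m))} := by
      ext w
      simp
    rw [e]
    refine inter _ fun m => h_M1 Wd _ (n + m + 1) fun w v h => ?_
    have h1 : pre w n = pre v n := by
      unfold pre
      refine List.map_congr_left fun i hi => h i ?_
      have := List.mem_range.1 hi
      omega
    simp only [Set.mem_setOf_eq, h1, h (n + m) (by omega)]

end SLV
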