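import Mathlib
import Pool.Agent.SLV.T1

/-!
# MP_0a8ab4_lc, project SLV: Borel relations of words (`T_M3`) (helper21)
-/

set_option autoImplicit false

namespace SLV

namespace M3_

theorem all {X : Type} {ι : Type} [Countable ι] {P : ι → (ℕ → X) → Prop}
    (h : ∀ i, Mes {x | P i x}) : Mes {x | ∀ i, P i x} := by
  have h1 : {x : ℕ → X | ∀ i, P i x} = ⋂ i, {x | P i x} := by
    ext x
    rw [Set.mem_iInter]
    exact Iff.rfl
  rw [h1]
  exact @MeasurableSet.iInter _ _ (bsp X) _ _ h

theorem ex {X : Type} {ι : Type} [Countable ι] {P : ι → (ℕ → X) → Prop}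
    (h : ∀ i, Mes {x | P i x}) : Mes {x | ∃ i, P i x} := by
  have h1 : {x : ℕ → X | ∃ i, P i x} = ⋃ i, {x | P i x} := by
    ext x
    rw [Set.mem_iUnion]
    exact Iff.rfl
  rw [h1]
  exact @MeasurableSet.iUnion _ _ (bsp X) _ _ h

theorem and {X : Type} {P Q : (ℕ → X) → Prop}
    (h : Mes {x | P x}) (h' : Mes {x | Q x}) : Mes {x | P x ∧ Q x} :=
  @MeasurableSet.inter _ (bsp X) _ _ h h'

theorem or {X : Type} {P Q : (ℕ → X) → Prop}
    (h : Mes {x | P x}) (h' : Mes {x | Q x}) : Mes {x | P x ∨ Q x} :=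
  @MeasurableSet.union _ (bsp X) _ _ h h'

theorem not {X : Type} {P : (ℕ → X) → Prop}
    (h : Mes {x | P x}) : Mes {x | ¬ P x} :=
  @MeasurableSet.compl _ _ (bsp X) h

theorem const {X : Type} (p : Prop) : Mes {_x : ℕ → X | p} :=
  @MeasurableSet.const _ (bsp X) p

theorem imp {X : Type} {P Q : (ℕ → X) → Prop}
    (h : Mes {x | P x}) (h' : Mes {x | Q x}) : Mes {x | P x → Q x} := by
  have h1 : {x : ℕ → X | P x → Q x} = {x | ¬ P x ∨ Q x} := by
    ext x
    exact imp_iff_not_or
  rw [h1]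
  exact or (not h) h'

theorem eval {X : Type} (n : ℕ) (a : X) : Mes {x : ℕ → X | x n = a} :=
  MeasurableSpace.measurableSet_generateFrom ⟨n, a, rfl⟩

theorem fst_eq {X Y : Type} [Countable Y] (n : ℕ) (a : X) :
    Mes {z : ℕ → X × Y | (z n).1 = a} := by
  have h1 : {z : ℕ → X × Y | (z n).1 = a} = {z | ∃ b : Y, z n = (a, b)} := by
    ext z
    constructor
    · intro h
      exact ⟨(z n).2, Prod.ext h rfl⟩
    · rintro ⟨b, hb⟩
      show (z n).1 = a
      rw [hb]
  rw [h1]
  exact ex fun b => eval n (a, b)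

theorem snd_eq {X Y : Type} [Countable X] (n : ℕ) (b : Y) :
    Mes {z : ℕ → X × Y | (z n).2 = b} := by
  have h1 : {z : ℕ → X × Y | (z n).2 = b} = {z | ∃ a : X, z n = (a, b)} := by
    ext z
    constructor
    · intro h
      exact ⟨(z n).1, Prod.ext rfl h⟩
    · rintro ⟨a, ha⟩
      show (z n).2 = b
      rw [ha]
  rw [h1]
  exact ex fun a => eval n (a, b)

theorem pull {X Y : Type} (Fu : (ℕ → X) → (ℕ → Y)) (h : ∀ n a, Mes {x | Fu x n = a})
    (P : (ℕ → Y) → Prop) (hP : Mes {y | P y}) : Mes {x | P (Fu x)} := by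
  have hm : @Measurable _ _ (bsp X) (bsp Y) Fu := by
    refine @measurable_generateFrom _ _ (bsp X) _ _ ?_
    rintro _ ⟨n, a, rfl⟩
    exact h n a
  exact hm hP

theorem fst {X Y : Type} [Countable Y] {P : (ℕ → X) → Prop} (hP : Mes {x | P x}) :
    Mes {z : ℕ → X × Y | P (fun n => (z n).1)} :=
  pull (fun (z : ℕ → X × Y) n => (z n).1) (fun n a => fst_eq n a) P hP

theorem snd {X Y : Type} [Countable X] {P : (ℕ → Y) → Prop} (hP : Mes {x | P x}) :
    Mes {z : ℕ → X × Y | P (fun n => (z n).2)} :=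
  pull (fun (z : ℕ → X × Y) n => (z n).2) (fun n a => snd_eq n a) P hP

theorem cw : Countable Wd := by
  have h : Function.Injective (fun q : Wd => (q.A, q.V)) := by
    intro p q hpq
    exact Wd.ext (congrArg Prod.fst hpq) (congrArg Prod.snd hpq)
  exact h.countable

end M3_

open M3_ in
/-- Borel relations of words. -/
theorem p_M3 (h1 : T_M1) (h2 : T_M2) : T_M3 := by
  obtain ⟨hB, hR, -, -, -⟩ := h2
  have hc : Countable Wd := cw
  refine ⟨?_, ?_, ?_, ?_⟩
  · have e : {z : ℕ → Wd × Wd | Le (fun n => (z n).1) (fun n => (z n).2)} =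
        {z | ∀ n : ℕ, ∃ q : Wd, (z n).1 = q ∧ q ∈ Rg (fun n => (z n).2)} := by
      ext z
      constructor
      · intro h n
        exact ⟨_, rfl, h n⟩
      · intro h n
        obtain ⟨q, hq, hr⟩ := h n
        show (z n).1 ∈ _
        rw [hq]
        exact hr
    show Mes {z : ℕ → Wd × Wd | Le (fun n => (z n).1) (fun n => (z n).2)}
    rw [e]
    exact all fun n => ex fun q => and (fst_eq n q) (snd (P := fun w => q ∈ Rg w) (hR q))
  · intro t
    have e : {z : ℕ → Wd × Wd | LeT t (fun n => (z n).1) (fun n => (z n).2)} =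
        {z | ∀ n : ℕ, ∀ q : Wd, (z n).1 = q → (Beyond t q → q ∈ Rg (fun n => (z n).2))} := by
      ext z
      constructor
      · intro h n q hq hb
        rw [← hq] at hb ⊢
        exact h n hb
      · intro h n hb
        exact h n _ rfl hb
    show Mes {z : ℕ → Wd × Wd | LeT t (fun n => (z n).1) (fun n => (z n).2)}
    rw [e]
    exact all fun n => all fun q => imp (fst_eq n q)
      (imp (const _) (snd (P := fun w => q ∈ Rg w) (hR q)))
  · intro t
    have e : {z : ℕ → Wd × Wd | Nb t (fun n => (z n).1) (fun n => (z n).2)} =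
        {z | Blk (fun n => (z n).2) ∧ (pre (fun n => (z n).2) t.length = t) ∧
          ∀ n : ℕ, ∀ q : Wd, (z n).2 = q → (t.length ≤ n → q ∈ Rg (fun n => (z n).1))} := by
      ext z
      constructor
      · rintro ⟨h, h', h3⟩
        refine ⟨h, h', fun n q hq hn => ?_⟩
        rw [← hq]
        exact h3 n hn
      · rintro ⟨h, h', h3⟩
        exact ⟨h, h', fun n hn => h3 n _ rfl hn⟩
    show Mes {z : ℕ → Wd × Wd | Nb t (fun n => (z n).1) (fun n => (z n).2)}
    rw [e]
    refine and (snd (P := fun w => Blk w) hB) (and ?_ ?_)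
    · refine snd (P := fun w => pre w t.length = t) ?_
      refine h1 Wd {w : ℕ → Wd | pre w t.length = t} t.length ?_
      intro x y hxy
      have hp : pre x t.length = pre y t.length := by
        unfold pre
        refine List.map_congr_left ?_
        intro i hi
        exact hxy i (List.mem_range.1 hi)
      show pre x t.length = t ↔ pre y t.length = t
      rw [hp]
    · exact all fun n => all fun q => imp (snd_eq n q)
        (imp (const _) (fst (P := fun w => q ∈ Rg w) (hR q)))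
  · have e : {z : ℕ → Wd × Wd | Rg (fun n => (z n).2) ⊆ Rg (fun n => (z n).1) ∨
        Disjoint (Rg (fun n => (z n).2)) (Rg (fun n => (z n).1))} =
        {z | (∀ q : Wd, q ∈ Rg (fun n => (z n).2) → q ∈ Rg (fun n => (z n).1)) ∨
          (∀ q : Wd, q ∈ Rg (fun n => (z n).2) → ¬ q ∈ Rg (fun n => (z n).1))} := by
      ext z
      show (_ ∨ _) ↔ (_ ∨ _)
      rw [Set.disjoint_left]
      exact Iff.rfl
    show Mes {z : ℕ → Wd × Wd | Rg (fun n => (z n).2) ⊆ Rg (fun n => (z n).1) ∨
        Disjoint (Rg (fun n => (z n).2)) (Rg (fun n => (z n).1))}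
    rw [e]
    exact or
      (all fun q => imp (snd (P := fun w => q ∈ Rg w) (hR q)) (fst (P := fun w => q ∈ Rg w) (hR q)))
      (all fun q => imp (snd (P := fun w => q ∈ Rg w) (hR q))
        (not (fst (P := fun w => q ∈ Rg w) (hR q))))

end SLV
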