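import Mathlib
import Pool.Agent.SLV.T1

/-!
# MP_0a8ab4_lc, project SLV: Borel maps (`T_M4`) (helper21)
-/

set_option autoImplicit false

namespace SLV

/-- Preimages of Borel sets under Borel maps are Borel. -/
theorem p_M4 : T_M4 := by
  intro X Y Fu h A hA
  have hm : @Measurable _ _ (bsp X) (bsp Y) Fu := by
    refine @measurable_generateFrom _ _ (bsp X) _ _ ?_
    rintro _ ⟨n, a, rfl⟩
    exact h n a
  exact hm hA

end SLV
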