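import Mathlib
import Pool.Agent.SLV.T2

/-!
# MP_0a8ab4_lc, project SLV: the meet of two values of conditions at a generic name (helper13)
-/

set_option autoImplicit false

namespace SLV

theorem p_MEE (h_DC1 : T_DC1) (h_CDL : T_CDL) : T_MEE := by
  intro B _ C hC x hx p q
  obtain ⟨_, htr, hmon⟩ := h_CDL B C hC
  let Δ : Set (Cd C) := {r | (CdLe r p ∨ ∀ y : Nm B Wd, uv y r ⊓ uv y p = ⊥) ∧
    (CdLe r q ∨ ∀ y : Nm B Wd, uv y r ⊓ uv y q = ⊥)}
  have hD : Dns Δ := by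
    intro p0
    obtain ⟨p1, h1, h2⟩ := h_DC1 B C hC p0 p
    obtain ⟨p2, h3, h4⟩ := h_DC1 B C hC p1 q
    refine ⟨p2, ⟨?_, h4⟩, htr _ _ _ h3 h1⟩
    rcases h2 with h2 | h2
    · exact Or.inl (htr _ _ _ h3 h2)
    · refine Or.inr fun y => le_bot_iff.1 ?_
      rw [← h2 y]
      exact inf_le_inf_right _ (hmon _ _ y h3)
  have htop := hx Δ hD
  have e : uv x p ⊓ uv x q = (uv x p ⊓ uv x q) ⊓ MD Δ x := by rw [htop, inf_top_eq]
  rw [e, MD, sSup_image, inf_iSup₂_eq]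
  refine iSup₂_le fun r hr => ?_
  rcases hr.1 with h1 | h1
  · rcases hr.2 with h2 | h2
    · exact inf_le_right.trans (le_sSup ⟨r, h1, h2, rfl⟩)
    · have : uv x p ⊓ uv x q ⊓ uv x r ≤ uv x r ⊓ uv x q :=
        le_inf inf_le_right (inf_le_left.trans inf_le_right)
      rw [h2 x] at this
      exact this.trans bot_le
  · have : uv x p ⊓ uv x q ⊓ uv x r ≤ uv x r ⊓ uv x p :=
      le_inf inf_le_right (inf_le_left.trans inf_le_left)
    rw [h1 x] at this
    exact this.trans bot_le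

end SLV
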