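import Pool.Agent.SLV.T2

/-!
# MP_0a8ab4_lc, project SLV: the maximum principle for a functional (job SLV-MXF) (helper48)
-/

set_option autoImplicit false

namespace SLV

namespace MXF_

theorem self_mem (w : ℕ → Wd) (n : ℕ) : w n ∈ Rg w := by
  refine ⟨⟨{n}, {n}, subset_rfl, Finset.singleton_nonempty n⟩, ?_⟩
  apply Wd.ext
  · show (({n} : Finset ℕ).biUnion fun i => (w i).A) = (w n).A
    rw [Finset.singleton_biUnion]
  · show (({n} : Finset ℕ).biUnion fun i => (w i).V) = (w n).V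
    rw [Finset.singleton_biUnion]

theorem lt_trans' {p q r : Wd} (h : p.lt q) (h' : q.lt r) : p.lt r := by
  intro i hi j hj
  obtain ⟨k, hk⟩ := q.ne
  exact (h i hi k (q.sub hk)).trans (h' k (q.sub hk) j hj)

theorem blk_lt {y : ℕ → Wd} (h : Blk y) {m n : ℕ} (hmn : m < n) : (y m).lt (y n) := by
  induction n, hmn using Nat.le_induction with
  | base => exact h m
  | succ n _ ih => exact lt_trans' ih (h n)

theorem blk_ge {y : ℕ → Wd} (h : Blk y) (n : ℕ) : ∀ j ∈ (y n).A, n ≤ j := by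
  induction n with
  | zero => exact fun j _ => Nat.zero_le j
  | succ n ih =>
    intro j hj
    obtain ⟨k, hk⟩ := (y n).ne
    have h1 := ih k ((y n).sub hk)
    have h2 := h n k ((y n).sub hk) j hj
    omega

/-- the members of a block sequence are beyond `t` from some place on -/
theorem ex_beyond {y : ℕ → Wd} (h : Blk y) (t : List Wd) : ∃ k, Beyond t (y k) := by
  induction t with
  | nil => exact ⟨0, fun r hr => absurd hr List.not_mem_nil⟩
  | cons q t ih =>
    obtain ⟨k, hk⟩ := ih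
    refine ⟨k + (q.A.sup id + 1), ?_⟩
    intro r hr
    rcases List.mem_cons.1 hr with rfl | hr
    · intro i hi j hj
      have h1 := blk_ge h _ j hj
      have h2 : i ≤ r.A.sup id := Finset.le_sup (f := id) hi
      omega
    · exact lt_trans' (hk r hr) (blk_lt h (by omega))

theorem beyond_mono {y : ℕ → Wd} (h : Blk y) {t : List Wd} {k n : ℕ} (hk : Beyond t (y k))
    (hkn : k ≤ n) : Beyond t (y n) := by
  rcases hkn.eq_or_lt with rfl | hlt
  · exact hk
  · exact fun r hr => lt_trans' (hk r hr) (blk_lt h hlt)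

/-- the first member beyond `t` -/
noncomputable def mm (t : List Wd) (y : ℕ → Wd) : ℕ := sInf {k | Beyond t (y k)}

theorem mm_spec {y : ℕ → Wd} (h : Blk y) (t : List Wd) : Beyond t (y (mm t y)) :=
  Nat.sInf_mem (ex_beyond h t)

variable {B : Type} [CompleteBooleanAlgebra B] {C : Set B}

theorem dec_at (hC : CSub C) {x : Nm B Wd} (hx : InC C x) (P : Wd → Prop) (k : ℕ) :
    DecIn C fun u => P (x.pt u k) :=
  (DecIn.ex hC (fun q : Wd => (decIn_pt hx k q).and hC (DecIn.const hC (P q)))).congr'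
    fun _ => ⟨fun ⟨_, h1, h2⟩ => h1 ▸ h2, fun h => ⟨_, rfl, h⟩⟩

theorem dec_v (hC : CSub C) {x : Nm B Wd} (hx : CN C x) (t : List Wd) (n : ℕ) (a : Wd) :
    DecIn C fun u => x.pt u (n + mm t (x.pt u)) = a := by
  have h1 : DecIn C fun u => ∃ k : ℕ, (Beyond t (x.pt u k) ∧
      ∀ j : ℕ, j < k → ¬ Beyond t (x.pt u j)) ∧ x.pt u (n + k) = a :=
    DecIn.ex hC fun k => ((dec_at hC hx.1 (Beyond t) k).and hC (DecIn.all hC fun j =>
      (DecIn.const hC (j < k)).imp hC ((dec_at hC hx.1 (Beyond t) j).not hC))).and hC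
        (decIn_pt hx.1 (n + k) a)
  refine h1.congr (hx.2.mono fun u hu => ?_)
  constructor
  · rintro ⟨k, ⟨hk1, hk2⟩, hk3⟩
    have : mm t (x.pt u) = k := by
      apply le_antisymm
      · exact Nat.sInf_le hk1
      · by_contra hlt
        exact hk2 _ (not_le.1 hlt) (mm_spec hu t)
    rw [this]
    exact hk3
  · intro h
    exact ⟨mm t (x.pt u), ⟨mm_spec hu t, fun j hj hb => absurd (Nat.sInf_le hb) (not_le.2 hj)⟩, h⟩

end MXF_

open MXF_ in
theorem p_MXF : T_MXF := by
  intro B _ C hC α hα t w hw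
  have hLe : ∀ w : ℕ → Wd, Le w w := fun w n => self_mem w n
  obtain ⟨w', hw', hmax⟩ := exists_max hC
    {x : Nm B Wd | CN C x ∧ Forces ⊤ (fun u => Le (x.pt u) (w.pt u))} (fun x hx => hx.1.1)
    ⟨w, hw, forces_of fun u _ => hLe _⟩ (by
      rintro y hy ⟨S, hS, hS'⟩
      have h1 : Forces ⊤ fun u => Blk (y.pt u) ∧ Le (y.pt u) (w.pt u) := by
        rw [← hS]
        refine forces_sSup fun s hs => ?_
        obtain ⟨x, hx, hyx⟩ := hS' s hs
        refine ((forces_top hx.1.2).and ((forces_top hx.2).and hyx)).mono ?_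
        rintro u ⟨h1, h2, h3⟩
        rw [h3]
        exact ⟨h1, h2⟩
      exact ⟨⟨hy, h1.mono fun u hu => hu.1⟩, h1.mono fun u hu => hu.2⟩)
    (α t) (fun x hx => hα.inC t x hx.1) (by
      intro x hx y hy c hc hxy
      refine hα.mono t x y c hx.1 hy.1 hc (hxy.mono fun u hu => ?_)
      rw [hu]
      exact fun n _ => self_mem _ n)
  refine ⟨w', hw'.1, hw'.2, ?_⟩
  intro w'' c hw'' hc hle
  obtain ⟨v, hv1, hv2⟩ : ∃ v : Nm B Wd, InC C v ∧ Forces ⊤ fun u =>
      (u.mem c → ∀ n, v.pt u n = w''.pt u (n + mm t (w''.pt u))) ∧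
      (¬ u.mem c → v.pt u = w.pt u) := by
    classical
    obtain ⟨v, hv1, hv2⟩ := exists_name hC
      (fun u n => if u.mem c then w''.pt u (n + mm t (w''.pt u)) else w.pt u n) (by
        intro n a
        have h1 := ((DecIn.mem hc).imp hC (dec_v hC hw'' t n a)).and hC
          (((DecIn.mem hc).not hC).imp hC (decIn_pt hw.1 n a))
        refine h1.congr' fun u => ?_
        by_cases h : u.mem c <;> simp [h])
    refine ⟨v, hv1, hv2.mono fun u hu => ⟨fun h n => ?_, fun h => ?_⟩⟩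
    · rw [hu]
      simp [h]
    · rw [hu]
      simp [h]
  have hvN : CN C v ∧ Forces ⊤ (fun u => Le (v.pt u) (w.pt u)) := by
    have h1 : Forces ⊤ fun u => u.mem c → LeT t (w''.pt u) (w.pt u) := by
      have := forces_imp_iff (b := (⊤ : B)) (c := c) (P := fun u => LeT t (w''.pt u) (w.pt u))
      exact this.1 (by rw [top_inf_eq]; exact hle)
    have h2 : Forces ⊤ fun u => Blk (v.pt u) ∧ Le (v.pt u) (w.pt u) := by
      refine ((hv2.and h1).and (hw''.2.and hw.2)).mono ?_
      rintro u ⟨⟨⟨h2, h3⟩, h4⟩, h5, h6⟩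
      by_cases hu : u.mem c
      · refine ⟨fun n => ?_, fun n => ?_⟩
        · rw [h2 hu, h2 hu, Nat.add_right_comm]
          exact h5 _
        · rw [h2 hu]
          exact h4 hu _ (beyond_mono h5 (mm_spec h5 t) (Nat.le_add_left _ _))
      · rw [h3 hu]
        exact ⟨h6, hLe _⟩
    exact ⟨⟨hv1, h2.mono fun u hu => hu.1⟩, h2.mono fun u hu => hu.2⟩
  refine le_trans ?_ (hmax v hvN)
  refine hα.mono t w'' v c hw'' hvN.1 hc (((forces_top hv2).and (forces_mem c)).mono ?_)
  rintro u ⟨⟨h2, _⟩, hu⟩ n _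
  rw [h2 hu]
  exact self_mem _ _

end SLV
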