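import Pool.Agent.SLV.T3

/-!
# MP_0a8ab4_lc, project SLV: natural numbers in the Boolean valued universe
-/

set_option autoImplicit false

namespace SLV

open BSet

namespace NAT_

variable {B : Type} [CompleteBooleanAlgebra B]

theorem eqv_mk {ι κ : Type} (A : ι → BSet B) (b : ι → B) (A' : κ → BSet B) (b' : κ → B) :
    eqv (BSet.mk ι A b) (BSet.mk κ A' b') =
      (⨅ i, b i ⇨ ⨆ j, b' j ⊓ eqv (A i) (A' j)) ⊓ (⨅ j, b' j ⇨ ⨆ i, b i ⊓ eqv (A i) (A' j)) := by
  rw [eqv]

theorem nat_eq (n : ℕ) : (natN n : BSet B) = BSet.mk (Fin n) (fun k => natN k.1) fun _ => ⊤ := by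
  rw [natN]

theorem eqv_nat (m n : ℕ) : eqv (natN m : BSet B) (natN n) =
    (⨅ i : Fin m, ⨆ j : Fin n, eqv (natN i.1 : BSet B) (natN j.1)) ⊓
      (⨅ j : Fin n, ⨆ i : Fin m, eqv (natN i.1 : BSet B) (natN j.1)) := by
  rw [nat_eq m, nat_eq n, eqv_mk]
  simp only [top_himp, top_inf_eq]

theorem refl (n : ℕ) : eqv (natN n : BSet B) (natN n) = ⊤ := by
  induction n using Nat.strong_induction_on with
  | _ n ih =>
    rw [eqv_nat]
    refine top_le_iff.1 (le_inf (le_iInf fun i => ?_) (le_iInf fun j => ?_))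
    · rw [← ih i.1 i.2]
      exact le_iSup (fun j : Fin n => eqv (natN i.1 : BSet B) (natN j.1)) i
    · rw [← ih j.1 j.2]
      exact le_iSup (fun i : Fin n => eqv (natN i.1 : BSet B) (natN j.1)) j

theorem lt1 (n : ℕ) : ∀ m < n, eqv (natN m : BSet B) (natN n) = ⊥ := by
  induction n using Nat.strong_induction_on with
  | _ n ih =>
    intro m hm
    rw [eqv_nat]
    refine le_bot_iff.1 (inf_le_right.trans ((iInf_le _ (⟨m, hm⟩ : Fin n)).trans
      (iSup_le fun i => ?_)))
    rw [ih m hm i.1 i.2]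

theorem lt2 (m : ℕ) : ∀ n < m, eqv (natN m : BSet B) (natN n) = ⊥ := by
  induction m using Nat.strong_induction_on with
  | _ m ih =>
    intro n hn
    rw [eqv_nat]
    refine le_bot_iff.1 (inf_le_left.trans ((iInf_le _ (⟨n, hn⟩ : Fin m)).trans
      (iSup_le fun j => ?_)))
    rw [ih n hn j.1 j.2]

theorem ne {m n : ℕ} (h : m ≠ n) : eqv (natN m : BSet B) (natN n) = ⊥ := by
  rcases lt_or_gt_of_ne h with h | h
  · exact lt1 n m h
  · exact lt2 m n h

theorem sup1 (x : ℕ → B) (n : ℕ) : ⨆ j, x j ⊓ eqv (natN n : BSet B) (natN j) = x n := by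
  refine le_antisymm (iSup_le fun j => ?_) ?_
  · by_cases h : n = j
    · subst h
      exact inf_le_left
    · rw [ne h, inf_bot_eq]
      exact bot_le
  · have h := le_iSup (fun j => x j ⊓ eqv (natN n : BSet B) (natN j)) n
    rwa [refl, inf_top_eq] at h

theorem sup2 (x : ℕ → B) (n : ℕ) : ⨆ j, x j ⊓ eqv (natN j : BSet B) (natN n) = x n := by
  refine le_antisymm (iSup_le fun j => ?_) ?_
  · by_cases h : j = n
    · subst h
      exact inf_le_left
    · rw [ne h, inf_bot_eq]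
      exact bot_le
  · have h := le_iSup (fun j => x j ⊓ eqv (natN j : BSet B) (natN n)) n
    rwa [refl, inf_top_eq] at h

end NAT_

theorem p_NAT : T_NAT := by
  intro B _
  refine ⟨fun m n h => NAT_.ne h, fun x n => NAT_.sup1 x n, fun x y => ?_⟩
  unfold realN
  rw [NAT_.eqv_mk]
  simp only [NAT_.sup1, NAT_.sup2]
  rw [iInf_inf_eq]

end SLV
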