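import Pool.Agent.SLV.T2

set_option autoImplicit false

namespace SLV

namespace NW_

theorem funH {B : Type} [CompleteBooleanAlgebra B] {C : Set B} (h_W10 : T_W10)
    {α : List Wd → Nm B Wd → B} (hα : FunH C α) (t : List Wd) :
    FunH C fun s w => α (t ++ s) w where
  inC s w hw := hα.inC (t ++ s) w hw
  mono s w w' c hw hw' hc hF :=
    hα.mono (t ++ s) w w' c hw hw' hc (hF.mono fun _ hu => h_W10.2.2.1 t s _ _ hu)
  glue s w c hw hc h := by
    refine hα.glue (t ++ s) w c hw hc fun q hq => ?_
    have h1 := h q fun r hr => hq r (List.mem_append_right t hr)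
    rw [List.append_assoc]
    exact h1

end NW_

theorem p_NW (h_NW0 : T_NW0) (h_W10 : T_W10) : T_NW := by
  intro B _ C hC α β hα hβ t hD w hw
  obtain ⟨w', h1, h2, h3⟩ := h_NW0 B C hC (fun s w => α (t ++ s) w) (fun s w => β (t ++ s) w)
    (NW_.funH h_W10 hα t) (NW_.funH h_W10 hβ t) (by
      intro w c hw hc hne
      obtain ⟨c', hc', s, w', h1, h2, h3, h4, h5, h6⟩ := hD w c hw hc hne
      refine ⟨c', hc', s, w', h1, h2, h3, ?_, h5, ?_⟩
      · rw [List.nil_append]
        exact (List.pairwise_append.1 h4).2.1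
      · rw [List.nil_append]
        exact h6) w hw
  refine ⟨w', h1, h2, ?_⟩
  rw [List.append_nil] at h3
  exact h3

end SLV
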