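import Mathlib
import Pool.Agent.SLV.Basic
import Pool.Agent.SLV.T2

/-!
# MP_0a8ab4_lc, project SLV: the Nash-Williams lemma at the empty stem (target `T_NW0`)
-/

set_option autoImplicit false

namespace SLV

namespace NW0_

variable {B : Type} [CompleteBooleanAlgebra B] {C : Set B}

/-- diagonality, used for the name `w2` itself -/
theorem dia_le (h_W10 : T_W10) (h_M2 : T_M2) (hC : CSub C) {α : List Wd → Nm B Wd → B}
    {w1 w2 : Nm B Wd} (hw2 : CN C w2) (hle : Forces ⊤ fun u => Le (w2.pt u) (w1.pt u))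
    (hd : Dia C α w1) (t : List Wd) :
    bval (fun u => InF t (w2.pt u)) ⊓ α t w2 ≤ α t w1 := by
  have h1 : bval (fun u => InF t (w2.pt u)) ∈ C :=
    (decIn_mes hC hw2.1 (A := {w | InF t w}) (h_M2.2.2.2.1 t)).eq_bval.1
  refine hd t w2 _ hw2 h1 ?_
  refine ((forces_top hle).and (forces_bval _)).mono ?_
  rintro u ⟨h2, h3⟩
  exact ⟨h2, h_W10.2.2.2.2.2.1 t _ _ h2 h3⟩

/-- the values at `w1` are below the values at `w2` -/
theorem le_w2 (h_W10 : T_W10) (hC : CSub C) {α : List Wd → Nm B Wd → B} (hα : FunH C α)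
    {w1 w2 : Nm B Wd} (hw1 : CN C w1) (hw2 : CN C w2)
    (hle : Forces ⊤ fun u => Le (w2.pt u) (w1.pt u)) (t : List Wd) : α t w1 ≤ α t w2 := by
  have h := hα.mono t w1 w2 ⊤ hw1 hw2 hC.top (hle.mono fun u hu => h_W10.2.1 t _ _ hu)
  rwa [top_inf_eq] at h

/-- the induction step for one functional -/
theorem step (h_W10 : T_W10) (h_M2 : T_M2) (hC : CSub C) {α : List Wd → Nm B Wd → B}
    (hα : FunH C α) {w1 w2 : Nm B Wd} (hw1 : CN C w1) (hw2 : CN C w2)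
    (hle : Forces ⊤ fun u => Le (w2.pt u) (w1.pt u)) (hd : Dia C α w1)
    (hh : ∀ t, Forces ⊤ fun u => InF t (w2.pt u) →
      (∀ q ∈ Rg (w2.pt u), Beyond t q → u.mem (α (t ++ [q]) w1)) ∨
        ∀ q ∈ Rg (w2.pt u), Beyond t q → ¬ u.mem (α (t ++ [q]) w1))
    {U : B} (hU : U ∈ C) (s : List Wd) (q : Wd)
    (ih : U ⊓ bval (fun u => InF s (w2.pt u)) ⊓ α s w2 = ⊥) :
    U ⊓ bval (fun u => InF (s ++ [q]) (w2.pt u)) ⊓ α (s ++ [q]) w2 = ⊥ := by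
  have hbv : bval (fun u => InF (s ++ [q]) (w2.pt u)) ∈ C :=
    (decIn_mes hC hw2.1 (A := {w | InF (s ++ [q]) w}) (h_M2.2.2.2.1 (s ++ [q]))).eq_bval.1
  set E := U ⊓ bval (fun u => InF (s ++ [q]) (w2.pt u)) ⊓ α (s ++ [q]) w2 with hE
  have hEC : E ∈ C := hC.inf (hC.inf hU hbv) (hα.inC _ _ hw2)
  have hE1 : E ≤ bval (fun u => InF (s ++ [q]) (w2.pt u)) := inf_le_left.trans inf_le_right
  have hE2 : E ≤ α (s ++ [q]) w1 :=
    (le_inf hE1 inf_le_right).trans (dia_le h_W10 h_M2 hC hw2 hle hd (s ++ [q]))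
  have hF : Forces E fun u => InF s (w2.pt u) ∧ q ∈ Rg (w2.pt u) ∧ Beyond s q :=
    (le_bval_iff.1 hE1).mono fun u hu => (h_W10.2.2.2.2.2.2.1 s _ q).1 hu
  have hall : Forces E fun u => ∀ q' ∈ Rg (w2.pt u), Beyond s q' → u.mem (α (s ++ [q']) w1) := by
    refine ((hF.and (forces_mem_iff.2 hE2)).and (forces_top (hh s))).mono ?_
    rintro u ⟨⟨⟨h1, h2, h3⟩, h4⟩, h5⟩
    rcases h5 h1 with h6 | h6
    · exact h6
    · exact absurd h4 (h6 q h2 h3)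
  have hs : E ≤ α s w2 := by
    refine hα.glue s w2 E hw2 hEC fun q' hq' => ?_
    refine (inf_bval_le ?_).trans (le_w2 h_W10 hC hα hw1 hw2 hle (s ++ [q']))
    exact hall.mono fun u hu h => hu q' h hq'
  rw [← le_bot_iff, ← ih]
  exact le_inf (le_inf (inf_le_left.trans inf_le_left) (le_bval_iff.2 (hF.mono fun u hu => hu.1)))
    hs

/-- no part of `U` is decided at stems generated by `w2` -/
theorem claim (h_W10 : T_W10) (h_M2 : T_M2) (hC : CSub C) {α : List Wd → Nm B Wd → B}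
    (hα : FunH C α) {w1 w2 : Nm B Wd} (hw1 : CN C w1) (hw2 : CN C w2)
    (hle : Forces ⊤ fun u => Le (w2.pt u) (w1.pt u)) (hd : Dia C α w1)
    (hh : ∀ t, Forces ⊤ fun u => InF t (w2.pt u) →
      (∀ q ∈ Rg (w2.pt u), Beyond t q → u.mem (α (t ++ [q]) w1)) ∨
        ∀ q ∈ Rg (w2.pt u), Beyond t q → ¬ u.mem (α (t ++ [q]) w1))
    {U : B} (hU : U ∈ C) (h0 : U ⊓ α [] w2 = ⊥) (t : List Wd) :
    U ⊓ bval (fun u => InF t (w2.pt u)) ⊓ α t w2 = ⊥ := by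
  induction t using List.reverseRecOn with
  | nil =>
    rw [← le_bot_iff, ← h0]
    exact inf_le_inf_right _ inf_le_left
  | append_singleton s q ih => exact step h_W10 h_M2 hC hα hw1 hw2 hle hd hh hU s q ih

/-- the part of the final argument for one functional -/
theorem fin (h_W1 : T_W1) (h_W10 : T_W10) (h_M2 : T_M2) (hC : CSub C)
    {α : List Wd → Nm B Wd → B}
    (hα : FunH C α) {w1 w2 : Nm B Wd} (hw1 : CN C w1) (hw2 : CN C w2)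
    (hle : Forces ⊤ fun u => Le (w2.pt u) (w1.pt u)) (hd : Dia C α w1)
    (hh : ∀ t, Forces ⊤ fun u => InF t (w2.pt u) →
      (∀ q ∈ Rg (w2.pt u), Beyond t q → u.mem (α (t ++ [q]) w1)) ∨
        ∀ q ∈ Rg (w2.pt u), Beyond t q → ¬ u.mem (α (t ++ [q]) w1))
    {U : B} (hU : U ∈ C) (h0 : U ⊓ α [] w2 = ⊥) {c' : B} (hc' : c' ∈ C) (hcU : c' ≤ U)
    {s : List Wd} {w' : Nm B Wd} (hw' : CN C w') (hs : BlkL s)
    (hf : Forces c' fun u => (∀ q ∈ s, q ∈ Rg (w2.pt u)) ∧ Le (w'.pt u) (w2.pt u)) :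
    c' ⊓ α s w' = ⊥ := by
  have hF : Forces c' fun u => InF s (w2.pt u) := hf.mono fun u hu => ⟨hs, hu.1⟩
  have h1 : c' ⊓ α s w' ≤ α s w1 := by
    refine hd s w' c' hw' hc' ?_
    refine ((hf.and hF).and (forces_top hle)).mono ?_
    rintro u ⟨⟨⟨_, h2⟩, h3⟩, h4⟩
    exact ⟨h_W1.2.2.1 _ _ _ h2 h4, h_W10.2.2.2.2.2.1 s _ _ h4 h3⟩
  rw [← le_bot_iff, ← claim h_W10 h_M2 hC hα hw1 hw2 hle hd hh hU h0 s]
  exact le_inf (inf_le_left.trans (le_inf hcU (le_bval_iff.2 hF)))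
    (h1.trans (le_w2 h_W10 hC hα hw1 hw2 hle s))

end NW0_

open NW0_ in
theorem p_NW0 (h_W1 : T_W1) (h_M2 : T_M2) (h_W10 : T_W10) (h_DIA : T_DIA) (h_HMG : T_HMG) :
    T_NW0 := by
  intro B _ C hC α β hα hβ hden w hw
  obtain ⟨w1, hw1, hle1, hd1, hd2⟩ := h_DIA B C hC α β hα hβ w hw
  obtain ⟨w2, hw2, hle2, hh⟩ := h_HMG B C hC (fun t q => α (t ++ [q]) w1)
    (fun t q => β (t ++ [q]) w1) (fun t q => hα.inC _ _ hw1) (fun t q => hβ.inC _ _ hw1) w1 hw1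
  have hhα : ∀ t, Forces ⊤ fun u => InF t (w2.pt u) →
      (∀ q ∈ Rg (w2.pt u), Beyond t q → u.mem (α (t ++ [q]) w1)) ∨
        ∀ q ∈ Rg (w2.pt u), Beyond t q → ¬ u.mem (α (t ++ [q]) w1) :=
    fun t => (hh t).mono fun u hu h => (hu h).1
  have hhβ : ∀ t, Forces ⊤ fun u => InF t (w2.pt u) →
      (∀ q ∈ Rg (w2.pt u), Beyond t q → u.mem (β (t ++ [q]) w1)) ∨
        ∀ q ∈ Rg (w2.pt u), Beyond t q → ¬ u.mem (β (t ++ [q]) w1) :=
    fun t => (hh t).mono fun u hu h => (hu h).2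
  refine ⟨w2, hw2, (hle1.and hle2).mono fun u hu => h_W1.2.2.1 _ _ _ hu.2 hu.1, ?_⟩
  set U := (α [] w2 ⊔ β [] w2)ᶜ with hUdef
  have hU : U ∈ C := hC.compl _ (hC.sup (hα.inC _ _ hw2) (hβ.inC _ _ hw2))
  have h0 : U ⊓ (α [] w2 ⊔ β [] w2) = ⊥ := compl_inf_eq_bot
  have h0α : U ⊓ α [] w2 = ⊥ := le_bot_iff.1 ((inf_le_inf_left U le_sup_left).trans h0.le)
  have h0β : U ⊓ β [] w2 = ⊥ := le_bot_iff.1 ((inf_le_inf_left U le_sup_right).trans h0.le)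
  by_contra hne
  have hUne : U ≠ ⊥ := fun h => hne (compl_eq_bot.1 h)
  obtain ⟨c', hc', s, w', hcne, hcU, hw', hs, hf, hle⟩ := hden w2 U hw2 hU hUne
  simp only [List.nil_append] at hs hle
  apply hcne
  have e1 := fin h_W1 h_W10 h_M2 hC hα hw1 hw2 hle2 hd1 hhα hU h0α hc' hcU hw' hs hf
  have e2 := fin h_W1 h_W10 h_M2 hC hβ hw1 hw2 hle2 hd2 hhβ hU h0β hc' hcU hw' hs hf
  have h3 : c' = c' ⊓ (α s w' ⊔ β s w') := (inf_eq_left.2 hle).symm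
  rw [h3, inf_sup_left, e1, e2, sup_bot_eq]

end SLV
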