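import Pool.Agent.SLV.T1

/-!
# MP_0a8ab4_lc, project SLV: order isomorphisms of principal ideals
-/

set_option autoImplicit false

namespace SLV

theorem p_OI : T_OI := by
  intro B _ d d'
  constructor
  · intro π
    refine ⟨⟨⟨fun z => ⟨π.f z, (π.fG z trivial z.2).2⟩, fun z => ⟨π.g z, (π.gG z trivial z.2).2⟩,
      fun z => Subtype.ext (π.gf z trivial z.2), fun z => Subtype.ext (π.fg z trivial z.2)⟩,
      ?_⟩, fun z => rfl⟩
    intro a b
    constructor
    · intro h
      have h1 : π.f a ≤ π.f b := h
      have h2 := π.gm (π.f a) trivial (π.fG a trivial a.2).2 (π.f b) trivial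
        (π.fG b trivial b.2).2 h1
      rw [π.gf a trivial a.2, π.gf b trivial b.2] at h2
      exact h2
    · intro h
      exact π.fm a trivial a.2 b trivial b.2 h
  · intro o
    refine ⟨⟨fun z => o (rs z d), fun z => o.symm (rs z d'),
      fun z _ _ => ⟨trivial, (o (rs z d)).2⟩, fun z _ _ => ⟨trivial, (o.symm (rs z d')).2⟩,
      ?_, ?_, ?_, ?_⟩, ?_⟩
    · intro z _ _ z' _ _ h
      exact o.monotone (show (rs z d : B) ≤ rs z' d from inf_le_inf_right d h)
    · intro z _ _ z' _ _ h
      exact o.symm.monotone (show (rs z d' : B) ≤ rs z' d' from inf_le_inf_right d' h)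
    · intro z _ hz
      have h1 : rs (o (rs z d) : B) d' = o (rs z d) :=
        Subtype.ext (inf_eq_left.2 (o (rs z d)).2)
      show (o.symm (rs (o (rs z d) : B) d') : B) = z
      rw [h1, OrderIso.symm_apply_apply]
      exact inf_eq_left.2 hz
    · intro z _ hz
      have h1 : rs (o.symm (rs z d') : B) d = o.symm (rs z d') :=
        Subtype.ext (inf_eq_left.2 (o.symm (rs z d')).2)
      show (o (rs (o.symm (rs z d') : B) d) : B) = z
      rw [h1, OrderIso.apply_symm_apply]
      exact inf_eq_left.2 hz
    · intro z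
      show (o (rs z d) : B) = o (rs (z ⊓ d) d)
      have h1 : rs z d = rs (z ⊓ d) d := Subtype.ext (by
        show z ⊓ d = z ⊓ d ⊓ d
        rw [inf_assoc, inf_idem])
      rw [← h1]

end SLV
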