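import Mathlib
import Pool.Agent.SLV.T2

/-!
# MP_0a8ab4_lc, project SLV: decision (helper98)
-/

set_option autoImplicit false

namespace SLV

theorem p_PD (NW0 : T_NW0) (FUN : T_FUN) (FUP : T_FUP) (PDD : T_PDD) : T_PD := by
  intro B _ C hC g hg S hS w hw
  have hα : FunH C (aS C S) := FUN B C hC {x : Nm B Wd | Gnr C x} S
  have hβ : FunH C (aS C fun x => (S x)ᶜ) := FUN B C hC {x : Nm B Wd | Gnr C x} fun x => (S x)ᶜ
  obtain ⟨w', hw', hle, htop⟩ := NW0 B C hC _ _ hα hβ (PDD B C hC g hg S hS) w hw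
  refine ⟨w', hw', hle, aS C S [] w', hα.inC [] w' hw', ?_⟩
  intro x hx hxw
  have hb : bval (fun u => Nb [] (w'.pt u) (x.pt u)) = ⊤ := by
    rw [bval_eq_top]
    refine hxw.mono ?_
    rintro u ⟨h1, h2⟩
    exact ⟨h1, by simp [pre], fun n _ => h2 n⟩
  have h1 := FUP B C {x : Nm B Wd | Gnr C x} S [] w' x hx
  have h2 := FUP B C {x : Nm B Wd | Gnr C x} (fun x => (S x)ᶜ) [] w' x hx
  rw [hb, inf_top_eq] at h1 h2
  have h1' : aS C S [] w' ≤ S x := h1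
  have h2' : aS C (fun x => (S x)ᶜ) [] w' ≤ (S x)ᶜ := h2
  apply le_antisymm _ h1'
  calc S x = S x ⊓ (aS C S [] w' ⊔ aS C (fun x => (S x)ᶜ) [] w') := by rw [htop, inf_top_eq]
    _ = S x ⊓ aS C S [] w' ⊔ S x ⊓ aS C (fun x => (S x)ᶜ) [] w' := inf_sup_left _ _ _
    _ ≤ aS C S [] w' ⊔ S x ⊓ (S x)ᶜ := sup_le_sup inf_le_right (inf_le_inf_left _ h2')
    _ = aS C S [] w' := by rw [inf_compl_eq_bot, sup_bot_eq]

end SLV
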