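import Pool.Agent.SLV.T2
import Pool.Agent.SLV.Basic
import Pool.Agent.SLV.W1

/-!
# MP_0a8ab4_lc, project SLV: density of the decision (helper53, job SLV-PDD)
-/

set_option autoImplicit false

namespace SLV

namespace PDD_

variable {B : Type} [CompleteBooleanAlgebra B] {C : Set B}

theorem nonzero_of_sSup {x : Nm B Wd} {p q : Cd C}
    (h : uv x p ⊓ uv x q ≤ sSup {z | ∃ r : Cd C, CdLe r p ∧ CdLe r q ∧ z = uv x r})
    (hne : uv x p ⊓ uv x q ≠ ⊥) : ∃ r : Cd C, CdLe r p ∧ CdLe r q ∧ uv x r ≠ ⊥ := by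
  by_contra hcon
  push Not at hcon
  apply hne
  apply le_bot_iff.1
  refine h.trans (sSup_le ?_)
  rintro z ⟨r, h1, h2, rfl⟩
  rw [hcon r h1 h2]

/-- a generic name has hereditarily positive conditions below `p0` inside `z` -/
theorem below (hC : CSub C) (h_DX : T_DX) (h_MEE : T_MEE) (h_PX : T_PX) (h_CDL : T_CDL)
    {x : Nm B Wd} (hx : Gnr C x) {z : B} (hz : z ∈ Gen C x) (hz0 : z ≠ ⊥) (p0 : Cd C)
    (hzp : z ≤ uv x p0) : ∃ p : Cd C, CdLe p p0 ∧ HP x p ∧ uv x p ≤ z := by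
  obtain ⟨hrefl, htrans, hmono⟩ := h_CDL B C hC
  obtain ⟨p1, h1, h2⟩ := h_DX B C hC x hx z hz hz0
  have h3 : uv x p0 ⊓ uv x p1 ≠ ⊥ := by
    rw [inf_eq_right.2 (h2.trans hzp)]
    exact h1
  obtain ⟨r, hr0, hr1, hr2⟩ := nonzero_of_sSup (h_MEE B C hC x hx p0 p1) h3
  obtain ⟨q, hq1, hq2⟩ := h_PX B C hC x hx r hr2
  exact ⟨q, htrans _ _ _ hq1 hr0, hq2,
    (hmono _ _ x (htrans _ _ _ hq1 hr1)).trans h2⟩

/-- the contradiction given by the isomorphism -/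
theorem key (hC : CSub C) (h_ISO : T_ISO) (h_UVG : T_UVG) (h_CDL : T_CDL) {S : Nm B Wd → B}
    (hS : Coh C S) (x x' : Nm B Wd) (hx : Gnr C x) (hx' : Gnr C x') (p : Cd C) (h1 : HP x p)
    (h2 : HP x' p) (h3 : uv x p ≤ S x) (h4 : uv x' p ≤ (S x')ᶜ) : False := by
  obtain ⟨θ, hθ1, hθ2⟩ := h_ISO B C hC x x' hx hx' p h1 h2
  have hd := h_UVG B C hC x p
  have hd' := h_UVG B C hC x' p
  have e := hS.iso x x' _ hd _ hd' θ hθ1 hθ2
  have e1 : S x ⊓ uv x p = uv x p := inf_eq_right.2 h3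
  have e2 : S x' ⊓ uv x' p = ⊥ := by
    apply le_bot_iff.1
    calc S x' ⊓ uv x' p ≤ S x' ⊓ (S x')ᶜ := inf_le_inf_left _ h4
      _ = ⊥ := inf_compl_eq_bot
  rw [e1, e2] at e
  have hb : (⊥ : B) ∈ Gen C x := (csub_gen C x).bot
  have e3 : θ.f ⊥ = ⊥ := by
    apply le_bot_iff.1
    have := θ.fm ⊥ hb bot_le _ hd le_rfl bot_le
    rwa [e] at this
  have e4 := θ.gf ⊥ hb bot_le
  have e5 := θ.gf _ hd le_rfl
  rw [e3] at e4
  rw [e, e4] at e5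
  exact h1 p ((h_CDL B C hC).1 p) e5.symm

/-- the main step for one of the two predicates -/
theorem main (hC : CSub C) (h_DX : T_DX) (h_MEE : T_MEE) (h_PX : T_PX) (h_CDL : T_CDL)
    (h_UVG : T_UVG) (T : Nm B Wd → B) (hT : ∀ x, T x ∈ Gen C x)
    (hK : ∀ (x x' : Nm B Wd), Gnr C x → Gnr C x' → ∀ p : Cd C, HP x p → HP x' p →
      uv x p ≤ T x → uv x' p ≤ (T x')ᶜ → False)
    (x w : Nm B Wd) (hx : Gnr C x) (hw : CN C w)
    (hxw : Forces ⊤ fun u => Blk (x.pt u) ∧ Le (x.pt u) (w.pt u)) (c : B) (hc : c ∈ C)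
    (hne : c ≠ ⊥) (hz : c ⊓ T x ≠ ⊥) :
    ∃ c' ∈ C, ∃ (s : List Wd) (w' : Nm B Wd),
      c' ≠ ⊥ ∧ c' ≤ c ∧ CN C w' ∧ BlkL ([] ++ s) ∧
      Forces c' (fun u => (∀ q ∈ s, q ∈ Rg (w.pt u)) ∧ Le (w'.pt u) (w.pt u)) ∧
      c' ≤ aS C T ([] ++ s) w' := by
  obtain ⟨hrefl, htrans, hmono⟩ := h_CDL B C hC
  let p0 : Cd C := ⟨c, [], w, hc, hne, List.Pairwise.nil, hw⟩
  have hp0 : uv x p0 = c := by
    have h1 : bval (fun u => Nb [] (w.pt u) (x.pt u)) = ⊤ := by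
      rw [bval_eq_top]
      exact hxw.mono fun u hu => ⟨hu.1, rfl, fun n _ => hu.2 n⟩
    show c ⊓ bval (fun u => Nb [] (w.pt u) (x.pt u)) = c
    rw [h1, inf_top_eq]
  have hzG : c ⊓ T x ∈ Gen C x := (csub_gen C x).inf (subset_gen C x hc) (hT x)
  obtain ⟨p3, h31, h32, h33⟩ := below hC h_DX h_MEE h_PX h_CDL hx hzG hz p0
    (by rw [hp0]; exact inf_le_left)
  obtain ⟨h34, h35, h36⟩ := h31
  refine ⟨p3.c, p3.hc, p3.t, p3.w, p3.ne, h34, p3.hw, p3.ht, ?_, ?_⟩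
  · exact h36
  · refine le_sSup ⟨p3.hc, fun x' hx' => ?_⟩
    show uv x' p3 ≤ T x'
    by_contra hcon
    have he : uv x' p3 ⊓ (T x')ᶜ ≠ ⊥ := by
      intro h
      apply hcon
      have := (disjoint_iff.2 h).le_compl_right
      rwa [compl_compl] at this
    have heG : uv x' p3 ⊓ (T x')ᶜ ∈ Gen C x' :=
      (csub_gen C x').inf (h_UVG B C hC x' p3) ((csub_gen C x').compl _ (hT x'))
    obtain ⟨p4, h41, h42, h43⟩ := below hC h_DX h_MEE h_PX h_CDL hx' heG he p3 inf_le_left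
    refine hK x x' hx hx' p4 (fun p' hp' => h32 p' (htrans _ _ _ hp' h41)) h42 ?_ ?_
    · exact (hmono _ _ x h41).trans (h33.trans inf_le_right)
    · exact h43.trans inf_le_right

end PDD_

theorem p_PDD (h_HG : T_HG) (h_DX : T_DX) (h_MEE : T_MEE) (h_PX : T_PX) (h_ISO : T_ISO)
    (h_UVG : T_UVG) (h_CDL : T_CDL) : T_PDD := by
  intro B _ C hC g hg S hS w c hw hc hne
  obtain ⟨x, hx1, hx2⟩ := h_HG B C hC g hg w hw
  have hx : Gnr C x := fun Δ hΔ => top_le_iff.1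
    (hx2 ⊤ x (hx1.mono fun u hu => ⟨hu.1, p_W1.2.1 _⟩) Δ hΔ)
  have hK : ∀ (x x' : Nm B Wd), Gnr C x → Gnr C x' → ∀ p : Cd C, HP x p → HP x' p →
      uv x p ≤ S x → uv x' p ≤ (S x')ᶜ → False :=
    fun x x' hx hx' p => PDD_.key hC h_ISO h_UVG h_CDL hS x x' hx hx' p
  by_cases h : c ⊓ S x ≠ ⊥
  · obtain ⟨c', h1, s, w', h2, h3, h4, h5, h6, h7⟩ :=
      PDD_.main hC h_DX h_MEE h_PX h_CDL h_UVG S hS.gen hK x w hx hw hx1 c hc hne h
    exact ⟨c', h1, s, w', h2, h3, h4, h5, h6, h7.trans le_sup_left⟩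
  · rw [not_not] at h
    have h' : c ⊓ (S x)ᶜ ≠ ⊥ := by
      intro h'
      apply hne
      rw [← inf_top_eq c, ← sup_compl_eq_top (x := S x), inf_sup_left, h, h', sup_bot_eq]
    obtain ⟨c', h1, s, w', h2, h3, h4, h5, h6, h7⟩ :=
      PDD_.main hC h_DX h_MEE h_PX h_CDL h_UVG (fun x => (S x)ᶜ)
        (fun x => (csub_gen C x).compl _ (hS.gen x))
        (fun x x' hx hx' p h1 h2 h3 h4 => hK x' x hx' hx p h2 h1 (by
          rwa [compl_compl] at h4) h3) x w hx hw hx1 c hc hne h'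
    exact ⟨c', h1, s, w', h2, h3, h4, h5, h6, h7.trans le_sup_right⟩

end SLV
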