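import Pool.Agent.SLV.T1

/-!
# SLV, target PH: the pigeonhole principle for located words over one letter
-/

set_option autoImplicit false

namespace SLV

namespace PH_

attribute [local instance] Ultrafilter.add Ultrafilter.addSemigroup

/-- good elements of variable type -/
def GV (K : PW → Prop) (p q : Ultrafilter PW) (z : PW) : Prop :=
  K z ∧ (∀ᶠ y in (q : Filter PW), K (z + y)) ∧ ∀ᶠ y in (p : Filter PW), K (z + y)

/-- good elements of constant type -/
def GT (K : PW → Prop) (q : Ultrafilter PW) (z : PW) : Prop :=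
  ∀ᶠ y in (q : Filter PW), K (z + y)

lemma ev_add {a b c : Ultrafilter PW} (h : a + b = c) {P : PW → Prop}
    (hP : ∀ᶠ z in (c : Filter PW), P z) :
    ∀ᶠ x in (a : Filter PW), ∀ᶠ y in (b : Filter PW), P (x + y) := by
  rw [← h] at hP
  exact (Ultrafilter.eventually_add a b P).1 hP

lemma ev_th {p q : Ultrafilter PW} (h : q.map PW.th = p) {P : PW → Prop}
    (hP : ∀ᶠ z in (p : Filter PW), P z) : ∀ᶠ z in (q : Filter PW), P z.th := by
  rw [← h, Ultrafilter.coe_map, Filter.eventually_map] at hP
  exact hP

section

variable {K : PW → Prop} {p q : Ultrafilter PW} (hpp : p + p = p) (hqq : q + q = q)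
  (hpq : p + q = q) (hqp : q + p = q) (hth : q.map PW.th = p)

include hqq hqp in
lemma gv_q (hK : ∀ᶠ z in (q : Filter PW), K z) : ∀ᶠ x in (q : Filter PW), GV K p q x :=
  hK.and ((ev_add hqq hK).and (ev_add hqp hK))

include hpq hth in
lemma gt_q (hK : ∀ᶠ z in (q : Filter PW), K z) : ∀ᶠ x in (q : Filter PW), GT K q x.th :=
  ev_th hth (ev_add hpq hK)

include hqq hqp in
lemma gt_gv {z : PW} (h : GT K q z) : ∀ᶠ x in (q : Filter PW), GV K p q (z + x) := by
  have h1 := ev_add hqq (P := fun y => K (z + y)) h
  have h2 := ev_add hqp (P := fun y => K (z + y)) h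
  filter_upwards [h, h1, h2] with x hx hx1 hx2
  refine ⟨hx, ?_, ?_⟩
  · filter_upwards [hx1] with y hy
    rw [add_assoc]; exact hy
  · filter_upwards [hx2] with y hy
    rw [add_assoc]; exact hy

include hqq hqp in
lemma gv_gv {z : PW} (h : GV K p q z) : ∀ᶠ x in (q : Filter PW), GV K p q (z + x) :=
  gt_gv hqq hqp h.2.1

include hpp hpq hth in
lemma gv_gvt {z : PW} (h : GV K p q z) : ∀ᶠ x in (q : Filter PW), GV K p q (z + x.th) := by
  refine ev_th hth (P := fun x => GV K p q (z + x)) ?_
  have h1 := ev_add hpq (P := fun y => K (z + y)) h.2.1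
  have h2 := ev_add hpp (P := fun y => K (z + y)) h.2.2
  filter_upwards [h.2.2, h1, h2] with x hx hx1 hx2
  refine ⟨hx, ?_, ?_⟩
  · filter_upwards [hx1] with y hy
    rw [add_assoc]; exact hy
  · filter_upwards [hx2] with y hy
    rw [add_assoc]; exact hy

include hpq hth in
lemma gt_gtt {z : PW} (h : GT K q z) : ∀ᶠ x in (q : Filter PW), GT K q (z + x.th) := by
  refine ev_th hth (P := fun x => GT K q (z + x)) ?_
  have h1 := ev_add hpq (P := fun y => K (z + y)) h
  filter_upwards [h1] with x hx1
  show ∀ᶠ y in (q : Filter PW), K (z + x + y)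
  filter_upwards [hx1] with y hy
  rw [add_assoc]; exact hy

end

/-- a finite state of the construction -/
structure St (K : PW → Prop) (p q : Ultrafilter PW) where
  v : Finset PW
  t : Finset PW
  N : ℕ
  hv : ∀ z ∈ v, GV K p q z
  ht : ∀ z ∈ t, GT K q z

/-- the properties of the next word -/
structure Nx {K : PW → Prop} {p q : Ultrafilter PW} (s : St K p q) (x : Wd) : Prop where
  v1 : ∀ z ∈ s.v, GV K p q (z + x.pw)
  v2 : ∀ z ∈ s.v, GV K p q (z + x.pw.th)
  t1 : ∀ z ∈ s.t, GV K p q (z + x.pw)
  t2 : ∀ z ∈ s.t, GT K q (z + x.pw.th)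
  x1 : GV K p q x.pw
  x2 : GT K q x.pw.th
  N : ∀ i ∈ x.A, s.N ≤ i

open Classical in
/-- the next state -/
noncomputable def nxt {K : PW → Prop} {p q : Ultrafilter PW} (s : St K p q) (x : Wd)
    (h : Nx s x) : St K p q where
  v := s.v ∪ s.v.image (fun z => z + x.pw) ∪ s.v.image (fun z => z + x.pw.th) ∪
    s.t.image (fun z => z + x.pw) ∪ {x.pw}
  t := s.t ∪ s.t.image (fun z => z + x.pw.th) ∪ {x.pw.th}
  N := x.A.sup id + 1
  hv := by
    intro z hz
    simp only [Finset.mem_union, Finset.mem_image, Finset.mem_singleton] at hz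
    rcases hz with (((hz | ⟨z, hz, rfl⟩) | ⟨z, hz, rfl⟩) | ⟨z, hz, rfl⟩) | rfl
    · exact s.hv z hz
    · exact h.v1 z hz
    · exact h.v2 z hz
    · exact h.t1 z hz
    · exact h.x1
  ht := by
    intro z hz
    simp only [Finset.mem_union, Finset.mem_image, Finset.mem_singleton] at hz
    rcases hz with (hz | ⟨z, hz, rfl⟩) | rfl
    · exact s.ht z hz
    · exact h.t2 z hz
    · exact h.x2

lemma exists_nx {K : PW → Prop} {p q : Ultrafilter PW} (hpp : p + p = p) (hqq : q + q = q)
    (hpq : p + q = q) (hqp : q + p = q) (hth : q.map PW.th = p)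
    (hq : ∀ n : ℕ, ∀ᶠ z in (q : Filter PW), z.V.Nonempty ∧ z.V ⊆ z.A ∧ ∀ i ∈ z.A, n ≤ i)
    (hK : ∀ᶠ z in (q : Filter PW), K z) (s : St K p q) : ∃ x : Wd, Nx s x := by
  have h1 : ∀ᶠ x in (q : Filter PW), ∀ z ∈ s.v, GV K p q (z + x) := by
    rw [Finset.eventually_all]
    exact fun z hz => gv_gv hqq hqp (s.hv z hz)
  have h2 : ∀ᶠ x in (q : Filter PW), ∀ z ∈ s.v, GV K p q (z + x.th) := by
    rw [Finset.eventually_all]
    exact fun z hz => gv_gvt hpp hpq hth (s.hv z hz)
  have h3 : ∀ᶠ x in (q : Filter PW), ∀ z ∈ s.t, GV K p q (z + x) := by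
    rw [Finset.eventually_all]
    exact fun z hz => gt_gv hqq hqp (s.ht z hz)
  have h4 : ∀ᶠ x in (q : Filter PW), ∀ z ∈ s.t, GT K q (z + x.th) := by
    rw [Finset.eventually_all]
    exact fun z hz => gt_gtt hpq hth (s.ht z hz)
  obtain ⟨x, ⟨h5, h6, h7⟩, hx1, hx2, hx3, hx4, hx5, hx6⟩ :=
    ((hq s.N).and (h1.and (h2.and (h3.and (h4.and
      ((gv_q hqq hqp hK).and (gt_q hpq hth hK))))))).exists
  exact ⟨⟨x.A, x.V, h6, h5⟩, ⟨hx1, hx2, hx3, hx4, hx5, hx6, h7⟩⟩

/-- the sum given by a pattern -/
def S (w : ℕ → Wd) (A V : Finset ℕ) : PW :=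
  ⟨A.biUnion fun i => (w i).A, V.biUnion fun i => (w i).V⟩

theorem main {K : PW → Prop} {p q : Ultrafilter PW} (hpp : p + p = p) (hqq : q + q = q)
    (hpq : p + q = q) (hqp : q + p = q) (hth : q.map PW.th = p)
    (hq : ∀ n : ℕ, ∀ᶠ z in (q : Filter PW), z.V.Nonempty ∧ z.V ⊆ z.A ∧ ∀ i ∈ z.A, n ≤ i)
    (hK : ∀ᶠ z in (q : Filter PW), K z) :
    ∃ w : ℕ → Wd, Blk w ∧ ∀ r : Wd, K (act w r).pw := by
  classical
  have hex := exists_nx hpp hqq hpq hqp hth hq hK
  choose nx hnx using hex
  let st : ℕ → St K p q := fun n => Nat.rec ⟨∅, ∅, 0, by simp, by simp⟩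
    (fun _ s => nxt s (nx s) (hnx s)) n
  have hst : ∀ n, st (n + 1) = nxt (st n) (nx (st n)) (hnx (st n)) := fun n => rfl
  let w : ℕ → Wd := fun n => nx (st n)
  have hN : ∀ n, ∀ i ∈ (w n).A, i < (st (n + 1)).N := by
    intro n i hi
    rw [hst]
    show i < (w n).A.sup id + 1
    have := Finset.le_sup (f := id) hi
    simp only [id] at this ⊢
    omega
  have hv : ∀ n, (st n).v ⊆ (st (n + 1)).v := by
    intro n z hz
    rw [hst]
    simp only [nxt, Finset.mem_union]
    exact Or.inl (Or.inl (Or.inl (Or.inl hz)))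
  have ht : ∀ n, (st n).t ⊆ (st (n + 1)).t := by
    intro n z hz
    rw [hst]
    simp only [nxt, Finset.mem_union]
    exact Or.inl (Or.inl hz)
  have key : ∀ n (A V : Finset ℕ), V ⊆ A → (∀ i ∈ A, i < n) → A.Nonempty →
      (V.Nonempty → S w A V ∈ (st n).v) ∧ (V = ∅ → S w A V ∈ (st n).t) := by
    intro n
    induction n with
    | zero =>
      rintro A V _ hA ⟨i, hi⟩
      exact absurd (hA i hi) (Nat.not_lt_zero i)
    | succ n ih =>
      intro A V hVA hA hne
      by_cases hn : n ∈ A
      · have hA' : A = insert n (A.erase n) := (Finset.insert_erase hn).symm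
        have hlt : ∀ i ∈ A.erase n, i < n := by
          intro i hi
          have h1 := hA i (Finset.mem_of_mem_erase hi)
          have h2 := Finset.ne_of_mem_erase hi
          omega
        by_cases hnV : n ∈ V
        · -- variable type
          have hV' : V = insert n (V.erase n) := (Finset.insert_erase hnV).symm
          have hsum : S w A V = S w (A.erase n) (V.erase n) + (w n).pw := by
            have e1 : A.biUnion (fun i => (w i).A) =
                (A.erase n).biUnion (fun i => (w i).A) ∪ (w n).A := by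
              conv_lhs => rw [hA', Finset.biUnion_insert]
              exact Finset.union_comm _ _
            have e2 : V.biUnion (fun i => (w i).V) =
                (V.erase n).biUnion (fun i => (w i).V) ∪ (w n).V := by
              conv_lhs => rw [hV', Finset.biUnion_insert]
              exact Finset.union_comm _ _
            exact PW.ext e1 e2
          refine ⟨fun _ => ?_, fun h => absurd hnV (by rw [h]; exact Finset.notMem_empty n)⟩
          rw [hst]
          by_cases hA0 : (A.erase n).Nonempty
          · obtain ⟨i1, i2⟩ := ih (A.erase n) (V.erase n) (Finset.erase_subset_erase n hVA)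
              hlt hA0
            rcases Finset.eq_empty_or_nonempty (V.erase n) with hV0 | hV0
            · have := i2 hV0
              simp only [nxt, Finset.mem_union, Finset.mem_image]
              exact Or.inl (Or.inr ⟨_, this, hsum.symm⟩)
            · have := i1 hV0
              simp only [nxt, Finset.mem_union, Finset.mem_image]
              exact Or.inl (Or.inl (Or.inl (Or.inr ⟨_, this, hsum.symm⟩)))
          · have hA1 : A.erase n = ∅ := Finset.not_nonempty_iff_eq_empty.1 hA0
            have hV1 : V.erase n = ∅ := by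
              rw [← Finset.subset_empty, ← hA1]
              exact Finset.erase_subset_erase n hVA
            have : S w A V = (w n).pw := by
              rw [hsum, hA1, hV1]
              refine PW.ext ?_ ?_
              · exact Finset.empty_union _
              · exact Finset.empty_union _
            simp only [nxt, Finset.mem_union, Finset.mem_singleton]
            exact Or.inr this
        · -- the variable is replaced
          have hVV : V.erase n = V := Finset.erase_eq_of_notMem hnV
          have hsum : S w A V = S w (A.erase n) V + (w n).pw.th := by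
            have e1 : A.biUnion (fun i => (w i).A) =
                (A.erase n).biUnion (fun i => (w i).A) ∪ (w n).A := by
              conv_lhs => rw [hA', Finset.biUnion_insert]
              exact Finset.union_comm _ _
            have e2 : V.biUnion (fun i => (w i).V) =
                V.biUnion (fun i => (w i).V) ∪ ∅ := (Finset.union_empty _).symm
            exact PW.ext e1 e2
          have hVA' : V ⊆ A.erase n := by
            intro i hi
            exact Finset.mem_erase.2 ⟨fun h => hnV (h ▸ hi), hVA hi⟩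
          rw [hst]
          by_cases hA0 : (A.erase n).Nonempty
          · obtain ⟨i1, i2⟩ := ih (A.erase n) V hVA' hlt hA0
            refine ⟨fun h => ?_, fun h => ?_⟩
            · have := i1 h
              simp only [nxt, Finset.mem_union, Finset.mem_image]
              exact Or.inl (Or.inl (Or.inr ⟨_, this, hsum.symm⟩))
            · have := i2 h
              simp only [nxt, Finset.mem_union, Finset.mem_image]
              exact Or.inl (Or.inr ⟨_, this, hsum.symm⟩)
          · have hA1 : A.erase n = ∅ := Finset.not_nonempty_iff_eq_empty.1 hA0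
            have hV1 : V = ∅ := by
              rw [← Finset.subset_empty, ← hA1]
              exact hVA'
            have : S w A V = (w n).pw.th := by
              rw [hsum, hA1, hV1]
              refine PW.ext ?_ ?_
              · exact Finset.empty_union _
              · exact Finset.empty_union _
            refine ⟨fun h => absurd h (by rw [hV1]; exact Finset.not_nonempty_empty),
              fun _ => ?_⟩
            simp only [nxt, Finset.mem_union, Finset.mem_singleton]
            exact Or.inr this
      · obtain ⟨i1, i2⟩ := ih A V hVA (fun i hi => by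
          have h1 := hA i hi
          have h2 : i ≠ n := fun h => hn (h ▸ hi)
          omega) hne
        exact ⟨fun h => hv n (i1 h), fun h => ht n (i2 h)⟩
  refine ⟨w, fun n i hi j hj => ?_, fun r => ?_⟩
  · exact lt_of_lt_of_le (hN n i hi) ((hnx (st (n + 1))).N j hj)
  · have h1 := (key (r.A.sup id + 1) r.A r.V r.sub (fun i hi => by
      have := Finset.le_sup (f := id) hi
      simp only [id] at this ⊢
      omega) (r.ne.mono r.sub)).1 r.ne
    have h2 : S w r.A r.V = (act w r).pw := rfl
    rw [← h2]
    exact ((st (r.A.sup id + 1)).hv _ h1).1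

end PH_

theorem p_PH (h_PH0 : T_PH0) : T_PH := by
  intro f
  obtain ⟨p, q, hpp, hqq, hpq, hqp, hth, _, hq⟩ := h_PH0
  let K : PW → Prop := fun z => ∀ (h1 : z.V ⊆ z.A) (h2 : z.V.Nonempty), f ⟨z.A, z.V, h1, h2⟩
  rcases Ultrafilter.eventually_or.1 (Filter.Eventually.of_forall (f := (q : Filter PW))
    fun z => Classical.em (K z)) with hK | hK
  · obtain ⟨w, hw, h⟩ := PH_.main hpp hqq hpq hqp hth hq hK
    refine ⟨w, hw, Or.inl ?_⟩
    rintro _ ⟨r, rfl⟩
    exact h r (act w r).sub (act w r).ne
  · obtain ⟨w, hw, h⟩ := PH_.main hpp hqq hpq hqp hth hq hK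
    refine ⟨w, hw, Or.inr ?_⟩
    rintro _ ⟨r, rfl⟩ hf
    exact h r fun _ _ => hf

end SLV
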