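import Mathlib
import Pool.Agent.SLV.T1

/-! # SLV: the two idempotent ultrafilters (`T_PH0`) -/

set_option autoImplicit false

namespace SLV

open Filter

namespace PH0_

theorem add_A (x y : PW) : (x + y).A = x.A ∪ y.A := rfl
theorem add_V (x y : PW) : (x + y).V = x.V ∪ y.V := rfl

/-- a variable word with all positions at least `n` -/
def Var (n : ℕ) (x : PW) : Prop := x.V.Nonempty ∧ x.V ⊆ x.A ∧ ∀ i ∈ x.A, n ≤ i

/-- a word without variable, with all positions at least `n` -/
def Con (n : ℕ) (x : PW) : Prop := x.V = ∅ ∧ x.A.Nonempty ∧ ∀ i ∈ x.A, n ≤ i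

theorem th_add (x y : PW) : PW.th (x + y) = PW.th x + PW.th y := by
  ext k
  · rfl
  · simp [PW.th, add_V]

theorem con_add {n : ℕ} {x y : PW} (hx : Con n x) (hy : Con n y) : Con n (x + y) := by
  refine ⟨by rw [add_V, hx.1, hy.1, Finset.empty_union], ?_, ?_⟩
  · rw [add_A]
    exact hx.2.1.mono Finset.subset_union_left
  · intro i hi
    rw [add_A, Finset.mem_union] at hi
    exact hi.elim (hx.2.2 i) (hy.2.2 i)

theorem var_add {n : ℕ} {x y : PW} (hx : Var n x) (hy : Var n y) : Var n (x + y) := by
  refine ⟨?_, ?_, ?_⟩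
  · rw [add_V]
    exact hx.1.mono Finset.subset_union_left
  · rw [add_V, add_A]
    exact Finset.union_subset_union hx.2.1 hy.2.1
  · intro i hi
    rw [add_A, Finset.mem_union] at hi
    exact hi.elim (hx.2.2 i) (hy.2.2 i)

theorem con_var_add {n : ℕ} {x y : PW} (hx : Con n x) (hy : Var n y) : Var n (x + y) := by
  refine ⟨?_, ?_, ?_⟩
  · rw [add_V]
    exact hy.1.mono Finset.subset_union_right
  · rw [add_V, add_A, hx.1, Finset.empty_union]
    exact hy.2.1.trans Finset.subset_union_right
  · intro i hi
    rw [add_A, Finset.mem_union] at hi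
    exact hi.elim (hx.2.2 i) (hy.2.2 i)

theorem var_con_add {n : ℕ} {x y : PW} (hx : Var n x) (hy : Con n y) : Var n (x + y) := by
  refine ⟨?_, ?_, ?_⟩
  · rw [add_V]
    exact hx.1.mono Finset.subset_union_left
  · rw [add_V, add_A, hy.1, Finset.union_empty]
    exact hx.2.1.trans Finset.subset_union_left
  · intro i hi
    rw [add_A, Finset.mem_union] at hi
    exact hi.elim (hx.2.2 i) (hy.2.2 i)

attribute [local instance] Ultrafilter.add Ultrafilter.addSemigroup

/-- an idempotent ultrafilter of words without variable -/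
theorem exists_idem_con :
    ∃ p : Ultrafilter PW, p + p = p ∧ ∀ n, ∀ᶠ x in (p : Filter PW), Con n x := by
  let S : Set (Ultrafilter PW) := ⋂ n : ℕ, {U | ∀ᶠ x in (U : Filter PW), Con n x}
  have h := exists_idempotent_in_compact_add_subsemigroup
    Ultrafilter.continuous_add_left S ?_ ?_ ?_
  · obtain ⟨p, hp, hpp⟩ := h
    exact ⟨p, hpp, fun n => Set.mem_iInter.1 hp n⟩
  · apply IsCompact.nonempty_iInter_of_sequence_nonempty_isCompact_isClosed
    · intro n U hU
      filter_upwards [hU] with x hx
      exact ⟨hx.1, hx.2.1, fun i hi => (Nat.le_succ n).trans (hx.2.2 i hi)⟩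
    · intro n
      refine ⟨pure ⟨{n}, ∅⟩, ?_⟩
      change ∀ᶠ x in ((pure ⟨{n}, ∅⟩ : Ultrafilter PW) : Filter PW), Con n x
      rw [Ultrafilter.coe_pure, eventually_pure]
      exact ⟨rfl, ⟨n, Finset.mem_singleton_self n⟩, fun i hi => (Finset.mem_singleton.1 hi).ge⟩
    · exact (ultrafilter_isClosed_basic _).isCompact
    · intro n
      exact ultrafilter_isClosed_basic _
  · exact IsClosed.isCompact (isClosed_iInter fun i => ultrafilter_isClosed_basic _)
  · intro U hU V hV
    rw [Set.mem_iInter] at *
    intro n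
    rw [Set.mem_ofPred_eq, Ultrafilter.eventually_add]
    filter_upwards [hU n] with x hx
    filter_upwards [hV n] with y hy
    exact con_add hx hy

theorem map_th_add (q r : Ultrafilter PW) :
    (q + r).map PW.th = q.map PW.th + r.map PW.th := by
  apply Ultrafilter.coe_inj.mp
  apply Filter.ext'
  intro P
  rw [Ultrafilter.eventually_add]
  simp only [Ultrafilter.coe_map, Filter.eventually_map]
  rw [Ultrafilter.eventually_add]
  simp only [th_add]

/-- the two ultrafilters -/
theorem exists_pq : T_PH0 := by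
  obtain ⟨p, hpp, hpc⟩ := exists_idem_con
  have hthp : p.map PW.th = p := by
    apply Ultrafilter.coe_inj.mp
    apply Filter.ext'
    intro P
    simp only [Ultrafilter.coe_map, Filter.eventually_map]
    have h : ∀ᶠ x in (p : Filter PW), PW.th x = x := by
      filter_upwards [hpc 0] with x hx
      exact PW.ext rfl hx.1.symm
    constructor
    · intro h1
      filter_upwards [h, h1] with x h2 h3
      rwa [h2] at h3
    · intro h1
      filter_upwards [h, h1] with x h2 h3
      rwa [h2]
  let S : Set (Ultrafilter PW) := {q | q.map PW.th = p ∧ ∀ n, ∀ᶠ x in (q : Filter PW), Var n x}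
  have hSc : IsClosed S := by
    have e : S = {q | q.map PW.th = p} ∩
        ⋂ n : ℕ, {U : Ultrafilter PW | ∀ᶠ x in (U : Filter PW), Var n x} := by
      ext q
      simp only [S, Set.mem_inter_iff, Set.mem_iInter, Set.mem_ofPred_eq]
    rw [e]
    refine IsClosed.inter ?_ (isClosed_iInter fun i => ultrafilter_isClosed_basic _)
    have e2 : {q : Ultrafilter PW | q.map PW.th = p} =
        ⋂ P : {P : Set PW // P ∈ p}, {q : Ultrafilter PW | PW.th ⁻¹' P.1 ∈ q} := by
      ext q
      simp only [Set.mem_iInter, Set.mem_ofPred_eq, Subtype.forall]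
      constructor
      · intro h P hP
        rw [← h] at hP
        exact hP
      · intro h
        apply Ultrafilter.eq_of_le
        intro P hP
        exact h P hP
    rw [e2]
    exact isClosed_iInter fun P => ultrafilter_isClosed_basic _
  have hSm : ∀ q ∈ S, ∀ r ∈ S, q + r ∈ S := by
    intro q hq r hr
    refine ⟨by rw [map_th_add, hq.1, hr.1, hpp], fun n => ?_⟩
    rw [Ultrafilter.eventually_add]
    filter_upwards [hq.2 n] with x hx
    filter_upwards [hr.2 n] with y hy
    exact var_add hx hy
  have hSp : ∀ q ∈ S, q + p ∈ S := by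
    intro q hq
    refine ⟨by rw [map_th_add, hq.1, hthp, hpp], fun n => ?_⟩
    rw [Ultrafilter.eventually_add]
    filter_upwards [hq.2 n] with x hx
    filter_upwards [hpc n] with y hy
    exact var_con_add hx hy
  have hpS : ∀ q ∈ S, p + q ∈ S := by
    intro q hq
    refine ⟨by rw [map_th_add, hq.1, hthp, hpp], fun n => ?_⟩
    rw [Ultrafilter.eventually_add]
    filter_upwards [hpc n] with x hx
    filter_upwards [hq.2 n] with y hy
    exact con_var_add hx hy
  have hne : S.Nonempty := by
    refine ⟨p.map (fun x => ⟨x.A, x.A⟩), ?_, fun n => ?_⟩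
    · rw [Ultrafilter.map_map]
      exact hthp
    · rw [Ultrafilter.coe_map, Filter.eventually_map]
      filter_upwards [hpc n] with x hx
      exact ⟨hx.2.1, Finset.Subset.refl _, hx.2.2⟩
  let S1 : Set (Ultrafilter PW) := (fun q => q + p) '' S
  obtain ⟨q1, hq1, hq11⟩ := exists_idempotent_in_compact_add_subsemigroup
    Ultrafilter.continuous_add_left S1 (hne.image _)
    (hSc.isCompact.image (Ultrafilter.continuous_add_left p)) (by
      rintro _ ⟨a, ha, rfl⟩ _ ⟨b, hb, rfl⟩
      refine ⟨a + (p + b), hSm a ha _ (hpS b hb), ?_⟩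
      simp only [add_assoc])
  obtain ⟨q2, hq2, rfl⟩ := hq1
  simp only at hq11
  have e1 : q2 + p + p = q2 + p := by rw [add_assoc, hpp]
  have hqS := hpS _ (hSp _ hq2)
  refine ⟨p, p + (q2 + p), hpp, ?_, ?_, ?_, hqS.1, hpc, hqS.2⟩
  · calc p + (q2 + p) + (p + (q2 + p)) = p + ((q2 + p + p) + (q2 + p)) := by
          simp only [add_assoc]
      _ = p + (q2 + p) := by rw [e1, hq11]
  · rw [← add_assoc, hpp]
  · rw [add_assoc, e1]

end PH0_

theorem p_PH0 : T_PH0 := PH0_.exists_pq

end SLV
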