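import Mathlib
import Pool.Agent.SLV.T1

/-!
# MP_0a8ab4_lc, project SLV: target PHw (pigeonhole below a block sequence)
-/

set_option autoImplicit false

namespace SLV

theorem p_PHw (h_PH : T_PH) (h_W1 : T_W1) (h_W2 : T_W2) : T_PHw := by
  intro w hw f
  obtain ⟨p, hp, hf⟩ := h_PH (fun q => f (act w q))
  refine ⟨fun n => act w (p n), (h_W2 w hw).2.2 p hp, fun n => ⟨p n, rfl⟩, ?_⟩
  have key : ∀ q ∈ Rg (fun n => act w (p n)), ∃ r ∈ Rg p, q = act w r := by
    rintro q ⟨r, rfl⟩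
    exact ⟨act p r, ⟨r, rfl⟩, h_W1.1 w p r⟩
  rcases hf with hf | hf
  · left
    intro q hq
    obtain ⟨r, hr, rfl⟩ := key q hq
    exact hf r hr
  · right
    intro q hq
    obtain ⟨r, hr, rfl⟩ := key q hq
    exact hf r hr

end SLV
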