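import Pool.Agent.SLV.T1

/-!
# MP_0a8ab4_lc, project SLV: isomorphisms of ideals preserve the Boolean operations (helper46)
-/

set_option autoImplicit false

namespace SLV

namespace PIB_

variable {B : Type} [CompleteBooleanAlgebra B] {G : Set B}

theorem bot_mem (hG : CSub G) : (⊥ : B) ∈ G := by
  have := hG.sSup ∅ (Set.empty_subset _)
  simpa using this

theorem sup_mem (hG : CSub G) {a b : B} (ha : a ∈ G) (hb : b ∈ G) : a ⊔ b ∈ G := by
  have h : ({a, b} : Set B) ⊆ G := by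
    intro x hx
    rcases hx with rfl | hx
    · exact ha
    · rw [Set.mem_singleton_iff] at hx; rw [hx]; exact hb
  have := hG.sSup _ h
  rwa [sSup_pair] at this

theorem inf_mem (hG : CSub G) {a b : B} (ha : a ∈ G) (hb : b ∈ G) : a ⊓ b ∈ G := by
  have h := hG.compl _ (sup_mem hG (hG.compl _ ha) (hG.compl _ hb))
  rwa [compl_sup, compl_compl, compl_compl] at h

end PIB_

open PIB_ in
theorem p_PIB : T_PIB := by
  intro B _ G G' hG hG' d hd d' hd' π
  have hbot : π.f ⊥ = ⊥ := by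
    have h1 := π.gG ⊥ (bot_mem hG') bot_le
    have h2 := π.fm ⊥ (bot_mem hG) bot_le (π.g ⊥) h1.1 h1.2 bot_le
    rw [π.fg ⊥ (bot_mem hG') bot_le] at h2
    exact le_bot_iff.1 h2
  have htop : π.f d = d' := by
    apply le_antisymm (π.fG d hd le_rfl).2
    have h1 := π.gG d' hd' le_rfl
    have h2 := π.fm (π.g d') h1.1 h1.2 d hd le_rfl h1.2
    rwa [π.fg d' hd' le_rfl] at h2
  have hinf : ∀ z ∈ G, ∀ z' ∈ G, z ≤ d → z' ≤ d → π.f (z ⊓ z') = π.f z ⊓ π.f z' := by
    intro z hz z' hz' hzd hzd'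
    have hm : z ⊓ z' ∈ G := inf_mem hG hz hz'
    have hmd : z ⊓ z' ≤ d := inf_le_left.trans hzd
    apply le_antisymm
    · exact le_inf (π.fm _ hm hmd z hz hzd inf_le_left) (π.fm _ hm hmd z' hz' hzd' inf_le_right)
    · have f1 := π.fG z hz hzd
      have f2 := π.fG z' hz' hzd'
      have hy : π.f z ⊓ π.f z' ∈ G' := inf_mem hG' f1.1 f2.1
      have hyd : π.f z ⊓ π.f z' ≤ d' := inf_le_left.trans f1.2
      have g0 := π.gG _ hy hyd
      have g1 := π.gm _ hy hyd (π.f z) f1.1 f1.2 inf_le_left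
      have g2 := π.gm _ hy hyd (π.f z') f2.1 f2.2 inf_le_right
      rw [π.gf z hz hzd] at g1
      rw [π.gf z' hz' hzd'] at g2
      have g3 := π.fm _ g0.1 g0.2 (z ⊓ z') hm hmd (le_inf g1 g2)
      rwa [π.fg _ hy hyd] at g3
  have hsup : ∀ S : Set B, S ⊆ G → (∀ z ∈ S, z ≤ d) → π.f (sSup S) = sSup (π.f '' S) := by
    intro S hS hSd
    have hs : sSup S ∈ G := hG.sSup S hS
    have hsd : sSup S ≤ d := sSup_le hSd
    have hS' : π.f '' S ⊆ G' := by
      rintro _ ⟨z, hz, rfl⟩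
      exact (π.fG z (hS hz) (hSd z hz)).1
    have hy : sSup (π.f '' S) ∈ G' := hG'.sSup _ hS'
    have hyd : sSup (π.f '' S) ≤ d' := by
      apply sSup_le
      rintro _ ⟨z, hz, rfl⟩
      exact (π.fG z (hS hz) (hSd z hz)).2
    apply le_antisymm
    · have g0 := π.gG _ hy hyd
      have h1 : sSup S ≤ π.g (sSup (π.f '' S)) := by
        apply sSup_le
        intro z hz
        have f1 := π.fG z (hS hz) (hSd z hz)
        have g1 := π.gm (π.f z) f1.1 f1.2 _ hy hyd (le_sSup ⟨z, hz, rfl⟩)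
        rwa [π.gf z (hS hz) (hSd z hz)] at g1
      have h2 := π.fm _ hs hsd _ g0.1 g0.2 h1
      rwa [π.fg _ hy hyd] at h2
    · apply sSup_le
      rintro _ ⟨z, hz, rfl⟩
      exact π.fm z (hS hz) (hSd z hz) _ hs hsd (le_sSup hz)
  refine ⟨hbot, htop, hinf, hsup, ?_⟩
  intro z hz hzd
  have hw : zᶜ ⊓ d ∈ G := inf_mem hG (hG.compl _ hz) hd
  have hwd : zᶜ ⊓ d ≤ d := inf_le_right
  have e1 : π.f z ⊓ π.f (zᶜ ⊓ d) = ⊥ := by
    rw [← hinf z hz _ hw hzd hwd]
    have : z ⊓ (zᶜ ⊓ d) = ⊥ := by rw [← inf_assoc, inf_compl_eq_bot, bot_inf_eq]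
    rw [this, hbot]
  have e2 : π.f z ⊔ π.f (zᶜ ⊓ d) = d' := by
    have h := hsup {z, zᶜ ⊓ d} (by
      intro x hx
      rcases hx with rfl | hx
      · exact hz
      · rw [Set.mem_singleton_iff] at hx; rw [hx]; exact hw) (by
      intro x hx
      rcases hx with rfl | hx
      · exact hzd
      · rw [Set.mem_singleton_iff] at hx; rw [hx]; exact hwd)
    rw [Set.image_pair, sSup_pair, sSup_pair] at h
    rw [← h]
    have : z ⊔ zᶜ ⊓ d = d := by
      rw [sup_inf_left, sup_compl_eq_top, top_inf_eq, sup_eq_right]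
      exact hzd
    rw [this, htop]
  apply le_antisymm
  · refine le_inf ?_ (π.fG _ hw hwd).2
    exact le_compl_iff_disjoint_left.2 (disjoint_iff.2 e1)
  · have e3 : (π.f z)ᶜ ⊓ d' ≤ (π.f z)ᶜ ⊓ (π.f z ⊔ π.f (zᶜ ⊓ d)) := inf_le_inf_left _ e2.ge
    refine e3.trans ?_
    rw [inf_sup_left, compl_inf_self, bot_sup_eq]
    exact inf_le_right

end SLV
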