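import Pool.Agent.SLV.T2

/-!
# MP_0a8ab4_lc, project SLV: hereditarily positive conditions (job SLV-PX) (helper48)
-/

set_option autoImplicit false

namespace SLV

theorem p_PX (h_CDL : T_CDL) (h_MEE : T_MEE) : T_PX := by
  intro B _ C hC x hx p hp
  obtain ⟨hrefl, htrans, -⟩ := h_CDL B C hC
  have hD : Dns {q : Cd C | uv x q = ⊥ ∨ HP x q} := by
    intro q
    by_cases h : HP x q
    · exact ⟨q, Or.inr h, hrefl q⟩
    · unfold HP at h
      push Not at h
      obtain ⟨q', h1, h2⟩ := h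
      exact ⟨q', Or.inl h2, h1⟩
  have h1 := hx _ hD
  obtain ⟨q, hq, hne⟩ : ∃ q ∈ {q : Cd C | uv x q = ⊥ ∨ HP x q}, uv x p ⊓ uv x q ≠ ⊥ := by
    by_contra hc
    push Not at hc
    apply hp
    unfold MD at h1
    rw [← inf_top_eq (uv x p), ← h1, sSup_image, inf_iSup₂_eq]
    exact iSup₂_eq_bot.2 hc
  have hHP : HP x q := by
    rcases hq with h | h
    · exact absurd (by rw [h, inf_bot_eq]) hne
    · exact h
  have h2 := h_MEE B C hC x hx p q
  obtain ⟨r, hr1, hr2⟩ : ∃ r : Cd C, CdLe r p ∧ CdLe r q := by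
    by_contra hc
    push Not at hc
    apply hne
    apply le_bot_iff.1
    refine h2.trans (sSup_le ?_)
    rintro z ⟨r, h3, h4, -⟩
    exact absurd h4 (hc r h3)
  exact ⟨r, hr1, fun r' hr' => hHP r' (htrans r' r q hr' hr2)⟩

end SLV
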