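import Mathlib
import Pool.Agent.SLV.T2
import Pool.Agent.SLV.W1

/-!
# MP_0a8ab4_lc, project SLV: finite iteration (helper43)
-/

set_option autoImplicit false

namespace SLV

theorem p_QIT : T_QIT := by
  intro B _ C hC Q hQ w hw L hL
  obtain ⟨_, hrf, htr, _⟩ := p_W1
  induction L, hL using Set.Finite.induction_on with
  | empty =>
    intro _
    exact ⟨w, hw, forces_of fun u _ => hrf _, fun t ht => absurd ht (Set.notMem_empty t)⟩
  | @insert t L _ _ ih =>
    intro ht
    obtain ⟨w1, h1, h2, h3⟩ := ih fun s hs => ht s (Set.mem_insert_of_mem t hs)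
    obtain ⟨w2, h4, h5, h6⟩ := hQ.ex t w1 (ht t (Set.mem_insert t L)) h1
    refine ⟨w2, h4, (h5.and h2).mono fun u hu => htr _ _ _ hu.1 hu.2, ?_⟩
    rintro s (rfl | hs)
    · exact h6
    · have h7 := hQ.mono s w1 w2 ⊤ h1 h4 hC.top (h5.mono fun u hu n _ => hu n)
      rw [h3 s hs, inf_top_eq] at h7
      exact top_le_iff.1 h7

end SLV
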