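import Pool.Agent.SLV.T1

/-!
# MP_0a8ab4_lc, project SLV: the relative collapsing lemma (RCL) (helper86)
-/

set_option autoImplicit false

namespace SLV

namespace RCL_

section

variable {B : Type} [CompleteBooleanAlgebra B]

theorem cs_sup {C : Set B} (h : CSub C) {a b : B} (ha : a ∈ C) (hb : b ∈ C) : a ⊔ b ∈ C := by
  have h1 := h.sSup {a, b} (by rintro x (rfl | rfl) <;> assumption)
  rwa [sSup_pair] at h1

theorem cs_inf {C : Set B} (h : CSub C) {a b : B} (ha : a ∈ C) (hb : b ∈ C) : a ⊓ b ∈ C := by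
  have h1 := h.compl _ (cs_sup h (h.compl a ha) (h.compl b hb))
  rwa [compl_sup, compl_compl, compl_compl] at h1

theorem cs_sInf {C S : Set B} (h : CSub C) (hS : S ⊆ C) : sInf S ∈ C := by
  have h1 := h.compl _ (h.sSup (compl '' S) (by
    rintro _ ⟨x, hx, rfl⟩
    exact h.compl x (hS hx)))
  rw [compl_sSup', Set.image_image] at h1
  simpa using h1

/-- the least element of `C1` above `x` -/
noncomputable def hull (C1 : Set B) (x : B) : B := sInf {c | c ∈ C1 ∧ x ≤ c}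

theorem hull_mem {C1 : Set B} (h : CSub C1) (x : B) : hull C1 x ∈ C1 :=
  cs_sInf h fun _ hc => hc.1

theorem le_hull (C1 : Set B) (x : B) : x ≤ hull C1 x := le_sInf fun _ hc => hc.2

theorem hull_meet {C1 : Set B} (h : CSub C1) {x c : B} (hc : c ∈ C1) (hx : c ⊓ hull C1 x ≠ ⊥) :
    c ⊓ x ≠ ⊥ := by
  intro h0
  refine hx ?_
  have h1 : x ≤ cᶜ := by
    rw [le_compl_iff_disjoint_left]
    exact disjoint_iff.2 h0
  have h2 : hull C1 x ≤ cᶜ := sInf_le ⟨h.compl c hc, h1⟩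
  exact eq_bot_iff.2 ((inf_le_inf_left c h2).trans (inf_compl_eq_bot).le)

/-- the elements of `C1` below which both `r` and its complement are dense in `x` -/
noncomputable def E (C1 : Set B) (x r : B) : B := hull C1 (x ⊓ r) ⊓ hull C1 (x ⊓ rᶜ)

/-- `r` or its complement -/
def bit (r : B) (j : Bool) : B := cond j r rᶜ

theorem E_mem {C1 : Set B} (h : CSub C1) (x r : B) : E C1 x r ∈ C1 :=
  cs_inf h (hull_mem h _) (hull_mem h _)

theorem E_le (C1 : Set B) (x r : B) (j : Bool) : E C1 x r ≤ hull C1 (x ⊓ bit r j) := by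
  cases j
  · exact inf_le_right
  · exact inf_le_left

theorem E_meet {C1 : Set B} (h : CSub C1) {x r c : B} (hc : c ∈ C1) (hx : c ⊓ E C1 x r ≠ ⊥)
    (j : Bool) : c ⊓ E C1 x r ⊓ (x ⊓ bit r j) ≠ ⊥ := by
  refine hull_meet h (cs_inf h hc (E_mem h x r)) ?_
  rw [inf_eq_left.2 (inf_le_right.trans (E_le C1 x r j))]
  exact hx

variable {D : Set B} {Z : Type}

/-- the children of a node `x` of level `n` -/
noncomputable def stp (C1 : Set B) (Y : Colm D Z) (ρ : Z → B) (φ : Z ≃ Z × Bool) (n : ℕ) (x : B)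
    (p : Z × Bool) : B :=
  (E C1 x (ρ p.1) ⊓ Y.G n p.1 ⊓ x ⊓ bit (ρ p.1) p.2) ⊔
    ((E C1 x (ρ p.1))ᶜ ⊓ Y.G n (φ.symm p) ⊓ x)

/-- the tree, for reversed lists -/
noncomputable def dr (C1 : Set B) (Y : Colm D Z) (ρ : Z → B) (φ : Z ≃ Z × Bool) (d : B) :
    List (Z × Bool) → B
  | [] => d
  | p :: s => stp C1 Y ρ φ s.length (dr C1 Y ρ φ d s) p

/-- the tree -/
noncomputable def ds (C1 : Set B) (Y : Colm D Z) (ρ : Z → B) (φ : Z ≃ Z × Bool) (d : B)
    (s : List (Z × Bool)) : B := dr C1 Y ρ φ d s.reverse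

variable {C1 : Set B} {Y : Colm D Z} {ρ : Z → B} {φ : Z ≃ Z × Bool} {d : B}

theorem ds_nil : ds C1 Y ρ φ d [] = d := rfl

theorem ds_snoc (s : List (Z × Bool)) (p : Z × Bool) :
    ds C1 Y ρ φ d (s ++ [p]) = stp C1 Y ρ φ s.length (ds C1 Y ρ φ d s) p := by
  unfold ds
  rw [List.reverse_append, List.reverse_singleton, List.singleton_append, dr,
    List.length_reverse]

theorem stp_le (n : ℕ) (x : B) (p : Z × Bool) : stp C1 Y ρ φ n x p ≤ x :=
  sup_le (inf_le_left.trans inf_le_right) inf_le_right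

theorem Dn_mono (Y : Colm D Z) (n : ℕ) : D ⊆ Y.Dn n := by
  induction n with
  | zero => exact Y.zero.symm.subset
  | succ n ih => exact ih.trans (Y.mono n)

theorem stp_mem (hC1 : CSub C1) (hCD : C1 ⊆ D) (hρ : ∀ z, ρ z ∈ D) {n : ℕ} {x : B}
    (hx : x ∈ Y.Dn n) (p : Z × Bool) : stp C1 Y ρ φ n x p ∈ Y.Dn (n + 1) := by
  have hD := Y.csub (n + 1)
  have h1 : E C1 x (ρ p.1) ∈ Y.Dn (n + 1) := Dn_mono Y (n + 1) (hCD (E_mem hC1 _ _))
  have h2 : bit (ρ p.1) p.2 ∈ Y.Dn (n + 1) := by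
    have h3 := Dn_mono Y (n + 1) (hρ p.1)
    unfold bit
    cases p.2
    · exact hD.compl _ h3
    · exact h3
  have h4 : x ∈ Y.Dn (n + 1) := Y.mono n hx
  exact cs_sup hD (cs_inf hD (cs_inf hD (cs_inf hD h1 (Y.mem _ _)) h4) h2)
    (cs_inf hD (cs_inf hD (hD.compl _ h1) (Y.mem _ _)) h4)

theorem ds_mem (hC1 : CSub C1) (hCD : C1 ⊆ D) (hρ : ∀ z, ρ z ∈ D) (hd : d ∈ C1)
    (s : List (Z × Bool)) : ds C1 Y ρ φ d s ∈ Y.Dn s.length := by
  induction s using List.reverseRecOn with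
  | nil => exact Dn_mono Y 0 (hCD hd)
  | append_singleton s p ih =>
    rw [ds_snoc, List.length_append, List.length_singleton]
    exact stp_mem hC1 hCD hρ ih p

theorem bot_of {a b a' b' : B} (h : a' ⊓ b' = ⊥) (ha : a ≤ a') (hb : b ≤ b') : a ⊓ b = ⊥ :=
  eq_bot_iff.2 ((inf_le_inf ha hb).trans h.le)

theorem stp_disj (hφ : ∀ z, ρ (φ z).1 = ρ z) (n : ℕ) (x : B) {p q : Z × Bool} (hpq : p ≠ q) :
    stp C1 Y ρ φ n x p ⊓ stp C1 Y ρ φ n x q = ⊥ := by
  have hs : ∀ p : Z × Bool, ρ (φ.symm p) = ρ p.1 := fun p => by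
    rw [← hφ (φ.symm p), Equiv.apply_symm_apply]
  have hmix : ∀ p q : Z × Bool,
      (E C1 x (ρ p.1) ⊓ Y.G n p.1 ⊓ x ⊓ bit (ρ p.1) p.2) ⊓
        ((E C1 x (ρ q.1))ᶜ ⊓ Y.G n (φ.symm q) ⊓ x) = ⊥ := by
    intro p q
    by_cases h : p.1 = φ.symm q
    · have h1 : ρ p.1 = ρ q.1 := by rw [h, hs]
      refine bot_of (inf_compl_eq_bot (a := E C1 x (ρ p.1))) ?_ ?_
      · exact inf_le_left.trans (inf_le_left.trans inf_le_left)
      · rw [h1]
        exact inf_le_left.trans inf_le_left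
    · refine bot_of (Y.disj n _ _ h) ?_ ?_
      · exact inf_le_left.trans (inf_le_left.trans inf_le_right)
      · exact inf_le_left.trans inf_le_right
  unfold stp
  rw [inf_sup_left, inf_sup_right, inf_sup_right, hmix p q, inf_comm ((E C1 x (ρ p.1))ᶜ ⊓ _ ⊓ _),
    hmix q p, sup_bot_eq, bot_sup_eq, sup_eq_bot_iff]
  constructor
  · by_cases h : p.1 = q.1
    · have h2 : p.2 ≠ q.2 := fun h2 => hpq (Prod.ext h h2)
      refine bot_of (a' := bit (ρ p.1) p.2) (b' := bit (ρ p.1) q.2) ?_ inf_le_right ?_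
      · revert h2
        unfold bit
        cases p.2 <;> cases q.2 <;> simp
      · rw [h]
        exact inf_le_right
    · refine bot_of (Y.disj n _ _ h) ?_ ?_
      · exact inf_le_left.trans (inf_le_left.trans inf_le_right)
      · exact inf_le_left.trans (inf_le_left.trans inf_le_right)
  · refine bot_of (Y.disj n (φ.symm p) (φ.symm q) fun h => hpq (φ.symm.injective h)) ?_ ?_
    · exact inf_le_left.trans inf_le_right
    · exact inf_le_left.trans inf_le_right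

theorem stp_cover (hφ : ∀ z, ρ (φ z).1 = ρ z) (n : ℕ) (x : B) :
    ⨆ p, stp C1 Y ρ φ n x p = x := by
  refine le_antisymm (iSup_le fun p => stp_le n x p) ?_
  have h1 : x = ⨆ w, x ⊓ Y.G n w := by
    rw [← inf_iSup_eq, Y.cover n, inf_top_eq]
  conv_lhs => rw [h1]
  refine iSup_le fun w => ?_
  have h2 : x ⊓ Y.G n w = (x ⊓ Y.G n w) ⊓ E C1 x (ρ w) ⊔ (x ⊓ Y.G n w) ⊓ (E C1 x (ρ w))ᶜ := by
    rw [← inf_sup_left, sup_compl_eq_top, inf_top_eq]
  rw [h2]
  refine sup_le ?_ ?_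
  · have h3 : x ⊓ Y.G n w ⊓ E C1 x (ρ w) = (x ⊓ Y.G n w ⊓ E C1 x (ρ w)) ⊓ ρ w ⊔
        (x ⊓ Y.G n w ⊓ E C1 x (ρ w)) ⊓ (ρ w)ᶜ := by
      rw [← inf_sup_left, sup_compl_eq_top, inf_top_eq]
    rw [h3]
    refine sup_le (le_iSup_of_le (w, true) (le_sup_of_le_left ?_))
      (le_iSup_of_le (w, false) (le_sup_of_le_left ?_))
    · refine le_inf (le_inf (le_inf ?_ ?_) ?_) inf_le_right
      · exact inf_le_left.trans inf_le_right
      · exact inf_le_left.trans (inf_le_left.trans inf_le_right)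
      · exact inf_le_left.trans (inf_le_left.trans inf_le_left)
    · refine le_inf (le_inf (le_inf ?_ ?_) ?_) inf_le_right
      · exact inf_le_left.trans inf_le_right
      · exact inf_le_left.trans (inf_le_left.trans inf_le_right)
      · exact inf_le_left.trans (inf_le_left.trans inf_le_left)
  · refine le_iSup_of_le (φ w) (le_sup_of_le_right ?_)
    rw [Equiv.symm_apply_apply, hφ w]
    exact le_inf (le_inf inf_le_right (inf_le_left.trans inf_le_right))
      (inf_le_left.trans inf_le_left)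

theorem stp_full (hC1 : CSub C1) (hCD : C1 ⊆ D) (hρ : ∀ z, ρ z ∈ D) {n : ℕ} {x : B}
    (hx : x ∈ Y.Dn n) {c : B} (hc : c ∈ C1) (hcx : c ⊓ x ≠ ⊥) (p : Z × Bool) :
    c ⊓ stp C1 Y ρ φ n x p ≠ ⊥ := by
  have hD := Y.csub n
  have hcD : c ∈ Y.Dn n := Dn_mono Y n (hCD hc)
  have hED : E C1 x (ρ p.1) ∈ Y.Dn n := Dn_mono Y n (hCD (E_mem hC1 _ _))
  by_cases h : c ⊓ E C1 x (ρ p.1) = ⊥
  · have h1 := Y.ind n (c ⊓ x) (cs_inf hD hcD hx) hcx (φ.symm p)
    refine ne_bot_of_le_ne_bot h1 (le_inf (inf_le_left.trans inf_le_left) ?_)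
    refine le_sup_of_le_right (le_inf (le_inf ?_ inf_le_right) (inf_le_left.trans inf_le_right))
    refine inf_le_left.trans (inf_le_left.trans ?_)
    rw [le_compl_iff_disjoint_right]
    exact disjoint_iff.2 h
  · have h1 := E_meet hC1 hc h p.2
    have hb : bit (ρ p.1) p.2 ∈ Y.Dn n := by
      have h3 := Dn_mono Y n (hρ p.1)
      unfold bit
      cases p.2
      · exact hD.compl _ h3
      · exact h3
    have h2 := Y.ind n _ (cs_inf hD (cs_inf hD hcD hED) (cs_inf hD hx hb)) h1 p.1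
    refine ne_bot_of_le_ne_bot h2 (le_inf ?_ (le_sup_of_le_left ?_))
    · exact inf_le_left.trans (inf_le_left.trans inf_le_left)
    · refine le_inf (le_inf (le_inf ?_ inf_le_right) ?_) ?_
      · exact inf_le_left.trans (inf_le_left.trans inf_le_right)
      · exact inf_le_left.trans (inf_le_right.trans inf_le_left)
      · exact inf_le_left.trans (inf_le_right.trans inf_le_right)

theorem ds_le (s : List (Z × Bool)) : ds C1 Y ρ φ d s ≤ d := by
  induction s using List.reverseRecOn with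
  | nil => exact le_rfl
  | append_singleton s p ih =>
    rw [ds_snoc]
    exact (stp_le _ _ _).trans ih

theorem ds_full (hC1 : CSub C1) (hCD : C1 ⊆ D) (hρ : ∀ z, ρ z ∈ D) (hd : d ∈ C1)
    (s : List (Z × Bool)) (c : B) (hc : c ∈ C1) (hcd : c ⊓ d ≠ ⊥) :
    c ⊓ ds C1 Y ρ φ d s ≠ ⊥ := by
  induction s using List.reverseRecOn with
  | nil => exact hcd
  | append_singleton s p ih =>
    rw [ds_snoc]
    exact stp_full hC1 hCD hρ (ds_mem hC1 hCD hρ hd s) hc ih p

theorem GL_snoc (Y : Colm D Z) (t : List Z) (z : Z) {x : B} (h1 : x ≤ Y.GL t)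
    (h2 : x ≤ Y.G t.length z) : x ≤ Y.GL (t ++ [z]) := by
  refine le_iInf fun i => ?_
  rcases Nat.lt_or_ge i.1 t.length with h | h
  · refine h1.trans ((iInf_le _ (⟨i.1, h⟩ : Fin t.length)).trans (le_of_eq ?_))
    simp [List.getElem_append_left h]
  · have h3 : i.1 = t.length := by
      have h4 : i.1 < t.length + 1 := by
        simpa using i.2
      omega
    refine h2.trans (le_of_eq ?_)
    simp [h3]

theorem GL_eq (Y : Colm D Z) (t t' : List Z) (hl : t.length = t'.length)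
    (h : Y.GL t ⊓ Y.GL t' ≠ ⊥) : t = t' := by
  refine List.ext_getElem hl fun i h1 h2 => ?_
  by_contra hne
  refine h (bot_of (Y.disj i _ _ hne) ?_ ?_)
  · exact iInf_le _ (⟨i, h1⟩ : Fin t.length)
  · exact iInf_le _ (⟨i, h2⟩ : Fin t'.length)

theorem stp_inf_le_left (n : ℕ) (x : B) (p : Z × Bool) {c : B} (hc : c ≤ E C1 x (ρ p.1)) :
    c ⊓ stp C1 Y ρ φ n x p ≤ Y.G n p.1 ⊓ bit (ρ p.1) p.2 := by
  unfold stp
  rw [inf_sup_left]
  refine sup_le ?_ ?_
  · exact le_inf (inf_le_right.trans (inf_le_left.trans (inf_le_left.trans inf_le_right)))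
      (inf_le_right.trans inf_le_right)
  · rw [bot_of (inf_compl_eq_bot (a := E C1 x (ρ p.1))) hc (inf_le_left.trans inf_le_left)]
    exact bot_le

theorem stp_inf_le_right (n : ℕ) (x : B) (p : Z × Bool) {c : B} (hc : c ⊓ E C1 x (ρ p.1) = ⊥) :
    c ⊓ stp C1 Y ρ φ n x p ≤ Y.G n (φ.symm p) := by
  unfold stp
  rw [inf_sup_left]
  refine sup_le ?_ ?_
  · rw [bot_of hc le_rfl (inf_le_left.trans (inf_le_left.trans inf_le_left))]
    exact bot_le
  · exact inf_le_right.trans (inf_le_left.trans inf_le_right)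

theorem dens1 (hC1 : CSub C1) (hCD : C1 ⊆ D) (hρ : ∀ z, ρ z ∈ D) (hd : d ∈ C1)
    (s : List (Z × Bool)) : ∀ c ∈ C1, c ⊓ ds C1 Y ρ φ d s ≠ ⊥ →
    ∃ c' ∈ C1, c' ≤ c ∧ ∃ t' : List Z, t'.length = s.length ∧ c' ⊓ ds C1 Y ρ φ d s ≠ ⊥ ∧
      c' ⊓ ds C1 Y ρ φ d s ≤ Y.GL t' := by
  induction s using List.reverseRecOn with
  | nil =>
    intro c hc h
    refine ⟨c, hc, le_rfl, [], rfl, h, le_iInf fun i => ?_⟩
    exact absurd i.2 (Nat.not_lt_zero _)
  | append_singleton s p ih =>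
    intro c hc h
    rw [ds_snoc] at h ⊢
    have h0 : c ⊓ ds C1 Y ρ φ d s ≠ ⊥ :=
      ne_bot_of_le_ne_bot h (inf_le_inf_left c (stp_le _ _ _))
    obtain ⟨c1, hc1, hc1c, t', ht', hne, hle⟩ := ih c hc h0
    have hmem := ds_mem (φ := φ) (Y := Y) hC1 hCD hρ hd s
    by_cases he : c1 ⊓ E C1 (ds C1 Y ρ φ d s) (ρ p.1) = ⊥
    · refine ⟨c1, hc1, hc1c, t' ++ [φ.symm p], ?_, ?_, ?_⟩
      · rw [List.length_append, List.length_append, ht', List.length_singleton,
          List.length_singleton]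
      · exact stp_full hC1 hCD hρ hmem hc1 hne p
      · refine GL_snoc Y t' _ ?_ ?_
        · exact (inf_le_inf_left c1 (stp_le _ _ _)).trans hle
        · rw [ht']
          exact stp_inf_le_right _ _ _ he
    · refine ⟨c1 ⊓ E C1 (ds C1 Y ρ φ d s) (ρ p.1), cs_inf hC1 hc1 (E_mem hC1 _ _),
        inf_le_left.trans hc1c, t' ++ [p.1], ?_, ?_, ?_⟩
      · rw [List.length_append, List.length_append, ht', List.length_singleton,
          List.length_singleton]
      · refine stp_full hC1 hCD hρ hmem (cs_inf hC1 hc1 (E_mem hC1 _ _)) ?_ p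
        exact ne_bot_of_le_ne_bot (E_meet hC1 hc1 he true) (inf_le_inf_left _ inf_le_left)
      · refine GL_snoc Y t' _ ?_ ?_
        · exact (inf_le_inf inf_le_left (stp_le _ _ _)).trans hle
        · rw [ht']
          exact (stp_inf_le_left _ _ _ inf_le_right).trans inf_le_left

theorem level (hφ : ∀ z, ρ (φ z).1 = ρ z) {y : B} (hy : y ≠ ⊥) (hyd : y ≤ d) (n : ℕ) :
    ∃ s : List (Z × Bool), s.length = n ∧ y ⊓ ds C1 Y ρ φ d s ≠ ⊥ := by
  induction n with
  | zero =>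
    refine ⟨[], rfl, ?_⟩
    rw [ds_nil, inf_eq_left.2 hyd]
    exact hy
  | succ n ih =>
    obtain ⟨s, hs, hne⟩ := ih
    rw [← stp_cover (C1 := C1) (Y := Y) hφ s.length (ds C1 Y ρ φ d s), inf_iSup_eq] at hne
    obtain ⟨p, hp⟩ : ∃ p, y ⊓ stp C1 Y ρ φ s.length (ds C1 Y ρ φ d s) p ≠ ⊥ := by
      by_contra hcon
      push Not at hcon
      exact hne (iSup_eq_bot.2 hcon)
    refine ⟨s ++ [p], ?_, ?_⟩
    · rw [List.length_append, List.length_singleton, hs]
    · rw [ds_snoc]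
      exact hp

end

end RCL_

open RCL_ in
theorem p_RCL : T_RCL := by
  intro B _ C1 D hC1 hD hCD Z Y ρ φ hρ hsur hφ d hd
  refine ⟨⟨ds C1 Y ρ φ d, rfl, ?_, ?_, ?_⟩, ?_, ?_⟩
  · intro s i j hij
    rw [ds_snoc, ds_snoc]
    exact stp_disj hφ _ _ hij
  · intro s
    simp only [ds_snoc]
    exact stp_cover hφ _ _
  · intro s c hc hcd
    exact ds_full hC1 hCD hρ hd s c hc hcd
  · intro s
    exact ds_mem hC1 hCD hρ hd s
  · intro e0 he0 t ht
    obtain ⟨s, hs, hne⟩ := level (C1 := C1) (Y := Y) hφ ht inf_le_right t.length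
    set x := ds C1 Y ρ φ d s with hx
    set y := e0 ⊓ Y.GL t ⊓ d ⊓ x with hy
    obtain ⟨c', hc', hc'h, t', ht', hne', hle'⟩ := dens1 (φ := φ) (Y := Y) hC1 hCD hρ hd s
      (hull C1 y) (hull_mem hC1 _) (ne_bot_of_le_ne_bot hne (le_inf (le_hull C1 y) inf_le_right))
    rw [← hx] at hne' hle'
    have hc'0 : c' ≠ ⊥ := ne_bot_of_le_ne_bot hne' inf_le_left
    have hcy : c' ⊓ y ≠ ⊥ := hull_meet hC1 hc' (by rw [inf_eq_left.2 hc'h]; exact hc'0)
    have htt : t' = t := by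
      refine GL_eq Y t' t (ht'.trans hs) (ne_bot_of_le_ne_bot hcy (le_inf ?_ ?_))
      · exact (inf_le_inf_left c' inf_le_right).trans hle'
      · exact inf_le_right.trans (inf_le_left.trans (inf_le_left.trans inf_le_right))
    rw [htt] at hle'
    have hcxe : c' ⊓ x ⊓ e0 ≠ ⊥ := by
      refine ne_bot_of_le_ne_bot hcy (le_inf (inf_le_inf_left c' inf_le_right) ?_)
      exact inf_le_right.trans (inf_le_left.trans (inf_le_left.trans inf_le_left))
    obtain ⟨z, hz⟩ := hsur e0 he0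
    by_cases he : c' ⊓ E C1 x e0 = ⊥
    · refine ⟨c' ⊓ hull C1 (x ⊓ e0), cs_inf hC1 hc' (hull_mem hC1 _), s, ?_, ?_⟩
      · refine ne_bot_of_le_ne_bot hcxe (le_inf (le_inf ?_ ?_) ?_)
        · exact inf_le_left.trans inf_le_left
        · exact (inf_le_inf_right e0 inf_le_right).trans (le_hull C1 _)
        · exact inf_le_left.trans inf_le_right
      · refine le_inf ?_ ?_
        · have h1 : (c' ⊓ hull C1 (x ⊓ e0) ⊓ x) ⊓ e0ᶜ = ⊥ := by
            refine eq_bot_iff.2 (le_trans ?_ he.le)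
            refine le_inf (inf_le_left.trans (inf_le_left.trans inf_le_left)) (le_inf ?_ ?_)
            · exact inf_le_left.trans (inf_le_left.trans inf_le_right)
            · exact (inf_le_inf_right _ inf_le_right).trans (le_hull C1 _)
          have h2 := disjoint_iff.2 h1
          exact disjoint_compl_right_iff.1 h2
        · exact (inf_le_inf_right x inf_le_left).trans hle'
    · have hcE : c' ⊓ E C1 x e0 ∈ C1 := cs_inf hC1 hc' (E_mem hC1 _ _)
      refine ⟨c' ⊓ E C1 x e0, hcE, s ++ [(z, true)], ?_, ?_⟩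
      · refine ds_full hC1 hCD hρ hd _ _ hcE ?_
        refine ne_bot_of_le_ne_bot (E_meet hC1 hc' he true) (inf_le_inf_left _ ?_)
        exact inf_le_left.trans (ds_le s)
      · show c' ⊓ E C1 x e0 ⊓ ds C1 Y ρ φ d (s ++ [(z, true)]) ≤ e0 ⊓ Y.GL t
        rw [ds_snoc, ← hx]
        refine le_inf ?_ ?_
        · have h1 := stp_inf_le_left (C1 := C1) (Y := Y) (ρ := ρ) (φ := φ) s.length x (z, true)
            (c := c' ⊓ E C1 x e0) (by
              show c' ⊓ E C1 x e0 ≤ E C1 x (ρ z)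
              rw [hz]
              exact inf_le_right)
          refine h1.trans (inf_le_right.trans (le_of_eq ?_))
          show bit (ρ z) true = e0
          rw [hz]
          rfl
        · exact (inf_le_inf inf_le_left (stp_le _ _ _)).trans hle'

end SLV
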