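import Pool.Agent.SLV.T3
import Pool.Agent.SLV.PIB

/-!
# MP_0a8ab4_lc, project SLV: the correspondence respects the Boolean operations (helper33)
-/

set_option autoImplicit false

namespace SLV

namespace RL_

variable {B : Type} [CompleteBooleanAlgebra B] {d d' : B}
  (π : PI (Set.univ : Set B) d Set.univ d')

theorem inf_d (z : B) (d : B) : (z ⊓ d)ᶜ ⊓ d = zᶜ ⊓ d := by
  rw [compl_inf, inf_sup_right, compl_inf_self, sup_bot_eq]

theorem top : Rl π ⊤ ⊤ := by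
  obtain ⟨_, h2, _, _, _⟩ := p_PIB B _ _ CSub.univ CSub.univ d trivial d' trivial π
  unfold Rl
  rw [top_inf_eq, top_inf_eq, h2]

theorem bot : Rl π ⊥ ⊥ := by
  obtain ⟨h1, _, _, _, _⟩ := p_PIB B _ _ CSub.univ CSub.univ d trivial d' trivial π
  unfold Rl
  rw [bot_inf_eq, bot_inf_eq, h1]

theorem inf {z z' w w' : B} (hz : Rl π z z') (hw : Rl π w w') : Rl π (z ⊓ w) (z' ⊓ w') := by
  obtain ⟨_, _, h3, _, _⟩ := p_PIB B _ _ CSub.univ CSub.univ d trivial d' trivial π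
  unfold Rl at *
  have e : z ⊓ w ⊓ d = (z ⊓ d) ⊓ (w ⊓ d) := by
    rw [inf_inf_distrib_right]
  have e' : z' ⊓ w' ⊓ d' = (z' ⊓ d') ⊓ (w' ⊓ d') := by
    rw [inf_inf_distrib_right]
  rw [e, h3 _ trivial _ trivial inf_le_right inf_le_right, hz, hw, e']

theorem compl {z z' : B} (hz : Rl π z z') : Rl π zᶜ z'ᶜ := by
  obtain ⟨_, _, _, _, h5⟩ := p_PIB B _ _ CSub.univ CSub.univ d trivial d' trivial π
  unfold Rl at *
  rw [← inf_d z d, h5 _ trivial inf_le_right, hz, inf_d]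

theorem iSup {ι ι' : Type} {z : ι → B} {z' : ι' → B} (h : ∀ i, ∃ j, Rl π (z i) (z' j))
    (h' : ∀ j, ∃ i, Rl π (z i) (z' j)) : Rl π (⨆ i, z i) (⨆ j, z' j) := by
  obtain ⟨_, _, _, h4, _⟩ := p_PIB B _ _ CSub.univ CSub.univ d trivial d' trivial π
  unfold Rl at *
  have e : (⨆ i, z i) ⊓ d = sSup (Set.range fun i => z i ⊓ d) := by
    rw [iSup_inf_eq]; rfl
  have e' : (⨆ j, z' j) ⊓ d' = sSup (Set.range fun j => z' j ⊓ d') := by
    rw [iSup_inf_eq]; rfl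
  rw [e, h4 _ (Set.subset_univ _) (by rintro _ ⟨i, rfl⟩; exact inf_le_right), e']
  congr 1
  ext x
  constructor
  · rintro ⟨_, ⟨i, rfl⟩, rfl⟩
    obtain ⟨j, hj⟩ := h i
    exact ⟨j, hj.symm⟩
  · rintro ⟨j, rfl⟩
    obtain ⟨i, hi⟩ := h' j
    exact ⟨_, ⟨i, rfl⟩, hi⟩

theorem iInf {ι ι' : Type} {z : ι → B} {z' : ι' → B} (h : ∀ i, ∃ j, Rl π (z i) (z' j))
    (h' : ∀ j, ∃ i, Rl π (z i) (z' j)) : Rl π (⨅ i, z i) (⨅ j, z' j) := by
  have h1 : Rl π (⨆ i, (z i)ᶜ) (⨆ j, (z' j)ᶜ) := by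
    refine iSup π (fun i => ?_) (fun j => ?_)
    · obtain ⟨j, hj⟩ := h i
      exact ⟨j, compl π hj⟩
    · obtain ⟨i, hi⟩ := h' j
      exact ⟨i, compl π hi⟩
  have h2 := compl π h1
  rw [compl_iSup, compl_iSup] at h2
  simpa only [compl_compl] using h2

theorem himp {z z' w w' : B} (hz : Rl π z z') (hw : Rl π w w') : Rl π (z ⇨ w) (z' ⇨ w') := by
  have h := compl π (inf π hz (compl π hw))
  have e : ∀ a b : B, (a ⊓ bᶜ)ᶜ = a ⇨ b := by
    intro a b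
    rw [compl_inf, compl_compl, himp_eq, sup_comm]
  rw [e, e] at h
  exact h

end RL_

theorem p_RL : T_RL := by
  intro B _ d d' π
  refine ⟨RL_.top π, RL_.bot π, fun z z' w w' => RL_.inf π, fun z z' w w' => RL_.himp π,
    fun z z' => RL_.compl π, fun ι ι' z z' h h' => ⟨RL_.iSup π h h', RL_.iInf π h h'⟩,
    fun z => ?_, fun z' => ?_⟩
  · refine ⟨π.f (z ⊓ d), ?_⟩
    unfold Rl
    exact (inf_eq_left.2 (π.fG _ trivial inf_le_right).2).symm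
  · refine ⟨π.g (z' ⊓ d'), ?_⟩
    unfold Rl
    rw [inf_eq_left.2 (π.gG _ trivial inf_le_right).2]
    exact π.fg _ trivial inf_le_right

end SLV
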