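import Mathlib
import Pool.Agent.SLV.T1

/-!
# MP_0a8ab4_lc, project SLV: `T_SPC` (helper85)

The elements with support in `J` form a complete subalgebra.
-/

set_option autoImplicit false

namespace SLV

open Cardinal CofSN

open Classical in
/-- `r` on `J`, `q` off `J` -/
noncomputable def SPC_mix {K : Type} [LinearOrder K] (J : Set (K × ℕ)) (r q : Lv K) : Lv K where
  f := fun j => if j ∈ J then r.f j else q.f j
  fin := by
    refine (r.fin.union q.fin).subset ?_
    intro j hj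
    simp only [Set.mem_setOf_eq] at hj
    by_cases h : j ∈ J
    · rw [if_pos h] at hj
      exact Or.inl hj
    · rw [if_neg h] at hj
      exact Or.inr hj
  lt := by
    intro j k hk
    by_cases h : j ∈ J
    · rw [if_pos h] at hk
      exact r.lt j k hk
    · rw [if_neg h] at hk
      exact q.lt j k hk

theorem SPC_mix_agree {K : Type} [LinearOrder K] (J : Set (K × ℕ)) (r q : Lv K) :
    ∀ j ∈ J, r.f j = (SPC_mix J r q).f j := by
  intro j hj
  simp [SPC_mix, hj]

theorem SPC_mix_le {K : Type} [LinearOrder K] (J : Set (K × ℕ)) (r p q : Lv K)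
    (hrp : r ≤ p) (hpq : ∀ j ∈ J, p.f j = q.f j) : SPC_mix J r q ≤ q := by
  intro j k hk
  by_cases h : j ∈ J
  · have : (SPC_mix J r q).f j = r.f j := (SPC_mix_agree J r q j h).symm
    rw [this]
    exact hrp j k ((hpq j h).trans hk)
  · simp only [SPC_mix, if_neg h]
    exact hk

/-- a set of conditions closed under agreement on `J` -/
theorem SPC_half {K : Type} [LinearOrder K] (J : Set (K × ℕ)) (P : Lv K → Prop)
    (hP : ∀ p q : Lv K, (∀ j ∈ J, p.f j = q.f j) → (P p ↔ P q))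
    (p q : Lv K) (hpq : ∀ j ∈ J, p.f j = q.f j) (h : ∀ r ≤ p, P r) : ∀ r ≤ q, P r := by
  intro r hr
  have h1 : SPC_mix J r p ≤ p := SPC_mix_le J r q p hr (fun j hj => (hpq j hj).symm)
  exact (hP r _ (SPC_mix_agree J r p)).2 (h _ h1)

theorem SPC_all {K : Type} [LinearOrder K] (J : Set (K × ℕ)) (P : Lv K → Prop)
    (hP : ∀ p q : Lv K, (∀ j ∈ J, p.f j = q.f j) → (P p ↔ P q))
    (p q : Lv K) (hpq : ∀ j ∈ J, p.f j = q.f j) : (∀ r ≤ p, P r) ↔ ∀ r ≤ q, P r :=
  ⟨SPC_half J P hP p q hpq, SPC_half J P hP q p (fun j hj => (hpq j hj).symm)⟩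

theorem SPC_ex {K : Type} [LinearOrder K] (J : Set (K × ℕ)) (P : Lv K → Prop)
    (hP : ∀ p q : Lv K, (∀ j ∈ J, p.f j = q.f j) → (P p ↔ P q))
    (p q : Lv K) (hpq : ∀ j ∈ J, p.f j = q.f j) : (∃ r ≤ p, P r) ↔ ∃ r ≤ q, P r := by
  have := SPC_all J (fun r => ¬ P r) (fun p q h => not_congr (hP p q h)) p q hpq
  constructor
  · rintro ⟨r, hr, h⟩
    by_contra hc
    push_neg at hc
    exact this.2 hc r hr h
  · rintro ⟨r, hr, h⟩
    by_contra hc
    push_neg at hc
    exact this.1 hc r hr h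

/-- **(SPC)** `Sp J` is a complete subalgebra. -/
theorem p_SPC : T_SPC := by
  intro K _ J
  constructor
  · intro U hU p q hpq
    rw [RO.mem_compl, RO.mem_compl]
    exact SPC_all J (fun r => r ∉ U) (fun p q h => not_congr (hU p q h)) p q hpq
  · intro S hS p q hpq
    rw [RO.mem_sSup, RO.mem_sSup]
    refine SPC_all J (fun r => ∃ s ≤ r, ∃ U ∈ S, s ∈ U) ?_ p q hpq
    intro p q hpq
    refine SPC_ex J (fun r => ∃ U ∈ S, r ∈ U) ?_ p q hpq
    intro p q hpq
    constructor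
    · rintro ⟨U, hU, h⟩
      exact ⟨U, hU, (hS hU p q hpq).1 h⟩
    · rintro ⟨U, hU, h⟩
      exact ⟨U, hU, (hS hU p q hpq).2 h⟩

end SLV
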