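import Mathlib
import Pool.Agent.SLV.T1

/-!
# MP_0a8ab4_lc, project SLV: the tree in the Levy algebra (helper3)
-/

set_option autoImplicit false

namespace SLV

open Cardinal CofSN

namespace SYS_

variable {K : Type} [LinearOrder K]

theorem Sp_mono {J J' : Set (K × ℕ)} (h : J ⊆ J') {U : BL K} (hU : U ∈ Sp J) : U ∈ Sp J' :=
  fun p q hpq => hU p q fun j hj => hpq j (h hj)

theorem mem_cn {p q : Lv K} : q ∈ cn p ↔ ∀ r ≤ q, ∃ r' ≤ r, r' ≤ p := by
  unfold cn
  rw [RO.mem_gen]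
  simp

theorem mem_cn_of_le {p q : Lv K} (h : q ≤ p) : q ∈ cn p :=
  mem_cn.2 fun r hr => ⟨r, le_rfl, hr.trans h⟩

open Classical in
/-- the condition with the single coordinate `(nu, n)` and the value `k` -/
noncomputable def sgl (nu : K) (n : ℕ) (k : Set.Iio nu) : Lv K where
  f j := if j = (nu, n) then some k.1 else none
  fin := (Set.finite_singleton (nu, n)).subset fun j hj => by
    by_contra h
    exact hj (if_neg h)
  lt j k' h := by
    split at h
    · next hj =>
      rw [hj]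
      rw [← Option.some.inj h]
      exact k.2
    · exact absurd h (by simp)

theorem le_sgl {nu : K} {n : ℕ} {k : Set.Iio nu} {q : Lv K} :
    q ≤ sgl nu n k ↔ q.f (nu, n) = some k.1 := by
  constructor
  · intro h
    exact h (nu, n) k.1 (if_pos rfl)
  · intro h j k' hj
    change (if j = (nu, n) then some k.1 else none) = some k' at hj
    split at hj
    · next hj' =>
      rw [hj', h, ← Option.some.inj hj]
    · exact absurd hj (by simp)

open Classical in
/-- the restriction of a condition -/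
noncomputable def rst (J : Set (K × ℕ)) (p : Lv K) : Lv K where
  f j := if j ∈ J then p.f j else none
  fin := p.fin.subset fun j hj => by
    intro h
    apply hj
    simp [h]
  lt j k h := by
    split at h
    · exact p.lt j k h
    · exact absurd h (by simp)

theorem rst_of_mem {J : Set (K × ℕ)} {p : Lv K} {j : K × ℕ} (hj : j ∈ J) :
    (rst J p).f j = p.f j := if_pos hj

theorem rst_of_notMem {J : Set (K × ℕ)} {p : Lv K} {j : K × ℕ} (hj : j ∉ J) :
    (rst J p).f j = none := if_neg hj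

open Classical in
/-- all coordinates `(nu, n)`, `n < N`, are filled with `k0` -/
noncomputable def fil (nu : K) (k0 : Set.Iio nu) (N : ℕ) (p : Lv K) : Lv K where
  f j := if p.f j = none ∧ j.1 = nu ∧ j.2 < N then some k0.1 else p.f j
  fin := by
    have h1 : ((fun n : ℕ => (nu, n)) '' (Finset.range N : Set ℕ)).Finite :=
      (Finset.range N).finite_toSet.image _
    refine (p.fin.union h1).subset fun j hj => ?_
    by_cases h : p.f j = none ∧ j.1 = nu ∧ j.2 < N
    · right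
      exact ⟨j.2, by simpa using h.2.2, by rw [← h.2.1]⟩
    · left
      simp only [Set.mem_setOf_eq] at hj ⊢
      rwa [if_neg h] at hj
  lt j k h := by
    split at h
    · next hj =>
      rw [← Option.some.inj h, hj.2.1]
      exact k0.2
    · exact p.lt j k h

theorem fil_le (nu : K) (k0 : Set.Iio nu) (N : ℕ) (p : Lv K) : fil nu k0 N p ≤ p := by
  intro j k hj
  change (if p.f j = none ∧ j.1 = nu ∧ j.2 < N then some k0.1 else p.f j) = some k
  rw [if_neg (by rw [hj]; simp)]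
  exact hj

theorem fil_ne (nu : K) (k0 : Set.Iio nu) (N : ℕ) (p : Lv K) {n : ℕ} (hn : n < N) :
    (fil nu k0 N p).f (nu, n) ≠ none := by
  change (if p.f (nu, n) = none ∧ (nu, n).1 = nu ∧ (nu, n).2 < N then some k0.1
    else p.f (nu, n)) ≠ none
  split
  · simp
  · next h =>
    intro h'
    exact h ⟨h', rfl, hn⟩

theorem fil_none (nu : K) (k0 : Set.Iio nu) (N : ℕ) (p : Lv K) {n : ℕ} (hn : N ≤ n) :
    (fil nu k0 N p).f (nu, n) = p.f (nu, n) := by
  change (if p.f (nu, n) = none ∧ (nu, n).1 = nu ∧ (nu, n).2 < N then some k0.1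
    else p.f (nu, n)) = p.f (nu, n)
  rw [if_neg]
  intro h
  exact absurd h.2.2 (by simpa using hn)

/-- the coordinates below `mu` and the first `n` coordinates of the column `nu` -/
def JJ (mu nu : K) (n : ℕ) : Set (K × ℕ) := {j | j.1 < mu ∨ (j.1 = nu ∧ j.2 < n)}

theorem JJ_zero (mu nu : K) : JJ mu nu 0 = lowc mu := by
  ext j
  simp [JJ, lowc]

theorem JJ_mono (mu nu : K) (n : ℕ) : JJ mu nu n ⊆ JJ mu nu (n + 1) := by
  rintro j (h | h)
  · exact Or.inl h
  · exact Or.inr ⟨h.1, by omega⟩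

theorem JJ_sub (mu nu : K) (n : ℕ) : JJ mu nu n ⊆ lowcol mu nu := by
  rintro j (h | h)
  · exact Or.inl h
  · exact Or.inr h.1

/-- the generic column -/
noncomputable def col (hSPC : T_SPC) (hCNF : T_CNF) {mu nu : K} (hmn : mu ≤ nu) {Z : Type}
    (e : Z ≃ Set.Iio nu) [Nonempty Z] : Colm (Blow mu) Z where
  Dn n := Sp (JJ mu nu n)
  zero := by rw [JJ_zero]; rfl
  csub n := hSPC K _
  mono n := fun _ h => Sp_mono (JJ_mono mu nu n) h
  G n z := cn (sgl nu n (e z))
  mem n z := by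
    refine (hCNF K).2.2.2.2.1 _ _ fun j hj => ?_
    by_contra h
    apply hj
    refine if_neg fun hj' => h ?_
    rw [hj']
    exact Or.inr ⟨rfl, Nat.lt_succ_self n⟩
  disj n z z' hz := by
    by_contra h
    obtain ⟨r, h1, h2⟩ := ((hCNF K).2.2.2.2.2 _ _).1 h
    rw [le_sgl] at h1 h2
    apply hz
    apply e.injective
    apply Subtype.ext
    rw [h1] at h2
    exact Option.some.inj h2
  cover n := by
    rw [RO.eq_top_iff']
    intro p
    rw [RO.mem_iSup]
    intro q _
    obtain ⟨z0⟩ := (inferInstance : Nonempty Z)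
    cases h : (fil nu (e z0) (n + 1) q).f (nu, n) with
    | none => exact absurd h (fil_ne nu (e z0) (n + 1) q (Nat.lt_succ_self n))
    | some k =>
      refine ⟨fil nu (e z0) (n + 1) q, fil_le _ _ _ _,
        e.symm ⟨k, (fil nu (e z0) (n + 1) q).lt _ _ h⟩, mem_cn_of_le ?_⟩
      rw [le_sgl, h, Equiv.apply_symm_apply]
  ind n y hy hy0 z := by
    refine (hCNF K).2.2.2.1 _ y _ hy hy0 fun j hj => ?_
    refine if_neg fun h => ?_
    rw [h] at hj
    rcases hj with hj | hj
    · exact absurd hj (not_lt.2 hmn)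
    · exact absurd hj.2 (lt_irrefl n)

theorem exists_ext {r : Lv K} {p1 : Lv K} {N : ℕ} {P : ℕ → Lv K} (h1 : r ∈ cn p1)
    (h2 : ∀ i < N, r ∈ cn (P i)) (r' : Lv K) (hr : r' ≤ r) :
    ∃ r'' ≤ r', r'' ≤ p1 ∧ ∀ i < N, r'' ≤ P i := by
  induction N with
  | zero =>
    obtain ⟨r'', h, h'⟩ := mem_cn.1 h1 r' hr
    exact ⟨r'', h, h', fun i hi => absurd hi (Nat.not_lt_zero i)⟩
  | succ N ih =>
    obtain ⟨s, hs, hs1, hs2⟩ := ih fun i hi => h2 i (by omega)
    obtain ⟨t, ht, ht'⟩ := mem_cn.1 (h2 N (Nat.lt_succ_self N)) s (hs.trans hr)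
    refine ⟨t, ht.trans hs, ht.trans hs1, fun i hi => ?_⟩
    rcases Nat.lt_succ_iff_lt_or_eq.1 hi with hi | hi
    · exact ht.trans (hs2 i hi)
    · rw [hi]; exact ht'

/-- density of the elements `e ⊓ GL t` -/
theorem dense (hSPC : T_SPC) (hCNF : T_CNF) {mu nu : K} (hmn : mu ≤ nu) {Z : Type}
    (e : Z ≃ Set.Iio nu) [Nonempty Z] {d z : BL K} (hd : d ∈ Blow mu)
    (hz : z ∈ Sp (lowcol mu nu)) (hzd : z ⊓ d ≠ ⊥) :
    ∃ a ∈ Blow mu, ∃ t : List Z, a ⊓ (col hSPC hCNF hmn e).GL t ⊓ d ≠ ⊥ ∧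
      a ⊓ (col hSPC hCNF hmn e).GL t ≤ z := by
  obtain ⟨z0⟩ := (inferInstance : Nonempty Z)
  obtain ⟨p, hp⟩ := (hCNF K).2.1 _ hzd
  -- a bound for the coordinates in the column
  have hfin : {n : ℕ | p.f (nu, n) ≠ none}.Finite := by
    refine Set.Finite.preimage (f := fun n => (nu, n)) ?_ p.fin
    intro a _ b _ h
    exact (Prod.mk.inj h).2
  obtain ⟨N0, hN0⟩ := hfin.bddAbove
  obtain ⟨N, hN⟩ : ∃ N, N = N0 + 1 := ⟨_, rfl⟩
  set p' := fil nu (e z0) N p with hp'
  have hle : p' ≤ p := fil_le _ _ _ _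
  have hpz : p' ∈ z := RO.mem_down hp.1 hle
  have hpd : p' ∈ d := RO.mem_down hp.2 hle
  have hne : ∀ n < N, p'.f (nu, n) ≠ none := fun n hn => fil_ne _ _ _ _ hn
  have hno : ∀ n, N ≤ n → p'.f (nu, n) = none := by
    intro n hn
    rw [hp', fil_none _ _ _ _ hn]
    by_contra h
    have := hN0 (show n ∈ {n | p.f (nu, n) ≠ none} from h)
    omega
  -- the values
  have hv : ∀ n, ∃ k : Set.Iio nu, n < N → p'.f (nu, n) = some k.1 := by
    intro n
    by_cases hn : n < N
    · obtain ⟨k, hk⟩ := Option.ne_none_iff_exists'.1 (hne n hn)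
      exact ⟨⟨k, p'.lt _ _ hk⟩, fun _ => hk⟩
    · exact ⟨e z0, fun h => absurd h hn⟩
  choose v hv using hv
  set q := rst (lowcol mu nu) p' with hq
  have hqz : q ∈ z := (hz q p' fun j hj => rst_of_mem hj).2 hpz
  have hqd : q ∈ d := (hd q p' fun j hj => rst_of_mem (Or.inl hj)).2 hpd
  set a1 := rst (lowc mu) p' with ha1
  set t : List Z := (List.range N).map fun n => e.symm (v n) with ht
  have htl : t.length = N := by simp [ht]
  have htg : ∀ i : Fin t.length, e (t.get i) = v i := by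
    intro i
    simp [ht]
  have hqa : q ≤ a1 := by
    intro j k hj
    by_cases h : j ∈ lowc mu
    · rw [ha1, rst_of_mem h] at hj
      rw [hq, rst_of_mem (Or.inl h)]
      exact hj
    · rw [ha1, rst_of_notMem h] at hj
      exact absurd hj (by simp)
  have hqs : ∀ n < N, q ≤ sgl nu n (v n) := by
    intro n hn
    rw [le_sgl, hq, rst_of_mem (Or.inr rfl)]
    exact hv n hn
  refine ⟨cn a1, ?_, t, ?_, ?_⟩
  · refine (hCNF K).2.2.2.2.1 _ _ fun j hj => ?_
    by_contra h
    exact hj (rst_of_notMem h)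
  · intro hbot
    have hmem : q ∈ cn a1 ⊓ (col hSPC hCNF hmn e).GL t ⊓ d := by
      refine ⟨⟨mem_cn_of_le hqa, ?_⟩, hqd⟩
      unfold Colm.GL
      refine RO.mem_iInf.2 fun i => ?_
      change q ∈ cn (sgl nu (i : ℕ) (e (t.get i)))
      rw [htg i]
      exact mem_cn_of_le (hqs _ (by have := i.2; omega))
    rw [hbot] at hmem
    exact RO.notMem_bot q hmem
  · intro r hr
    refine RO.mem_reg fun r' hr' => ?_
    have h2 : ∀ i < N, r ∈ cn (sgl nu i (v i)) := by
      intro i hi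
      have h3 := RO.mem_iInf.1 hr.2 ⟨i, by omega⟩
      change r ∈ cn (sgl nu i (e (t.get ⟨i, _⟩))) at h3
      rw [htg] at h3
      exact h3
    obtain ⟨s, hs, hs1, hs2⟩ := exists_ext hr.1 h2 r' hr'
    refine ⟨s, hs, RO.mem_down hqz fun j k hj => ?_⟩
    by_cases hj1 : j ∈ lowc mu
    · refine hs1 j k ?_
      rw [hq, rst_of_mem (Or.inl hj1)] at hj
      rw [ha1, rst_of_mem hj1]
      exact hj
    · by_cases hj2 : j.1 = nu
      · obtain ⟨j1, n⟩ := j
        simp only at hj2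
        subst hj2
        rw [hq, rst_of_mem (Or.inr rfl)] at hj
        by_cases hn : n < N
        · have h3 := le_sgl.1 (hs2 n hn)
          rw [h3, ← hj, hv n hn]
        · rw [hno n (not_lt.1 hn)] at hj
          exact absurd hj (by simp)
      · rw [hq, rst_of_notMem] at hj
        · exact absurd hj (by simp)
        · rintro (h | h)
          · exact hj1 h
          · exact hj2 h

end SYS_

open SYS_

theorem p_SYS (hRCL : T_RCL) (hSPC : T_SPC) (hCNF : T_CNF) (hCAR : T_CAR) : T_SYS := by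
  intro K _ hK mu
  -- the index set of the column
  set Z : Type := ↥(Blow (K := K) mu) × Set (Set.Iio mu) × ℕ with hZdef
  have hZ : #Z < #K := by
    rw [hZdef]
    simp only [Cardinal.mk_prod, Cardinal.lift_id, Cardinal.mk_nat]
    refine Cardinal.mul_lt_of_lt hK.unc.le (hCAR K hK mu).1 ?_
    refine Cardinal.mul_lt_of_lt hK.unc.le (hK.pow _ (hK.small mu)) hK.unc
  obtain ⟨nu, ⟨e0⟩⟩ := hK.init Z hZ
  have e : Z ≃ Set.Iio nu := e0.symm
  have hmn : mu ≤ nu := by
    by_contra h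
    rw [not_le] at h
    have h1 : #(Set.Iio nu) ≤ #(Set.Iio mu) :=
      Cardinal.mk_le_mk_of_subset (Set.Iio_subset_Iio h.le)
    have h2 : #(Set (Set.Iio mu)) ≤ #Z := by
      refine Cardinal.mk_le_of_injective (f := fun s => ((⟨⊤, fun p q _ => Iff.rfl⟩ :
        ↥(Blow (K := K) mu)), s, 0)) ?_
      intro s s' hs
      exact (Prod.mk.inj (Prod.mk.inj hs).2).1
    have h3 : #Z = #(Set.Iio nu) := Cardinal.mk_congr e
    have h4 : #(Set.Iio mu) < #(Set (Set.Iio mu)) := by
      rw [Cardinal.mk_set]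
      exact Cardinal.cantor _
    exact absurd ((h2.trans (h3.le.trans h1)).trans_lt h4) (lt_irrefl _)
  haveI : Nonempty Z := ⟨(⟨⊤, fun p q _ => Iff.rfl⟩, ∅, 0)⟩
  refine ⟨nu, Z × Bool, hmn, fun C1 hC1 hC1mu d hd => ?_⟩
  let β : ℕ ≃ Bool × ℕ := Equiv.boolProdNatEquivNat.symm
  let φ : Z ≃ Z × Bool :=
    { toFun := fun z => ((z.1, z.2.1, (β z.2.2).2), (β z.2.2).1)
      invFun := fun z => (z.1.1, z.1.2.1, β.symm (z.2, z.1.2.2))
      left_inv := by
        rintro ⟨a, m, n⟩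
        simp
      right_inv := by
        rintro ⟨⟨a, m, n⟩, b⟩
        simp }
  obtain ⟨T, hT1, hT2⟩ := hRCL (BL K) C1 (Blow mu) hC1 (hSPC K _) hC1mu Z
    (col hSPC hCNF hmn e) (fun z => z.1.1) φ (fun z => z.1.2)
    (fun a ha => ⟨(⟨a, ha⟩, ∅, 0), rfl⟩) (fun z => rfl) d hd
  refine ⟨T, fun s => Sp_mono (JJ_sub mu nu _) (hT1 s), fun z hz hzd => ?_⟩
  obtain ⟨a, ha, t, h1, h2⟩ := dense hSPC hCNF hmn e (hC1mu hd) hz hzd
  obtain ⟨c, hc, s, h3, h4⟩ := hT2 a ha t h1
  exact ⟨c, hc, s, h3, h4.trans h2⟩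

end SLV
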