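import Pool.Agent.SLV.T3

/-!
# MP_0a8ab4_lc, project SLV: corresponding names of sequences have corresponding codes (helper84)
-/

set_option autoImplicit false

namespace SLV

open BSet

theorem p_TCN (hINV : T_INV) (hM1 : T_M1) (hTNR : T_TNR) : T_TCN := by
  intro B _ d d' π X _ _ e x x' hx
  unfold codeN
  refine (hTNR B d d' π).2.1 _ _ fun k => ?_
  have hA : Mes {z : ℕ → X | ∃ n, e (pre z n) = k} := by
    have h1 : ∀ n : ℕ, Mes {z : ℕ → X | e (pre z n) = k} := fun n =>
      hM1 X _ n fun z z' hz => by
        have : pre z n = pre z' n := by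
          unfold pre
          exact List.map_congr_left fun i hi => hz i (List.mem_range.1 hi)
        simp [this]
    have h2 : {z : ℕ → X | ∃ n, e (pre z n) = k} = ⋃ n, {z : ℕ → X | e (pre z n) = k} := by
      ext z
      simp
    rw [h2]
    exact @MeasurableSet.iUnion _ _ (bsp X) _ _ h1
  exact hINV B d d' π X x x' hx _ hA

end SLV
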