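import Mathlib
import Pool.Agent.SLV.T3

/-!
# MP_0a8ab4_lc, project SLV: every level of the hierarchy corresponds to itself (T_TLR, helper5)
-/

set_option autoImplicit false

namespace SLV.TLR_

open BSet

variable {B : Type} [CompleteBooleanAlgebra B] {d d' : B}
  {π : PI (Set.univ : Set B) d Set.univ d'}

theorem trn_iff (S S' : BSet B) : Trn π S S' ↔
    (∀ i : S.ty, ∃ j : S'.ty, Rl π (S.vl i) (S'.vl j) ∧ Trn π (S.el i) (S'.el j)) ∧
      ∀ j : S'.ty, ∃ i : S.ty, Rl π (S.vl i) (S'.vl j) ∧ Trn π (S.el i) (S'.el j) := by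
  cases S with
  | mk ι A b =>
    cases S' with
    | mk ι' A' b' =>
      rw [Trn]
      rfl

theorem trn_unn (I : Type) (f g : I → BSet B) (h : ∀ i, Trn π (f i) (g i)) :
    Trn π (unn I f) (unn I g) := by
  rw [trn_iff]
  constructor
  · rintro ⟨i, a⟩
    obtain ⟨b, hb⟩ := ((trn_iff (f i) (g i)).1 (h i)).1 a
    exact ⟨⟨i, b⟩, hb⟩
  · rintro ⟨i, b⟩
    obtain ⟨a, ha⟩ := ((trn_iff (f i) (g i)).1 (h i)).2 b
    exact ⟨⟨i, a⟩, ha⟩

theorem trn_dfn (h_TVL : T_TVL) (h_RL : T_RL) (M M' : BSet B) (h : Trn π M M') :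
    Trn π (Dfn M) (Dfn M') := by
  have h1 := (trn_iff M M').1 h
  have key : ∀ (φ : Fml) (v : ℕ → M.ty) (v' : ℕ → M'.ty), (∀ n, Ix π M M' (v n) (v' n)) →
      Rl π (⨅ n, M.vl (v n)) (⨅ n, M'.vl (v' n)) ∧ Trn π (sub M φ v) (sub M' φ v') := by
    intro φ v v' hv
    refine ⟨?_, (h_TVL B d d' π M M' h φ v v' hv).2⟩
    exact ((h_RL B d d' π).2.2.2.2.2.1 ℕ ℕ (fun n => M.vl (v n)) (fun n => M'.vl (v' n))
      (fun n => ⟨n, (hv n).1⟩) (fun n => ⟨n, (hv n).1⟩)).2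
  rw [trn_iff]
  constructor
  · rintro ⟨φ, v⟩
    choose v' hv' using fun n => h1.1 (v n)
    exact ⟨(φ, v'), key φ v v' hv'⟩
  · rintro ⟨φ, v'⟩
    choose v hv using fun n => h1.2 (v' n)
    exact ⟨(φ, v), key φ v v' hv⟩

end SLV.TLR_

namespace SLV

open BSet TLR_

theorem p_TLR (h_TVL : T_TVL) (h_TNR : T_TNR) (h_LRU : T_LRU) (h_RL : T_RL) : T_TLR := by
  intro B _ d d' π α
  induction α using WellFoundedLT.induction with
  | ind α ih =>
    rw [(h_LRU B).1 α]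
    refine trn_unn _ _ _ fun o => ?_
    cases o with
    | none => exact (h_TNR B d d' π).2.2
    | some β => exact trn_dfn h_TVL h_RL _ _ (ih _ (Ordinal.typein_lt_self β))

end SLV
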