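import Mathlib
import Pool.Agent.SLV.T3

/-!
# SLV-TNR: naturals, reals and the power set correspond to themselves (helper12, for helper90)
-/

set_option autoImplicit false

namespace SLV

open Cardinal CofSN Pool.Agent.MadBlock BSet

namespace TNR_

variable {B : Type} [CompleteBooleanAlgebra B] {d d' : B}

theorem trn_mk (π : PI (Set.univ : Set B) d Set.univ d') {ι ι' : Type} {A : ι → BSet B}
    {b : ι → B} {A' : ι' → BSet B} {b' : ι' → B}
    (h1 : ∀ i, ∃ j, Rl π (b i) (b' j) ∧ Trn π (A i) (A' j))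
    (h2 : ∀ j, ∃ i, Rl π (b i) (b' j) ∧ Trn π (A i) (A' j)) :
    Trn π (BSet.mk ι A b) (BSet.mk ι' A' b') := by
  rw [Trn]
  exact ⟨h1, h2⟩

theorem trn_nat (π : PI (Set.univ : Set B) d Set.univ d') (h : Rl π ⊤ ⊤) (n : ℕ) :
    Trn π (natN n) (natN n) := by
  induction n using Nat.strong_induction_on with
  | _ n ih =>
    rw [natN]
    exact trn_mk π (fun k => ⟨k, h, ih k.1 k.2⟩) (fun k => ⟨k, h, ih k.1 k.2⟩)

theorem trn_real (π : PI (Set.univ : Set B) d Set.univ d') (h : Rl π ⊤ ⊤) (x x' : ℕ → B)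
    (hx : ∀ n, Rl π (x n) (x' n)) : Trn π (realN x) (realN x') :=
  trn_mk π (fun n => ⟨n, hx n, trn_nat π h n⟩) (fun n => ⟨n, hx n, trn_nat π h n⟩)

end TNR_

open TNR_ in
theorem p_TNR (h_RL : T_RL) : T_TNR := by
  intro B _ d d' π
  obtain ⟨h1, -, -, -, -, -, h7, h8⟩ := h_RL B d d' π
  refine ⟨trn_nat π h1, trn_real π h1, ?_⟩
  refine trn_mk π (fun x => ?_) (fun x' => ?_)
  · choose x' hx' using fun n => h7 (x n)
    exact ⟨x', h1, trn_real π h1 x x' hx'⟩
  · choose x hx using fun n => h8 (x' n)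
    exact ⟨x, h1, trn_real π h1 x x' hx⟩

end SLV
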