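import Mathlib
import Pool.Agent.SLV.T2

/-!
# MP_0a8ab4_lc, project SLV: the transfer lemma (`T_TR`) (helper21)
-/

set_option autoImplicit false

namespace SLV

namespace TR_

open MeasureTheory Filter Topology

/-- a nonempty Borel set is the projection of a closed relation -/
theorem exists_map_nat {Z : Type} [Countable Z] {A : Set (ℕ → Z)} (hA : Mes A)
    (hne : A.Nonempty) : ∃ f : (ℕ → ℕ) → (ℕ → Z), Set.range f = A ∧
      ∀ (z : ℕ → ℕ) (a : ℕ → Z), (∀ n, ∃ z', (∀ i < n, z' i = z i) ∧ ∀ i < n, f z' i = a i) →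
        f z = a := by
  let _ : TopologicalSpace Z := ⊥
  have hd : DiscreteTopology Z := ⟨rfl⟩
  have hp0 : PolishSpace Z := inferInstance
  have hp : PolishSpace (ℕ → Z) := inferInstance
  let _ : MeasurableSpace (ℕ → Z) := borel (ℕ → Z)
  have hb : BorelSpace (ℕ → Z) := ⟨rfl⟩
  have hle : bsp Z ≤ borel (ℕ → Z) := by
    refine MeasurableSpace.generateFrom_le ?_
    rintro _ ⟨n, a, rfl⟩
    have hop : IsOpen {x : ℕ → Z | x n = a} := by
      have h1 : IsOpen ((fun x : ℕ → Z => x n) ⁻¹' {a}) :=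
        (isOpen_discrete ({a} : Set Z)).preimage (continuous_apply n)
      exact h1
    exact hop.measurableSet
  have hA' : MeasurableSet A := hle A hA
  have han : AnalyticSet A := hA'.analyticSet
  rw [AnalyticSet] at han
  rcases han with h0 | ⟨f, hf, hr⟩
  · exact absurd h0 hne.ne_empty
  · refine ⟨f, hr, ?_⟩
    intro z a h
    choose z' hz1 hz2 using h
    have ht : Tendsto z' atTop (𝓝 z) := by
      rw [tendsto_pi_nhds]
      intro k
      refine tendsto_const_nhds.congr' ?_
      filter_upwards [eventually_gt_atTop k] with n hn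
      exact (hz1 n k hn).symm
    have h1 : Tendsto (fun n => f (z' n)) atTop (𝓝 (f z)) := (hf.tendsto z).comp ht
    have h2 : Tendsto (fun n => f (z' n)) atTop (𝓝 a) := by
      rw [tendsto_pi_nhds]
      intro k
      refine tendsto_const_nhds.congr' ?_
      filter_upwards [eventually_gt_atTop k] with n hn
      exact (hz2 n k hn).symm
    exact tendsto_nhds_unique h1 h2

end TR_

/-- The transfer lemma. -/
theorem p_TR (h0 : T_TR0) (h1 : T_M1) : T_TR := by
  intro B _ C hC X Y _ _ _ _ P hP hex x hx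
  obtain ⟨x0⟩ : Nonempty X := inferInstance
  have hne : {z : ℕ → X × Y | P (fun n => (z n).1) (fun n => (z n).2)}.Nonempty := by
    obtain ⟨y, hy⟩ := hex fun _ => x0
    exact ⟨fun n => (x0, y n), hy⟩
  obtain ⟨f, hr, hcl⟩ := TR_.exists_map_nat hP hne
  obtain ⟨w, hw, hf⟩ := h0 B C hC X (Y × ℕ)
    (fun x w => f (fun n => (w n).2) = fun n => (x n, (w n).1)) (by
      intro x w h
      refine hcl _ _ fun n => ?_
      obtain ⟨x', w', h3, h4⟩ := h n
      refine ⟨fun n => (w' n).2, fun i hi => by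
        show (w' i).2 = (w i).2
        rw [(h4 i hi).2], fun i hi => ?_⟩
      have h5 := congrFun h3 i
      rw [h5, (h4 i hi).1, (h4 i hi).2]) (by
      intro x
      obtain ⟨y, hy⟩ := hex x
      have h3 : (fun n => (x n, y n)) ∈
          {z : ℕ → X × Y | P (fun n => (z n).1) (fun n => (z n).2)} := hy
      rw [← hr] at h3
      obtain ⟨z, hz⟩ := h3
      exact ⟨fun n => (y n, z n), hz⟩) x hx
  obtain ⟨y, hy, hy2⟩ := exists_map (Y := Y) hC hw (fun (w : ℕ → Y × ℕ) n => (w n).1) (by
    intro n a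
    refine h1 (Y × ℕ) _ (n + 1) ?_
    intro v v' hv
    show (v n).1 = a ↔ (v' n).1 = a
    rw [hv n (Nat.lt_succ_self n)])
  refine ⟨y, hy, (hf.and hy2).mono ?_⟩
  rintro u ⟨h3, h4⟩
  have h5 : (fun n => (x.pt u n, (w.pt u n).1)) ∈
      {z : ℕ → X × Y | P (fun n => (z n).1) (fun n => (z n).2)} := by
    rw [← hr]
    exact ⟨_, h3⟩
  rw [h4]
  exact h5

end SLV
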