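import Mathlib
import Pool.Agent.SLV.T2

/-!
# MP_0a8ab4_lc, project SLV: the transfer lemma for closed relations (`T_TR0`) (helper21)
-/

set_option autoImplicit false

namespace SLV

namespace TR0_

theorem mes2_clo2 (h1 : T_M1) {X Y : Type} [Countable X] [Countable Y]
    {R : (ℕ → X) → (ℕ → Y) → Prop} (hR : Clo2 R) : Mes2 R := by
  have e : {z : ℕ → X × Y | R (fun n => (z n).1) (fun n => (z n).2)} =
      ⋂ n : ℕ, {z : ℕ → X × Y | ∃ x' y', R x' y' ∧ ∀ i < n, x' i = (z i).1 ∧ y' i = (z i).2} := by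
    ext z
    rw [Set.mem_iInter]
    constructor
    · intro h n
      exact ⟨_, _, h, fun i _ => ⟨rfl, rfl⟩⟩
    · intro h
      exact hR _ _ h
  show Mes {z : ℕ → X × Y | R (fun n => (z n).1) (fun n => (z n).2)}
  rw [e]
  refine @MeasurableSet.iInter _ _ (bsp (X × Y)) _ _ fun n => ?_
  refine h1 (X × Y) _ n ?_
  intro z w hzw
  constructor
  · rintro ⟨x', y', h, hi⟩
    exact ⟨x', y', h, fun i hin => by rw [← hzw i hin]; exact hi i hin⟩
  · rintro ⟨x', y', h, hi⟩
    exact ⟨x', y', h, fun i hin => by rw [hzw i hin]; exact hi i hin⟩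

theorem mes_trE (h1 : T_M1) {X Y : Type} [Countable X]
    (R : (ℕ → X) → (ℕ → Y) → Prop) (t : List Y) : Mes {x | trE R x t} := by
  refine h1 X _ t.length ?_
  intro x y hxy
  constructor
  · rintro ⟨x', y', h, hi, hp⟩
    exact ⟨x', y', h, fun i hin => by rw [← hxy i hin]; exact hi i hin, hp⟩
  · rintro ⟨x', y', h, hi, hp⟩
    exact ⟨x', y', h, fun i hin => by rw [hxy i hin]; exact hi i hin, hp⟩

end TR0_

open TR0_ in
/-- The transfer lemma for closed relations. -/
theorem p_TR0 (hA : T_TRA) (hB : T_TRB) (hD : T_TRC) (h1 : T_M1) : T_TR0 := by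
  intro B _ C hC X Y _ _ _ _ R hR hex x hx
  have htv : ∀ t : List Y, DecIn C fun u => trE R (x.pt u) t := fun t =>
    decIn_mes hC hx (mes_trE h1 R t)
  have hRm : Mes2 R := mes2_clo2 h1 hR
  obtain ⟨y0⟩ : Nonempty Y := inferInstance
  -- the maximum principle
  obtain ⟨y, hyN, hymax⟩ := exists_max hC {y : Nm B Y | InC C y} (fun y hy => hy)
    ⟨Nm.const B fun _ => y0, InC.const hC _⟩ (fun y hy _ => hy)
    (fun y => bval fun u => R (x.pt u) (y.pt u))
    (fun y hy => (decIn_mes2 hC hx hy hRm).eq_bval.1)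
    (by
      intro y hy z hz c hc h
      refine le_bval_iff.2 ?_
      refine ((h.weak inf_le_left).and ((forces_bval _).weak inf_le_right)).mono ?_
      rintro u ⟨h3, h4⟩
      rw [← h3]
      exact h4)
  obtain ⟨hrC, hrle, α, hα⟩ := hB B C hC Y (fun t => bval fun u => trE R (x.pt u) t)
    fun t => (htv t).eq_bval.1
  have key : ∀ t, rho (fun t => bval fun u => trE R (x.pt u) t) α t ≤
      bval fun u => R (x.pt u) (y.pt u) := by
    intro t0
    obtain ⟨y', hy', hf⟩ := hA B C hC X Y R hR x hx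
      (rho (fun t => bval fun u => trE R (x.pt u) t) α) (hrC α)
      (fun t => (forces_bval _).weak (hrle α t)) hα t0
    exact (le_bval_iff.2 hf).trans (hymax y' hy')
  refine ⟨y, hyN, ?_⟩
  rw [← bval_eq_top]
  by_contra hne
  have hb : (bval fun u => R (x.pt u) (y.pt u))ᶜ ≠ ⊥ := by
    intro h
    exact hne (compl_eq_bot.1 h)
  obtain ⟨x0, hx0⟩ := hD B X Y R x _ α hb (by
    intro t
    refine le_bot_iff.1 ?_
    exact (inf_le_inf_left _ (key t)).trans compl_inf_eq_bot.le)
  obtain ⟨y1, hy1⟩ := hex x0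
  exact hx0 y1 hy1

end SLV
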