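import Mathlib
import Pool.Agent.SLV.T2

/-!
# MP_0a8ab4_lc, project SLV: job TRA (helper20)

Names of branches of a Boolean valued tree.
-/

set_option autoImplicit false

namespace SLV

open Cardinal CofSN Pool.Agent.MadBlock

namespace TRA_

variable {B : Type} [CompleteBooleanAlgebra B] {Y : Type}

/-- the first extension of `t` in the ultrafilter -/
noncomputable def nxt (f : ℕ → Y) (h : List Y → B) (u : Ult B) (t : List Y) : Y :=
  f (sInf {k | u.mem (h (t ++ [f k]))})

/-- the initial segments of the branch -/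
noncomputable def L (f : ℕ → Y) (h : List Y → B) (u : Ult B) (t0 : List Y) : ℕ → List Y
  | 0 => t0
  | m + 1 => L f h u t0 m ++ [nxt f h u (L f h u t0 m)]

theorem length_L (f : ℕ → Y) (h : List Y → B) (u : Ult B) (t0 : List Y) (m : ℕ) :
    (L f h u t0 m).length = t0.length + m := by
  induction m with
  | zero => rfl
  | succ m ih => simp only [L, List.length_append, List.length_singleton, ih]; omega

theorem pre_L (f : ℕ → Y) (h : List Y → B) (u : Ult B) (t0 : List Y) (m k : ℕ) :
    L f h u t0 m <+: L f h u t0 (m + k) := by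
  induction k with
  | zero => exact List.prefix_rfl
  | succ k ih => exact ih.trans (List.prefix_append _ _)

theorem get_eq (f : ℕ → Y) (h : List Y → B) (u : Ult B) (t0 : List Y) (m m' i : ℕ)
    (hi : i < t0.length + m) (hi' : i < t0.length + m') :
    (L f h u t0 m)[i]? = (L f h u t0 m')[i]? := by
  have key : ∀ m k : ℕ, i < t0.length + m →
      (L f h u t0 m)[i]? = (L f h u t0 (m + k))[i]? := by
    intro m k hi
    obtain ⟨s, hs⟩ := pre_L f h u t0 m k
    rw [← hs, List.getElem?_append_left (by rw [length_L]; exact hi)]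
  rcases le_total m m' with h1 | h1
  · obtain ⟨k, rfl⟩ := Nat.exists_eq_add_of_le h1
    exact key m k hi
  · obtain ⟨k, rfl⟩ := Nat.exists_eq_add_of_le h1
    exact (key m' k hi').symm

/-- the branch -/
noncomputable def br (f : ℕ → Y) (h : List Y → B) (u : Ult B) (t0 : List Y) (n : ℕ) : Y :=
  ((L f h u t0 (n + 1))[n]?).getD (f 0)

theorem br_spec (f : ℕ → Y) (h : List Y → B) (u : Ult B) (t0 : List Y) (m i : ℕ)
    (hi : i < t0.length + m) : (L f h u t0 m)[i]? = some (br f h u t0 i) := by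
  have h1 := get_eq f h u t0 m (i + 1) i hi (by omega)
  have h2 : i < (L f h u t0 m).length := by rw [length_L]; exact hi
  unfold br
  rw [← h1, List.getElem?_eq_getElem h2]
  rfl

variable {C : Set B}

theorem decIn_sInf (hC : CSub C) (P : ℕ → Ult B → Prop) (hP : ∀ k, DecIn C (P k)) (k : ℕ) :
    DecIn C fun u => sInf {k | P k u} = k := by
  have h1 : DecIn C fun u => (P k u ∧ ∀ j : Fin k, ¬ P j u) ∨ ((∀ j, ¬ P j u) ∧ k = 0) := by
    refine DecIn.or hC ((hP k).and hC (DecIn.all hC fun j => (hP j).not hC)) ?_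
    exact (DecIn.all hC fun j => (hP j).not hC).and hC (DecIn.const hC _)
  refine h1.congr' fun u => ?_
  constructor
  · rintro (⟨h1, h2⟩ | ⟨h3, rfl⟩)
    · apply le_antisymm
      · exact Nat.sInf_le h1
      · by_contra hc
        push Not at hc
        have hne : {k | P k u}.Nonempty := ⟨k, h1⟩
        exact h2 ⟨_, hc⟩ (Nat.sInf_mem hne)
    · have : {k | P k u} = ∅ := Set.eq_empty_of_forall_notMem fun j hj => h3 j hj
      rw [this, Nat.sInf_empty]
  · rintro rfl
    by_cases hne : {k | P k u}.Nonempty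
    · left
      exact ⟨Nat.sInf_mem hne, fun j hj => Nat.notMem_of_lt_sInf j.2 hj⟩
    · right
      rw [Set.not_nonempty_iff_eq_empty] at hne
      refine ⟨fun j hj => ?_, by rw [hne, Nat.sInf_empty]⟩
      have : j ∈ ({k | P k u} : Set ℕ) := hj
      rw [hne] at this
      exact this

theorem decIn_nxt (hC : CSub C) (f : ℕ → Y) (h : List Y → B) (hh : ∀ t, h t ∈ C) (t : List Y)
    (a : Y) : DecIn C fun u => nxt f h u t = a := by
  have h1 : DecIn C fun u => ∃ k : ℕ, sInf {k | u.mem (h (t ++ [f k]))} = k ∧ f k = a :=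
    DecIn.ex hC fun k => (decIn_sInf hC _ (fun k => DecIn.mem (hh _)) k).and hC (DecIn.const hC _)
  refine h1.congr' fun u => ?_
  constructor
  · rintro ⟨k, h1, h2⟩
    unfold nxt
    rw [h1, h2]
  · intro h1
    exact ⟨_, rfl, h1⟩

theorem decIn_L [Countable Y] (hC : CSub C) (f : ℕ → Y) (h : List Y → B) (hh : ∀ t, h t ∈ C)
    (t0 : List Y) (m : ℕ) (s : List Y) : DecIn C fun u => L f h u t0 m = s := by
  induction m generalizing s with
  | zero => exact DecIn.const hC (t0 = s)
  | succ m ih =>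
    have h1 : DecIn C fun u => ∃ q : List Y × Y, (L f h u t0 m = q.1 ∧ nxt f h u q.1 = q.2) ∧
        q.1 ++ [q.2] = s :=
      DecIn.ex hC fun q => ((ih q.1).and hC (decIn_nxt hC f h hh q.1 q.2)).and hC (DecIn.const hC _)
    refine h1.congr' fun u => ?_
    constructor
    · rintro ⟨⟨t, a⟩, ⟨h1, h2⟩, h3⟩
      simp only [L]
      dsimp only at h1 h2 h3
      rw [h1, h2, h3]
    · intro h1
      exact ⟨(L f h u t0 m, nxt f h u (L f h u t0 m)), ⟨rfl, rfl⟩, h1⟩

theorem decIn_br [Countable Y] (hC : CSub C) (f : ℕ → Y) (h : List Y → B) (hh : ∀ t, h t ∈ C)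
    (t0 : List Y) (n : ℕ) (a : Y) : DecIn C fun u => br f h u t0 n = a := by
  have h1 : DecIn C fun u => ∃ s : List Y, L f h u t0 (n + 1) = s ∧ (s[n]?).getD (f 0) = a :=
    DecIn.ex hC fun s => (decIn_L hC f h hh t0 (n + 1) s).and hC (DecIn.const hC _)
  refine h1.congr' fun u => ?_
  constructor
  · rintro ⟨s, rfl, h2⟩
    exact h2
  · intro h1
    exact ⟨_, rfl, h1⟩

end TRA_

open TRA_ in
theorem p_TRA : T_TRA := by
  intro B _ C hC X Y _ _ _ _ R hR x hx h hh htr hnx t0
  obtain ⟨f, hf⟩ := exists_surjective_nat Y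
  obtain ⟨y, hy1, hy2⟩ := exists_name hC (fun u => br f h u t0)
    (fun n a => decIn_br hC f h hh t0 n a)
  refine ⟨y, hy1, ?_⟩
  have e1 : Forces (⊤ : B) fun u => ∀ t, u.mem (h t) → trE R (x.pt u) t := by
    refine forces_all fun t => ?_
    have := (forces_imp_iff (b := (⊤ : B)) (c := h t) (P := fun u => trE R (x.pt u) t)).1
    exact this (by rw [top_inf_eq]; exact htr t)
  have e2 : Forces (⊤ : B) fun u => ∀ t, u.mem (⨆ a, h (t ++ [a])) ↔ ∃ a, u.mem (h (t ++ [a])) :=
    forces_all fun t => forces_mem_iSup _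
  refine ((forces_top (b := h t0) ((e1.and e2).and hy2)).and (forces_mem (h t0))).mono ?_
  rintro u ⟨⟨⟨h1, h2⟩, h3⟩, h4⟩
  have hL : ∀ m, u.mem (h (L f h u t0 m)) := by
    intro m
    induction m with
    | zero => exact h4
    | succ m ih =>
      obtain ⟨a, ha⟩ := (h2 _).1 (u.mono (hnx (L f h u t0 m)) ih)
      obtain ⟨k, rfl⟩ := hf a
      have hne : {k | u.mem (h (L f h u t0 m ++ [f k]))}.Nonempty := ⟨k, ha⟩
      exact Nat.sInf_mem hne
  show R (x.pt u) (y.pt u)
  rw [h3]
  apply hR
  intro n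
  obtain ⟨x', y', hR', hx', hy'⟩ := h1 _ (hL n)
  refine ⟨x', y', hR', fun i hi => ⟨hx' i (by rw [length_L]; omega), ?_⟩⟩
  have h5 := br_spec f h u t0 n i (by omega)
  rw [← hy', length_L] at h5
  have h6 : i < t0.length + n := by omega
  rw [pre, List.getElem?_map, List.getElem?_range h6] at h5
  simpa using h5

end SLV
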