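import Mathlib
import Pool.Agent.SLV.Basic
import Pool.Agent.SLV.T2

/-!
# MP_0a8ab4_lc, project SLV: the derivatives of a Boolean valued tree stabilise (target `T_TRB`)
-/

set_option autoImplicit false

namespace SLV

namespace TRB_

variable {B : Type} [CompleteBooleanAlgebra B] {Y : Type}

theorem rho_eq (tv : List Y → B) (α : Ordinal.{0}) (t : List Y) :
    rho tv α t = tv t ⊓ ⨅ β : Set.Iio α, ⨆ a, rho tv β.1 (t ++ [a]) := by
  rw [rho]

theorem rho_le (tv : List Y → B) (α : Ordinal.{0}) (t : List Y) : rho tv α t ≤ tv t := by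
  rw [rho_eq]
  exact inf_le_left

theorem rho_lt (tv : List Y → B) {α β : Ordinal.{0}} (h : α < β) (t : List Y) :
    rho tv β t ≤ ⨆ a, rho tv α (t ++ [a]) := by
  rw [rho_eq]
  exact inf_le_right.trans (iInf_le (fun γ : Set.Iio β => ⨆ a, rho tv γ.1 (t ++ [a])) ⟨α, h⟩)

theorem rho_mem {C : Set B} (hC : CSub C) (tv : List Y → B) (htv : ∀ t, tv t ∈ C)
    (α : Ordinal.{0}) : ∀ t, rho tv α t ∈ C := by
  induction α using WellFoundedLT.induction with
  | ind α ih =>
    intro t
    rw [rho_eq]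
    exact hC.inf (htv t) (hC.iInf fun β => hC.iSup fun a => ih β.1 β.2 _)

theorem exists_stab (tv : List Y → B) :
    ∃ α, ∀ t, rho tv α t ≤ ⨆ a, rho tv α (t ++ [a]) := by
  have h := not_injective_of_ordinal (fun α : Ordinal.{0} => rho tv α)
  simp only [Function.Injective, not_forall] at h
  obtain ⟨α, β, h1, h2⟩ := h
  rcases lt_or_gt_of_ne h2 with h3 | h3
  · refine ⟨α, fun t => ?_⟩
    have h4 : rho tv α t = rho tv β t := congrFun h1 t
    rw [h4]
    exact rho_lt tv h3 t
  · refine ⟨β, fun t => ?_⟩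
    have h4 : rho tv α t = rho tv β t := congrFun h1 t
    rw [← h4]
    exact rho_lt tv h3 t

end TRB_

theorem p_TRB : T_TRB := fun _ _ _ hC _ _ tv htv =>
  ⟨fun α => TRB_.rho_mem hC tv htv α, fun α t => TRB_.rho_le tv α t, TRB_.exists_stab tv⟩

end SLV
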