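import Mathlib
import Pool.Agent.SLV.T2

/-!
# MP_0a8ab4_lc, project SLV: job TRC, descent in Boolean valued trees (helper37)
-/

set_option autoImplicit false

namespace SLV

namespace TRC_

variable {B : Type} [CompleteBooleanAlgebra B] {X Y : Type}

theorem rho_eq (tv : List Y → B) (γ : Ordinal.{0}) (t : List Y) :
    rho tv γ t = tv t ⊓ ⨅ β : Set.Iio γ, ⨆ a, rho tv β.1 (t ++ [a]) := by
  rw [rho]

/-- the least derivative not containing `p` -/
theorem decide {tv : List Y → B} {b : B} {α : Ordinal.{0}} {t : List Y}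
    (h : b ⊓ rho tv α t = ⊥) {p : B} (hp : p ≠ ⊥) (hpb : p ≤ b) :
    ∃ (γ : Ordinal.{0}) (p' : B), p' ≠ ⊥ ∧ p' ≤ p ∧ p' ⊓ rho tv γ t = ⊥ ∧
      ∀ β < γ, p' ≤ rho tv β t := by
  have hne : {γ : Ordinal.{0} | p ⊓ (rho tv γ t)ᶜ ≠ ⊥}.Nonempty := by
    refine ⟨α, fun h1 => hp ?_⟩
    have h2 : p ≤ rho tv α t := by
      have := (disjoint_iff.2 h1).le_compl_right
      rwa [compl_compl] at this
    exact le_bot_iff.1 ((le_inf hpb h2).trans h.le)
  have hmin := csInf_mem hne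
  refine ⟨sInf {γ : Ordinal.{0} | p ⊓ (rho tv γ t)ᶜ ≠ ⊥}, _, hmin, inf_le_left, ?_,
    fun β hβ => inf_le_left.trans ?_⟩
  · rw [inf_assoc, compl_inf_eq_bot, inf_bot_eq]
  · have h1 : β ∉ {γ : Ordinal.{0} | p ⊓ (rho tv γ t)ᶜ ≠ ⊥} := notMem_of_lt_csInf hβ
      (OrderBot.bddBelow _)
    have h2 : p ⊓ (rho tv β t)ᶜ = ⊥ := by
      by_contra h3
      exact h1 h3
    have := (disjoint_iff.2 h2).le_compl_right
    rwa [compl_compl] at this

end TRC_

open TRC_ in
theorem p_TRC : T_TRC := by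
  intro B _ X Y _ _ _ _ R x b α hb hα
  obtain ⟨e, he⟩ := exists_surjective_nat (List Y)
  set tv : List Y → B := fun t => bval fun u => trE R (x.pt u) t with htv
  -- one step
  have step : ∀ (n : ℕ) (p : {p : B // p ≠ ⊥ ∧ p ≤ b}), ∃ (p' : {p : B // p ≠ ⊥ ∧ p ≤ b}) (a : X)
      (γ : Ordinal.{0}), p'.1 ≤ p.1 ∧ p'.1 ≤ x.v n a ∧ p'.1 ⊓ rho tv γ (e n) = ⊥ ∧
        ∀ β < γ, p'.1 ≤ rho tv β (e n) := by
    rintro n ⟨p, hp, hpb⟩
    obtain ⟨a, ha⟩ : ∃ a, p ⊓ x.v n a ≠ ⊥ := by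
      by_contra hc
      push Not at hc
      apply hp
      have h1 : p ⊓ ⨆ a, x.v n a = ⊥ := by
        rw [inf_iSup_eq]
        simp [hc]
      rwa [x.cover n, inf_top_eq] at h1
    obtain ⟨γ, p', h1, h2, h3, h4⟩ := decide (hα (e n)) ha (inf_le_left.trans hpb)
    exact ⟨⟨p', h1, h2.trans (inf_le_left.trans hpb)⟩, a, γ, h2.trans inf_le_left,
      h2.trans inf_le_right, h3, h4⟩
  choose f a γ hf1 hf2 hf3 hf4 using step
  let s : ℕ → {p : B // p ≠ ⊥ ∧ p ≤ b} := fun n => Nat.rec ⟨b, hb, le_rfl⟩ (fun n p => f n p) n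
  have hs : ∀ n, s (n + 1) = f n (s n) := fun n => rfl
  have hanti : Antitone fun n => (s n).1 := antitone_nat_of_succ_le fun n => hf1 n (s n)
  refine ⟨fun n => a n (s n), fun y hR => ?_⟩
  -- indices of the initial segments
  choose ix hix using fun k => he (pre y k)
  let r : ℕ → Ordinal.{0} := fun k => γ (ix k) (s (ix k))
  have hlen : ∀ k, (pre y k).length = k := fun k => by simp [pre]
  have hdesc : ∀ k, r (k + 1) < r k := by
    intro k
    by_contra hc
    push Not at hc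
    let m := max k (max (ix k + 1) (ix (k + 1) + 1))
    have hm1 : (s m).1 ≤ (s (ix k + 1)).1 := hanti ((le_max_left _ _).trans (le_max_right _ _))
    have hm2 : (s m).1 ≤ (s (ix (k + 1) + 1)).1 :=
      hanti ((le_max_right _ _).trans (le_max_right _ _))
    have htvk : (s m).1 ≤ tv (pre y k) := by
      rw [htv]
      refine le_bval_iff.2 ?_
      refine ((forces_mem _).and (forces_top x.pt_spec)).mono ?_
      rintro u ⟨h1, h2⟩
      refine ⟨fun n => a n (s n), y, hR, ?_, by rw [hlen]⟩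
      intro i hi
      rw [hlen] at hi
      refine ((h2 i _).2 (u.mono ?_ h1)).symm
      have h3 : (s m).1 ≤ (s (i + 1)).1 := hanti ((Nat.succ_le_of_lt hi).trans (le_max_left k _))
      exact h3.trans (hf2 i (s i))
    have hpre : pre y (k + 1) = pre y k ++ [y k] := by
      simp [pre, List.range_succ]
    have hle : (s m).1 ≤ rho tv (r k) (pre y k) := by
      rw [rho_eq]
      refine le_inf htvk (le_iInf fun β => ?_)
      have h5 := hf4 (ix (k + 1)) (s (ix (k + 1))) β.1 (lt_of_lt_of_le β.2 hc)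
      rw [hix, hpre] at h5
      exact (hm2.trans h5).trans (le_iSup (fun a => rho tv β.1 (pre y k ++ [a])) (y k))
    have h6 := hf3 (ix k) (s (ix k))
    rw [hix] at h6
    exact (s m).2.1 (le_bot_iff.1 ((le_inf hm1 hle).trans h6.le))
  exact (RelEmbedding.natGT r hdesc).not_wellFounded Ordinal.lt_wf

end SLV
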