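import Pool.Agent.SLV.T3

/-!
# MP_0a8ab4_lc, project SLV: equality and membership of corresponding sets (job SLV-TRE) (helper48)
-/

set_option autoImplicit false

namespace SLV

open BSet

namespace TRE_

variable {B : Type} [CompleteBooleanAlgebra B]

theorem eqv_mk (ι κ : Type) (A : ι → BSet B) (b : ι → B) (C : κ → BSet B) (c : κ → B) :
    eqv (BSet.mk ι A b) (BSet.mk κ C c) =
      (⨅ i, b i ⇨ ⨆ j, c j ⊓ eqv (A i) (C j)) ⊓ (⨅ j, c j ⇨ ⨆ i, b i ⊓ eqv (A i) (C j)) := by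
  rw [eqv]

theorem trn_mk {d d' : B} (π : PI (Set.univ : Set B) d Set.univ d') (ι ι' : Type)
    (A : ι → BSet B) (b : ι → B) (A' : ι' → BSet B) (b' : ι' → B) :
    Trn π (BSet.mk ι A b) (BSet.mk ι' A' b') ↔
      (∀ i, ∃ j, Rl π (b i) (b' j) ∧ Trn π (A i) (A' j)) ∧
        (∀ j, ∃ i, Rl π (b i) (b' j) ∧ Trn π (A i) (A' j)) := by
  rw [Trn]

theorem eqv_rl (h_RL : T_RL) {d d' : B} (π : PI (Set.univ : Set B) d Set.univ d') (S : BSet B) :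
    ∀ S' T T' : BSet B, Trn π S S' → Trn π T T' → Rl π (eqv S T) (eqv S' T') := by
  obtain ⟨-, -, hinf, himp, -, hsup, -, -⟩ := h_RL B d d' π
  induction S with
  | mk ι A b ih =>
    rintro ⟨ι', A', b'⟩ ⟨κ, C, c⟩ ⟨κ', C', c'⟩ hS hT
    rw [trn_mk] at hS hT
    rw [eqv_mk, eqv_mk]
    have key : ∀ i i' j j', Trn π (A i) (A' i') → Trn π (C j) (C' j') →
        Rl π (eqv (A i) (C j)) (eqv (A' i') (C' j')) := fun i i' j j' h1 h2 =>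
      ih i (A' i') (C j) (C' j') h1 h2
    apply hinf
    · refine (hsup ι ι' _ _ (fun i => ?_) (fun i' => ?_)).2
      · obtain ⟨i', h1, h2⟩ := hS.1 i
        refine ⟨i', himp _ _ _ _ h1 (hsup κ κ' _ _ (fun j => ?_) (fun j' => ?_)).1⟩
        · obtain ⟨j', h3, h4⟩ := hT.1 j
          exact ⟨j', hinf _ _ _ _ h3 (key i i' j j' h2 h4)⟩
        · obtain ⟨j, h3, h4⟩ := hT.2 j'
          exact ⟨j, hinf _ _ _ _ h3 (key i i' j j' h2 h4)⟩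
      · obtain ⟨i, h1, h2⟩ := hS.2 i'
        refine ⟨i, himp _ _ _ _ h1 (hsup κ κ' _ _ (fun j => ?_) (fun j' => ?_)).1⟩
        · obtain ⟨j', h3, h4⟩ := hT.1 j
          exact ⟨j', hinf _ _ _ _ h3 (key i i' j j' h2 h4)⟩
        · obtain ⟨j, h3, h4⟩ := hT.2 j'
          exact ⟨j, hinf _ _ _ _ h3 (key i i' j j' h2 h4)⟩
    · refine (hsup κ κ' _ _ (fun j => ?_) (fun j' => ?_)).2
      · obtain ⟨j', h1, h2⟩ := hT.1 j
        refine ⟨j', himp _ _ _ _ h1 (hsup ι ι' _ _ (fun i => ?_) (fun i' => ?_)).1⟩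
        · obtain ⟨i', h3, h4⟩ := hS.1 i
          exact ⟨i', hinf _ _ _ _ h3 (key i i' j j' h4 h2)⟩
        · obtain ⟨i, h3, h4⟩ := hS.2 i'
          exact ⟨i, hinf _ _ _ _ h3 (key i i' j j' h4 h2)⟩
      · obtain ⟨j, h1, h2⟩ := hT.2 j'
        refine ⟨j, himp _ _ _ _ h1 (hsup ι ι' _ _ (fun i => ?_) (fun i' => ?_)).1⟩
        · obtain ⟨i', h3, h4⟩ := hS.1 i
          exact ⟨i', hinf _ _ _ _ h3 (key i i' j j' h4 h2)⟩
        · obtain ⟨i, h3, h4⟩ := hS.2 i'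
          exact ⟨i, hinf _ _ _ _ h3 (key i i' j j' h4 h2)⟩

end TRE_

open TRE_ in
theorem p_TRE (h_RL : T_RL) : T_TRE := by
  intro B _ d d' π S S' T T' hS hT
  refine ⟨eqv_rl h_RL π S S' T T' hS hT, ?_⟩
  obtain ⟨-, -, hinf, -, -, hsup, -, -⟩ := h_RL B d d' π
  obtain ⟨κ, C, c⟩ := T
  obtain ⟨κ', C', c'⟩ := T'
  rw [trn_mk] at hT
  show Rl π (⨆ j : κ, c j ⊓ eqv S (C j)) (⨆ j : κ', c' j ⊓ eqv S' (C' j))
  refine (hsup κ κ' _ _ (fun j => ?_) (fun j' => ?_)).1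
  · obtain ⟨j', h1, h2⟩ := hT.1 j
    exact ⟨j', hinf _ _ _ _ h1 (eqv_rl h_RL π S S' _ _ hS h2)⟩
  · obtain ⟨j, h1, h2⟩ := hT.2 j'
    exact ⟨j, hinf _ _ _ _ h1 (eqv_rl h_RL π S S' _ _ hS h2)⟩

end SLV
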