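import Mathlib
import Pool.Agent.SLV.Basic
import Pool.Agent.SLV.T2

/-!
# MP_0a8ab4_lc, project SLV: transport of names (target `T_TRN`)
-/

set_option autoImplicit false

namespace SLV

namespace TRN_

variable {B : Type} [CompleteBooleanAlgebra B]

/-- the inverse isomorphism -/
def inv {G G' : Set B} {d d' : B} (π : PI G d G' d') : PI G' d' G d where
  f := π.g
  g := π.f
  fG := π.gG
  gG := π.fG
  fm := π.gm
  gm := π.fm
  gf := π.fg
  fg := π.gf

theorem transport (h_PIB : T_PIB) {d d' : B} (π : PI (Set.univ : Set B) d Set.univ d') {X : Type}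
    [Nonempty X] (x : Nm B X) : ∃ x' : Nm B X, ∀ n a, π.f (x.v n a ⊓ d) = x'.v n a ⊓ d' := by
  classical
  obtain ⟨hbot, hd, hinf, hsup, -⟩ := h_PIB B Set.univ Set.univ CSub.univ CSub.univ d trivial d'
    trivial π
  obtain ⟨a0⟩ := (inferInstance : Nonempty X)
  have hle : ∀ n a, π.f (x.v n a ⊓ d) ≤ d' := fun n a => (π.fG _ trivial inf_le_right).2
  have hcross : ∀ n a (e : B), π.f (x.v n a ⊓ d) ⊓ (d'ᶜ ⊓ e) = ⊥ := fun n a e => by
    apply le_bot_iff.1
    calc π.f (x.v n a ⊓ d) ⊓ (d'ᶜ ⊓ e) ≤ d' ⊓ d'ᶜ := inf_le_inf (hle n a) inf_le_left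
      _ = ⊥ := inf_compl_eq_bot
  have hdis : ∀ n a b, a ≠ b → π.f (x.v n a ⊓ d) ⊓ π.f (x.v n b ⊓ d) = ⊥ := fun n a b hab => by
    rw [← hinf _ trivial _ trivial inf_le_right inf_le_right, ← hbot]
    congr 1
    apply le_bot_iff.1
    rw [← x.disj n a b hab]
    exact inf_le_inf inf_le_left inf_le_left
  have hcov : ∀ n, ⨆ a, π.f (x.v n a ⊓ d) = d' := fun n => by
    have h := hsup (Set.range fun a => x.v n a ⊓ d) (fun _ _ => trivial) (by
      rintro _ ⟨a, rfl⟩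
      exact inf_le_right)
    rw [← Set.range_comp, sSup_range, sSup_range, ← iSup_inf_eq, x.cover n, top_inf_eq, hd] at h
    exact h.symm
  let x' : Nm B X :=
    { v := fun n a => π.f (x.v n a ⊓ d) ⊔ (d'ᶜ ⊓ if a = a0 then ⊤ else ⊥)
      disj := by
        intro n a b hab
        have h3 : (d'ᶜ ⊓ if a = a0 then (⊤ : B) else ⊥) ⊓ (d'ᶜ ⊓ if b = a0 then ⊤ else ⊥) = ⊥ := by
          by_cases ha : a = a0
          · have hb : b ≠ a0 := fun h => hab (ha.trans h.symm)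
            simp [hb]
          · simp [ha]
        have h4 : (d'ᶜ ⊓ if a = a0 then (⊤ : B) else ⊥) ⊓ π.f (x.v n b ⊓ d) = ⊥ := by
          rw [inf_comm]
          exact hcross n b _
        rw [inf_sup_right, inf_sup_left, inf_sup_left, hdis n a b hab, hcross, h3, h4]
        simp
      cover := by
        intro n
        rw [iSup_sup_eq, hcov]
        apply top_le_iff.1
        have h6 : d'ᶜ ≤ ⨆ a, d'ᶜ ⊓ if a = a0 then (⊤ : B) else ⊥ := by
          refine le_trans ?_ (le_iSup (fun a => d'ᶜ ⊓ if a = a0 then (⊤ : B) else ⊥) a0)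
          simp
        exact (sup_compl_eq_top (x := d')).ge.trans (sup_le_sup_left h6 _) }
  refine ⟨x', fun n a => ?_⟩
  have h5 : (d'ᶜ ⊓ if a = a0 then (⊤ : B) else ⊥) ⊓ d' = ⊥ := by
    apply le_bot_iff.1
    calc (d'ᶜ ⊓ if a = a0 then (⊤ : B) else ⊥) ⊓ d' ≤ d'ᶜ ⊓ d' := inf_le_inf_right _ inf_le_left
      _ = ⊥ := compl_inf_eq_bot
  show _ = (π.f (x.v n a ⊓ d) ⊔ (d'ᶜ ⊓ if a = a0 then (⊤ : B) else ⊥)) ⊓ d'
  rw [inf_sup_right, h5, sup_bot_eq, inf_eq_left.2 (hle n a)]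

end TRN_

theorem p_TRN (h_PIB : T_PIB) : T_TRN := by
  intro B _ d d' π X _ x
  refine ⟨TRN_.transport h_PIB π x, ?_⟩
  obtain ⟨x', hx'⟩ := TRN_.transport h_PIB (TRN_.inv π) x
  refine ⟨x', fun n a => ?_⟩
  have h := hx' n a
  rw [← h]
  exact π.fg _ trivial inf_le_right

end SLV
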