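import Pool.Agent.SLV.T3

/-!
# MP_0a8ab4_lc, project SLV: truth in corresponding sets (job SLV-TVL) (helper23)
-/

set_option autoImplicit false

namespace SLV

open BSet

namespace TVL_

variable {B : Type} [CompleteBooleanAlgebra B]

theorem trn_ix {d d' : B} (π : PI (Set.univ : Set B) d Set.univ d') (M M' : BSet B)
    (h : Trn π M M') : (∀ i, ∃ j, Ix π M M' i j) ∧ (∀ j, ∃ i, Ix π M M' i j) := by
  obtain ⟨ι, A, b⟩ := M
  obtain ⟨ι', A', b'⟩ := M'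
  rw [Trn] at h
  exact h

theorem trn_of_ix {d d' : B} (π : PI (Set.univ : Set B) d Set.univ d') (ι ι' : Type)
    (A : ι → BSet B) (b : ι → B) (A' : ι' → BSet B) (b' : ι' → B)
    (h1 : ∀ i, ∃ j, Rl π (b i) (b' j) ∧ Trn π (A i) (A' j))
    (h2 : ∀ j, ∃ i, Rl π (b i) (b' j) ∧ Trn π (A i) (A' j)) :
    Trn π (BSet.mk ι A b) (BSet.mk ι' A' b') := by
  rw [Trn]
  exact ⟨h1, h2⟩

theorem ix_update {d d' : B} (π : PI (Set.univ : Set B) d Set.univ d') (M M' : BSet B)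
    (v : ℕ → M.ty) (v' : ℕ → M'.ty) (h : ∀ n, Ix π M M' (v n) (v' n)) (i : ℕ) (a : M.ty)
    (a' : M'.ty) (ha : Ix π M M' a a') :
    ∀ n, Ix π M M' (Function.update v i a n) (Function.update v' i a' n) := by
  intro n
  by_cases hn : n = i
  · subst hn
    simpa using ha
  · rw [Function.update_of_ne hn, Function.update_of_ne hn]
    exact h n

theorem sat_rl (h_RL : T_RL) (h_TRE : T_TRE) {d d' : B}
    (π : PI (Set.univ : Set B) d Set.univ d') (M M' : BSet B) (hM : Trn π M M') (φ : Fml) :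
    ∀ (v : ℕ → M.ty) (v' : ℕ → M'.ty), (∀ n, Ix π M M' (v n) (v' n)) →
      Rl π (sat M φ v) (sat M' φ v') := by
  obtain ⟨-, -, hinf, himp, hcompl, hsup, -, -⟩ := h_RL B d d' π
  obtain ⟨hM1, hM2⟩ := trn_ix π M M' hM
  induction φ with
  | mem i j =>
    intro v v' h
    exact (h_TRE B d d' π _ _ _ _ (h i).2 (h j).2).2
  | eq i j =>
    intro v v' h
    exact (h_TRE B d d' π _ _ _ _ (h i).2 (h j).2).1
  | neg φ ih =>
    intro v v' h
    exact hcompl _ _ (ih v v' h)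
  | and φ ψ ih1 ih2 =>
    intro v v' h
    exact hinf _ _ _ _ (ih1 v v' h) (ih2 v v' h)
  | all i φ ih =>
    intro v v' h
    refine (hsup M.ty M'.ty _ _ (fun a => ?_) (fun a' => ?_)).2
    · obtain ⟨a', ha⟩ := hM1 a
      exact ⟨a', himp _ _ _ _ ha.1 (ih _ _ (ix_update π M M' v v' h i a a' ha))⟩
    · obtain ⟨a, ha⟩ := hM2 a'
      exact ⟨a, himp _ _ _ _ ha.1 (ih _ _ (ix_update π M M' v v' h i a a' ha))⟩

end TVL_

open TVL_ in
theorem p_TVL (h_RL : T_RL) (h_TRE : T_TRE) : T_TVL := by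
  intro B _ d d' π M M' hM φ v v' h
  refine ⟨sat_rl h_RL h_TRE π M M' hM φ v v' h, ?_⟩
  obtain ⟨-, -, hinf, -, -, -, -, -⟩ := h_RL B d d' π
  obtain ⟨hM1, hM2⟩ := trn_ix π M M' hM
  unfold sub
  refine trn_of_ix π _ _ _ _ _ _ (fun a => ?_) (fun a' => ?_)
  · obtain ⟨a', ha⟩ := hM1 a
    exact ⟨a', hinf _ _ _ _ ha.1
      (sat_rl h_RL h_TRE π M M' hM φ _ _ (ix_update π M M' v v' h 0 a a' ha)), ha.2⟩
  · obtain ⟨a, ha⟩ := hM2 a'
    exact ⟨a, hinf _ _ _ _ ha.1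
      (sat_rl h_RL h_TRE π M M' hM φ _ _ (ix_update π M M' v v' h 0 a a' ha)), ha.2⟩

end SLV
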