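import Pool.Agent.SLV.T1

/-!
# MP_0a8ab4_lc, project SLV: UDJ, disjointness in the dense family
-/

set_option autoImplicit false

namespace SLV

open Cardinal CofSN Pool.Agent.MadBlock

namespace UDJ_

section tree

variable {B : Type} [CompleteBooleanAlgebra B] {C1 : Set B} {d : B} {I : Type}

theorem ds_append (T : Tre C1 d I) (t : List I) : ∀ s : List I, T.ds (s ++ t) ≤ T.ds s := by
  induction t with
  | nil => intro s; rw [List.append_nil]
  | cons i t ih =>
    intro s
    have h1 : s ++ i :: t = (s ++ [i]) ++ t := by simp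
    rw [h1]
    refine (ih (s ++ [i])).trans ?_
    rw [← T.cover s]
    exact le_iSup (fun i => T.ds (s ++ [i])) i

theorem ds_anti (T : Tre C1 d I) {s s' : List I} (h : s <+: s') : T.ds s' ≤ T.ds s := by
  obtain ⟨t, rfl⟩ := h
  exact ds_append T t s

theorem comparable (T : Tre C1 d I) (s : List I) : ∀ s' u : List I,
    T.ds (u ++ s) ⊓ T.ds (u ++ s') ≠ ⊥ → s <+: s' ∨ s' <+: s := by
  induction s with
  | nil => exact fun s' _ _ => Or.inl ⟨s', rfl⟩
  | cons i s ih =>
    intro s' u h
    cases s' with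
    | nil => exact Or.inr ⟨i :: s, rfl⟩
    | cons j s' =>
      have h1 : u ++ i :: s = (u ++ [i]) ++ s := by simp
      have h2 : u ++ j :: s' = (u ++ [j]) ++ s' := by simp
      rw [h1, h2] at h
      by_cases hij : i = j
      · subst hij
        rcases ih s' (u ++ [i]) h with ⟨t, ht⟩ | ⟨t, ht⟩
        · exact Or.inl ⟨t, by rw [List.cons_append, ht]⟩
        · exact Or.inr ⟨t, by rw [List.cons_append, ht]⟩
      · exfalso
        apply h
        rw [eq_bot_iff, ← T.disj u i j hij]
        exact inf_le_inf (ds_append T s _) (ds_append T s' _)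

end tree

open Classical in
/-- the restriction of a condition to the complement of `J` -/
noncomputable def off {K : Type} [LinearOrder K] (J : Set (K × ℕ)) (p : Lv K) : Lv K where
  f j := if j ∈ J then none else p.f j
  fin := p.fin.subset fun j hj => by
    simp only [Set.mem_ofPred_eq, ne_eq] at hj ⊢
    intro h
    apply hj
    rw [h]
    split_ifs <;> rfl
  lt j k h := by
    split_ifs at h
    exact p.lt j k h

theorem off_le {K : Type} [LinearOrder K] {J : Set (K × ℕ)} {p r : Lv K} (hp : p ≤ r)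
    (hr : Off J r) : off J p ≤ r := by
  intro j k hjk
  have hj : j ∉ J := by
    intro h
    rw [hr j h] at hjk
    cases hjk
  simp only [off, if_neg hj]
  exact hp j k hjk

end UDJ_

open UDJ_ in
theorem p_UDJ (h_CNF : T_CNF) : T_UDJ := by
  intro K _ mu nu I C1 hC1 hlow d hd T hT c hc c' hc' hcd hcd' s s' r r' hr hr'
  obtain ⟨k1, k2, k3, k4, k5, k6⟩ := h_CNF K
  unfold uu
  constructor
  · intro h
    refine ⟨fun h0 => h ?_, comparable T s s' [] (fun h0 => h ?_), ?_⟩
    · rw [eq_bot_iff, ← h0]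
      exact le_inf (inf_le_left.trans (inf_le_left.trans inf_le_left))
        (inf_le_right.trans (inf_le_left.trans inf_le_left))
    · rw [List.nil_append, List.nil_append] at h0
      rw [eq_bot_iff, ← h0]
      exact le_inf (inf_le_left.trans (inf_le_left.trans inf_le_right))
        (inf_le_right.trans (inf_le_left.trans inf_le_right))
    · refine (k6 r r').1 fun h0 => h ?_
      rw [eq_bot_iff, ← h0]
      exact le_inf (inf_le_left.trans inf_le_right) (inf_le_right.trans inf_le_right)
  · rintro ⟨hcc, hss, r'', hr1, hr2⟩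
    obtain ⟨q, hq⟩ : ∃ q : List I, T.ds q ≤ T.ds s ∧ T.ds q ≤ T.ds s' := by
      rcases hss with h | h
      · exact ⟨s', ds_anti T h, le_rfl⟩
      · exact ⟨s, le_rfl, ds_anti T h⟩
    -- the meet of `c` and `c'` is in `C1`
    have hinf : c ⊓ c' ∈ C1 := by
      have h1 : c ⊓ c' = (cᶜ ⊔ c'ᶜ)ᶜ := by rw [compl_sup, compl_compl, compl_compl]
      have h2 : cᶜ ⊔ c'ᶜ = sSup {cᶜ, c'ᶜ} := sSup_pair.symm
      rw [h1, h2]
      refine hC1.compl _ (hC1.sSup _ ?_)
      rintro z (rfl | rfl)
      · exact hC1.compl c hc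
      · exact hC1.compl c' hc'
    have hne : c ⊓ c' ⊓ T.ds q ≠ ⊥ := by
      refine T.full q (c ⊓ c') hinf ?_
      rwa [inf_eq_left.2 (inf_le_left.trans hcd)]
    have hSp : c ⊓ c' ⊓ T.ds q ∈ Sp (lowcol mu nu) := by
      intro p p' hpp
      have h1 : p ∈ c ⊓ c' ↔ p' ∈ c ⊓ c' :=
        hlow hinf p p' fun j hj => hpp j (Or.inl hj)
      have h2 := hT q p p' hpp
      show (p ∈ c ⊓ c' ∧ p ∈ T.ds q) ↔ (p' ∈ c ⊓ c' ∧ p' ∈ T.ds q)
      rw [h1, h2]
    have hoff : Off (lowcol mu nu) (off (lowcol mu nu) r'') := by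
      intro j hj
      exact if_pos hj
    have hne2 := k4 (lowcol mu nu) _ (off (lowcol mu nu) r'') hSp hne hoff
    intro h0
    apply hne2
    rw [eq_bot_iff, ← h0]
    have hle : ∀ r : Lv K, r'' ≤ r → Off (lowcol mu nu) r →
        cn (off (lowcol mu nu) r'') ≤ cn r := by
      intro r h hr
      refine (k1 _ _).1 ?_
      exact RO.mem_down ((k1 r (cn r)).2 le_rfl) (off_le h hr)
    refine le_inf (le_inf (le_inf ?_ ?_) ?_) (le_inf (le_inf ?_ ?_) ?_)
    · exact inf_le_left.trans (inf_le_left.trans inf_le_left)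
    · exact inf_le_left.trans (inf_le_right.trans hq.1)
    · exact inf_le_right.trans (hle r hr1 hr)
    · exact inf_le_left.trans (inf_le_left.trans inf_le_right)
    · exact inf_le_left.trans (inf_le_right.trans hq.2)
    · exact inf_le_right.trans (hle r' hr2 hr')

end SLV
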