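import Pool.Agent.SLV.T1

/-!
# MP_0a8ab4_lc, project SLV: UDN, density of the family (helper48)
-/

set_option autoImplicit false

namespace SLV

open Cardinal CofSN Pool.Agent.MadBlock

namespace UDN_

theorem inf_mem {B : Type} [CompleteBooleanAlgebra B] {C : Set B} (h : CSub C) {c d : B}
    (hc : c ∈ C) (hd : d ∈ C) : c ⊓ d ∈ C := by
  have h1 : sSup {cᶜ, dᶜ} ∈ C := h.sSup _ (by
    rintro x (rfl | rfl)
    · exact h.compl c hc
    · exact h.compl d hd)
  have h2 := h.compl _ h1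
  rwa [sSup_pair, compl_sup, compl_compl, compl_compl] at h2

theorem ds_le {B : Type} [CompleteBooleanAlgebra B] {C : Set B} {d : B} {I : Type}
    (T : Tre C d I) (s : List I) : T.ds s ≤ d := by
  induction s using List.reverseRecOn with
  | nil => exact T.nil.le
  | append_singleton s i ih =>
    refine le_trans ?_ ih
    rw [← T.cover s]
    exact le_iSup (fun i => T.ds (s ++ [i])) i

variable {K : Type} [LinearOrder K]

theorem sp_mono {J J' : Set (K × ℕ)} (h : J ⊆ J') : Sp J ⊆ Sp J' :=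
  fun _ hU p q hpq => hU p q fun j hj => hpq j (h hj)

theorem sp_inf {J : Set (K × ℕ)} {U V : BL K} (hU : U ∈ Sp J) (hV : V ∈ Sp J) : U ⊓ V ∈ Sp J :=
  fun p q hpq => and_congr (hU p q hpq) (hV p q hpq)

open Classical in
/-- the restriction of a condition -/
noncomputable def res (J : Set (K × ℕ)) (q : Lv K) : Lv K where
  f j := if j ∈ J then q.f j else none
  fin := q.fin.subset fun j hj => by
    by_cases h : j ∈ J
    · simpa [h] using hj
    · simp [h] at hj
  lt j k h := by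
    by_cases hj : j ∈ J
    · rw [if_pos hj] at h
      exact q.lt j k h
    · rw [if_neg hj] at h
      exact absurd h (by simp)

theorem res_in {J : Set (K × ℕ)} {q : Lv K} {j : K × ℕ} (h : j ∈ J) : (res J q).f j = q.f j :=
  if_pos h

theorem res_out {J : Set (K × ℕ)} {q : Lv K} {j : K × ℕ} (h : j ∉ J) : (res J q).f j = none :=
  if_neg h

theorem le_res (J : Set (K × ℕ)) (q : Lv K) : q ≤ res J q := by
  intro j k h
  by_cases hj : j ∈ J
  · rwa [res_in hj] at h
  · rw [res_out hj] at h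
    exact absurd h (by simp)

theorem cn_res (J : Set (K × ℕ)) (q : Lv K) : cn (res J q) ⊓ cn (res Jᶜ q) ≤ cn q := by
  intro p hp p' hp'
  obtain ⟨r1, hr1, s1, hs1, h1⟩ := hp.1 p' hp'
  obtain ⟨r2, hr2, s2, hs2, h2⟩ := hp.2 r1 (hr1.trans hp')
  rw [Set.mem_singleton_iff] at hs1 hs2
  subst hs1 hs2
  refine ⟨r2, hr2.trans hr1, q, rfl, fun j k hjk => ?_⟩
  by_cases hj : j ∈ J
  · exact (hr2.trans h1) j k (by rw [res_in hj]; exact hjk)
  · exact h2 j k (by rw [res_in (J := Jᶜ) hj]; exact hjk)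

end UDN_

open UDN_ in
theorem p_UDN (h_CNF : T_CNF) : T_UDN := by
  intro K _ mu nu I C1 hC1 hlow d hd T hT hdense z hzd hz
  obtain ⟨cnf1, cnf2, cnf3, cnf4, cnf5, -⟩ := h_CNF K
  obtain ⟨q, hq⟩ := cnf2 z hz
  have hqz : cn q ≤ z := (cnf1 q z).1 hq
  set J := lowcol mu nu with hJ
  have h0 : cn (res J q) ∈ Sp J := cnf5 J _ fun j hj => by
    by_contra h
    exact hj (res_out h)
  have hq0 : q ∈ cn (res J q) := RO.mem_down ((cnf1 _ _).2 le_rfl) (le_res J q)
  have hmeet : cn (res J q) ⊓ d ≠ ⊥ := by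
    intro h
    have h1 : q ∈ cn (res J q) ⊓ d := ⟨hq0, hzd q hq⟩
    rw [h] at h1
    exact cnf3 q (le_bot_iff.1 ((cnf1 q ⊥).1 h1))
  obtain ⟨c, hc, s, hcs, hle⟩ := hdense _ h0 hmeet
  have hcd : c ⊓ d ⊓ T.ds s = c ⊓ T.ds s := by
    rw [inf_assoc, inf_eq_right.2 (ds_le T s)]
  refine ⟨c ⊓ d, inf_mem hC1 hc hd, inf_le_right, s, res Jᶜ q, ?_, ?_, ?_⟩
  · intro j hj
    exact res_out fun h => h hj
  · unfold uu
    rw [hcd]
    refine cnf4 J _ _ (sp_inf ?_ (hT s)) hcs fun j hj => res_out fun h => h hj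
    exact sp_mono (fun j hj => Or.inl hj) (hlow hc)
  · unfold uu
    rw [hcd]
    exact (inf_le_inf_right _ hle).trans ((cn_res J q).trans hqz)

end SLV
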