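import Pool.Agent.SLV.T1
import Pool.Agent.MadBlock.Block

/-!
# SLV: V1, reductions of a sequence of words inside a span over the field with two elements
(helper42)
-/

set_option autoImplicit false

namespace SLV

open Pool.Agent.MadBlock

namespace V1_

variable {F : Type} [Field F]

/-- A subspace which is not finite dimensional contains nonzero vectors vanishing below `M`. -/
theorem exists_tail (W : Submodule F (ℕ →₀ F)) (hW : ¬ FiniteDimensional F W) (M : ℕ) :
    ∃ v ∈ W, v ≠ 0 ∧ ∀ i < M, v i = 0 := by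
  by_contra hcon
  push Not at hcon
  apply hW
  let f : W →ₗ[F] (Fin M → F) :=
    { toFun := fun v i => (v : ℕ →₀ F) i
      map_add' := by intro v w; ext i; simp
      map_smul' := by intro r v; ext i; simp }
  have hf : Function.Injective f := by
    rw [injective_iff_map_eq_zero]
    intro v hv
    by_contra hne
    obtain ⟨i, hi, hvi⟩ := hcon v v.2 (fun h => hne (Subtype.ext h))
    exact hvi (congrFun hv ⟨i, hi⟩)
  exact FiniteDimensional.of_injective f hf

theorem lt_of_blk {x : ℕ → Wd} (hx : Blk x) {m n : ℕ} (h : m < n) : (x m).lt (x n) := by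
  induction n with
  | zero => omega
  | succ n ih =>
    rcases Nat.lt_succ_iff_lt_or_eq.mp h with h1 | h1
    · intro i hi j hj
      obtain ⟨k, hk⟩ := (x n).ne
      have hk' := (x n).sub hk
      exact lt_trans (ih h1 i hi k hk') (hx n k hk' j hj)
    · subst h1
      exact hx m

/-- the vector of a sum of words -/
theorem ev_act (c : ℕ → (ℕ →₀ F) × (ℕ →₀ F)) {x : ℕ → Wd} (hx : Blk x) (I : Finset ℕ)
    (hI : I.Nonempty) : ev c (act x ⟨I, I, subset_rfl, hI⟩) = ∑ n ∈ I, evs c x n := by
  have hd : ∀ m n, m ≠ n → Disjoint (x m).A (x n).A := by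
    intro m n hmn
    rw [Finset.disjoint_left]
    intro k hm hn
    rcases lt_or_gt_of_ne hmn with h | h
    · exact lt_irrefl _ (lt_of_blk hx h k hm k hn)
    · exact lt_irrefl _ (lt_of_blk hx h k hn k hm)
  unfold evs ev act
  rw [Finset.sum_biUnion, Finset.sum_biUnion, Finset.sum_add_distrib]
  · intro m _ n _ hmn
    exact Finset.disjoint_of_subset_left (x m).sub
      (Finset.disjoint_of_subset_right (x n).sub (hd m n hmn))
  · intro m _ n _ hmn
    exact hd m n hmn

/-- sums of members with indices at least `N` in the subspace -/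
theorem exists_sum (hF : ∀ a : F, a = 0 ∨ a = 1) {X : ℕ → (ℕ →₀ F)} (hX : IsBlockSeq X)
    (W : Submodule F (ℕ →₀ F)) (hW : ¬ AlmostDisjoint (spn X) W) (N : ℕ) :
    ∃ I : Finset ℕ, I.Nonempty ∧ (∀ i ∈ I, N ≤ i) ∧ ∑ n ∈ I, X n ∈ W := by
  classical
  -- a bound for the supports of the first members
  obtain ⟨M, hM⟩ : ∃ M, ∀ j < N, ∀ k ∈ (X j).support, k < M := by
    refine ⟨(Finset.range N).sup (fun j => (X j).support.sup id) + 1, ?_⟩
    intro j hj k hk
    have h1 : k ≤ (X j).support.sup id := Finset.le_sup (f := id) hk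
    have h2 : (X j).support.sup id ≤ (Finset.range N).sup (fun j => (X j).support.sup id) :=
      Finset.le_sup (f := fun j => (X j).support.sup id) (Finset.mem_range.2 hj)
    omega
  obtain ⟨v, hv, hv0, hvM⟩ := exists_tail (spn X ⊓ W) hW M
  obtain ⟨g, hg, hg'⟩ := hX.eval hv.1
  have hsum : v = ∑ n ∈ g.support, X n := by
    conv_lhs => rw [hg]
    unfold Finsupp.sum
    refine Finset.sum_congr rfl ?_
    intro i hi
    rcases hF (g i) with h | h
    · exact absurd h (Finsupp.mem_support_iff.1 hi)
    · show g i • X i = X i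
      rw [h, one_smul]
  refine ⟨g.support, ?_, ?_, ?_⟩
  · rw [Finset.nonempty_iff_ne_empty]
    intro h
    apply hv0
    rw [hsum, h, Finset.sum_empty]
  · intro i hi
    by_contra hlt
    push Not at hlt
    obtain ⟨k, hk⟩ := Finsupp.support_nonempty_iff.2 (hX i).1
    have h1 := hg' i k hk
    rw [hvM k (hM i hlt k hk)] at h1
    rcases mul_eq_zero.1 h1.symm with h2 | h2
    · exact Finsupp.mem_support_iff.1 hi h2
    · exact Finsupp.mem_support_iff.1 hk h2
  · rw [← hsum]
    exact hv.2

end V1_

open V1_ in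
theorem p_V1 (h_V4 : T_V4) : T_V1 := by
  classical
  intro F _ hF c hc x hx z hz
  have hX : IsBlockSeq (evs c x) := (h_V4 F).2 c hc x hx
  have key := exists_sum hF hX (spn z) hz
  choose I hne hge hmem using key
  -- the starting points
  let N : ℕ → ℕ := fun n => Nat.rec 0 (fun _ N => (I N).sup id + 1) n
  have hN : ∀ n, N (n + 1) = (I (N n)).sup id + 1 := fun n => rfl
  refine ⟨fun n => act x ⟨I (N n), I (N n), subset_rfl, hne (N n)⟩, ?_, ?_, ?_⟩
  · intro n i hi j hj
    simp only [act, Finset.mem_biUnion] at hi hj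
    obtain ⟨a, ha, hi⟩ := hi
    obtain ⟨b, hb, hj⟩ := hj
    have h1 : a ≤ (I (N n)).sup id := Finset.le_sup (f := id) ha
    have h2 := hge (N (n + 1)) b hb
    rw [hN] at h2
    exact lt_of_blk hx (show a < b by omega) i hi j hj
  · intro n
    exact ⟨_, rfl⟩
  · intro n
    show ev c (act x _) ∈ _
    rw [ev_act c hx]
    exact hmem (N n)

end SLV
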