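import Pool.Agent.SLV.T1
import Pool.Agent.MadBlock.Block

/-!
# SLV: V4 (interleaved sequences, vectors of words form block sequences)
-/

set_option autoImplicit false

namespace SLV

open Cardinal CofSN Pool.Agent.MadBlock

namespace V4_

variable {F : Type} [Field F]

lemma sum_support {e : ℕ → (ℕ →₀ F)} {I : Finset ℕ} {k : ℕ}
    (hk : k ∈ (∑ i ∈ I, e i).support) : ∃ i ∈ I, k ∈ (e i).support := by
  by_contra h
  push Not at h
  rw [Finsupp.mem_support_iff, Finsupp.finsetSum_apply] at hk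
  refine hk (Finset.sum_eq_zero fun i hi => ?_)
  exact Finsupp.notMem_support_iff.1 (h i hi)

lemma sum_ne {e : ℕ → (ℕ →₀ F)} (he : IsBlockSeq e) {I : Finset ℕ} (hI : I.Nonempty) :
    (∑ i ∈ I, e i) ≠ 0 := by
  obtain ⟨j, hj⟩ := hI
  obtain ⟨k, hk⟩ := Finsupp.support_nonempty_iff.mpr (he j).1
  intro h0
  have h1 : (∑ i ∈ I, e i) k = e j k := by
    rw [Finsupp.finsetSum_apply]
    refine Finset.sum_eq_single_of_mem j hj fun i _ hij => ?_
    by_contra h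
    rcases lt_or_gt_of_ne hij with h2 | h2
    · have := he.bef h2 k (Finsupp.mem_support_iff.mpr h) k hk
      omega
    · have := he.bef h2 k hk k (Finsupp.mem_support_iff.mpr h)
      omega
  rw [h0] at h1
  exact (Finsupp.mem_support_iff.1 hk) (by rw [← h1]; rfl)

lemma sumBlk {e : ℕ → (ℕ →₀ F)} (he : IsBlockSeq e) {I : ℕ → Finset ℕ}
    (hI : ∀ n, (I n).Nonempty) (hlt : ∀ n, ∀ i ∈ I n, ∀ j ∈ I (n + 1), i < j) :
    IsBlockSeq fun n => ∑ i ∈ I n, e i := by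
  intro n
  refine ⟨sum_ne he (hI n), ?_⟩
  intro k hk l hl
  obtain ⟨i, hi, hk'⟩ := sum_support hk
  obtain ⟨j, hj, hl'⟩ := sum_support hl
  exact he.bef (hlt n i hi j hj) k hk' l hl'

lemma inter_fst {c : ℕ → (ℕ →₀ F) × (ℕ →₀ F)} (hc : Inter c) :
    IsBlockSeq fun n => (c n).1 :=
  fun n => ⟨(hc n).1, (hc n).2.2.1.trans' (hc n).2.2.2 (hc n).2.1⟩

lemma inter_snd {c : ℕ → (ℕ →₀ F) × (ℕ →₀ F)} (hc : Inter c) :
    IsBlockSeq fun n => (c n).2 :=
  fun n => ⟨(hc n).2.1, (hc n).2.2.2.trans' (hc (n + 1)).2.2.1 (hc (n + 1)).1⟩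

/-- the interleaved sequence -/
noncomputable def il (c : ℕ → (ℕ →₀ F) × (ℕ →₀ F)) (n : ℕ) : ℕ →₀ F :=
  if n % 2 = 0 then (c (n / 2)).1 else (c (n / 2)).2

lemma il_even (c : ℕ → (ℕ →₀ F) × (ℕ →₀ F)) (n : ℕ) : il c (2 * n) = (c n).1 := by
  unfold il
  rw [if_pos (by omega)]
  congr 2
  omega

lemma il_odd (c : ℕ → (ℕ →₀ F) × (ℕ →₀ F)) (n : ℕ) : il c (2 * n + 1) = (c n).2 := by
  unfold il
  rw [if_neg (by omega)]
  congr 2
  omega

lemma il_blk {c : ℕ → (ℕ →₀ F) × (ℕ →₀ F)} (hc : Inter c) : IsBlockSeq (il c) := by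
  intro n
  rcases Nat.even_or_odd' n with ⟨m, rfl | rfl⟩
  · rw [il_even, il_odd]
    exact ⟨(hc m).1, (hc m).2.2.1⟩
  · rw [il_odd, show 2 * m + 1 + 1 = 2 * (m + 1) by ring, il_even]
    exact ⟨(hc m).2.1, (hc m).2.2.2⟩

lemma ev_eq (c : ℕ → (ℕ →₀ F) × (ℕ →₀ F)) (q : Wd) :
    ev c q = ∑ j ∈ q.A.image (fun i => 2 * i) ∪ q.V.image (fun i => 2 * i + 1), il c j := by
  classical
  rw [Finset.sum_union, Finset.sum_image, Finset.sum_image]
  · unfold ev
    congr 1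
    · exact Finset.sum_congr rfl fun i _ => (il_even c i).symm
    · exact Finset.sum_congr rfl fun i _ => (il_odd c i).symm
  · intro a _ b _ h
    simpa using h
  · intro a _ b _ h
    simpa using h
  · rw [Finset.disjoint_left]
    intro a ha hb
    simp only [Finset.mem_image] at ha hb
    obtain ⟨i, _, hi⟩ := ha
    obtain ⟨j, _, hj⟩ := hb
    omega

lemma evs_blk {c : ℕ → (ℕ →₀ F) × (ℕ →₀ F)} (hc : Inter c) {x : ℕ → Wd} (hx : Blk x) :
    IsBlockSeq (evs c x) := by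
  have h1 : evs c x = fun n => ∑ j ∈ (x n).A.image (fun i => 2 * i) ∪
      (x n).V.image (fun i => 2 * i + 1), il c j := by
    funext n
    exact ev_eq c (x n)
  rw [h1]
  refine sumBlk (il_blk hc) (fun n => ?_) fun n i hi j hj => ?_
  · obtain ⟨k, hk⟩ := (x n).ne
    exact ⟨2 * k + 1, Finset.mem_union_right _ (Finset.mem_image_of_mem _ hk)⟩
  · have hlo : ∃ a ∈ (x n).A, i ≤ 2 * a + 1 := by
      rcases Finset.mem_union.1 hi with h | h
      · obtain ⟨a, ha, rfl⟩ := Finset.mem_image.1 h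
        exact ⟨a, ha, by omega⟩
      · obtain ⟨a, ha, rfl⟩ := Finset.mem_image.1 h
        exact ⟨a, (x n).sub ha, by omega⟩
    have hhi : ∃ b ∈ (x (n + 1)).A, 2 * b ≤ j := by
      rcases Finset.mem_union.1 hj with h | h
      · obtain ⟨a, ha, rfl⟩ := Finset.mem_image.1 h
        exact ⟨a, ha, by omega⟩
      · obtain ⟨a, ha, rfl⟩ := Finset.mem_image.1 h
        exact ⟨a, (x (n + 1)).sub ha, by omega⟩
    obtain ⟨a, ha, hia⟩ := hlo
    obtain ⟨b, hb, hbj⟩ := hhi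
    have := hx n a ha b hb
    omega

/-- index after the support of `v` -/
def nx (v : ℕ →₀ F) : ℕ := v.support.sup id + 1

lemma nx_bef {a : ℕ → (ℕ →₀ F)} (ha : IsBlockSeq a) (v : ℕ →₀ F) : Bef v (a (nx v)) := by
  intro i hi j hj
  have h1 : i ≤ v.support.sup id := Finset.le_sup (f := id) hi
  have h2 := ha.ge (nx v) j hj
  unfold nx at h2
  omega

/-- the recursion for the interleaved sequence -/
noncomputable def cs (a1 a2 : ℕ → (ℕ →₀ F)) : ℕ → (ℕ →₀ F) × (ℕ →₀ F)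
  | 0 => (a1 0, a2 (nx (a1 0)))
  | n + 1 => (a1 (nx (cs a1 a2 n).2), a2 (nx (a1 (nx (cs a1 a2 n).2))))

end V4_

open V4_ in
theorem p_V4 : T_V4 := by
  intro F _
  refine ⟨?_, fun c hc x hx => evs_blk hc hx⟩
  intro a1 a2 h1 h2
  have key : ∀ n, ∃ i, (cs a1 a2 n).1 = a1 i ∧ (cs a1 a2 n).2 = a2 (nx (a1 i)) := by
    intro n
    cases n with
    | zero => exact ⟨0, rfl, rfl⟩
    | succ n => exact ⟨_, rfl, rfl⟩
  refine ⟨cs a1 a2, ?_, ?_, ?_⟩
  · intro n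
    obtain ⟨i, hi1, hi2⟩ := key n
    refine ⟨?_, ?_, ?_, ?_⟩
    · rw [hi1]; exact (h1 _).1
    · rw [hi2]; exact (h2 _).1
    · rw [hi1, hi2]; exact nx_bef h2 _
    · exact nx_bef h1 _
  · intro n
    obtain ⟨i, hi1, _⟩ := key n
    rw [hi1]
    exact Submodule.subset_span ⟨i, rfl⟩
  · intro n
    obtain ⟨i, _, hi2⟩ := key n
    rw [hi2]
    exact Submodule.subset_span ⟨_, rfl⟩

end SLV
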