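import Pool.Agent.SLV.T1
import Pool.Agent.SLV.V4

/-!
# SLV: V3 (the final contradiction)
-/

set_option autoImplicit false

namespace SLV

open Cardinal CofSN Pool.Agent.MadBlock

namespace V3_

variable {F : Type} [Field F]

lemma notAD {V W : Submodule F (ℕ →₀ F)} {y : ℕ → (ℕ →₀ F)} (hy : IsBlockSeq y)
    (h1 : ∀ n, y n ∈ V) (h2 : ∀ n, y n ∈ W) : ¬ AlmostDisjoint V W := by
  intro h
  rw [almostDisjoint_iff] at h
  obtain ⟨N, hN⟩ := h
  obtain ⟨k, hk⟩ := Finsupp.support_nonempty_iff.mpr (hy N).1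
  exact (Finsupp.mem_support_iff.1 hk) (hN _ (h1 N) (h2 N) k (hy.ge N k hk))

lemma blk_lt {x : ℕ → Wd} (hx : Blk x) {m n : ℕ} (h : m < n) : (x m).lt (x n) := by
  induction n with
  | zero => omega
  | succ n ih =>
    rcases Nat.lt_succ_iff_lt_or_eq.mp h with h1 | h1
    · intro i hi j hj
      obtain ⟨k, hk⟩ := (x n).ne
      exact lt_trans (ih h1 i hi k ((x n).sub hk)) (hx n k ((x n).sub hk) j hj)
    · subst h1
      exact hx m

lemma zz_even (x : ℕ → Wd) (k : ℕ) : zz x (2 * k) = x (3 * k) := by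
  unfold zz
  rw [if_pos (by omega)]
  congr 2
  omega

lemma ev_zz_odd (c : ℕ → (ℕ →₀ F) × (ℕ →₀ F)) {x : ℕ → Wd} (hx : Blk x) (k : ℕ) :
    ev c (zz x (2 * k + 1)) = ∑ i ∈ (x (3 * k + 1)).A, (c i).1 + ev c (x (3 * k + 2)) := by
  classical
  have hk : (2 * k + 1) / 2 = k := by omega
  unfold zz
  rw [if_neg (by omega)]
  simp only [hk]
  unfold ev act
  simp only
  rw [Finset.biUnion_insert, Finset.singleton_biUnion, Finset.singleton_biUnion,
    Finset.sum_union, add_assoc]
  rw [Finset.disjoint_left]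
  intro a ha hb
  exact absurd (blk_lt hx (show 3 * k + 1 < 3 * k + 2 by omega) a ha a hb) (lt_irrefl a)

end V3_

open V3_ in
theorem p_V3 : T_V3 := by
  intro F _ c hc x hx W W' U1 U2 hU1 hU2 hW hW' hWW' hWU hUU
  have hne : ∀ n, (x n).A.Nonempty := fun n =>
    let ⟨k, hk⟩ := (x n).ne
    ⟨k, (x n).sub hk⟩
  -- step 1
  have e1 : W = W' := by
    refine hWW'.resolve_right ?_
    have hb : Blk fun k => x (3 * k) := fun k => blk_lt hx (by omega)
    refine notAD (V4_.evs_blk hc hb) (fun k => hW (3 * k)) fun k => ?_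
    have := hW' (2 * k)
    unfold evs at this
    rw [zz_even] at this
    exact this
  -- step 2
  have e2 : W = U1 := by
    refine hWU.resolve_right ?_
    have hb : IsBlockSeq fun k => ∑ i ∈ (x (3 * k + 1)).A, (c i).1 :=
      V4_.sumBlk (e := fun i => (c i).1) (V4_.inter_fst hc) (fun k => hne _)
        fun k => blk_lt hx (by omega)
    refine notAD hb (fun k => ?_) fun k => Submodule.sum_mem _ fun i _ => hU1 i
    have h1 := hW' (2 * k + 1)
    have h2 := hW (3 * k + 2)
    unfold evs at h1 h2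
    rw [ev_zz_odd c hx, ← e1] at h1
    have := W.sub_mem h1 h2
    rwa [add_sub_cancel_right] at this
  -- step 3
  refine hUU.resolve_right ?_
  have hb : IsBlockSeq fun n => ∑ i ∈ (x n).V, (c i).2 :=
    V4_.sumBlk (e := fun i => (c i).2) (V4_.inter_snd hc) (fun n => (x n).ne)
      fun n i hi j hj => hx n i ((x n).sub hi) j ((x (n + 1)).sub hj)
  refine notAD hb (fun n => ?_) fun n => Submodule.sum_mem _ fun i _ => hU2 i
  have h1 := hW n
  rw [e2] at h1
  unfold evs ev at h1
  have h2 : ∑ i ∈ (x n).A, (c i).1 ∈ U1 := Submodule.sum_mem _ fun i _ => hU1 i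
  have := U1.sub_mem h1 h2
  rwa [add_sub_cancel_left] at this

end SLV
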