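import Pool.Agent.SLV.T1

/-!
# MP_0a8ab4_lc, project SLV: Borel relations between pairs, words and vectors (T_V6)
-/

set_option autoImplicit false

namespace SLV

open Cardinal CofSN Pool.Agent.MadBlock

namespace V6_

theorem countable_Wd : Countable Wd := by
  have h : Function.Injective (fun q : Wd => (q.A, q.V)) := by
    intro p q hpq
    simp only [Prod.mk.injEq] at hpq
    exact Wd.ext hpq.1 hpq.2
  exact h.countable

theorem ev_congr {F : Type} [Field F] (c c' : ℕ → (ℕ →₀ F) × (ℕ →₀ F)) (q : Wd)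
    (h : ∀ i ∈ q.A, c i = c' i) : ev c q = ev c' q := by
  unfold ev
  rw [Finset.sum_congr rfl (fun i hi => by rw [h i hi]),
    Finset.sum_congr (s₁ := q.V) rfl (fun i hi => by rw [h i (q.sub hi)])]

end V6_

theorem p_V6 (hM1 : T_M1) : T_V6 := by
  intro F _ _
  refine ⟨?_, ?_, ?_⟩
  · intro n v
    have hW : Countable Wd := V6_.countable_Wd
    show Mes {z : ℕ → ((ℕ →₀ F) × (ℕ →₀ F)) × Wd |
      evs (fun m => (z m).1) (fun m => (z m).2) n = v}
    have hset : {z : ℕ → ((ℕ →₀ F) × (ℕ →₀ F)) × Wd |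
        evs (fun m => (z m).1) (fun m => (z m).2) n = v} =
        ⋃ q : Wd, {z | (z n).2 = q ∧ ev (fun m => (z m).1) q = v} := by
      ext z
      simp only [Set.mem_ofPred_eq, Set.mem_iUnion, evs]
      constructor
      · intro h
        exact ⟨(z n).2, rfl, h⟩
      · rintro ⟨q, rfl, h⟩
        exact h
    rw [hset]
    refine @MeasurableSet.iUnion _ Wd (bsp _) hW _ fun q => ?_
    refine hM1 _ _ (n + 1 + (q.A.sup id + 1)) fun x y hxy => ?_
    have h1 : (x n).2 = (y n).2 := by rw [hxy n (by omega)]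
    have h2 : ev (fun m => (x m).1) q = ev (fun m => (y m).1) q := by
      refine V6_.ev_congr _ _ q fun i hi => ?_
      have h3 : i ≤ q.A.sup id := Finset.le_sup (f := id) hi
      rw [hxy i (by omega)]
    simp only [Set.mem_ofPred_eq]
    rw [h1, h2]
  · intro n v
    refine hM1 _ _ (n + 1) fun x y hxy => ?_
    simp only [Set.mem_ofPred_eq]
    rw [hxy n (by omega)]
  · intro n v
    refine hM1 _ _ (n + 1) fun x y hxy => ?_
    simp only [Set.mem_ofPred_eq]
    rw [hxy n (by omega)]

end SLV
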