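import Mathlib
import Pool.Agent.SLV.T2

/-!
# MP_0a8ab4_lc, project SLV: elementary facts on stems and neighbourhoods (`T_W10`) (helper21)
-/

set_option autoImplicit false

namespace SLV

namespace W10_

theorem act_congr {w w' : ℕ → Wd} {p : Wd} (h : ∀ i ∈ p.A, w i = w' i) : act w p = act w' p := by
  apply Wd.ext
  · exact Finset.biUnion_congr rfl fun i hi => by rw [h i hi]
  · exact Finset.biUnion_congr rfl fun i hi => by rw [h i (p.sub hi)]

theorem sub_act {w : ℕ → Wd} {p : Wd} {i : ℕ} (hi : i ∈ p.A) : (w i).A ⊆ (act w p).A :=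
  Finset.subset_biUnion_of_mem (fun i => (w i).A) hi

theorem beyond_of_act {t : List Wd} {w : ℕ → Wd} {p : Wd} (h : Beyond t (act w p)) {i : ℕ}
    (hi : i ∈ p.A) : Beyond t (w i) := fun r hr a ha j hj => h r hr a ha j (sub_act hi hj)

theorem comp_mem (h1 : T_W1) {w v : ℕ → Wd} {p : Wd} (h : ∀ i ∈ p.A, w i ∈ Rg v) :
    act w p ∈ Rg v := by
  have h' : ∀ i ∈ p.A, ∃ q, act v q = w i := h
  choose! P hP using h'
  refine ⟨act P p, ?_⟩
  rw [← h1.1 v P p]
  exact act_congr hP

theorem mem_of_beyond (h1 : T_W1) {t : List Wd} {w v : ℕ → Wd} (h : LeT t w v) {q : Wd}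
    (hq : q ∈ Rg w) (hb : Beyond t q) : q ∈ Rg v := by
  obtain ⟨p, rfl⟩ := hq
  exact comp_mem h1 fun i hi => h i (beyond_of_act hb hi)

theorem pre_length {X : Type} (y : ℕ → X) (k : ℕ) : (pre y k).length = k := by
  simp [pre]

theorem mem_pre {X : Type} {y : ℕ → X} {k : ℕ} {r : X} : r ∈ pre y k ↔ ∃ m < k, y m = r := by
  simp [pre]

theorem pre_succ {X : Type} (y : ℕ → X) (k : ℕ) : pre y (k + 1) = pre y k ++ [y k] := by
  simp [pre, List.range_succ]

theorem pre_take {X : Type} (y : ℕ → X) (a b : ℕ) : (pre y (a + b)).take a = pre y a := by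
  unfold pre
  rw [← List.map_take, List.take_range, Nat.min_eq_left (Nat.le_add_right a b)]

theorem nb_beyond (h2 : T_W2) {t : List Wd} {y : ℕ → Wd} (hy : Blk y) (ht : pre y t.length = t)
    {n : ℕ} (hn : t.length ≤ n) : Beyond t (y n) := by
  intro r hr
  rw [← ht] at hr
  obtain ⟨m, hm, rfl⟩ := mem_pre.1 hr
  exact (h2 y hy).1 m n (lt_of_lt_of_le hm hn)

theorem nb_blkl (h2 : T_W2) {t : List Wd} {y : ℕ → Wd} (hy : Blk y) (ht : pre y t.length = t) :
    BlkL t := by
  rw [← ht]
  unfold BlkL pre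
  rw [List.pairwise_map]
  refine List.Pairwise.imp ?_ List.pairwise_lt_range
  intro a b hab
  exact (h2 y hy).1 a b hab

end W10_

open W10_ in
/-- Elementary facts on `LeT`, `Nb`, `InF`, `Beyond`. -/
theorem p_W10 (h1 : T_W1) (h2 : T_W2) : T_W10 := by
  refine ⟨?_, ?_, ?_, ?_, ?_, ?_, ?_, ?_, ?_⟩
  · intro t y w v hyw hwv n hn
    exact mem_of_beyond h1 hwv (hyw n hn) hn
  · intro t y w h n _
    exact h n
  · intro t s y w h n hn
    exact h n fun r hr => hn r (List.mem_append_right t hr)
  · rintro t w' w y h ⟨hy, ht, hn⟩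
    exact ⟨hy, ht, fun n hle => mem_of_beyond h1 h (hn n hle) (nb_beyond h2 hy ht hle)⟩
  · rintro t w y ⟨hy, ht, hn⟩
    exact ⟨nb_blkl h2 hy ht, fun n hle => nb_beyond h2 hy ht hle⟩
  · rintro t w' w h ⟨hb, hq⟩
    exact ⟨hb, fun q hqt => h1.2.2.2 w' w h (hq q hqt)⟩
  · intro t w q
    constructor
    · rintro ⟨hb, hq⟩
      have hb' : (t ++ [q]).Pairwise Wd.lt := hb
      rw [List.pairwise_append] at hb'
      exact ⟨⟨hb'.1, fun r hr => hq r (List.mem_append_left _ hr)⟩,
        hq q (List.mem_append_right _ (List.mem_singleton.2 rfl)),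
        fun r hr => hb'.2.2 r hr q (List.mem_singleton.2 rfl)⟩
    · rintro ⟨⟨hb, hq⟩, hr, hbe⟩
      refine ⟨?_, ?_⟩
      · show (t ++ [q]).Pairwise Wd.lt
        rw [List.pairwise_append]
        refine ⟨hb, List.pairwise_singleton _ _, ?_⟩
        intro r hrt s hs
        rw [List.mem_singleton.1 hs]
        exact hbe r hrt
      · intro r hrt
        rcases List.mem_append.1 hrt with h | h
        · exact hq r h
        · rw [List.mem_singleton.1 h]
          exact hr
  · rintro t w y ⟨hy, ht, hn⟩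
    refine ⟨⟨hy, ?_, ?_⟩, hn _ le_rfl, nb_beyond h2 hy ht le_rfl⟩
    · rw [List.length_append, List.length_singleton, pre_succ, ht]
    · intro n hle
      rw [List.length_append, List.length_singleton] at hle
      exact hn n (by omega)
  · rintro t s w y ⟨hy, ht, hn⟩ hs
    have hlen : (t ++ s).length = t.length + s.length := List.length_append
    refine ⟨hy, ?_, ?_⟩
    · have h3 := pre_take y t.length s.length
      rw [← h3, ← hlen, ht, List.take_left]
    · intro n hle
      by_cases hlt : n < (t ++ s).length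
      · refine hs _ ?_
        have h4 : y n ∈ t ++ s := by
          rw [← ht]
          exact mem_pre.2 ⟨n, hlt, rfl⟩
        rcases List.mem_append.1 h4 with h5 | h5
        · exfalso
          have h6 := nb_beyond h2 (t := t) hy (by
            have h3 := pre_take y t.length s.length
            rw [← h3, ← hlen, ht, List.take_left]) hle (y n) h5
          obtain ⟨k, hk⟩ := (y n).ne
          exact lt_irrefl k (h6 k ((y n).sub hk) k ((y n).sub hk))
        · exact h5
      · exact hn n (not_lt.1 hlt)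

end SLV
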