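import Pool.Agent.SLV.T1

/-!
# MP_0a8ab4_lc, project SLV: block sequences (helper41, job SLV-W2)
-/

set_option autoImplicit false

namespace SLV

namespace W2_

theorem ne (p : Wd) : p.A.Nonempty := p.ne.mono p.sub

theorem trans {p q r : Wd} (h : p.lt q) (h' : q.lt r) : p.lt r := by
  intro i hi j hj
  obtain ⟨k, hk⟩ := ne q
  exact (h i hi k hk).trans (h' k hk j hj)

theorem mono {w : ℕ → Wd} (hw : Blk w) : ∀ m n, m < n → (w m).lt (w n) := by
  intro m n hmn
  induction n with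
  | zero => exact absurd hmn (Nat.not_lt_zero m)
  | succ n ih =>
    rcases Nat.lt_succ_iff_lt_or_eq.1 hmn with h | h
    · exact trans (ih h) (hw n)
    · rw [h]
      exact hw n

theorem act_lt {w : ℕ → Wd} (hw : Blk w) (p q : Wd) : p.lt q ↔ (act w p).lt (act w q) := by
  constructor
  · intro h i hi j hj
    have hi' : i ∈ p.A.biUnion fun i => (w i).A := hi
    have hj' : j ∈ q.A.biUnion fun i => (w i).A := hj
    rw [Finset.mem_biUnion] at hi' hj'
    obtain ⟨a, ha, hi'⟩ := hi'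
    obtain ⟨b, hb, hj'⟩ := hj'
    exact mono hw a b (h a ha b hb) i hi' j hj'
  · intro h a ha b hb
    obtain ⟨i, hi⟩ := ne (w a)
    obtain ⟨j, hj⟩ := ne (w b)
    have hia : i ∈ (act w p).A := Finset.mem_biUnion.2 ⟨a, ha, hi⟩
    have hjb : j ∈ (act w q).A := Finset.mem_biUnion.2 ⟨b, hb, hj⟩
    by_contra hab
    rcases (not_lt.1 hab).lt_or_eq with h1 | h1
    · exact lt_asymm (h i hia j hjb) (mono hw b a h1 j hj i hi)
    · subst h1
      exact lt_irrefl i (h i hia i (Finset.mem_biUnion.2 ⟨b, hb, hi⟩))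

end W2_

theorem p_W2 : T_W2 := fun _ hw =>
  ⟨W2_.mono hw, W2_.act_lt hw, fun p hp n => (W2_.act_lt hw (p n) (p (n + 1))).1 (hp n)⟩

end SLV
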