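import Pool.Agent.SLV.T1

/-!
# SLV: W3, patterns of a block sequence (helper13)
-/

set_option autoImplicit false

namespace SLV

theorem p_W3 (h_W2 : T_W2) : T_W3 := by
  intro w y hw hy hle
  choose P hP using hle
  refine ⟨P, fun n => ?_, fun n => (hP n).symm⟩
  rw [(h_W2 w hw).2.1, hP, hP]
  exact hy n

end SLV
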