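import Pool.Agent.SLV.T1

/-!
# MP_0a8ab4_lc, project SLV: target W4 (helper8)
-/

set_option autoImplicit false

namespace SLV

theorem p_W4 (h_W2 : T_W2) : T_W4 := by
  classical
  intro w hw t
  obtain ⟨-, h2, -⟩ := h_W2 w hw
  constructor
  · rintro ⟨hB, hR⟩
    have hex : ∀ q : Wd, ∃ p : Wd, q ∈ Rg w → act w p = q := by
      intro q
      by_cases hq : q ∈ Rg w
      · obtain ⟨p, hp⟩ := hq
        exact ⟨p, fun _ => hp⟩
      · exact ⟨q, fun h => absurd h hq⟩
    choose pat hpat using hex
    have hPB : BlkL (t.map pat) := by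
      unfold BlkL
      rw [List.pairwise_map]
      refine List.Pairwise.imp_of_mem ?_ hB
      intro a b ha hb hab
      rw [h2, hpat a (hR a ha), hpat b (hR b hb)]
      exact hab
    have hPt : t = (t.map pat).map (act w) := by
      rw [List.map_map]
      conv_lhs => rw [← List.map_id t]
      refine List.map_congr_left fun q hq => ?_
      show q = act w (pat q)
      rw [hpat q (hR q hq)]
    set S : Finset ℕ := (t.map pat).toFinset.biUnion Wd.A with hS
    rcases S.eq_empty_or_nonempty with h0 | hne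
    · refine ⟨0, t.map pat, hPB, hPt, fun p hp i hi => ?_, Or.inl rfl⟩
      have hiS : i ∈ S := Finset.mem_biUnion.2 ⟨p, List.mem_toFinset.2 hp, hi⟩
      rw [h0] at hiS
      exact absurd hiS (Finset.notMem_empty i)
    · refine ⟨S.max' hne + 1, t.map pat, hPB, hPt, fun p hp i hi => ?_, Or.inr ?_⟩
      · have hiS : i ∈ S := Finset.mem_biUnion.2 ⟨p, List.mem_toFinset.2 hp, hi⟩
        exact Nat.lt_succ_of_le (S.le_max' i hiS)
      · obtain ⟨p, hp, hi⟩ := Finset.mem_biUnion.1 (S.max'_mem hne)
        exact ⟨p, List.mem_toFinset.1 hp, by simpa using hi⟩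
  · rintro ⟨n, P, hB, rfl, -, -⟩
    refine ⟨?_, ?_⟩
    · unfold BlkL
      rw [List.pairwise_map]
      exact List.Pairwise.imp (fun {a b} hab => (h2 a b).1 hab) hB
    · intro q hq
      obtain ⟨p, -, rfl⟩ := List.mem_map.1 hq
      exact ⟨p, rfl⟩

end SLV
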