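import Pool.Agent.SLV.T1

/-! # SLV, W5: initial segments of `y ≤ w` have depth at least their length (helper9) -/

set_option autoImplicit false

namespace SLV

open Cardinal CofSN Pool.Agent.MadBlock

namespace W5_

theorem ne_A (p : Wd) : p.A.Nonempty := by
  obtain ⟨i, hi⟩ := p.ne
  exact ⟨i, p.sub hi⟩

theorem max_ge {P : ℕ → Wd} (hP : Blk P) : ∀ m, m ≤ (P m).A.max' (ne_A (P m)) := by
  intro m
  induction m with
  | zero => exact Nat.zero_le _
  | succ m ih =>
    have h1 : (P m).A.max' (ne_A (P m)) < (P (m + 1)).A.max' (ne_A (P (m + 1))) :=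
      hP m _ (Finset.max'_mem _ _) _ (Finset.max'_mem _ _)
    omega

end W5_

open W5_ in
theorem p_W5 (h_W2 : T_W2) (h_W3 : T_W3) : T_W5 := by
  intro w y hw hy hyw k
  obtain ⟨P, hP, hyP⟩ := h_W3 w y hw hy hyw
  have hlt := (h_W2 P hP).1
  cases k with
  | zero =>
    exact ⟨0, le_rfl, [], List.Pairwise.nil, by simp [pre], by simp, Or.inl rfl⟩
  | succ m =>
    refine ⟨(P m).A.max' (ne_A (P m)) + 1, by have := max_ge hP m; omega, pre P (m + 1), ?_, ?_,
      ?_, Or.inr ⟨P m, ?_, ?_⟩⟩
    · unfold BlkL pre
      rw [List.pairwise_map]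
      exact List.pairwise_lt_range.imp (fun {a b} hab => hlt a b hab)
    · unfold pre
      rw [List.map_map]
      refine List.map_congr_left fun n _ => ?_
      rw [hyP n]
      rfl
    · intro p hp i hi
      unfold pre at hp
      rw [List.mem_map] at hp
      obtain ⟨j, hj, rfl⟩ := hp
      rw [List.mem_range] at hj
      rcases Nat.lt_or_ge j m with hjm | hjm
      · have := hlt j m hjm i hi _ (Finset.max'_mem _ (ne_A (P m)))
        omega
      · have hjm' : j = m := by omega
        subst hjm'
        have := Finset.le_max' _ i hi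
        omega
    · unfold pre
      rw [List.mem_map]
      exact ⟨m, by rw [List.mem_range]; omega, rfl⟩
    · have h1 : (P m).A.max' (ne_A (P m)) + 1 - 1 = (P m).A.max' (ne_A (P m)) := by omega
      rw [h1]
      exact Finset.max'_mem _ _

end SLV
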