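import Pool.Agent.SLV.T1

/-!
# SLV: W6, a stem of depth `n` is not followed by `w m`, `m < n` (helper62)
-/

set_option autoImplicit false

namespace SLV

namespace W6_

theorem lt_of_blk {w : ℕ → Wd} (hw : Blk w) (m k : ℕ) : (w m).lt (w (m + k + 1)) := by
  induction k with
  | zero => exact hw m
  | succ k ih =>
    intro i hi j hj
    obtain ⟨a, ha⟩ := (w (m + k + 1)).ne
    have ha' := (w (m + k + 1)).sub ha
    exact lt_trans (ih i hi a ha') (hw (m + k + 1) a ha' j hj)

end W6_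

theorem p_W6 : T_W6 := by
  intro w hw n t ht m hm hB
  obtain ⟨P, -, rfl, -, h0⟩ := ht
  rcases h0 with h0 | ⟨p, hp, hpn⟩
  · omega
  · have hlt : (act w p).lt (w m) := hB _ (List.mem_map.2 ⟨p, hp, rfl⟩)
    obtain ⟨i, hi⟩ := (w (n - 1)).ne
    have hi' := (w (n - 1)).sub hi
    have hiA : i ∈ (act w p).A := Finset.mem_biUnion.2 ⟨n - 1, hpn, hi'⟩
    rcases Nat.lt_or_ge m (n - 1) with h | h
    · obtain ⟨j, hj⟩ := (w m).ne
      have hj' := (w m).sub hj
      have h1 := W6_.lt_of_blk hw m (n - 1 - m - 1)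
      rw [show m + (n - 1 - m - 1) + 1 = n - 1 by omega] at h1
      exact lt_asymm (h1 j hj' i hi') (hlt i hiA j hj')
    · have hmn : m = n - 1 := by omega
      rw [hmn] at hlt
      exact lt_irrefl _ (hlt i hiA i hi')

end SLV
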