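import Pool.Agent.SLV.T1

/-!
# MP_0a8ab4_lc, project SLV: target W7 (helper23)
-/

set_option autoImplicit false

namespace SLV

namespace W7_

theorem act_congr {w w' : ℕ → Wd} {q : Wd} (h : ∀ i ∈ q.A, w i = w' i) : act w q = act w' q := by
  ext k
  · simp only [act, Finset.mem_biUnion]
    exact ⟨fun ⟨i, hi, hk⟩ => ⟨i, hi, by rw [← h i hi]; exact hk⟩,
      fun ⟨i, hi, hk⟩ => ⟨i, hi, by rw [h i hi]; exact hk⟩⟩
  · simp only [act, Finset.mem_biUnion]
    exact ⟨fun ⟨i, hi, hk⟩ => ⟨i, hi, by rw [← h i (q.sub hi)]; exact hk⟩,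
      fun ⟨i, hi, hk⟩ => ⟨i, hi, by rw [h i (q.sub hi)]; exact hk⟩⟩

end W7_

open W7_

theorem p_W7 (h_W1 : T_W1) (h_W2 : T_W2) (h_W3 : T_W3) : T_W7 := by
  intro w y v hw hy hle n k hF hv m hm
  obtain ⟨P, hP, hyP⟩ := h_W3 w y hw hy hle
  obtain ⟨Q, hQ, hpre, hlt, hlast⟩ := hF
  have key : ∀ i ∈ (P m).A, n ≤ i := by
    intro i hi
    rcases hlast with h0 | ⟨p, hp, hpn⟩
    · omega
    · have hmem : act w p ∈ pre y k := by
        rw [hpre]
        exact List.mem_map_of_mem hp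
      unfold pre at hmem
      obtain ⟨j, hj, hjy⟩ := List.mem_map.1 hmem
      have hjk : j < k := List.mem_range.1 hj
      have h1 : (y j).lt (y m) := (h_W2 y hy).1 j m (lt_of_lt_of_le hjk hm)
      rw [hjy, hyP m] at h1
      have h2 : p.lt (P m) := ((h_W2 w hw).2.1 p (P m)).2 h1
      have h3 := h2 (n - 1) hpn i hi
      omega
  classical
  have hex : ∀ i, ∃ r : Wd, n ≤ i → act v r = w i := by
    intro i
    by_cases hi : n ≤ i
    · obtain ⟨r, hr⟩ := hv i hi
      exact ⟨r, fun _ => hr⟩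
    · exact ⟨default, fun h => absurd h hi⟩
  choose r hr using hex
  have e1 : y m = act (fun i => act v (r i)) (P m) := by
    rw [hyP m]
    exact act_congr (fun i hi => (hr i (key i hi)).symm)
  rw [e1, h_W1.1]
  exact ⟨_, rfl⟩

end SLV
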