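import Pool.Agent.SLV.T1

/-!
# MP_0a8ab4_lc, project SLV: gluing of block sequences (target T_W8)
-/

set_option autoImplicit false

namespace SLV

namespace W8_

theorem le_of_mem {v : ℕ → Wd} (hv : Blk v) : ∀ m, ∀ i ∈ (v m).A, m ≤ i := by
  intro m
  induction m with
  | zero => exact fun i _ => Nat.zero_le i
  | succ m ih =>
    intro i hi
    obtain ⟨k, hk⟩ := (v m).ne
    have h1 := hv m k ((v m).sub hk) i hi
    have h2 := ih k ((v m).sub hk)
    omega

theorem exists_beyond {v : ℕ → Wd} (hv : Blk v) (w : ℕ → Wd) (n : ℕ) :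
    ∃ m, ∀ j < n, (w j).lt (v m) := by
  refine ⟨((Finset.range n).biUnion fun j => (w j).A).sup (fun x : ℕ => x) + 1,
    fun j hj i hi k hk => ?_⟩
  have h1 : i ∈ (Finset.range n).biUnion fun j => (w j).A :=
    Finset.mem_biUnion.2 ⟨j, Finset.mem_range.2 hj, hi⟩
  have h2 := Finset.le_sup (f := fun x : ℕ => x) h1
  have h3 := le_of_mem hv _ k hk
  have h4 : i ≤ ((Finset.range n).biUnion fun j => (w j).A).sup (fun x : ℕ => x) := h2
  omega

theorem glue_lt {n : ℕ} {w v : ℕ → Wd} {i : ℕ} (h : i < n) : glue n w v i = w i := by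
  simp only [glue, if_pos h]

theorem glue_ge {n : ℕ} {w v : ℕ → Wd} {i : ℕ} (h : ¬ i < n) :
    glue n w v i = v (i - n + sInf {m | ∀ j < n, (w j).lt (v m)}) := by
  simp only [glue, if_neg h]

end W8_

open W8_ in
theorem p_W8 (h_W1 : T_W1) (h_W6 : T_W6) : T_W8 := by
  intro w v hw hv hvw n
  have hM : sInf {m | ∀ j < n, (w j).lt (v m)} ∈ {m | ∀ j < n, (w j).lt (v m)} :=
    Nat.sInf_mem (exists_beyond hv w n)
  have hM' : ∀ j < n, (w j).lt (v (sInf {m | ∀ j < n, (w j).lt (v m)})) := hM
  refine ⟨fun i => ?_, fun i hi => glue_lt hi, fun i => ?_, fun t ht i hi => ?_⟩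
  · by_cases h1 : i + 1 < n
    · have h2 : i < n := by omega
      rw [glue_lt h1, glue_lt h2]
      exact hw i
    · by_cases h2 : i < n
      · have h3 : i + 1 - n = 0 := by omega
        rw [glue_lt h2, glue_ge h1, h3, Nat.zero_add]
        exact hM' i h2
      · have h3 : i + 1 - n = i - n + 1 := by omega
        rw [glue_ge h2, glue_ge h1, h3, Nat.add_right_comm]
        exact hv _
  · by_cases h : i < n
    · rw [glue_lt h]
      exact h_W1.2.1 w i
    · rw [glue_ge h]
      exact hvw _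
  · by_cases h : i < n
    · rw [glue_lt h] at hi
      exact absurd hi (h_W6 w hw n t ht i h)
    · rw [glue_ge h]
      exact h_W1.2.1 v _

end SLV
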