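import Pool.Agent.SLV.T1

/-!
# SLV: the stems of depth `n` (`T_W9`), helper14
-/

set_option autoImplicit false

namespace SLV

theorem W9_.act_congr (n : ℕ) (w w' : ℕ → Wd) (h : ∀ i < n, w i = w' i) (p : Wd)
    (hp : ∀ i ∈ p.A, i < n) : act w p = act w' p := by
  have h1 : (act w p).A = (act w' p).A :=
    Finset.biUnion_congr rfl fun i hi => by rw [h i (hp i hi)]
  have h2 : (act w p).V = (act w' p).V :=
    Finset.biUnion_congr rfl fun i hi => by rw [h i (hp i (p.sub hi))]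
  exact Wd.ext h1 h2

theorem W9_.half (n : ℕ) (t : List Wd) (w w' : ℕ → Wd) (h : ∀ i < n, w i = w' i)
    (hF : FinN n t w) : FinN n t w' := by
  obtain ⟨P, h1, h2, h3, h4⟩ := hF
  refine ⟨P, h1, ?_, h3, h4⟩
  rw [h2]
  exact List.map_congr_left fun p hp => W9_.act_congr n w w' h p (h3 p hp)

theorem W9_.finW (n : ℕ) : {p : Wd | ∀ i ∈ p.A, i < n}.Finite := by
  refine Set.Finite.of_finite_image (f := fun p : Wd => (p.A, p.V))
    (((Finset.range n).powerset ×ˢ (Finset.range n).powerset).finite_toSet.subset ?_) ?_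
  · rintro _ ⟨p, hp, rfl⟩
    simp only [Finset.coe_product, Set.mem_prod, Finset.mem_coe, Finset.mem_powerset]
    exact ⟨fun i hi => Finset.mem_range.2 (hp i hi),
      fun i hi => Finset.mem_range.2 (hp i (p.sub hi))⟩
  · intro p _ q _ hpq
    simp only [Prod.mk.injEq] at hpq
    exact Wd.ext hpq.1 hpq.2

theorem W9_.nodup (P : List Wd) (h : BlkL P) : P.Nodup := by
  refine List.Pairwise.imp ?_ h
  rintro p q hpq rfl
  obtain ⟨i, hi⟩ := p.ne
  exact lt_irrefl i (hpq i (p.sub hi) i (p.sub hi))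

theorem W9_.fin (n : ℕ) (w : ℕ → Wd) : {t | FinN n t w}.Finite := by
  classical
  have hW := W9_.finW n
  have : Fintype {p : Wd | ∀ i ∈ p.A, i < n} := hW.fintype
  have hfin : {l : List {p : Wd | ∀ i ∈ p.A, i < n} | l.Nodup}.Finite :=
    Finite.of_fintype {l : List {p : Wd | ∀ i ∈ p.A, i < n} // l.Nodup}
  refine (hfin.image fun l => l.map fun p => act w p.1).subset ?_
  rintro t ⟨P, h1, h2, h3, -⟩
  have hP : ∀ p : {p // p ∈ P}, p.1 ∈ {p : Wd | ∀ i ∈ p.A, i < n} := fun p => h3 p.1 p.2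
  refine ⟨P.attach.map fun p => (⟨p.1, hP p⟩ : {p : Wd | ∀ i ∈ p.A, i < n}), ?_, ?_⟩
  · change (P.attach.map _).Nodup
    refine List.Nodup.map ?_ (List.nodup_attach.2 (W9_.nodup P h1))
    intro p q hpq
    have h := Subtype.ext_iff.1 hpq
    exact Subtype.ext h
  · change List.map _ (P.attach.map _) = t
    rw [List.map_map, h2]
    conv_rhs => rw [← List.attach_map_subtype_val P]
    rw [List.map_map]
    rfl

theorem p_W9 : T_W9 :=
  ⟨W9_.fin, fun n t w w' h => ⟨W9_.half n t w w' h, W9_.half n t w' w fun i hi => (h i hi).symm⟩⟩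

end SLV
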