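import Mathlib
import Pool.Agent.SLV.PH0
import Pool.Agent.SLV.PH
import Pool.Agent.SLV.PHw
import Pool.Agent.SLV.W1
import Pool.Agent.SLV.W2
import Pool.Agent.SLV.W3
import Pool.Agent.SLV.W4
import Pool.Agent.SLV.W5
import Pool.Agent.SLV.W6
import Pool.Agent.SLV.W7
import Pool.Agent.SLV.W8
import Pool.Agent.SLV.W9
import Pool.Agent.SLV.M1
import Pool.Agent.SLV.M2
import Pool.Agent.SLV.M3
import Pool.Agent.SLV.M4
import Pool.Agent.SLV.M5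
import Pool.Agent.SLV.IK
import Pool.Agent.SLV.SPC
import Pool.Agent.SLV.CNF
import Pool.Agent.SLV.H1
import Pool.Agent.SLV.H4
import Pool.Agent.SLV.CAR
import Pool.Agent.SLV.RCL
import Pool.Agent.SLV.SYS
import Pool.Agent.SLV.UDJ
import Pool.Agent.SLV.UDN
import Pool.Agent.SLV.ISL
import Pool.Agent.SLV.PIB
import Pool.Agent.SLV.H2
import Pool.Agent.SLV.H3
import Pool.Agent.SLV.OI
import Pool.Agent.SLV.V1
import Pool.Agent.SLV.V2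
import Pool.Agent.SLV.V3
import Pool.Agent.SLV.V4
import Pool.Agent.SLV.V5
import Pool.Agent.SLV.V6
import Pool.Agent.SLV.TRA
import Pool.Agent.SLV.TRB
import Pool.Agent.SLV.TRC
import Pool.Agent.SLV.TR0
import Pool.Agent.SLV.TR
import Pool.Agent.SLV.W10
import Pool.Agent.SLV.MXF
import Pool.Agent.SLV.HOM
import Pool.Agent.SLV.QIT
import Pool.Agent.SLV.FS
import Pool.Agent.SLV.LIM
import Pool.Agent.SLV.FUS
import Pool.Agent.SLV.DIA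
import Pool.Agent.SLV.HMG
import Pool.Agent.SLV.NW0
import Pool.Agent.SLV.NW
import Pool.Agent.SLV.FUN
import Pool.Agent.SLV.FUP
import Pool.Agent.SLV.CPF
import Pool.Agent.SLV.CPQ
import Pool.Agent.SLV.HG1
import Pool.Agent.SLV.HG2
import Pool.Agent.SLV.HG
import Pool.Agent.SLV.CDL
import Pool.Agent.SLV.DC1
import Pool.Agent.SLV.MEE
import Pool.Agent.SLV.DX
import Pool.Agent.SLV.PX
import Pool.Agent.SLV.ISO
import Pool.Agent.SLV.UVG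
import Pool.Agent.SLV.PDD
import Pool.Agent.SLV.PD
import Pool.Agent.SLV.INV
import Pool.Agent.SLV.TRN
import Pool.Agent.SLV.DI
import Pool.Agent.SLV.COH
import Pool.Agent.SLV.GSX
import Pool.Agent.SLV.B1
import Pool.Agent.SLV.B2
import Pool.Agent.SLV.B3
import Pool.Agent.SLV.B4
import Pool.Agent.SLV.BB
import Pool.Agent.SLV.A1
import Pool.Agent.SLV.A2
import Pool.Agent.SLV.EQV
import Pool.Agent.SLV.NAT
import Pool.Agent.SLV.LRU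
import Pool.Agent.SLV.COE
import Pool.Agent.SLV.RL
import Pool.Agent.SLV.TRE
import Pool.Agent.SLV.TVL
import Pool.Agent.SLV.TNR
import Pool.Agent.SLV.TLR
import Pool.Agent.SLV.TCN
import Pool.Agent.SLV.LAM
import Pool.Agent.SLV.LSW
import Pool.Agent.SLV.LOC
import Pool.Agent.SLV.CLW
import Pool.Agent.SLV.CLT
import Pool.Agent.SLV.LRA
import Pool.Agent.SLV.LRB

/-!
# MP_0a8ab4_lc, project SLV: composition of all parts (helper90)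
-/

set_option autoImplicit false

namespace SLV

theorem q_PH0 : T_PH0 := p_PH0
theorem q_PH : T_PH := p_PH q_PH0
theorem q_W1 : T_W1 := p_W1
theorem q_W2 : T_W2 := p_W2
theorem q_W3 : T_W3 := p_W3 q_W2
theorem q_W4 : T_W4 := p_W4 q_W2
theorem q_W5 : T_W5 := p_W5 q_W2 q_W3
theorem q_W6 : T_W6 := p_W6
theorem q_W7 : T_W7 := p_W7 q_W1 q_W2 q_W3
theorem q_W8 : T_W8 := p_W8 q_W1 q_W6
theorem q_W9 : T_W9 := p_W9
theorem q_M1 : T_M1 := p_M1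
theorem q_M2 : T_M2 := p_M2 q_M1 q_W9
theorem q_M3 : T_M3 := p_M3 q_M1 q_M2
theorem q_M4 : T_M4 := p_M4
theorem q_M5 : T_M5 := p_M5 q_M1
theorem q_IK : T_IK := p_IK
theorem q_SPC : T_SPC := p_SPC
theorem q_CNF : T_CNF := p_CNF
theorem q_H1 : T_H1 := p_H1
theorem q_H4 : T_H4 := p_H4
theorem q_CAR : T_CAR := p_CAR
theorem q_RCL : T_RCL := p_RCL
theorem q_SYS : T_SYS := p_SYS q_RCL q_SPC q_CNF q_CAR
theorem q_UDJ : T_UDJ := p_UDJ q_CNF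
theorem q_UDN : T_UDN := p_UDN q_CNF
theorem q_ISL : T_ISL := p_ISL
theorem q_PIB : T_PIB := p_PIB
theorem q_H2 : T_H2 := p_H2 q_SYS q_UDJ q_UDN q_ISL q_PIB
theorem q_H3 : T_H3 := p_H3 q_CNF q_SYS q_UDJ q_UDN q_ISL
theorem q_OI : T_OI := p_OI
theorem q_V2 : T_V2 := p_V2 q_W2
theorem q_V3 : T_V3 := p_V3
theorem q_V4 : T_V4 := p_V4
theorem q_V5 : T_V5 := p_V5 q_M1
theorem q_V6 : T_V6 := p_V6 q_M1
theorem q_TRA : T_TRA := p_TRA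
theorem q_TRB : T_TRB := p_TRB
theorem q_TRC : T_TRC := p_TRC
theorem q_TR0 : T_TR0 := p_TR0 q_TRA q_TRB q_TRC q_M1
theorem q_TR : T_TR := p_TR q_TR0 q_M1
theorem q_W10 : T_W10 := p_W10 q_W1 q_W2
theorem q_MXF : T_MXF := p_MXF
theorem q_QIT : T_QIT := p_QIT
theorem q_FS : T_FS := p_FS q_QIT q_W2 q_W8 q_W9 q_M2 q_M5
theorem q_LIM : T_LIM := p_LIM q_W1
theorem q_FUS : T_FUS := p_FUS q_FS q_LIM q_W4 q_W9 q_M2
theorem q_DIA : T_DIA := p_DIA q_W10 q_MXF q_FUS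
theorem q_FUN : T_FUN := p_FUN q_W10
theorem q_FUP : T_FUP := p_FUP
theorem q_CPF : T_CPF := p_CPF q_FUN q_M2
theorem q_HG2 : T_HG2 := p_HG2 q_W1
theorem q_CDL : T_CDL := p_CDL q_W1
theorem q_UVG : T_UVG := p_UVG q_M3
theorem q_INV : T_INV := p_INV q_PIB
theorem q_TRN : T_TRN := p_TRN q_PIB
theorem q_DI : T_DI := p_DI q_INV q_TRN q_PIB q_V5 q_V6 q_M1 q_M4
theorem q_COH : T_COH := p_COH q_H1 q_H2 q_H3 q_SPC
theorem q_GSX : T_GSX := p_GSX q_H4 q_CAR q_CDL q_SPC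
theorem q_B1 : T_B1 := p_B1
theorem q_B2 : T_B2 := p_B2 q_M1 q_TR q_V4
theorem q_B4 : T_B4 := p_B4 q_V3
theorem q_A1 : T_A1 := p_A1 q_TR q_V5
theorem q_A2 : T_A2 := p_A2 q_INV q_OI
theorem q_EQV : T_EQV := p_EQV
theorem q_NAT : T_NAT := p_NAT
theorem q_LRU : T_LRU := p_LRU q_EQV
theorem q_COE : T_COE := p_COE q_NAT
theorem q_RL : T_RL := p_RL
theorem q_TRE : T_TRE := p_TRE q_RL
theorem q_TVL : T_TVL := p_TVL q_RL q_TRE
theorem q_TNR : T_TNR := p_TNR q_RL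
theorem q_TLR : T_TLR := p_TLR q_TVL q_TNR q_LRU q_RL
theorem q_TCN : T_TCN := p_TCN q_INV q_M1 q_TNR
theorem q_LAM : T_LAM := p_LAM q_H1 q_LRU q_TLR q_TVL q_TNR q_RL
theorem q_LSW : T_LSW := p_LSW q_LAM q_TRE q_TCN q_OI q_COE q_EQV
theorem q_LOC : T_LOC := p_LOC
theorem q_CLW : T_CLW := p_CLW q_EQV q_NAT q_LRU
theorem q_CLT : T_CLT := p_CLT
theorem q_LRA : T_LRA := p_LRA q_CLT q_CLW q_A1
theorem q_PHw : T_PHw := p_PHw q_PH q_W1 q_W2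
theorem q_V1 : T_V1 := p_V1 q_V4
theorem q_HOM : T_HOM := p_HOM q_TR q_PHw q_M1 q_M2 q_M3 q_M4
theorem q_HMG : T_HMG := p_HMG q_HOM q_FUS q_W10 q_M2
theorem q_NW0 : T_NW0 := p_NW0 q_W1 q_M2 q_W10 q_DIA q_HMG
theorem q_NW : T_NW := p_NW q_NW0 q_W10
theorem q_CPQ : T_CPQ := p_CPQ q_CPF q_NW
theorem q_HG1 : T_HG1 := p_HG1 q_FS q_CPQ
theorem q_HG : T_HG := p_HG q_HG1 q_HG2 q_W1 q_W5 q_W9 q_M1 q_M2
theorem q_DC1 : T_DC1 := p_DC1 q_CDL q_HOM q_M2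
theorem q_MEE : T_MEE := p_MEE q_DC1 q_CDL
theorem q_DX : T_DX := p_DX q_MEE q_CDL
theorem q_PX : T_PX := p_PX q_CDL q_MEE
theorem q_ISO : T_ISO := p_ISO q_ISL q_PIB q_DX q_MEE q_CDL q_UVG q_W1 q_W2
theorem q_PDD : T_PDD := p_PDD q_HG q_DX q_MEE q_PX q_ISO q_UVG q_CDL
theorem q_PD : T_PD := p_PD q_NW0 q_FUN q_FUP q_PDD
theorem q_B3 : T_B3 := p_B3 q_TR q_V1 q_V4 q_V5 q_V6 q_W1 q_M1 q_M2 q_M3 q_M4
theorem q_BB : T_BB := p_BB q_OI q_B1 q_B2 q_B3 q_B4 q_DI q_COH q_GSX q_PD q_HG q_H1 q_SPC q_V2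
theorem q_LRB : T_LRB := p_LRB q_EQV q_LOC q_LSW q_BB

end SLV
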