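import Mathlib
import Pool.Agent.SLV.T2

/-!
# MP_0a8ab4_lc, project SLV: diagonalisation, `T_DIA` (helper93)
-/

set_option autoImplicit false

namespace SLV

namespace DIA_

variable {B : Type} [CompleteBooleanAlgebra B] {C : Set B}

theorem le_refl' (w : ℕ → Wd) : Le w w := by
  intro n
  refine ⟨⟨{n}, {n}, subset_rfl, ⟨n, by simp⟩⟩, ?_⟩
  ext k <;> simp [act]

/-- the largest value of `α t` below `w` -/
noncomputable def hat (C : Set B) (α : List Wd → Nm B Wd → B) (t : List Wd) (w : Nm B Wd) : B :=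
  sSup {z | ∃ w'' c, CN C w'' ∧ c ∈ C ∧ Forces c (fun u => LeT t (w''.pt u) (w.pt u)) ∧
    z = c ⊓ α t w''}

theorem le_hat (α : List Wd → Nm B Wd → B) {t : List Wd} {w w'' : Nm B Wd} {c : B}
    (h1 : CN C w'') (h2 : c ∈ C) (h3 : Forces c fun u => LeT t (w''.pt u) (w.pt u)) :
    c ⊓ α t w'' ≤ hat C α t w := le_sSup ⟨w'', c, h1, h2, h3, rfl⟩

/-- the functional for one of the two functions -/
noncomputable def Q1 (C : Set B) (α : List Wd → Nm B Wd → B) (t : List Wd) (w : Nm B Wd) : B :=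
  (hat C α t w)ᶜ ⊔ α t w

theorem q1_mono (h10 : T_W10) (hC : CSub C) {α : List Wd → Nm B Wd → B} (hα : FunH C α)
    (t : List Wd) (w w' : Nm B Wd) (c : B) (hw : CN C w) (hw' : CN C w') (hc : c ∈ C)
    (h : Forces c fun u => LeT t (w'.pt u) (w.pt u)) : c ⊓ Q1 C α t w ≤ Q1 C α t w' := by
  have key : c ⊓ hat C α t w' ≤ hat C α t w := by
    unfold hat
    rw [inf_sSup_eq]
    refine iSup₂_le ?_
    rintro _ ⟨w'', d, h1, h2, h3, rfl⟩
    rw [← inf_assoc]
    refine le_hat α h1 (hC.inf hc h2) ?_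
    exact ((h3.weak inf_le_right).and (h.weak inf_le_left)).mono
      fun u hu => h10.1 t _ _ _ hu.1 hu.2
  unfold Q1
  rw [inf_sup_left]
  refine sup_le_sup ?_ (hα.mono t w w' c hw hw' hc h)
  rw [le_compl_iff_disjoint_right, disjoint_iff]
  apply le_bot_iff.1
  calc c ⊓ (hat C α t w)ᶜ ⊓ hat C α t w' = (hat C α t w)ᶜ ⊓ (c ⊓ hat C α t w') := by
        rw [inf_comm c, inf_assoc]
    _ ≤ (hat C α t w)ᶜ ⊓ hat C α t w := inf_le_inf_left _ key
    _ = ⊥ := compl_inf_eq_bot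

theorem q1_top {α : List Wd → Nm B Wd → B} {t : List Wd} {w : Nm B Wd}
    (h : ∀ w'' c, CN C w'' → c ∈ C → Forces c (fun u => LeT t (w''.pt u) (w.pt u)) →
      c ⊓ α t w'' ≤ α t w) : Q1 C α t w = ⊤ := by
  have h1 : hat C α t w ≤ α t w := by
    refine sSup_le ?_
    rintro _ ⟨w'', c, h1, h2, h3, rfl⟩
    exact h w'' c h1 h2 h3
  apply top_le_iff.1
  unfold Q1
  rw [← compl_sup_eq_top (x := hat C α t w)]
  exact sup_le_sup_left h1 _

theorem le_trans' (h10 : T_W10) {x y z : ℕ → Wd} (h1 : Le x y) (h2 : Le y z) : Le x z := by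
  have := h10.1 [] x y z (h10.2.1 [] _ _ h1) (h10.2.1 [] _ _ h2)
  exact fun n => this n (by simp [Beyond])

theorem qh (h10 : T_W10) (hM : T_MXF) (hC : CSub C) {α β : List Wd → Nm B Wd → B}
    (hα : FunH C α) (hβ : FunH C β) : QH C fun t w => Q1 C α t w ⊓ Q1 C β t w where
  mono := by
    intro t w w' c hw hw' hc h
    refine le_inf (le_trans ?_ (q1_mono h10 hC hα t w w' c hw hw' hc h))
      (le_trans ?_ (q1_mono h10 hC hβ t w w' c hw hw' hc h))
    · exact inf_le_inf_left _ inf_le_left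
    · exact inf_le_inf_left _ inf_le_right
  ex := by
    intro t w _ hw
    obtain ⟨w1, h1, h2, h3⟩ := hM B C hC α hα t w hw
    obtain ⟨w2, h4, h5, h6⟩ := hM B C hC β hβ t w1 h1
    refine ⟨w2, h4, (h5.and h2).mono fun u hu => le_trans' h10 hu.1 hu.2, ?_⟩
    have e1 : Q1 C α t w2 = ⊤ := by
      refine q1_top fun w'' c a1 a2 a3 => ?_
      have b1 : c ⊓ α t w'' ≤ α t w1 := by
        refine h3 w'' c a1 a2 ?_
        exact ((a3.and (forces_top h5)).and (forces_top h2)).mono fun u hu =>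
          h10.1 t _ _ _ hu.1.1 (h10.2.1 t _ _ (le_trans' h10 hu.1.2 hu.2))
      have b2 := hα.mono t w1 w2 ⊤ h1 h4 hC.top (h5.mono fun u hu => h10.2.1 t _ _ hu)
      rw [top_inf_eq] at b2
      exact b1.trans b2
    have e2 : Q1 C β t w2 = ⊤ := by
      refine q1_top fun w'' c a1 a2 a3 => ?_
      refine h6 w'' c a1 a2 ?_
      exact (a3.and (forces_top h5)).mono fun u hu =>
        h10.1 t _ _ _ hu.1 (h10.2.1 t _ _ hu.2)
    change Q1 C α t w2 ⊓ Q1 C β t w2 = ⊤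
    rw [e1, e2, top_inf_eq]

theorem dia (h10 : T_W10) {α : List Wd → Nm B Wd → B} {w : Nm B Wd}
    (h : ∀ t, bval (fun u => InF t (w.pt u)) ≤ Q1 C α t w) : Dia C α w := by
  intro t w'' c h1 h2 h3
  have a1 : c ≤ Q1 C α t w := (le_bval_iff.2 (h3.mono fun _ hu => hu.2)).trans (h t)
  have a2 : c ⊓ α t w'' ≤ hat C α t w :=
    le_hat α h1 h2 (h3.mono fun u hu => h10.2.1 t _ _ hu.1)
  calc c ⊓ α t w'' ≤ Q1 C α t w ⊓ hat C α t w := le_inf (inf_le_left.trans a1) a2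
    _ = α t w ⊓ hat C α t w := by
      unfold Q1
      rw [inf_sup_right, compl_inf_eq_bot, bot_sup_eq]
    _ ≤ α t w := inf_le_left

end DIA_

theorem p_DIA (h_W10 : T_W10) (h_MXF : T_MXF) (h_FUS : T_FUS) : T_DIA := by
  intro B _ C hC α β hα hβ w hw
  obtain ⟨w', h1, h2, h3⟩ := h_FUS B C hC _ (DIA_.qh h_W10 h_MXF hC hα hβ) w hw
  exact ⟨w', h1, h2, DIA_.dia h_W10 fun t => (h3 t).trans inf_le_left,
    DIA_.dia h_W10 fun t => (h3 t).trans inf_le_right⟩

end SLV
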