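import Mathlib
import Pool.Agent.SLV.T3

/-!
# MP_0a8ab4_lc, project SLV: the constructible hierarchy, unfolding
-/

set_option autoImplicit false

namespace SLV

open Cardinal CofSN Pool.Agent.MadBlock BSet

theorem LRU_unf (B : Type) [CompleteBooleanAlgebra B] (α : Ordinal.{0}) :
    Lr B α = unn (Option α.ToType) fun o => match o with
      | none => powN B
      | some β => Dfn (Lr B (Ordinal.typein (α := α.ToType) (· < ·) β)) := by
  rw [Lr]
  congr 1

theorem LRU_top (B : Type) [CompleteBooleanAlgebra B] (α : Ordinal.{0}) :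
    ∀ i : (Lr B α).ty, (Lr B α).vl i = ⊤ := by
  induction α using WellFoundedLT.induction with
  | ind α ih =>
    rw [LRU_unf B α]
    rintro ⟨o, q⟩
    cases o with
    | none => rfl
    | some β =>
      show (⨅ n, (Lr B (Ordinal.typein (α := α.ToType) (· < ·) β)).vl (q.2 n)) = ⊤
      exact iInf_eq_top.2 fun n => ih _ (Ordinal.typein_lt_self β) _

theorem LRU_mem (h_EQV : T_EQV) {B : Type} [CompleteBooleanAlgebra B] (I : Type)
    (f : I → BSet B) (o : I) (N : BSet B) (hN : f o = N) (j : N.ty) (hj : N.vl j = ⊤) :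
    mem (N.el j) (unn I f) = ⊤ := by
  subst hN
  obtain ⟨-, -, -, hmem, -, -, -⟩ := h_EQV B
  have h2 := hmem (unn I f) (Sigma.mk (β := fun o => (f o).ty) o j)
  apply top_le_iff.1
  refine le_trans ?_ h2
  exact hj.ge

theorem p_LRU (h_EQV : T_EQV) : T_LRU := by
  intro B _
  obtain ⟨-, -, -, hmem, -, -, -⟩ := h_EQV B
  refine ⟨LRU_unf B, LRU_top B, fun α i => ?_, fun α φ v => ?_⟩
  · apply top_le_iff.1
    calc (⊤ : B) = (Lr B α).vl i := (LRU_top B α i).symm
      _ ≤ mem ((Lr B α).el i) (Lr B α) := hmem _ i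
      _ ≤ inLR ((Lr B α).el i) := le_iSup (fun α : Ordinal.{0} => mem _ (Lr B α)) α
  · obtain ⟨β, hβ⟩ : ∃ β : (Order.succ α).ToType,
        Ordinal.typein (α := (Order.succ α).ToType) (· < ·) β = α := by
      refine ⟨Ordinal.enum (α := (Order.succ α).ToType) (· < ·) ⟨α, ?_⟩, ?_⟩
      · rw [Set.mem_Iio, Ordinal.type_toType]
        exact Order.lt_succ α
      · exact Ordinal.typein_enum _ _
    have key : ∀ (δ : Ordinal.{0}),
        Ordinal.typein (α := (Order.succ α).ToType) (· < ·) β = δ →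
        ∀ (φ : Fml) (v : ℕ → (Lr B δ).ty),
          mem (sub (Lr B δ) φ v) (Lr B (Order.succ α)) = ⊤ := by
      rintro δ rfl φ v
      rw [LRU_unf B (Order.succ α)]
      refine LRU_mem h_EQV _ _ (some β) (Dfn _) rfl (φ, v) ?_
      exact iInf_eq_top.2 fun n => LRU_top B _ _
    apply top_le_iff.1
    calc (⊤ : B) = mem (sub (Lr B α) φ v) (Lr B (Order.succ α)) := (key α hβ φ v).symm
      _ ≤ inLR (sub (Lr B α) φ v) :=
        le_iSup (fun α' : Ordinal.{0} => mem _ (Lr B α')) (Order.succ α)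

end SLV
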