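import Mathlib
import Pool.Agent.SLV.T1

/-!
# MP_0a8ab4_lc, project SLV: the maps `glue` and `app` are Borel (`T_M5`) (helper21)
-/

set_option autoImplicit false

namespace SLV

namespace M5_

theorem all {X : Type} {ι : Type} [Countable ι] {P : ι → (ℕ → X) → Prop}
    (h : ∀ i, Mes {x | P i x}) : Mes {x | ∀ i, P i x} := by
  have h1 : {x : ℕ → X | ∀ i, P i x} = ⋂ i, {x | P i x} := by
    ext x
    rw [Set.mem_iInter]
    exact Iff.rfl
  rw [h1]
  exact @MeasurableSet.iInter _ _ (bsp X) _ _ h

theorem ex {X : Type} {ι : Type} [Countable ι] {P : ι → (ℕ → X) → Prop}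
    (h : ∀ i, Mes {x | P i x}) : Mes {x | ∃ i, P i x} := by
  have h1 : {x : ℕ → X | ∃ i, P i x} = ⋃ i, {x | P i x} := by
    ext x
    rw [Set.mem_iUnion]
    exact Iff.rfl
  rw [h1]
  exact @MeasurableSet.iUnion _ _ (bsp X) _ _ h

theorem and {X : Type} {P Q : (ℕ → X) → Prop}
    (h : Mes {x | P x}) (h' : Mes {x | Q x}) : Mes {x | P x ∧ Q x} :=
  @MeasurableSet.inter _ (bsp X) _ _ h h'

theorem or {X : Type} {P Q : (ℕ → X) → Prop}
    (h : Mes {x | P x}) (h' : Mes {x | Q x}) : Mes {x | P x ∨ Q x} :=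
  @MeasurableSet.union _ (bsp X) _ _ h h'

theorem not {X : Type} {P : (ℕ → X) → Prop}
    (h : Mes {x | P x}) : Mes {x | ¬ P x} :=
  @MeasurableSet.compl _ _ (bsp X) h

theorem const {X : Type} (p : Prop) : Mes {_x : ℕ → X | p} :=
  @MeasurableSet.const _ (bsp X) p

theorem cw : Countable Wd := by
  have h : Function.Injective (fun q : Wd => (q.A, q.V)) := by
    intro p q hpq
    exact Wd.ext (congrArg Prod.fst hpq) (congrArg Prod.snd hpq)
  exact h.countable

theorem sInf_eq_iff (S : Set ℕ) (s : ℕ) :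
    sInf S = s ↔ (s ∈ S ∧ ∀ m, m < s → ¬ m ∈ S) ∨ ((∀ m, ¬ m ∈ S) ∧ s = 0) := by
  constructor
  · intro h
    rcases S.eq_empty_or_nonempty with he | hne
    · right
      subst he
      refine ⟨fun m hm => hm, ?_⟩
      rw [← h]
      exact Nat.sInf_empty
    · left
      rw [← h]
      exact ⟨Nat.sInf_mem hne, fun m hm => Nat.notMem_of_lt_sInf hm⟩
  · rintro (⟨h, h'⟩ | ⟨h, rfl⟩)
    · refine le_antisymm (Nat.sInf_le h) ?_
      by_contra hlt
      exact h' _ (not_le.1 hlt) (Nat.sInf_mem ⟨s, h⟩)
    · have he : S = ∅ := Set.eq_empty_of_forall_notMem h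
      rw [he]
      exact Nat.sInf_empty

end M5_

open M5_ in
/-- The maps `glue n` and `app t` are Borel. -/
theorem p_M5 (h1 : T_M1) : T_M5 := by
  have hc : Countable Wd := cw
  have hc2 : Countable (Wd × Wd) := inferInstance
  refine ⟨?_, ?_⟩
  · intro n k q
    by_cases hk : k < n
    · have e : {z : ℕ → Wd × Wd | glue n (fun i => (z i).1) (fun i => (z i).2) k = q} =
          {z | (z k).1 = q} := by
        ext z
        show glue n (fun i => (z i).1) (fun i => (z i).2) k = q ↔ (z k).1 = q
        unfold glue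
        rw [if_pos hk]
      show Mes {z : ℕ → Wd × Wd | glue n (fun i => (z i).1) (fun i => (z i).2) k = q}
      rw [e]
      refine h1 (Wd × Wd) _ (k + 1) ?_
      intro x y hxy
      show (x k).1 = q ↔ (y k).1 = q
      rw [hxy k (Nat.lt_succ_self k)]
    · have e : {z : ℕ → Wd × Wd | glue n (fun i => (z i).1) (fun i => (z i).2) k = q} =
          {z | ∃ s : ℕ, (((∀ j < n, ((z j).1).lt ((z s).2)) ∧
            ∀ m : ℕ, (m < s → ¬ ∀ j < n, ((z j).1).lt ((z m).2))) ∨
            ((∀ m : ℕ, ¬ ∀ j < n, ((z j).1).lt ((z m).2)) ∧ s = 0)) ∧ (z (k - n + s)).2 = q} := by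
        ext z
        show glue n (fun i => (z i).1) (fun i => (z i).2) k = q ↔ _
        unfold glue
        rw [if_neg hk]
        constructor
        · intro h
          exact ⟨_, (sInf_eq_iff {m | ∀ j < n, ((z j).1).lt ((z m).2)} _).1 rfl, h⟩
        · rintro ⟨s, hs, h⟩
          have h' := (sInf_eq_iff {m | ∀ j < n, ((z j).1).lt ((z m).2)} s).2 hs
          rw [h']
          exact h
      show Mes {z : ℕ → Wd × Wd | glue n (fun i => (z i).1) (fun i => (z i).2) k = q}
      rw [e]
      have hS : ∀ m : ℕ, Mes {z : ℕ → Wd × Wd | ∀ j < n, ((z j).1).lt ((z m).2)} := by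
        intro m
        refine h1 (Wd × Wd) _ (max n (m + 1)) ?_
        intro x y hxy
        have hm : x m = y m := hxy m (lt_max_of_lt_right (Nat.lt_succ_self m))
        have hj : ∀ j < n, x j = y j := fun j hj => hxy j (lt_max_of_lt_left hj)
        show (∀ j < n, ((x j).1).lt ((x m).2)) ↔ (∀ j < n, ((y j).1).lt ((y m).2))
        rw [hm]
        constructor
        · intro h j hjn
          rw [← hj j hjn]
          exact h j hjn
        · intro h j hjn
          rw [hj j hjn]
          exact h j hjn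
      have hE : ∀ m : ℕ, Mes {z : ℕ → Wd × Wd | (z m).2 = q} := by
        intro m
        refine h1 (Wd × Wd) _ (m + 1) ?_
        intro x y hxy
        show (x m).2 = q ↔ (y m).2 = q
        rw [hxy m (Nat.lt_succ_self m)]
      refine ex fun s => and (or (and (hS s) (all fun m => ?_)) (and (all fun m => not (hS m))
        (const _))) (hE _)
      by_cases hm : m < s
      · have e2 : {z : ℕ → Wd × Wd | m < s → ¬ ∀ j < n, ((z j).1).lt ((z m).2)} =
            {z | ¬ ∀ j < n, ((z j).1).lt ((z m).2)} := by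
          ext z
          exact ⟨fun h => h hm, fun h _ => h⟩
        rw [e2]
        exact not (hS m)
      · have e2 : {z : ℕ → Wd × Wd | m < s → ¬ ∀ j < n, ((z j).1).lt ((z m).2)} =
            {_z | True} := by
          ext z
          exact ⟨fun _ => trivial, fun _ h => absurd h hm⟩
        rw [e2]
        exact const _
  · intro t k q
    refine h1 Wd _ (k - t.length + 1) ?_
    intro x y hxy
    show t.getD k (x (k - t.length)) = q ↔ t.getD k (y (k - t.length)) = q
    rw [hxy _ (Nat.lt_succ_self _)]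

end SLV
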