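import Mathlib

/-! # SLV: the pigeonhole principle for located variable words over one letter

A word is a pair (A, V) of finite sets, `V` nonempty, `V ⊆ A`. For a sequence `w` of words and
finite sets `J`, `I` the word `pev w (J, I)` is (⋃_(j ∈ J) A_j, ⋃_(i ∈ I) V_i). -/

set_option autoImplicit false

namespace Pool.Agent.SLV

/-- pairs of finite sets with the product = union -/
structure WW where
  /-- the domain -/
  A : Finset ℕ
  /-- the positions of the variable -/
  V : Finset ℕ

namespace WW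

instance : Mul WW := ⟨fun x y => ⟨x.A ∪ y.A, x.V ∪ y.V⟩⟩

theorem mul_def (x y : WW) : x * y = ⟨x.A ∪ y.A, x.V ∪ y.V⟩ := rfl

@[simp] theorem mul_A (x y : WW) : (x * y).A = x.A ∪ y.A := rfl
@[simp] theorem mul_V (x y : WW) : (x * y).V = x.V ∪ y.V := rfl

theorem ext' {x y : WW} (h1 : x.A = y.A) (h2 : x.V = y.V) : x = y := by
  cases x; cases y; simp only at h1 h2; rw [h1, h2]

instance : Semigroup WW where
  mul_assoc x y z := ext' (by simp [Finset.union_assoc]) (by simp [Finset.union_assoc])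

/-- the variable is replaced by the letter -/
def th (x : WW) : WW := ⟨x.A, ∅⟩

@[simp] theorem th_A (x : WW) : (th x).A = x.A := rfl
@[simp] theorem th_V (x : WW) : (th x).V = ∅ := rfl

theorem th_mul (x y : WW) : th (x * y) = th x * th y := ext' rfl (by simp [th])

/-- a variable word with all positions at least `n` -/
def Var (n : ℕ) (x : WW) : Prop := x.V.Nonempty ∧ x.V ⊆ x.A ∧ ∀ i ∈ x.A, n ≤ i

/-- a word without variable, with all positions at least `n` -/
def Con (n : ℕ) (x : WW) : Prop := x.V = ∅ ∧ x.A.Nonempty ∧ ∀ i ∈ x.A, n ≤ i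

end WW

open WW Filter

attribute [local instance] Ultrafilter.mul Ultrafilter.semigroup

theorem con_mul {n : ℕ} {x y : WW} (hx : Con n x) (hy : Con n y) : Con n (x * y) := by
  refine ⟨by simp [hx.1, hy.1], ?_, ?_⟩
  · rw [mul_A]
    exact hx.2.1.mono Finset.subset_union_left
  · intro i hi
    rw [mul_A, Finset.mem_union] at hi
    exact hi.elim (hx.2.2 i) (hy.2.2 i)

theorem var_mul {n : ℕ} {x y : WW} (hx : Var n x) (hy : Var n y) : Var n (x * y) := by
  refine ⟨?_, ?_, ?_⟩
  · rw [mul_V]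
    exact hx.1.mono Finset.subset_union_left
  · rw [mul_V, mul_A]
    exact Finset.union_subset_union hx.2.1 hy.2.1
  · intro i hi
    rw [mul_A, Finset.mem_union] at hi
    exact hi.elim (hx.2.2 i) (hy.2.2 i)

theorem con_var_mul {n : ℕ} {x y : WW} (hx : Con n x) (hy : Var n y) : Var n (x * y) := by
  refine ⟨?_, ?_, ?_⟩
  · rw [mul_V]
    exact hy.1.mono Finset.subset_union_right
  · rw [mul_V, mul_A, hx.1, Finset.empty_union]
    exact hy.2.1.trans Finset.subset_union_right
  · intro i hi
    rw [mul_A, Finset.mem_union] at hi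
    exact hi.elim (hx.2.2 i) (hy.2.2 i)

theorem var_con_mul {n : ℕ} {x y : WW} (hx : Var n x) (hy : Con n y) : Var n (x * y) := by
  refine ⟨?_, ?_, ?_⟩
  · rw [mul_V]
    exact hx.1.mono Finset.subset_union_left
  · rw [mul_V, mul_A, hy.1, Finset.union_empty]
    exact hx.2.1.trans Finset.subset_union_left
  · intro i hi
    rw [mul_A, Finset.mem_union] at hi
    exact hi.elim (hx.2.2 i) (hy.2.2 i)

theorem con_th {n : ℕ} {x : WW} (hx : Var n x) : Con n (th x) :=
  ⟨rfl, hx.1.mono hx.2.1, hx.2.2⟩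

/-- an idempotent ultrafilter of words without variable -/
theorem exists_idem_con : ∃ p : Ultrafilter WW, p * p = p ∧ ∀ n, ∀ᶠ x in p, Con n x := by
  let S : Set (Ultrafilter WW) := ⋂ n : ℕ, {U | ∀ᶠ x in U, Con n x}
  have h := exists_idempotent_in_compact_subsemigroup
    Ultrafilter.continuous_mul_left S ?_ ?_ ?_
  · obtain ⟨p, hp, hpp⟩ := h
    exact ⟨p, hpp, fun n => Set.mem_iInter.1 hp n⟩
  · apply IsCompact.nonempty_iInter_of_sequence_nonempty_isCompact_isClosed
    · intro n U hU
      filter_upwards [hU] with x hx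
      exact ⟨hx.1, hx.2.1, fun i hi => (Nat.le_succ n).trans (hx.2.2 i hi)⟩
    · intro n
      refine ⟨pure ⟨{n}, ∅⟩, ?_⟩
      change ∀ᶠ x in ((pure ⟨{n}, ∅⟩ : Ultrafilter WW) : Filter WW), Con n x
      rw [Ultrafilter.coe_pure, eventually_pure]
      exact ⟨rfl, ⟨n, Finset.mem_singleton_self n⟩, fun i hi => (Finset.mem_singleton.1 hi).ge⟩
    · exact (ultrafilter_isClosed_basic _).isCompact
    · intro n
      exact ultrafilter_isClosed_basic _
  · exact IsClosed.isCompact (isClosed_iInter fun i => ultrafilter_isClosed_basic _)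
  · intro U hU V hV
    rw [Set.mem_iInter] at *
    intro n
    rw [Set.mem_ofPred_eq, Ultrafilter.eventually_mul]
    filter_upwards [hU n] with x hx
    filter_upwards [hV n] with y hy
    exact con_mul hx hy

theorem map_th_mul (q r : Ultrafilter WW) : (q * r).map th = q.map th * r.map th := by
  apply Ultrafilter.coe_inj.mp
  apply Filter.ext'
  intro P
  rw [Ultrafilter.eventually_mul]
  simp only [Ultrafilter.coe_map, Filter.eventually_map]
  rw [Ultrafilter.eventually_mul]
  simp only [th_mul]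

/-- the two ultrafilters -/
theorem exists_pq : ∃ p q : Ultrafilter WW, p * p = p ∧ q * q = q ∧ q * p = q ∧ p * q = q ∧
    q.map th = p ∧ ∀ n, ∀ᶠ x in q, Var n x := by
  obtain ⟨p, hpp, hpc⟩ := exists_idem_con
  have hthp : p.map th = p := by
    apply Ultrafilter.coe_inj.mp
    apply Filter.ext'
    intro P
    simp only [Ultrafilter.coe_map, Filter.eventually_map]
    have h : ∀ᶠ x in p, th x = x := by
      filter_upwards [hpc 0] with x hx
      exact ext' rfl hx.1.symm
    constructor
    · intro h1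
      filter_upwards [h, h1] with x h2 h3
      rwa [h2] at h3
    · intro h1
      filter_upwards [h, h1] with x h2 h3
      rwa [h2]
  let S : Set (Ultrafilter WW) := {q | q.map th = p ∧ ∀ n, ∀ᶠ x in q, Var n x}
  have hSc : IsClosed S := by
    have e : S = {q | q.map th = p} ∩ ⋂ n : ℕ, {U : Ultrafilter WW | ∀ᶠ x in U, Var n x} := by
      ext q
      simp only [S, Set.mem_inter_iff, Set.mem_iInter, Set.mem_ofPred_eq]
    rw [e]
    refine IsClosed.inter ?_ (isClosed_iInter fun i => ultrafilter_isClosed_basic _)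
    have e2 : {q : Ultrafilter WW | q.map th = p} =
        ⋂ P : {P : Set WW // P ∈ p}, {q : Ultrafilter WW | th ⁻¹' P.1 ∈ q} := by
      ext q
      simp only [Set.mem_iInter, Set.mem_ofPred_eq, Subtype.forall]
      constructor
      · intro h P hP
        rw [← h] at hP
        exact hP
      · intro h
        apply Ultrafilter.eq_of_le
        intro P hP
        exact h P hP
    rw [e2]
    exact isClosed_iInter fun P => ultrafilter_isClosed_basic _
  have hSm : ∀ q ∈ S, ∀ r ∈ S, q * r ∈ S := by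
    intro q hq r hr
    refine ⟨by rw [map_th_mul, hq.1, hr.1, hpp], fun n => ?_⟩
    rw [Ultrafilter.eventually_mul]
    filter_upwards [hq.2 n] with x hx
    filter_upwards [hr.2 n] with y hy
    exact var_mul hx hy
  have hSp : ∀ q ∈ S, q * p ∈ S := by
    intro q hq
    refine ⟨by rw [map_th_mul, hq.1, hthp, hpp], fun n => ?_⟩
    rw [Ultrafilter.eventually_mul]
    filter_upwards [hq.2 n] with x hx
    filter_upwards [hpc n] with y hy
    exact var_con_mul hx hy
  have hpS : ∀ q ∈ S, p * q ∈ S := by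
    intro q hq
    refine ⟨by rw [map_th_mul, hq.1, hthp, hpp], fun n => ?_⟩
    rw [Ultrafilter.eventually_mul]
    filter_upwards [hpc n] with x hx
    filter_upwards [hq.2 n] with y hy
    exact con_var_mul hx hy
  have hne : S.Nonempty := by
    refine ⟨p.map (fun x => ⟨x.A, x.A⟩), ?_, fun n => ?_⟩
    · rw [Ultrafilter.map_map]
      exact hthp
    · rw [Ultrafilter.coe_map, Filter.eventually_map]
      filter_upwards [hpc n] with x hx
      exact ⟨hx.2.1, Finset.Subset.refl _, hx.2.2⟩
  let S1 : Set (Ultrafilter WW) := (fun q => q * p) '' S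
  obtain ⟨q1, hq1, hq11⟩ := exists_idempotent_in_compact_subsemigroup
    Ultrafilter.continuous_mul_left S1 (hne.image _)
    (hSc.isCompact.image (Ultrafilter.continuous_mul_left p)) (by
      rintro _ ⟨a, ha, rfl⟩ _ ⟨b, hb, rfl⟩
      refine ⟨a * (p * b), hSm a ha _ (hpS b hb), ?_⟩
      simp only [mul_assoc])
  obtain ⟨q2, hq2, rfl⟩ := hq1
  simp only at hq11
  have e1 : q2 * p * p = q2 * p := by rw [mul_assoc, hpp]
  have hqS := hpS _ (hSp _ hq2)
  refine ⟨p, p * (q2 * p), hpp, ?_, ?_, ?_, hqS.1, hqS.2⟩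
  · calc p * (q2 * p) * (p * (q2 * p)) = p * ((q2 * p * p) * (q2 * p)) := by
          simp only [mul_assoc]
      _ = p * (q2 * p) := by rw [e1, hq11]
  · rw [mul_assoc, e1]
  · rw [← mul_assoc, hpp]

/-- the word given by the pattern `x` -/
def pev (w : ℕ → WW) (x : WW) : WW :=
  ⟨x.A.biUnion (fun j => (w j).A), x.V.biUnion (fun i => (w i).V)⟩

section
variable {p q : Ultrafilter WW}

theorem ev_p (hth : q.map th = p) {P : WW → Prop} (h : ∀ᶠ x in p, P x) : ∀ᶠ x in q, P (th x) := by
  rw [← hth, Ultrafilter.coe_map, Filter.eventually_map] at h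
  exact h

theorem step1 (hqq : q * q = q) (hqp : q * p = q) (hpq : p * q = q) (hth : q.map th = p)
    {K : WW → Prop} (h : ∀ᶠ y in q, K y) :
    ∀ᶠ w in q, K w ∧ (∀ᶠ y in q, K (w * y)) ∧ (∀ᶠ y in p, K (w * y)) ∧
      ∀ᶠ y in q, K (th w * y) := by
  have h1 : ∀ᶠ w in q, ∀ᶠ y in q, K (w * y) := by
    rw [← Ultrafilter.eventually_mul, hqq]; exact h
  have h2 : ∀ᶠ w in q, ∀ᶠ y in p, K (w * y) := by
    rw [← Ultrafilter.eventually_mul, hqp]; exact h
  have h3 : ∀ᶠ w in p, ∀ᶠ y in q, K (w * y) := by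
    rw [← Ultrafilter.eventually_mul, hpq]; exact h
  filter_upwards [h, h1, h2, ev_p hth h3] with w a b c d
  exact ⟨a, b, c, d⟩

theorem step2 (hpp : p * p = p) (hth : q.map th = p)
    {K : WW → Prop} (h : ∀ᶠ y in p, K y) :
    ∀ᶠ w in q, K (th w) ∧ (∀ᶠ y in p, K (th w * y)) := by
  have h1 : ∀ᶠ w in p, ∀ᶠ y in p, K (w * y) := by
    rw [← Ultrafilter.eventually_mul, hpp]; exact h
  filter_upwards [ev_p hth h, ev_p hth h1] with w a b
  exact ⟨a, b⟩

/-- the invariant -/
def Gd (p q : Ultrafilter WW) (K : WW → Prop) (z : WW) : Prop :=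
  (∀ᶠ y in q, K (z * y)) ∧ (z.V.Nonempty → K z ∧ ∀ᶠ y in p, K (z * y))

/-- the words obtained from `S` with the new word `w` -/
noncomputable def stepS (S : Finset WW) (w : WW) : Finset WW := by
  classical
  exact S ∪ ({w, th w} ∪ (S.image (fun z => z * w) ∪ S.image (fun z => z * th w)))

theorem exists_next (hpp : p * p = p) (hqq : q * q = q) (hqp : q * p = q) (hpq : p * q = q)
    (hth : q.map th = p) (hv : ∀ n, ∀ᶠ x in q, Var n x) {K : WW → Prop} (hK : ∀ᶠ y in q, K y)
    (n : ℕ) (S : Finset WW) (hS : ∀ z ∈ S, Gd p q K z) :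
    ∃ w, Var n w ∧ ∀ z ∈ stepS S w, Gd p q K z := by
  have h0 := step1 hqq hqp hpq hth hK
  have h1 : ∀ᶠ w in q, ∀ z ∈ S, K (z * w) ∧ (∀ᶠ y in q, K (z * (w * y))) ∧
      (∀ᶠ y in p, K (z * (w * y))) ∧ ∀ᶠ y in q, K (z * (th w * y)) := by
    rw [Filter.eventually_all_finset]
    intro z hz
    exact step1 hqq hqp hpq hth (K := fun y => K (z * y)) (hS z hz).1
  have h2 : ∀ᶠ w in q, ∀ z ∈ S, z.V.Nonempty → K (z * th w) ∧
      (∀ᶠ y in p, K (z * (th w * y))) := by
    rw [Filter.eventually_all_finset]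
    intro z hz
    by_cases hz2 : z.V.Nonempty
    · filter_upwards [step2 hpp hth (K := fun y => K (z * y)) ((hS z hz).2 hz2).2] with w hw _
      exact hw
    · exact Filter.Eventually.of_forall fun w h => absurd h hz2
  obtain ⟨w, hw0, hw1, hw2, hw3⟩ := (h0.and (h1.and (h2.and (hv n)))).exists
  refine ⟨w, hw3, ?_⟩
  intro z hz
  classical
  unfold stepS at hz
  simp only [Finset.mem_union, Finset.mem_insert, Finset.mem_singleton, Finset.mem_image] at hz
  rcases hz with hz | (rfl | rfl) | ⟨x, hx, rfl⟩ | ⟨x, hx, rfl⟩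
  · exact hS z hz
  · exact ⟨hw0.2.1, fun _ => ⟨hw0.1, hw0.2.2.1⟩⟩
  · exact ⟨hw0.2.2.2, fun h => absurd h (by simp)⟩
  · refine ⟨?_, fun _ => ⟨(hw1 x hx).1, ?_⟩⟩
    · simpa only [mul_assoc] using (hw1 x hx).2.1
    · simpa only [mul_assoc] using (hw1 x hx).2.2.1
  · refine ⟨?_, fun h => ?_⟩
    · simpa only [mul_assoc] using (hw1 x hx).2.2.2
    · have hx2 : x.V.Nonempty := by simpa using h
      refine ⟨(hw2 x hx hx2).1, ?_⟩
      simpa only [mul_assoc] using (hw2 x hx hx2).2

end

/-- a sequence of states -/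
theorem exists_states {α β : Type*} (Inv : α → Prop) (R : α → β → Prop) (step : α → β → α)
    (a0 : α) (h0 : Inv a0) (h : ∀ a, Inv a → ∃ b, R a b ∧ Inv (step a b)) :
    ∃ (s : ℕ → α) (w : ℕ → β), s 0 = a0 ∧
      ∀ n, Inv (s n) ∧ R (s n) (w n) ∧ s (n + 1) = step (s n) (w n) := by
  have hne : Nonempty β := ⟨(h a0 h0).choose⟩
  choose! g hg1 hg2 using h
  let s : ℕ → α := fun n => Nat.rec a0 (fun _ a => step a (g a)) n
  have hs : ∀ n, s (n + 1) = step (s n) (g (s n)) := fun n => rfl
  have hI : ∀ n, Inv (s n) := by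
    intro n
    induction n with
    | zero => exact h0
    | succ n ih => rw [hs]; exact hg2 _ ih
  exact ⟨s, fun n => g (s n), rfl, fun n => ⟨hI n, hg1 _ (hI n), hs n⟩⟩

/-- a `q`-large set contains all words of a sequence -/
theorem exists_seq_of_large {p q : Ultrafilter WW}
    (hpp : p * p = p) (hqq : q * q = q) (hqp : q * p = q) (hpq : p * q = q)
    (hth : q.map th = p) (hv : ∀ n, ∀ᶠ x in q, Var n x) {K : WW → Prop} (hK : ∀ᶠ y in q, K y) :
    ∃ w : ℕ → WW, (∀ n, Var 0 (w n)) ∧ (∀ n, ∀ i ∈ (w n).A, ∀ j ∈ (w (n + 1)).A, i < j) ∧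
      ∀ x : WW, x.V.Nonempty → x.V ⊆ x.A → K (pev w x) := by
  classical
  obtain ⟨s, w, hs0, hs⟩ := exists_states (α := Finset WW × ℕ) (β := WW)
    (fun a => ∀ z ∈ a.1, Gd p q K z) (fun a b => Var a.2 b)
    (fun a b => (stepS a.1 b, b.A.sup id + 1)) (∅, 0) (by simp)
    (fun a ha => exists_next hpp hqq hqp hpq hth hv hK a.2 a.1 ha)
  have hvar : ∀ n, Var 0 (w n) := fun n =>
    ⟨(hs n).2.1.1, (hs n).2.1.2.1, fun i _ => Nat.zero_le i⟩
  have hblk : ∀ n, ∀ i ∈ (w n).A, ∀ j ∈ (w (n + 1)).A, i < j := by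
    intro n i hi j hj
    have h1 := (hs (n + 1)).2.1.2.2 j hj
    rw [(hs n).2.2] at h1
    have h2 : i ≤ (w n).A.sup id := Finset.le_sup (f := id) hi
    simp only at h1
    omega
  refine ⟨w, hvar, hblk, ?_⟩
  have key : ∀ n, ∀ x : WW, x.V ⊆ x.A → x.A.Nonempty → x.A ⊆ Finset.range n →
      pev w x ∈ (s n).1 := by
    intro n
    induction n with
    | zero =>
      intro x _ hx hx2
      rw [Finset.range_zero, Finset.subset_empty] at hx2
      exact absurd hx (by simp [hx2])
    | succ n ih =>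
      intro x hVA hx hx2
      rw [(hs n).2.2]
      simp only
      unfold stepS
      simp only [Finset.mem_union, Finset.mem_insert, Finset.mem_singleton, Finset.mem_image]
      by_cases hn : n ∈ x.A
      · let x' : WW := ⟨x.A.erase n, x.V.erase n⟩
        have hx'VA : x'.V ⊆ x'.A := Finset.erase_subset_erase n hVA
        have hx'r : x'.A ⊆ Finset.range n := by
          intro i hi
          have h1 := Finset.mem_of_mem_erase hi
          have h2 := Finset.mem_range.1 (hx2 h1)
          have h3 := Finset.ne_of_mem_erase hi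
          rw [Finset.mem_range]
          omega
        have eA : (pev w x).A = (pev w x').A ∪ (w n).A := by
          change x.A.biUnion _ = (x.A.erase n).biUnion _ ∪ _
          conv_lhs => rw [← Finset.insert_erase hn]
          rw [Finset.biUnion_insert, Finset.union_comm]
        by_cases hV : n ∈ x.V
        · have eV : (pev w x).V = (pev w x').V ∪ (w n).V := by
            change x.V.biUnion _ = (x.V.erase n).biUnion _ ∪ _
            conv_lhs => rw [← Finset.insert_erase hV]
            rw [Finset.biUnion_insert, Finset.union_comm]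
          by_cases hx'0 : x'.A.Nonempty
          · right; right; left
            exact ⟨pev w x', ih x' hx'VA hx'0 hx'r, (ext' eA eV).symm⟩
          · right; left; left
            rw [Finset.not_nonempty_iff_eq_empty] at hx'0
            have hx'V : x'.V = ∅ := Finset.subset_empty.1 (hx'0 ▸ hx'VA)
            refine ext' ?_ ?_
            · rw [eA]; simp [pev, hx'0]
            · rw [eV]; simp [pev, hx'V]
        · have eV : (pev w x).V = (pev w x').V := by
            change x.V.biUnion _ = (x.V.erase n).biUnion _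
            rw [Finset.erase_eq_of_notMem hV]
          by_cases hx'0 : x'.A.Nonempty
          · right; right; right
            refine ⟨pev w x', ih x' hx'VA hx'0 hx'r, (ext' eA ?_).symm⟩
            rw [eV]; simp
          · right; left; right
            rw [Finset.not_nonempty_iff_eq_empty] at hx'0
            have hx'V : x'.V = ∅ := Finset.subset_empty.1 (hx'0 ▸ hx'VA)
            refine ext' ?_ ?_
            · rw [eA]; simp [pev, hx'0]
            · rw [eV]; simp [pev, hx'V]
      · left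
        refine ih x hVA hx ?_
        intro i hi
        have h2 := Finset.mem_range.1 (hx2 hi)
        have h3 : i ≠ n := fun e => hn (e ▸ hi)
        rw [Finset.mem_range]
        omega
  intro x hx1 hx2
  have hA : x.A.Nonempty := hx1.mono hx2
  have h1 := key (x.A.sup id + 1) x hx2 hA (by
    intro i hi
    rw [Finset.mem_range]
    have := Finset.le_sup (f := id) hi
    simp only [id] at this
    omega)
  have h2 := (hs _).1 _ h1
  refine (h2.2 ?_).1
  obtain ⟨i, hi⟩ := hx1
  obtain ⟨k, hk⟩ := (hvar i).1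
  exact ⟨k, Finset.mem_biUnion.2 ⟨i, hi, hk⟩⟩

/-- **Pigeonhole principle.** -/
theorem pigeonhole (K : WW → Prop) : ∃ w : ℕ → WW, (∀ n, Var 0 (w n)) ∧
    (∀ n, ∀ i ∈ (w n).A, ∀ j ∈ (w (n + 1)).A, i < j) ∧
    ((∀ x : WW, x.V.Nonempty → x.V ⊆ x.A → K (pev w x)) ∨
      ∀ x : WW, x.V.Nonempty → x.V ⊆ x.A → ¬ K (pev w x)) := by
  obtain ⟨p, q, hpp, hqq, hqp, hpq, hth, hv⟩ := exists_pq
  by_cases hK : ∀ᶠ y in q, K y
  · obtain ⟨w, h1, h2, h3⟩ := exists_seq_of_large hpp hqq hqp hpq hth hv hK
    exact ⟨w, h1, h2, Or.inl h3⟩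
  · rw [← Ultrafilter.eventually_not] at hK
    obtain ⟨w, h1, h2, h3⟩ := exists_seq_of_large hpp hqq hqp hpq hth hv hK
    exact ⟨w, h1, h2, Or.inr h3⟩

end Pool.Agent.SLV
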