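import Pool.Agent.SLV.T2

/-!
# SLV: `uv x p` is in `Gen C x` (`T_UVG`) (helper2)
-/

set_option autoImplicit false

namespace SLV

theorem p_UVG (h_M3 : T_M3) : T_UVG := by
  intro B _ C hC x p
  have hG : CSub (Gen C x) := csub_gen C x
  have hw : InC (Gen C x) p.w := fun n a => subset_gen C x (p.hw.1 n a)
  have hx : InC (Gen C x) x := fun n a => mem_gen C x n a
  have h : DecIn (Gen C x) fun u => Nb p.t (p.w.pt u) (x.pt u) :=
    decIn_mes2 hG hw hx (h_M3.2.2.1 p.t)
  exact hG.inf (subset_gen C x p.hc) h.eq_bval.1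

end SLV
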