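import Pool.Agent.SLV.T1

/-!
# MP_0a8ab4_lc, project SLV: the special reduction (helper50)
-/

set_option autoImplicit false

namespace SLV

namespace V2_

/-- the patterns of the special reduction -/
def P (n : ℕ) : Wd :=
  if n % 2 = 0 then ⟨{3 * (n / 2)}, {3 * (n / 2)}, subset_rfl, by simp⟩
  else ⟨{3 * (n / 2) + 1, 3 * (n / 2) + 2}, {3 * (n / 2) + 2}, by simp, by simp⟩

theorem eq (x : ℕ → Wd) (n : ℕ) : zz x n = act x (P n) := by
  unfold zz P
  split_ifs with h
  · ext k <;> simp [act]
  · rfl

theorem blk : Blk P := by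
  intro n i hi j hj
  unfold P at hi hj
  rcases Nat.mod_two_eq_zero_or_one n with h | h
  · have h' : ¬ (n + 1) % 2 = 0 := by omega
    simp only [h, h', if_true, if_false, Finset.mem_singleton, Finset.mem_insert] at hi hj
    omega
  · have h' : (n + 1) % 2 = 0 := by omega
    have h'' : ¬ n % 2 = 0 := by omega
    simp only [h', h'', if_true, if_false, Finset.mem_singleton, Finset.mem_insert] at hi hj
    omega

end V2_

theorem p_V2 (h_W2 : T_W2) : T_V2 := by
  intro x hx
  have h : zz x = fun n => act x (V2_.P n) := funext (V2_.eq x)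
  refine ⟨?_, fun n => ⟨V2_.P n, (V2_.eq x n).symm⟩⟩
  rw [h]
  exact (h_W2 x hx).2.2 _ V2_.blk

end SLV
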